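import Pool.Agent.H.MP_f5ceca_al.G.A4

/-!
Job A5: the combined operator `theta` (a linear combination of operators `opw`).
-/

namespace Pool.Agent.H.MP_f5ceca_al.G

universe u v w

variable {K : Type u} [Field K] {n : ℕ}

theorem theta_lin (K : Type u) [Field K] {A : Type v} [Ring A] [Algebra K A] (m M : ℕ)
    (cc : ℕ → ℕ → K) (z : A) {σ : Type w} (y : σ → A) :
    ∃ f : FreeAlgebra K σ →ₗ[K] A, ∀ h, theta K m M cc z y h = f h := by
  refine ⟨∑ s ∈ Finset.Icc 1 m, (-1 : K) ^ (s + 1) • ∑ j ∈ Finset.range (m + 1),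
    cc s j • ((evz K z).comp
      (sbst K M z (gg M z (2 * m.factorial / s - 1) 1 0) (j : K) y).toLinearMap), fun h => ?_⟩
  unfold theta
  rw [LinearMap.sum_apply]
  refine Finset.sum_congr rfl fun s _ => ?_
  rw [LinearMap.smul_apply, LinearMap.sum_apply]
  congr 1

theorem theta_layer [Infinite K] {k : ℕ} (m M : ℕ) (cc : ℕ → ℕ → K) (z : FA K n)
    (c : Fin k → Fin n × Fin n) (v : RR K n k) :
    theta K m M cc z (xx K) (Lam c v) - Lam c (thS k m M cc z * v) ∈ Fil K n (k + 1) := by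
  unfold theta thS
  rw [Finset.sum_mul, map_sum, ← Finset.sum_sub_distrib]
  refine Submodule.sum_mem _ fun s _ => ?_
  rw [smul_mul_assoc, map_smul, ← smul_sub, Finset.sum_mul, map_sum, ← Finset.sum_sub_distrib]
  refine Submodule.smul_mem _ _ (Submodule.sum_mem _ fun j _ => ?_)
  rw [smul_mul_assoc, map_smul, ← smul_sub]
  exact Submodule.smul_mem _ _ (opw_layer M z _ 1 0 (j : K) c v)

theorem theta_Fil [Infinite K] {k : ℕ} (m M : ℕ) (cc : ℕ → ℕ → K) (z : FA K n)
    {h : FA K n} (hh : h ∈ Fil K n k) : theta K m M cc z (xx K) h ∈ Fil K n k := by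
  unfold theta
  refine Submodule.sum_mem _ fun s _ => ?_
  refine Submodule.smul_mem _ _ (Submodule.sum_mem _ fun j _ => ?_)
  exact Submodule.smul_mem _ _ (opw_Fil M z _ 1 0 (j : K) hh)

theorem theta_T [Infinite K] {T : Submodule K (FA K n)} (htsi : IsTSI T)
    (hsub : ∀ f : FA K n →ₐ[K] FA K n,
      (∀ j, FreeAlgebra.algebraMapInv (f (xx K j)) = 0) → ∀ h ∈ T, f h ∈ T)
    (m M : ℕ) (cc : ℕ → ℕ → K) (z : FA K n) {h : FA K n} (hh : h ∈ T) :
    theta K m M cc z (xx K) h ∈ T := by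
  unfold theta
  refine Submodule.sum_mem _ fun s _ => ?_
  refine Submodule.smul_mem _ _ (Submodule.sum_mem _ fun j _ => ?_)
  exact Submodule.smul_mem _ _ (opw_T htsi hsub M z _ 1 0 (j : K) hh)

end Pool.Agent.H.MP_f5ceca_al.G
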