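import Pool.Agent.H.MP_f5ceca_al.G.C1
import Pool.Agent.H.MP_f5ceca_al.G.A5

/-!
Job C2: closure of `Isharp` under `theta` from the two identities modulo `T`.

Proof. `theta` is linear (`theta_lin`). `Isharp N T I = T ⊔ tspan (...)`, and `tspan` is the span of
the elements `u * g * v`, `g = Pi1 K N (xx K j) a i` or `g = Pi1 K N (xx K j) i a`, `i ∈ I`. For
`h ∈ T` use `hTt`; for `u * g * v` use `h1`/`h2` and `theta_vh1`/`theta_vh2`.
-/

namespace Pool.Agent.H.MP_f5ceca_al.G

universe u v w

variable {K : Type u} [Field K] {n : ℕ}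

theorem clos_of {m M N : ℕ} (hNM : N ≤ M) (cc : ℕ → ℕ → K)
    {T : Submodule K (FA K n)} (hT : IsTSI T)
    (hTt : ∀ h ∈ T, ∀ l : Fin n, theta K m M cc (xx K l) (xx K) h ∈ T)
    (h1 : ∀ (u : FA K n) (j : Fin n) (a v i : FA K n) (l : Fin n),
      theta K m M cc (xx K l) (xx K) (u * Pi1 K N (xx K j) a i * v)
        - theta K m M cc (xx K l) (yy i) (vh1 N u j a v) ∈ T)
    (h2 : ∀ (u : FA K n) (j : Fin n) (a v i : FA K n) (l : Fin n),
      theta K m M cc (xx K l) (xx K) (u * Pi1 K N (xx K j) i a * v)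
        - theta K m M cc (xx K l) (yy i) (vh2 N u j a v) ∈ T)
    {I : Submodule K (FA K n)} (hI : IsTSI I) {V : FA K n}
    (hV : V ∈ Isharp N T I) (l : Fin n) :
    theta K m M cc (xx K l) (xx K) V ∈ Isharp N T I := by
  obtain ⟨f, hf⟩ := theta_lin K m M cc (xx K l) (xx K)
  have hTI : T ≤ Isharp N T I := le_sup_left
  have hle : Isharp N T I ≤ (Isharp N T I).comap f := by
    conv_lhs => unfold Isharp
    refine sup_le ?_ ?_
    · intro h hh
      rw [Submodule.mem_comap, ← hf]
      exact hTI (hTt h hh l)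
    · unfold tspan
      rw [Submodule.span_le]
      rintro x ⟨u, v, g, hg, rfl⟩
      rw [SetLike.mem_coe, Submodule.mem_comap, ← hf]
      rcases hg with ⟨j, a, i, hi, rfl⟩ | ⟨j, a, i, hi, rfl⟩
      · have e1 := hTI (h1 u j a v i l)
        have e2 := theta_vh1 (m := m) hNM cc hT hI u j a v i hi l
        have e3 := Submodule.add_mem _ e1 e2
        rwa [sub_add_cancel] at e3
      · have e1 := hTI (h2 u j a v i l)
        have e2 := theta_vh2 (m := m) hNM cc hT hI u j a v i hi l
        have e3 := Submodule.add_mem _ e1 e2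
        rwa [sub_add_cancel] at e3
  have h3 := hle hV
  rwa [Submodule.mem_comap, ← hf] at h3

end Pool.Agent.H.MP_f5ceca_al.G
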