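import Pool.Agent.H.MP_f5ceca_al.G.B6
import Pool.Agent.H.MP_f5ceca_al.G.C2

/-!
Job B7: the ideal of identities is good.

`M = N = 2 * finrank + 1`, `cc` from `extr_exists K m`, `T = idt K J n`.
* `nil`: the value of `NW b c` is a product with `m` commutators (`CNil`).
* `subs`: if all `f (xx K j)` have constant term zero, then `lift y (f (xx K j)) ∈ J` for `y` with
  values in `J` (for every `h : FA K n`: `lift y h - algebraMap (algebraMapInv h) ∈ J`, by
  `FreeAlgebra.induction`, using that `J` is an ideal), and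
  `lift y (f h) = lift (fun j => lift y (f (xx K j))) h`.
* `erel`: `Erel_map` and `Erel_zero`, `lift y (zz j j' t) = y j + t • y j' ∈ J`
  (`J` is an `E`-subspace; the natural number `t` acts through `E`).
* `clos`: `clos_of`; `hTt` from `theta_T`; `h1`, `h2` from `theta_eq1`, `theta_eq2` with `theta_map` for
  the homomorphism `lift K y : FA K n →ₐ[K] B`: `lift y (theta K m M cc (xx K l) (yy i) V^) =
  theta K m M cc (y l) (fun o => lift y (yy i o)) V^` and
  `fun o => lift y (yy i o) = fun o => o.elim (lift y i) y`.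
-/

namespace Pool.Agent.H.MP_f5ceca_al.G

universe u v w

/-- The ideal of identities of the pair `(B, J)`. -/
def idt (K : Type u) [Field K] {B : Type v} [Ring B] [Algebra K B] (J : Set B) (n : ℕ) :
    Submodule K (FA K n) where
  carrier := {h | ∀ y : Fin n → B, (∀ j, y j ∈ J) → FreeAlgebra.lift K y h = 0}
  add_mem' := by
    intro a b ha hb y hy
    simp [ha y hy, hb y hy]
  zero_mem' := by
    intro y hy
    simp
  smul_mem' := by
    intro c x hx y hy
    simp [hx y hy]

theorem b7_lift_ι {K : Type u} [Field K] {B : Type v} [Ring B] [Algebra K B] {n : ℕ}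
    (y : Fin n → B) (j : Fin n) : FreeAlgebra.lift K y (xx K j) = y j :=
  FreeAlgebra.lift_ι_apply y j

theorem b7_lift_comp {K : Type u} [Field K] {B : Type v} [Ring B] [Algebra K B] {n : ℕ}
    (y : Fin n → B) (f : FA K n →ₐ[K] FA K n) (h : FA K n) :
    FreeAlgebra.lift K y (f h) =
      FreeAlgebra.lift K (fun j => FreeAlgebra.lift K y (f (xx K j))) h := by
  have h1 : (FreeAlgebra.lift K y).comp f =
      FreeAlgebra.lift K (fun j => FreeAlgebra.lift K y (f (xx K j))) := by
    apply FreeAlgebra.hom_ext
    funext j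
    simp
  exact DFunLike.congr_fun h1 h

/-- the value is the constant term modulo the ideal -/
theorem b7_const {K : Type u} [Field K] {B : Type v} [Ring B] [Algebra K B] {J : Set B}
    (h0 : (0 : B) ∈ J) (hadd : ∀ a b, a ∈ J → b ∈ J → a + b ∈ J)
    (hJ : ∀ a u b : B, u ∈ J → a * u * b ∈ J) {n : ℕ} (y : Fin n → B) (hy : ∀ j, y j ∈ J)
    (h : FA K n) :
    FreeAlgebra.lift K y h - algebraMap K B (FreeAlgebra.algebraMapInv h) ∈ J := by
  induction h using FreeAlgebra.induction with
  | grade0 r =>
    have e1 : FreeAlgebra.lift K y (algebraMap K (FA K n) r) = algebraMap K B r :=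
      AlgHom.commutes _ r
    have e2 : FreeAlgebra.algebraMapInv (algebraMap K (FA K n) r) = r :=
      FreeAlgebra.algebraMap_leftInverse r
    rw [e1, e2, sub_self]
    exact h0
  | grade1 i =>
    have e2 : FreeAlgebra.algebraMapInv (FreeAlgebra.ι K i : FA K n) = (0 : K) := by
      simp [FreeAlgebra.algebraMapInv]
    rw [e2, map_zero, sub_zero, FreeAlgebra.lift_ι_apply]
    exact hy i
  | mul a b ha hb =>
    have h1 := hJ 1 _ (FreeAlgebra.lift K y b) ha
    have h2 := hJ (algebraMap K B (FreeAlgebra.algebraMapInv a)) _ 1 hb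
    have h3 := hadd _ _ h1 h2
    have e : FreeAlgebra.lift K y (a * b) -
        algebraMap K B (FreeAlgebra.algebraMapInv (a * b)) =
        1 * (FreeAlgebra.lift K y a - algebraMap K B (FreeAlgebra.algebraMapInv a)) *
          FreeAlgebra.lift K y b + algebraMap K B (FreeAlgebra.algebraMapInv a) *
          (FreeAlgebra.lift K y b - algebraMap K B (FreeAlgebra.algebraMapInv b)) * 1 := by
      rw [map_mul, map_mul, map_mul]
      noncomm_ring
    rw [e]
    exact h3
  | add a b ha hb =>
    have h3 := hadd _ _ ha hb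
    have e : FreeAlgebra.lift K y (a + b) -
        algebraMap K B (FreeAlgebra.algebraMapInv (a + b)) =
        (FreeAlgebra.lift K y a - algebraMap K B (FreeAlgebra.algebraMapInv a)) +
          (FreeAlgebra.lift K y b - algebraMap K B (FreeAlgebra.algebraMapInv b)) := by
      rw [map_add, map_add, map_add]
      abel
    rw [e]
    exact h3

/-- the value of a product with commutators -/
theorem b7_nil {K : Type u} [Field K] {B : Type v} [Ring B] [Algebra K B] {m : ℕ}
    (hn : CNil B m) {n : ℕ} (y : Fin n → B) (b : Fin (m + 1) → FA K n)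
    (c : Fin m → Fin n × Fin n) : FreeAlgebra.lift K y (NW b c) = 0 := by
  have h := hn (fun i => FreeAlgebra.lift K y (b i)) (fun i => y (c i).1) (fun i => y (c i).2)
  rw [← h, NW, map_mul, map_list_prod, List.map_ofFn]
  congr 3
  funext i
  simp [cm]

theorem good_of {K : Type u} [Field K] {E : Type u} [Field E] [IsAlgClosed E] {B : Type v}
    [Ring B] [Algebra E B] [FiniteDimensional E B] [Algebra K B]
    [CharZero K] [Algebra K E] [IsScalarTower K E B] {J : Submodule E B}
    (hJ : Alg E B J) {m : ℕ} (hm : 0 < m) (hn : CNil B m) (n : ℕ) :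
    ∃ (M N : ℕ) (cc : ℕ → ℕ → K), 0 < N ∧ Good m M N cc (idt K (J : Set B) n) := by
  obtain ⟨cc, hcc⟩ := extr_exists K m
  obtain ⟨M, hM⟩ : ∃ M, M = 2 * Module.finrank E B + 1 := ⟨_, rfl⟩
  have hM1 : 2 * Module.finrank E B ≤ M := by omega
  have hM0 : 0 < M := by omega
  have hc : ∀ (y : Fin n → B), (∀ j, y j ∈ (J : Set B)) → ∀ h : FA K n,
      FreeAlgebra.lift K y h - algebraMap K B (FreeAlgebra.algebraMapInv h) ∈ (J : Set B) :=
    fun y hy h => b7_const J.zero_mem (fun a b => J.add_mem) hJ.tsi y hy h
  have htsi : IsTSI (idt K (J : Set B) n) := by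
    intro a u b hu y hy
    rw [map_mul, map_mul, hu y hy, mul_zero, zero_mul]
  have hsub : ∀ f : FA K n →ₐ[K] FA K n,
      (∀ j, FreeAlgebra.algebraMapInv (f (xx K j)) = 0) → ∀ h ∈ idt K (J : Set B) n,
        f h ∈ idt K (J : Set B) n := by
    intro f hf h hh y hy
    rw [b7_lift_comp]
    refine hh _ fun j => ?_
    have h1 := hc y hy (f (xx K j))
    rw [hf j, map_zero, sub_zero] at h1
    exact h1
  refine ⟨M, M, cc, hM0, ⟨hcc, hM0, htsi, ?_, hsub, ?_, ?_⟩⟩
  · unfold Fil
    rw [Submodule.span_le]
    rintro x ⟨b, c, rfl⟩ y hy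
    exact b7_nil hn y b c
  · intro j a x b y hy
    rw [Erel_map]
    refine Erel_zero hJ ?_ hM1 _ _ _ _
    rw [b7_lift_ι]
    exact hy j
  · intro I hI hTI V hV j
    refine clos_of (le_refl M) cc htsi (fun h hh l => theta_T htsi hsub m M cc _ hh) ?_ ?_ hI hV j
    · intro u j' a v i l y hy
      have h1 := theta_eq1 hJ hn hcc hM1 hM1 y hy (hy l) u j' a v i
      rw [map_sub, theta_map, theta_map, sub_eq_zero, b7_lift_ι]
      have e1 : (fun j => FreeAlgebra.lift K y (xx K j)) = y := funext fun j => b7_lift_ι y j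
      have e2 : (fun o => FreeAlgebra.lift K y (yy i o)) =
          fun o : Option (Fin n) => o.elim (FreeAlgebra.lift K y i) y := by
        funext o
        cases o with
        | none => rfl
        | some o => exact b7_lift_ι y o
      rw [e1, e2]
      exact h1
    · intro u j' a v i l y hy
      have h1 := theta_eq2 hJ hn hcc hM1 hM1 y hy (hy l) u j' a v i
      rw [map_sub, theta_map, theta_map, sub_eq_zero, b7_lift_ι]
      have e1 : (fun j => FreeAlgebra.lift K y (xx K j)) = y := funext fun j => b7_lift_ι y j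
      have e2 : (fun o => FreeAlgebra.lift K y (yy i o)) =
          fun o : Option (Fin n) => o.elim (FreeAlgebra.lift K y i) y := by
        funext o
        cases o with
        | none => rfl
        | some o => exact b7_lift_ι y o
      rw [e1, e2]
      exact h1

end Pool.Agent.H.MP_f5ceca_al.G
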