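import Pool.Agent.H.MP_f5ceca_al.G.Defs
import Pool.Agent.H.MP_f5ceca_al.Conv.Cone

/-!
Definitions for the maps of the layers.
-/

namespace Pool.Agent.H.MP_f5ceca_al.G

open Pool.Agent.H.MP_f5ceca_al.Conv

universe u v w

variable {K : Type u} [Field K] {n : ℕ}

/-- A word as an element. -/
noncomputable def wd (K : Type u) [Field K] {σ : Type} (l : List σ) : FreeAlgebra K σ :=
  (l.map (FreeAlgebra.ι K)).prod

/-- Powers of the operators `theta` for the letters, in a fixed order. -/
noncomputable def ThY (m M : ℕ) (cc : ℕ → ℕ → K) (y : Fin n → ℕ) (h : FA K n) : FA K n :=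
  (List.finRange n).foldr (fun j x => (theta K m M cc (xx K j) (xx K))^[y j] x) h

/-- The image of a monomial `(i, x, y)` for given elements `g i`. -/
noncomputable def chm (m M : ℕ) (cc : ℕ → ℕ → K) {t : ℕ} (g : Fin t → FA K n)
    (a : Mon t (n + n) n) : FA K n :=
  srt (fun j => a.2.1 (Fin.castAdd n j)) * ThY m M cc a.2.2 (g a.1) *
    srt (fun j => a.2.1 (Fin.natAdd n j))

/-- The map of the layer. -/
noncomputable def chi (m M : ℕ) (cc : ℕ → ℕ → K) {t : ℕ} (g : Fin t → FA K n) :
    (Mon t (n + n) n →₀ K) →ₗ[K] FA K n :=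
  Finsupp.linearCombination K (chm m M cc g)

end Pool.Agent.H.MP_f5ceca_al.G
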