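import Pool.Agent.H.MP_f5ceca_al.G.J5
import Pool.Agent.H.MP_f5ceca_al.Final

/-!
The dichotomy for nonmatrix varieties (under the representability hypothesis).
-/

namespace Pool.Agent.H.MP_f5ceca_al.G

open Pool.Agent.H.MP_f5ceca_al.Conv

universe u v w

/-- A nonempty word in the letters `0, …, k - 1`: the first letter and the list of the others. -/
abbrev Word (k : ℕ) : Type := Fin k × List (Fin k)

/-- The monomial given by a nonempty word. -/
noncomputable def monomial (K : Type u) [Field K] {k : ℕ} (w : Word k) : FreeAlgebra K (Fin k) :=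
  FreeAlgebra.ι K w.1 * (w.2.map (FreeAlgebra.ι K)).prod

/-- The element given by a code over a coded field. -/
noncomputable def value {K : Type u} [Field K] (c : ℕ → K) {k : ℕ} (P : List (ℕ × Word k)) :
    FreeAlgebra K (Fin k) :=
  (P.map fun p => c p.1 • monomial K p.2).sum

/-- The word problem is decidable in the variety given by `S`. -/
def WPD {K : Type u} [Field K] (c : ℕ → K) (S : Set (FreeAlgebra K ℕ)) : Prop :=
  ∀ (k : ℕ) (R : List (List (ℕ × Word k))), ComputablePred fun P : List (ℕ × Word k) =>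
    value c P ∈ TwoSidedIdeal.span (identities S k ∪ {g | ∃ r ∈ R, value c r = g})

/-- Codes with integer coefficients as codes over the coded field. -/
theorem code_transfer {K : Type u} [Field K] (κ : CField K) (k : ℕ) :
    ∃ F : Pool.Agent.H.MP_7596fa_lc.Cd (Fin k) → List (ℕ × Word k), Computable F ∧
      ∀ P, value κ.c (F P) = Pool.Agent.H.MP_7596fa_lc.codeVal K P := by
  obtain ⟨c1, h1⟩ := κ.surj 1
  obtain ⟨c2, h2⟩ := κ.surj (-1)
  refine ⟨fun P => P.1.map (fun w => (c1, w)) ++ P.2.map (fun w => (c2, w)), ?_, ?_⟩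
  · refine Computable.list_append.comp ?_ ?_
    · exact comp_map (f := fun P : Pool.Agent.H.MP_7596fa_lc.Cd (Fin k) => P.1)
        (g := fun _ w => (c1, w)) Computable.fst
        (Computable.pair (Computable.const _) Computable.snd)
    · exact comp_map (f := fun P : Pool.Agent.H.MP_7596fa_lc.Cd (Fin k) => P.2)
        (g := fun _ w => (c2, w)) Computable.snd
        (Computable.pair (Computable.const _) Computable.snd)
  · intro P
    unfold value Pool.Agent.H.MP_7596fa_lc.codeVal
    rw [List.map_append, List.sum_append, List.map_map, List.map_map, sub_eq_add_neg]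
    congr 1
    · congr 1
      apply List.map_congr_left
      intro w _
      simp [h1, monomial, Pool.Agent.H.MP_7596fa_lc.wordVal]
    · induction P.2 with
      | nil => simp
      | cons w l ih =>
        rw [List.map_cons, List.sum_cons, ih, List.map_cons, List.sum_cons, neg_add]
        simp [h2, monomial, Pool.Agent.H.MP_7596fa_lc.wordVal]

theorem not_wpd_of_includesW {K : Type u} [Field K] [CharZero K] (κ : CField K)
    {S : Set (FreeAlgebra K ℕ)} (hS : IncludesW S) : ¬ WPD κ.c S := by
  intro h
  obtain ⟨k, R, hR⟩ := Pool.Agent.H.MP_f5ceca_al.master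
  obtain ⟨F, hF, hFv⟩ := code_transfer κ k
  refine hR K (identities S k) (fun A _ _ _ _ h1 h2 g hg v => hg A (hS A ⟨h1, h2⟩) v) ?_
  have h1 := h k (R.map F)
  have h2 := cp_comp h1 hF
  refine h2.of_eq fun P => ?_
  rw [hFv]
  have : {g | ∃ r ∈ R.map F, value κ.c r = g} =
      {g | ∃ r ∈ R, Pool.Agent.H.MP_7596fa_lc.codeVal K r = g} := by
    ext g
    constructor
    · rintro ⟨r, hr, rfl⟩
      obtain ⟨r', hr', rfl⟩ := List.mem_map.1 hr
      exact ⟨r', hr', (hFv r').symm⟩
    · rintro ⟨r, hr, rfl⟩
      exact ⟨F r, List.mem_map.2 ⟨r, hr, rfl⟩, hFv r⟩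
  rw [this]

theorem wpd_of_dec {K : Type u} [Field K] (κ : CField K) {S : Set (FreeAlgebra K ℕ)}
    (h : ∀ (k : ℕ) (R : Set (FA K k)), R.Finite →
      ComputablePred fun P : List (ℕ × List (Fin k)) =>
        κ.ev (wd K) P ∈ TwoSidedIdeal.span (identities S k ∪ R)) : WPD κ.c S := by
  intro k R
  have hfin : {g | ∃ r ∈ R, value κ.c r = g}.Finite :=
    ((List.finite_toSet R).image (value κ.c)).subset fun g hg => hg
  have h1 := h k _ hfin
  have hF : Computable fun P : List (ℕ × Word k) => P.map fun p => (p.1, p.2.1 :: p.2.2) :=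
    comp_map (f := fun P : List (ℕ × Word k) => P) (g := fun _ p => (p.1, p.2.1 :: p.2.2))
      Computable.id (Computable.pair (Computable.fst.comp Computable.snd)
        (Computable.list_cons.comp
          (Computable.fst.comp (Computable.snd.comp Computable.snd))
          (Computable.snd.comp (Computable.snd.comp Computable.snd))))
  refine (cp_comp h1 hF).of_eq fun P => ?_
  have : κ.ev (wd K) (P.map fun p => (p.1, p.2.1 :: p.2.2)) = value κ.c P := by
    unfold value CField.ev
    rw [List.map_map]
    rfl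
  rw [this]

/-- If some identity has a nonzero constant term then no algebra satisfies `S`. -/
theorem identities_eq_univ {K : Type u} [Field K] {S : Set (FreeAlgebra K ℕ)}
    (hS : ¬ ∀ f ∈ S, FreeAlgebra.algebraMapInv f = 0) (k : ℕ) : identities S k = Set.univ := by
  rw [Set.eq_univ_iff_forall]
  intro f A _ _ _ _ hA
  exfalso
  apply hS
  intro g hg
  have h1 := hA g hg (fun _ => 0)
  have h2 := lift_fst g (fun _ => (0 : A))
  rw [h1] at h2
  simpa using h2.symm

theorem not_includesW_of_const {K : Type u} [Field K] {S : Set (FreeAlgebra K ℕ)}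
    (hS : ¬ ∀ f ∈ S, FreeAlgebra.algebraMapInv f = 0) : ¬ IncludesW S := by
  intro h
  apply hS
  intro g hg
  have h1 := h (PUnit.{u + 1}) ⟨fun _ _ _ _ _ _ => rfl, fun _ _ _ _ _ => rfl⟩ g hg
    (fun _ => PUnit.unit)
  have h2 := lift_fst g (fun _ => PUnit.unit)
  rw [h1] at h2
  simpa using h2.symm

/-- An identity which fails in the matrix algebra. -/
theorem fails_of_not_satisfies {K : Type u} [Field K] {S : Set (FreeAlgebra K ℕ)}
    (hS0 : ∀ f ∈ S, FreeAlgebra.algebraMapInv f = 0)
    (hS : ¬ Satisfies S (Matrix (Fin 2) (Fin 2) K)) :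
    ∃ f ∈ S, ∃ y : ℕ → Matrix (Fin 2) (Fin 2) K, FreeAlgebra.lift K y f ≠ 0 := by
  by_contra hc
  push Not at hc
  apply hS
  intro f hf v
  have h1 := lift_fst f v
  rw [hS0 f hf] at h1
  set z := FreeAlgebra.lift K
    (fun i => ((v i : Matrix (Fin 2) (Fin 2) K) : Unitization K (Matrix (Fin 2) (Fin 2) K))) f
    with hz
  have h2 : Unitization.lift (NonUnitalAlgHom.id K (Matrix (Fin 2) (Fin 2) K)) z = 0 := by
    have h3 : (Unitization.lift (NonUnitalAlgHom.id K (Matrix (Fin 2) (Fin 2) K))).comp
        (FreeAlgebra.lift K (fun i =>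
          ((v i : Matrix (Fin 2) (Fin 2) K) : Unitization K (Matrix (Fin 2) (Fin 2) K)))) =
        FreeAlgebra.lift K v := by
      apply FreeAlgebra.hom_ext
      funext i
      simp
    have h4 := DFunLike.congr_fun h3 f
    rw [hc f hf v] at h4
    exact h4
  have h3 : z = ((z.snd : Matrix (Fin 2) (Fin 2) K) : Unitization K _) := by
    apply Unitization.ext
    · rw [h1]; simp
    · simp
  rw [h3] at h2
  have h4 : z.snd = 0 := by simpa using h2
  rw [h3, h4]
  simp

/-- The dichotomy for nonmatrix varieties, under the representability hypothesis. -/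
theorem dichotomy {K : Type u} [Field K] [CharZero K] (κ : CField K)
    (S : Set (FreeAlgebra K ℕ)) (hS : ¬ Satisfies S (Matrix (Fin 2) (Fin 2) K))
    (hrep : (∀ f ∈ S, FreeAlgebra.algebraMapInv f = 0) → ∀ k, LocRep S k) :
    WPD κ.c S ↔ ¬ IncludesW S := by
  constructor
  · intro h hW
    exact not_wpd_of_includesW κ hW h
  · intro hW
    apply wpd_of_dec
    intro k R hR
    by_cases hS0 : ∀ f ∈ S, FreeAlgebra.algebraMapInv f = 0
    · exact dec_of_locrep κ hW (fails_of_not_satisfies hS0 hS) (hrep hS0 k) hR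
    · rw [identities_eq_univ hS0, Set.univ_union]
      refine (ComputablePred.computable_iff.2
        ⟨fun _ => true, Computable.const _, rfl⟩).of_eq fun P => ?_
      refine ⟨fun _ => TwoSidedIdeal.subset_span (Set.mem_univ _), fun _ => rfl⟩

end Pool.Agent.H.MP_f5ceca_al.G
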