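import Pool.Agent.H.MP_f5ceca_al.G.J0

/-!
Job J1: if `f` vanishes on an ideal `J` with an idempotent `e` for which `Star` fails, then
the coefficients of `f` satisfy `WCond`.

Proof. `Star` fails: there are `a0 b0 c0 d0` with
`a' (c' d' - d' c') b' ≠ 0`, `a' = (1 - e) a0 e`, `b' = e b0 (1 - e)`, `c' = e c0 e`, `d' = e d0 e`; these
elements are in `J` (it is an ideal containing `e`). For `α`, `β` let
`f_αβ = ∑_m cf f (α :: (m ++ [β])) • (word m)`, so `f = cf f [] + ∑_x cf f [x] x + ∑_{α,β} x_α f_αβ x_β`
(finite sums).
Step 0: `f` at `y = 0` gives `cf f [] = 0` (`B` is nontrivial). `f` at `y_l = τ_l e`, `τ : X → K`: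
`∑_w cf f w τ^w e = 0` (over nonempty words), `e ≠ 0`, so the polynomial `∑_w cf f w X^w` in
`MvPolynomial X K` vanishes at all points, and is zero by `MvPolynomial.funext` (`K` infinite); its
coefficient at `X_x` is `cf f [x]`.
Step 1: for all `u : X → B` with `u l ∈ J`, `e * u l = u l = u l * e`, and all
`a1 = (1 - e) a1 e`, `b1 = e b1 (1 - e)` in `J`: `a1 * f_αβ(u) * b1 = 0`. Take
`y_l = u_l + s ([l = α] a1 + [l = β] b1)`, `s ∈ K`: `(1 - e) f(y) (1 - e) = s^2 a1 f_αβ(y) b1`
(the first letter must be `α`, with value `s a1`, as `(1 - e) u = 0`, `(1 - e) b1 = 0`, similarly the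
last one, and `cf f [] = 0`, `cf f [x] = 0`). So the polynomial `a1 f_αβ(u + s v) b1` in
`s`, multiplied by `s ^ 2`, vanishes for all `s`, so all its coefficients vanish (`vd` in A0, or
`coef_mem`), in particular its value at `s = 0`.
Step 2: for `i ≠ j` take `u_l = τ_l (e + [l = i] σ c' + [l = j] σ' d')`, `σ, σ' ∈ K`. The value of a word `m`
is `τ^m` times a polynomial in `σ, σ'` whose coefficient at `σ σ'` is
`prs i j m • c' d' + prs j i m • d' c'` and whose constant coefficient is `e` (`1` for the empty
word); the coefficients at `σ`, `σ'` are `count i m • c'`, `count j m • d'`: induction on `m`. With Step 1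
(`a1 = a'`, `b1 = b'`) and extraction of the coefficient of `σ σ'` (`coef_mem` with the zero
subspace): `∑_m cf f (α m β) τ^m (prs i j m • a' c' d' b' + prs j i m • a' d' c' b') = 0` for all `τ`, so for every
multiset `γ` the sum over the `m` with content `γ` vanishes (apply a linear functional `B → K` and
`MvPolynomial.funext`). Taking the constant coefficient with `a1 = a' (c' d' - d' c')` gives
`∑_{m ∼ γ} cf f (α m β) • a' (c' d' - d' c') b' = 0`, i.e. (c2). As
`prs i j m + prs j i m = count i m * count j m` (`i ≠ j`) only depends on `γ`, and with (c2), we get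
`(∑_{m ∼ γ} cf f (α m β) * prs i j m) • a' (c' d' - d' c') b' = 0`, i.e. (c3).
-/

namespace Pool.Agent.H.MP_f5ceca_al.G

universe u v w

variable {K : Type u} [Field K] {X : Type} [DecidableEq X]

omit [DecidableEq X] in
theorem j1_basis (l : List X) : FreeAlgebra.basisFreeMonoid K X (FreeMonoid.ofList l) =
    (l.map (FreeAlgebra.ι K)).prod := by
  have h1 : FreeAlgebra.basisFreeMonoid K X (FreeMonoid.ofList l) =
      MonoidAlgebra.lift K (FreeAlgebra K X) (FreeMonoid X) (FreeMonoid.lift (FreeAlgebra.ι K))
        (MonoidAlgebra.single (FreeMonoid.ofList l) 1) := by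
    unfold FreeAlgebra.basisFreeMonoid
    rw [Module.Basis.map_apply, Finsupp.coe_basisSingleOne]
    rfl
  rw [h1, MonoidAlgebra.lift_single, one_smul, FreeMonoid.lift_ofList]

/-- expansion in words -/
theorem eq_sum_cf (f : FreeAlgebra K X) : ∃ s : Finset (List X), (∀ l ∉ s, cf f l = 0) ∧
    f = ∑ l ∈ s, cf f l • (l.map (FreeAlgebra.ι K)).prod := by
  classical
  set r := (FreeAlgebra.basisFreeMonoid K X).repr f with hr
  refine ⟨r.support.image FreeMonoid.toList, ?_, ?_⟩
  · intro l hl
    by_contra h
    apply hl
    refine Finset.mem_image.2 ⟨FreeMonoid.ofList l, ?_, rfl⟩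
    rw [Finsupp.mem_support_iff]
    exact h
  · rw [Finset.sum_image (fun a _ b _ h => FreeMonoid.toList.injective h)]
    have h1 := (FreeAlgebra.basisFreeMonoid K X).linearCombination_repr f
    rw [Finsupp.linearCombination_apply, Finsupp.sum] at h1
    conv_lhs => rw [← h1]
    refine Finset.sum_congr rfl fun m _ => ?_
    have h2 := j1_basis (K := K) (FreeMonoid.toList m)
    rw [FreeMonoid.ofList_toList] at h2
    rw [h2]
    rfl

theorem prs_add {i j : X} (hij : i ≠ j) (m : List X) :
    prs i j m + prs j i m = m.count i * m.count j := by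
  induction m with
  | nil => simp [prs]
  | cons x l ih =>
    simp only [prs, List.count_cons]
    by_cases h1 : x = i
    · have h2 : ¬ x = j := fun h => hij (h1.symm.trans h)
      subst h1
      simp [h2]
      linarith
    · by_cases h2 : x = j
      · subst h2
        simp [h1]
        linarith
      · simp [h1, h2]
        linarith

theorem j1_mon (m : List X) : (m.map (MvPolynomial.X (R := K))).prod =
    MvPolynomial.monomial (Multiset.toFinsupp (m : Multiset X)) 1 := by
  induction m with
  | nil => simp
  | cons x l ih =>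
    rw [List.map_cons, List.prod_cons, ih, MvPolynomial.X, MvPolynomial.monomial_mul, mul_one]
    congr 1
    have h : ((x :: l : List X) : Multiset X) = {x} + (l : Multiset X) := rfl
    rw [h, Multiset.toFinsupp_add, Multiset.toFinsupp_singleton]

/-- extraction of the coefficients of a commutative monomial -/
theorem j1_mv [CharZero K] {W : Type w} [AddCommGroup W] [Module K W] (s : Finset (List X))
    (g : List X → W) (h : ∀ τ : X → K, ∑ m ∈ s, (m.map τ).prod • g m = 0) (γ : Multiset X) :
    ∑ m ∈ s.filter (fun m : List X => (m : Multiset X) = γ), g m = 0 := by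
  refine (Module.forall_dual_apply_eq_zero_iff K _).1 fun φ => ?_
  rw [map_sum]
  have hp : ∑ m ∈ s, MvPolynomial.C (φ (g m)) * (m.map (MvPolynomial.X (R := K))).prod = 0 := by
    refine MvPolynomial.funext fun τ => ?_
    have h1 := congrArg φ (h τ)
    rw [map_sum, map_zero] at h1
    rw [map_sum, map_zero, ← h1]
    refine Finset.sum_congr rfl fun m _ => ?_
    rw [map_mul, MvPolynomial.eval_C, map_list_prod, List.map_map, map_smul, smul_eq_mul,
      mul_comm]
    congr 2
    refine List.map_congr_left fun x _ => ?_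
    rw [Function.comp_apply, MvPolynomial.eval_X]
  have h2 := congrArg (MvPolynomial.coeff (Multiset.toFinsupp γ)) hp
  rw [MvPolynomial.coeff_sum, MvPolynomial.coeff_zero] at h2
  rw [Finset.sum_filter]
  refine Eq.trans ?_ h2
  refine Finset.sum_congr rfl fun m _ => ?_
  rw [j1_mon, MvPolynomial.coeff_C_mul, MvPolynomial.coeff_monomial]
  by_cases hm : (m : Multiset X) = γ
  · rw [if_pos hm, if_pos (by rw [hm]), mul_one]
  · rw [if_neg hm, if_neg (fun hh => hm (Multiset.toFinsupp.injective hh)), mul_zero]

/-- the sum over the lists with a given content -/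
theorem j1_lists {M : Type w} [AddCommMonoid M] (s : Finset (List X)) (g : List X → M)
    (hg : ∀ m ∉ s, g m = 0) (γ : Multiset X) :
    ∑ m ∈ s.filter (fun m : List X => (m : Multiset X) = γ), g m = ∑ m ∈ γ.lists.toFinset, g m := by
  have hmem : ∀ m : List X, m ∈ γ.lists.toFinset ↔ (m : Multiset X) = γ := by
    intro m
    rw [Multiset.mem_toFinset, Multiset.mem_lists_iff]
    exact eq_comm
  refine Finset.sum_subset ?_ ?_
  · intro m hm
    rw [Finset.mem_filter] at hm
    exact (hmem m).2 hm.2
  · intro m hm hm'
    refine hg m fun hms => hm' ?_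
    exact Finset.mem_filter.2 ⟨hms, (hmem m).1 hm⟩

omit [DecidableEq X] in
/-- evaluation of an element in words -/
theorem j1_lift {B : Type v} [Ring B] [Algebra K B] {f : FreeAlgebra K X}
    {s : Finset (List X)} (hs : f = ∑ l ∈ s, cf f l • (l.map (FreeAlgebra.ι K)).prod)
    (y : X → B) : FreeAlgebra.lift K y f = ∑ l ∈ s, cf f l • (l.map y).prod := by
  conv_lhs => rw [hs]
  rw [map_sum]
  refine Finset.sum_congr rfl fun l _ => ?_
  rw [map_smul, map_list_prod, List.map_map]
  congr 2
  refine List.map_congr_left fun x _ => ?_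
  rw [Function.comp_apply, FreeAlgebra.lift_ι_apply]

section
variable {B : Type v} [Ring B] [Algebra K B]

/-- the coefficients -/
noncomputable def j1_co (p s : ℕ) (P : P2 B) : B := (P.coeff s).coeff p

theorem j1_co_add (p s : ℕ) (P Q : P2 B) : j1_co p s (P + Q) = j1_co p s P + j1_co p s Q := by
  unfold j1_co
  rw [Polynomial.coeff_add, Polynomial.coeff_add]

theorem j1_co_smul (p s : ℕ) (c : K) (P : P2 B) : j1_co p s (c • P) = c • j1_co p s P := by
  unfold j1_co
  rw [Polynomial.coeff_smul, Polynomial.coeff_smul]

theorem j1_co_sum {ι : Type w} (p s : ℕ) (t : Finset ι) (F : ι → P2 B) :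
    j1_co p s (∑ i ∈ t, F i) = ∑ i ∈ t, j1_co p s (F i) := by
  unfold j1_co
  rw [Polynomial.finsetSum_coeff, Polynomial.finsetSum_coeff]

theorem j1_co_em_mul (p s : ℕ) (a : B) (P : P2 B) : j1_co p s (em a * P) = a * j1_co p s P := by
  unfold j1_co em
  rw [RingHom.comp_apply, Polynomial.coeff_C_mul, Polynomial.coeff_C_mul]

theorem j1_co_mul_em (p s : ℕ) (a : B) (P : P2 B) : j1_co p s (P * em a) = j1_co p s P * a := by
  unfold j1_co em
  rw [RingHom.comp_apply, Polynomial.coeff_mul_C, Polynomial.coeff_mul_C]

theorem j1_co_lv (p s : ℕ) (P : P2 B) : j1_co (p + 1) s (lv B * P) = j1_co p s P := by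
  unfold j1_co lv
  rw [Polynomial.coeff_C_mul, Polynomial.coeff_X_mul]

theorem j1_co_lv0 (s : ℕ) (P : P2 B) : j1_co 0 s (lv B * P) = 0 := by
  unfold j1_co lv
  rw [Polynomial.coeff_C_mul, Polynomial.mul_coeff_zero, Polynomial.coeff_X_zero, zero_mul]

theorem j1_co_rv (p s : ℕ) (P : P2 B) : j1_co p (s + 1) (rv B * P) = j1_co p s P := by
  unfold j1_co rv
  rw [Polynomial.coeff_X_mul]

theorem j1_co_rv0 (p : ℕ) (P : P2 B) : j1_co p 0 (rv B * P) = 0 := by
  unfold j1_co rv
  rw [Polynomial.mul_coeff_zero, Polynomial.coeff_X_zero, zero_mul, Polynomial.coeff_zero]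

theorem j1_co_em (a : B) : j1_co 0 0 (em a) = a := by
  unfold j1_co em
  rw [RingHom.comp_apply, Polynomial.coeff_C_zero, Polynomial.coeff_C_zero]

theorem j1_co_em' (p s : ℕ) (h : p ≠ 0 ∨ s ≠ 0) (a : B) : j1_co p s (em a) = 0 := by
  unfold j1_co em
  rw [RingHom.comp_apply]
  by_cases hs : s = 0
  · subst hs
    rw [Polynomial.coeff_C_zero, Polynomial.coeff_C_of_ne_zero (h.resolve_right (fun h => h rfl))]
  · rw [Polynomial.coeff_C_of_ne_zero hs, Polynomial.coeff_zero]

theorem j1_ext {P : P2 B} (h : ∀ p s, j1_co p s P = 0) : P = 0 := by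
  refine Polynomial.ext fun s => ?_
  rw [Polynomial.coeff_zero]
  refine Polynomial.ext fun p => ?_
  rw [Polynomial.coeff_zero]
  exact h p s

theorem j1_sev_poly (l r : K) (a b : B) :
    sev l r (em a + lv B * em b) = a + l • b := by
  rw [map_add, map_mul, sev_em, sev_em, sev_lv, Algebra.smul_def]

omit [DecidableEq X] in
/-- elimination of the factor `t ^ 2` -/
theorem j1_poly [CharZero K] (t : Finset (List X)) (c : List X → K) (a b : B) (u v : X → B)
    (h : ∀ l : K, (l * l) • ∑ m ∈ t, c m • (a * (m.map fun x => u x + l • v x).prod * b) = 0) :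
    ∑ m ∈ t, c m • (a * (m.map u).prod * b) = 0 := by
  set P : P2 B := ∑ m ∈ t, c m • (em a * (m.map fun x => em (u x) + lv B * em (v x)).prod * em b)
    with hP
  have hsev : ∀ l r : K, sev l r P =
      ∑ m ∈ t, c m • (a * (m.map fun x => u x + l • v x).prod * b) := by
    intro l r
    rw [hP, map_sum]
    refine Finset.sum_congr rfl fun m _ => ?_
    rw [sev_smul, map_mul, map_mul, sev_em, sev_em, map_list_prod, List.map_map]
    congr 4
    refine List.map_congr_left fun x _ => ?_
    rw [Function.comp_apply, j1_sev_poly]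
  have hz : ∀ l r : K, sev l r (lv B * (lv B * P)) ∈ (⊥ : Submodule K B) := by
    intro l r
    rw [map_mul, map_mul, sev_lv, ← Algebra.smul_def, ← Algebra.smul_def, smul_smul, hsev,
      Submodule.mem_bot]
    exact h l
  have hP0 : P = 0 := by
    refine j1_ext fun p s => ?_
    have h1 := coef_mem ⊥ (lv B * (lv B * P)) hz (p + 1 + 1) s
    rw [Submodule.mem_bot] at h1
    have h2 : j1_co (p + 1 + 1) s (lv B * (lv B * P)) = 0 := h1
    rw [j1_co_lv, j1_co_lv] at h2
    exact h2
  have h3 := hsev 0 0
  rw [hP0, map_zero] at h3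
  rw [h3]
  refine Finset.sum_congr rfl fun m _ => ?_
  congr 4
  refine List.map_congr_left fun x _ => ?_
  rw [zero_smul, add_zero]

omit [DecidableEq X] in
theorem j1_inj (α β : X) : Function.Injective fun m : List X => α :: (m ++ [β]) := by
  intro m m' h
  exact List.append_cancel_right (List.cons_injective h)

/-- the part `(1 - e) f (1 - e)` of the value of `f` -/
theorem j1_two {s : Finset (List X)} {c : List X → K} (h0 : c [] = 0) (h1 : ∀ x, c [x] = 0)
    {α β : X} (y : X → B) {p a1 b1 : B} {t : K}
    (hy1 : ∀ x, p * y x = if x = α then t • a1 else 0)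
    (hy2 : ∀ x, y x * p = if x = β then t • b1 else 0) :
    p * (∑ l ∈ s, c l • (l.map y).prod) * p =
      (t * t) • ∑ m ∈ s.preimage (fun m => α :: (m ++ [β])) (j1_inj α β).injOn,
        c (α :: (m ++ [β])) • (a1 * (m.map y).prod * b1) := by
  have hval : ∀ (x x' : X) (m : List X), p * (c (x :: (m ++ [x'])) •
      ((x :: (m ++ [x'])).map y).prod) * p =
      c (x :: (m ++ [x'])) • ((p * y x) * (m.map y).prod * (y x' * p)) := by
    intro x x' m
    rw [List.map_cons, List.map_append, List.map_singleton, List.prod_cons, List.prod_append,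
      List.prod_singleton, mul_smul_comm, smul_mul_assoc]
    congr 1
    noncomm_ring
  rw [Finset.mul_sum, Finset.sum_mul, Finset.smul_sum]
  rw [← Finset.sum_preimage (fun m => α :: (m ++ [β])) s (j1_inj α β).injOn
    (fun l => p * (c l • (l.map y).prod) * p) ?_]
  · refine Finset.sum_congr rfl fun m _ => ?_
    rw [hval, hy1, hy2, if_pos rfl, if_pos rfl]
    simp only [smul_mul_assoc, mul_smul_comm, smul_smul]
    congr 1
    ring
  · intro l _ hl
    rcases l with _ | ⟨x, l⟩
    · rw [h0, zero_smul, mul_zero, zero_mul]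
    rcases List.eq_nil_or_concat l with rfl | ⟨m, x', rfl⟩
    · rw [h1, zero_smul, mul_zero, zero_mul]
    · rw [List.concat_eq_append] at hl ⊢
      rw [hval, hy1, hy2]
      by_cases hx : x = α
      · by_cases hx' : x' = β
        · subst hx hx'
          exact absurd ⟨m, rfl⟩ hl
        · rw [if_neg hx', mul_zero, smul_zero]
      · rw [if_neg hx, zero_mul, zero_mul, smul_zero]

/-- Step 1 -/
theorem j1_step1 [CharZero K] {J : Submodule K B} {s : Finset (List X)} {c : List X → K}
    (h0 : c [] = 0) (h1 : ∀ x, c [x] = 0)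
    (hf : ∀ y : X → B, (∀ x, y x ∈ J) → ∑ l ∈ s, c l • (l.map y).prod = 0)
    (α β : X) {p a1 b1 : B} {u : X → B} (haJ : a1 ∈ J) (hbJ : b1 ∈ J) (huJ : ∀ x, u x ∈ J)
    (hu1 : ∀ x, p * u x = 0) (hu2 : ∀ x, u x * p = 0) (ha : p * a1 = a1) (ha' : a1 * p = 0)
    (hb : p * b1 = 0) (hb' : b1 * p = b1) :
    ∑ m ∈ s.preimage (fun m => α :: (m ++ [β])) (j1_inj α β).injOn,
      c (α :: (m ++ [β])) • (a1 * (m.map u).prod * b1) = 0 := by
  refine j1_poly _ (fun m => c (α :: (m ++ [β]))) a1 b1 u
    (fun x => (if x = α then a1 else 0) + (if x = β then b1 else 0)) fun t => ?_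
  have hy : ∀ x, u x + t • ((if x = α then a1 else 0) + (if x = β then b1 else 0)) ∈ J := by
    intro x
    refine J.add_mem (huJ x) (J.smul_mem t (J.add_mem ?_ ?_))
    · split_ifs
      · exact haJ
      · exact J.zero_mem
    · split_ifs
      · exact hbJ
      · exact J.zero_mem
  have h2 := j1_two (s := s) h0 h1 (α := α) (β := β) (p := p) (a1 := a1) (b1 := b1) (t := t)
    (fun x => u x + t • ((if x = α then a1 else 0) + (if x = β then b1 else 0))) ?_ ?_
  · rw [hf _ hy, mul_zero, zero_mul] at h2
    exact h2.symm
  · intro x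
    rw [mul_add, hu1, zero_add, mul_smul_comm, mul_add]
    have e1 : p * (if x = β then b1 else 0) = 0 := by
      split_ifs
      · exact hb
      · exact mul_zero _
    rw [e1, add_zero]
    split_ifs
    · rw [ha]
    · rw [mul_zero, smul_zero]
  · intro x
    rw [add_mul, hu2, zero_add, smul_mul_assoc, add_mul]
    have e1 : (if x = α then a1 else 0) * p = 0 := by
      split_ifs
      · exact ha'
      · exact zero_mul _
    rw [e1, zero_add]
    split_ifs
    · rw [hb']
    · rw [zero_mul, smul_zero]

/-- the values of the words at `τ (e + l c + r d)` -/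
theorem j1_words (τ : X → K) (i j : X) {e c d : B} (he : e * e = e) (hc : e * c = c)
    (hc' : c * e = c) (hd : e * d = d) (hd' : d * e = d) (m : List X) :
    j1_co 0 0 ((m.map fun x => τ x • (em e + (if x = i then lv B * em c else 0) +
      (if x = j then rv B * em d else 0))).prod * em e) = (m.map τ).prod • e ∧
    j1_co 1 0 ((m.map fun x => τ x • (em e + (if x = i then lv B * em c else 0) +
      (if x = j then rv B * em d else 0))).prod * em e) =
        ((m.map τ).prod * (m.count i : K)) • c ∧
    j1_co 0 1 ((m.map fun x => τ x • (em e + (if x = i then lv B * em c else 0) +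
      (if x = j then rv B * em d else 0))).prod * em e) =
        ((m.map τ).prod * (m.count j : K)) • d ∧
    j1_co 1 1 ((m.map fun x => τ x • (em e + (if x = i then lv B * em c else 0) +
      (if x = j then rv B * em d else 0))).prod * em e) =
        ((m.map τ).prod * (prs i j m : K)) • (c * d) +
        ((m.map τ).prod * (prs j i m : K)) • (d * c) := by
  induction m with
  | nil =>
    refine ⟨?_, ?_, ?_, ?_⟩
    · rw [List.map_nil, List.prod_nil, one_mul, j1_co_em, List.map_nil, List.prod_nil, one_smul]
    · rw [List.map_nil, List.prod_nil, one_mul, j1_co_em' _ _ (Or.inl one_ne_zero)]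
      simp
    · rw [List.map_nil, List.prod_nil, one_mul, j1_co_em' _ _ (Or.inr one_ne_zero)]
      simp
    · rw [List.map_nil, List.prod_nil, one_mul, j1_co_em' _ _ (Or.inl one_ne_zero)]
      simp [prs]
  | cons x l ih =>
    set Q : P2 B := (l.map fun x => τ x • (em e + (if x = i then lv B * em c else 0) +
      (if x = j then rv B * em d else 0))).prod * em e with hQ
    obtain ⟨i1, i2, i3, i4⟩ := ih
    have hcons : ((x :: l).map fun x => τ x • (em e + (if x = i then lv B * em c else 0) +
        (if x = j then rv B * em d else 0))).prod * em e =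
        τ x • (em e * Q + (if x = i then lv B * (em c * Q) else 0) +
          (if x = j then rv B * (em d * Q) else 0)) := by
      rw [List.map_cons, List.prod_cons, mul_assoc, ← hQ, smul_mul_assoc, add_mul, add_mul]
      congr 2
      · congr 1
        split_ifs
        · rw [mul_assoc]
        · rw [zero_mul]
      · split_ifs
        · rw [mul_assoc]
        · rw [zero_mul]
    have hif : ∀ (p s : ℕ) (q : Prop) [Decidable q] (P : P2 B),
        j1_co p s (if q then P else 0) = if q then j1_co p s P else 0 := by
      intro p s q _ P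
      split_ifs
      · rfl
      · unfold j1_co
        simp
    rw [hcons]
    refine ⟨?_, ?_, ?_, ?_⟩
    · rw [j1_co_smul, j1_co_add, j1_co_add, hif, hif, j1_co_lv0, j1_co_rv0, j1_co_em_mul, i1,
        List.map_cons, List.prod_cons, mul_smul_comm, he]
      simp [smul_smul]
    · rw [j1_co_smul, j1_co_add, j1_co_add, hif, hif, j1_co_lv, j1_co_rv0, j1_co_em_mul,
        j1_co_em_mul, i1, i2, List.map_cons, List.prod_cons, List.count_cons]
      by_cases hx : x = i
      · simp [hx, hc, hc', smul_smul, ← add_smul]
        ring_nf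
      · simp [hx, hc, smul_smul]
        ring_nf
    · rw [j1_co_smul, j1_co_add, j1_co_add, hif, hif, j1_co_lv0, j1_co_rv, j1_co_em_mul,
        j1_co_em_mul, i1, i3, List.map_cons, List.prod_cons, List.count_cons]
      by_cases hx : x = j
      · simp [hx, hd, hd', smul_smul, ← add_smul]
        ring_nf
      · simp [hx, hd, smul_smul]
        ring_nf
    · rw [j1_co_smul, j1_co_add, j1_co_add, hif, hif, j1_co_lv, j1_co_rv, j1_co_em_mul,
        j1_co_em_mul, j1_co_em_mul, i2, i3, i4, List.map_cons, List.prod_cons, prs, prs]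
      have e1 : e * (c * d) = c * d := by rw [← mul_assoc, hc]
      have e2 : e * (d * c) = d * c := by rw [← mul_assoc, hd]
      rw [mul_add, mul_smul_comm, mul_smul_comm, mul_smul_comm, mul_smul_comm, e1, e2]
      by_cases hx : x = i <;> by_cases hx' : x = j
      · rw [if_pos hx, if_pos hx', if_pos hx, if_pos hx']
        push_cast
        module
      · rw [if_pos hx, if_neg hx', if_pos hx, if_neg hx']
        push_cast
        module
      · rw [if_neg hx, if_pos hx', if_neg hx, if_pos hx']
        push_cast
        module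
      · rw [if_neg hx, if_neg hx', if_neg hx, if_neg hx']
        push_cast
        module

omit [DecidableEq X] in
theorem j1_pow {e : B} (he : e * e = e) (τ : X → K) (l : List X) :
    (l.map fun x => τ x • e).prod = (l.map τ).prod • (if l = [] then 1 else e) := by
  induction l with
  | nil => simp
  | cons x l ih =>
    rw [List.map_cons, List.prod_cons, ih, List.map_cons, List.prod_cons, smul_mul_smul_comm,
      if_neg (List.cons_ne_nil x l)]
    congr 1
    split_ifs
    · rw [mul_one]
    · rw [he]

/-- words of length at most one -/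
theorem j1_short [CharZero K] [Nontrivial B] {J : Submodule K B} {s : Finset (List X)}
    {c : List X → K} (hs : ∀ l ∉ s, c l = 0)
    (hf : ∀ y : X → B, (∀ x, y x ∈ J) → ∑ l ∈ s, c l • (l.map y).prod = 0)
    {e : B} (heJ : e ∈ J) (he : e * e = e) (he0 : e ≠ 0) (l₀ : List X) (hl : l₀.length ≤ 1) :
    c l₀ = 0 := by
  by_contra hne
  have hmem : l₀ ∈ s := by
    by_contra h
    exact hne (hs _ h)
  have h := j1_mv s (fun l => c l • (if l = [] then (1 : B) else e)) (fun τ => by
    have h1 := hf (fun x => τ x • e) fun x => J.smul_mem _ heJ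
    rw [← h1]
    refine Finset.sum_congr rfl fun l _ => ?_
    rw [j1_pow he, smul_comm]) (l₀ : Multiset X)
  rw [Finset.sum_eq_single l₀] at h
  · rcases smul_eq_zero.1 h with h | h
    · exact hne h
    · split_ifs at h
      · exact one_ne_zero h
      · exact he0 h
  · intro l hl1 hl2
    exfalso
    rw [Finset.mem_filter] at hl1
    have hp : l.Perm l₀ := Multiset.coe_eq_coe.1 hl1.2
    apply hl2
    rcases l₀ with _ | ⟨x, _ | ⟨x', l'⟩⟩
    · exact List.perm_nil.1 hp
    · exact List.perm_singleton.1 hp
    · simp at hl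
  · intro h1
    exact (h1 (Finset.mem_filter.2 ⟨hmem, rfl⟩)).elim

end

theorem wcond_of_not_star [CharZero K] {B : Type v} [Ring B] [Algebra K B] {J : Submodule K B}
    (hJ : ∀ a u b : B, u ∈ J → a * u * b ∈ J) {f : FreeAlgebra K X}
    (hf : ∀ y : X → B, (∀ x, y x ∈ J) → FreeAlgebra.lift K y f = 0)
    {e : B} (heJ : e ∈ J) (he : e * e = e) (hs : ¬ Star e) : WCond f := by
  unfold Star at hs
  push Not at hs
  obtain ⟨a0, b0, c0, d0, hne⟩ := hs
  have he' : ∀ x, e * (e * x) = e * x := fun x => by rw [← mul_assoc, he]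
  obtain ⟨p, hp⟩ : ∃ p, p = 1 - e := ⟨_, rfl⟩
  have hpp : p * p = p := by
    have h : (1 - e) * (1 - e) = 1 - e - e + e * e := by noncomm_ring
    rw [hp, h, he]
    abel
  have hpe : p * e = 0 := by rw [hp, sub_mul, one_mul, he, sub_self]
  have hep : e * p = 0 := by rw [hp, mul_sub, mul_one, he, sub_self]
  obtain ⟨a, ha⟩ : ∃ a, a = p * a0 * e := ⟨_, rfl⟩
  obtain ⟨b, hb⟩ : ∃ b, b = e * b0 * p := ⟨_, rfl⟩
  obtain ⟨c, hc⟩ : ∃ c, c = e * c0 * e := ⟨_, rfl⟩
  obtain ⟨d, hd⟩ : ∃ d, d = e * d0 * e := ⟨_, rfl⟩
  have hpa : p * a = a := by rw [ha, ← mul_assoc, ← mul_assoc, hpp]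
  have hap : a * p = 0 := by rw [ha, mul_assoc, hep, mul_zero]
  have hpb : p * b = 0 := by rw [hb, ← mul_assoc, ← mul_assoc, hpe, zero_mul, zero_mul]
  have hbp : b * p = b := by rw [hb, mul_assoc, hpp]
  have heb : e * b = b := by rw [hb, ← mul_assoc, ← mul_assoc, he]
  have hec : e * c = c := by rw [hc, ← mul_assoc, ← mul_assoc, he]
  have hce : c * e = c := by rw [hc, mul_assoc, he]
  have hed : e * d = d := by rw [hd, ← mul_assoc, ← mul_assoc, he]
  have hde : d * e = d := by rw [hd, mul_assoc, he]
  have hpc : p * c = 0 := by rw [← hec, ← mul_assoc, hpe, zero_mul]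
  have hcp : c * p = 0 := by rw [← hce, mul_assoc, hep, mul_zero]
  have hpd : p * d = 0 := by rw [← hed, ← mul_assoc, hpe, zero_mul]
  have hdp : d * p = 0 := by rw [← hde, mul_assoc, hep, mul_zero]
  have haJ : a ∈ J := by
    have h := hJ (p * a0) e 1 heJ
    rw [mul_one, ← ha] at h
    exact h
  have hbJ : b ∈ J := by
    have h := hJ 1 e (b0 * p) heJ
    rw [one_mul, ← mul_assoc, ← hb] at h
    exact h
  have hcJ : c ∈ J := by
    have h := hJ (e * c0) e 1 heJ
    rw [mul_one, ← hc] at h
    exact h
  have hdJ : d ∈ J := by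
    have h := hJ (e * d0) e 1 heJ
    rw [mul_one, ← hd] at h
    exact h
  have hw : a * (c * d) * b - a * (d * c) * b ≠ 0 := by
    rw [sub_ne_zero]
    intro h
    apply hne
    rw [ha, hb, hc, hd, hp] at h
    simp only [mul_assoc, he'] at h ⊢
    exact h
  have hnt : Nontrivial B := nontrivial_of_ne _ _ hw
  have he0 : e ≠ 0 := by
    rintro rfl
    apply hw
    rw [ha]
    simp
  obtain ⟨s, hs0, hsf⟩ := eq_sum_cf f
  have hv : ∀ y : X → B, (∀ x, y x ∈ J) → ∑ l ∈ s, cf f l • (l.map y).prod = 0 := by
    intro y hy
    rw [← j1_lift hsf]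
    exact hf y hy
  have hshort := fun l hl => j1_short hs0 hv heJ he he0 l hl
  have h0 : cf f [] = 0 := hshort [] (by simp)
  have h1 : ∀ x, cf f [x] = 0 := fun x => hshort [x] (by simp)
  -- the sums over the middle words
  have hmid : ∀ (α β : X), ∀ m ∉ s.preimage (fun m => α :: (m ++ [β])) (j1_inj α β).injOn,
      cf f (α :: (m ++ [β])) = 0 := by
    intro α β m hm
    refine hs0 _ fun h => hm ?_
    rw [Finset.mem_preimage]
    exact h
  have hc2 : ∀ (α β : X) (γ : Multiset X),
      ∑ m ∈ (s.preimage (fun m => α :: (m ++ [β])) (j1_inj α β).injOn).filter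
        (fun m : List X => (m : Multiset X) = γ), cf f (α :: (m ++ [β])) = 0 := by
    intro α β γ
    have h := j1_mv (K := K) (s.preimage (fun m => α :: (m ++ [β])) (j1_inj α β).injOn)
      (fun m => cf f (α :: (m ++ [β])) • (a * (c * d) * b - a * (d * c) * b)) (fun τ => by
        have h2 := j1_step1 h0 h1 hv α β (p := p) (a1 := a * (c * d - d * c)) (b1 := b)
          (u := fun x => τ x • e) (by
            have h := hJ 1 a (c * d - d * c) haJ
            rw [one_mul] at h
            exact h) hbJ (fun x => J.smul_mem _ heJ)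
          (fun x => by rw [mul_smul_comm, hpe, smul_zero])
          (fun x => by rw [smul_mul_assoc, hep, smul_zero]) (by rw [← mul_assoc, hpa])
          (by rw [mul_assoc, sub_mul, mul_assoc, hdp, mul_zero, mul_assoc, hcp, mul_zero, sub_zero,
            mul_zero]) hpb hbp
        rw [← h2]
        refine Finset.sum_congr rfl fun m _ => ?_
        rw [j1_pow he, mul_smul_comm, smul_mul_assoc, smul_comm]
        congr 2
        have h3 : (if m = [] then (1 : B) else e) * b = b := by
          split_ifs
          · rw [one_mul]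
          · rw [heb]
        rw [mul_assoc (a * (c * d - d * c)), h3, mul_sub, sub_mul]) γ
    rw [← Finset.sum_smul] at h
    exact (smul_eq_zero.1 h).resolve_right hw
  refine ⟨h0, h1, fun α β γ => ?_, fun α β γ i j hij => ?_⟩
  · rw [← j1_lists _ _ (hmid α β)]
    exact hc2 α β γ
  · rw [← j1_lists _ _ (fun m hm => by rw [hmid α β m hm, zero_mul])]
    have h := j1_mv (K := K) (s.preimage (fun m => α :: (m ++ [β])) (j1_inj α β).injOn)
      (fun m => cf f (α :: (m ++ [β])) • ((prs i j m : K) • (a * (c * d) * b) +
        (prs j i m : K) • (a * (d * c) * b))) (fun τ => by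
        obtain ⟨P, hP⟩ : ∃ P : P2 B, P =
            ∑ m ∈ s.preimage (fun m => α :: (m ++ [β])) (j1_inj α β).injOn,
              cf f (α :: (m ++ [β])) • (em a * ((m.map fun x =>
                τ x • (em e + (if x = i then lv B * em c else 0) +
                  (if x = j then rv B * em d else 0))).prod * em e) * em b) := ⟨_, rfl⟩
        have hz : ∀ l r : K, sev l r P ∈ (⊥ : Submodule K B) := by
          intro l r
          rw [Submodule.mem_bot, hP, map_sum]
          have h2 := j1_step1 h0 h1 hv α β (p := p) (a1 := a) (b1 := b)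
            (u := fun x => τ x • (e + (if x = i then l • c else 0) + (if x = j then r • d else 0)))
            haJ hbJ (fun x => by
              refine J.smul_mem _ (J.add_mem (J.add_mem heJ ?_) ?_)
              · split_ifs
                · exact J.smul_mem _ hcJ
                · exact J.zero_mem
              · split_ifs
                · exact J.smul_mem _ hdJ
                · exact J.zero_mem)
            (fun x => by
              rw [mul_smul_comm, mul_add, mul_add, hpe, zero_add, mul_ite, mul_ite,
                mul_smul_comm, mul_smul_comm, hpc, hpd, mul_zero, smul_zero, smul_zero, ite_self,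
                ite_self, add_zero, smul_zero])
            (fun x => by
              rw [smul_mul_assoc, add_mul, add_mul, hep, zero_add, ite_mul, ite_mul,
                smul_mul_assoc, smul_mul_assoc, hcp, hdp, zero_mul, smul_zero, smul_zero, ite_self,
                ite_self, add_zero, smul_zero]) hpa hap hpb hbp
          rw [← h2]
          refine Finset.sum_congr rfl fun m _ => ?_
          rw [sev_smul, map_mul, map_mul, map_mul, sev_em, sev_em, sev_em, map_list_prod,
            List.map_map]
          congr 1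
          rw [mul_assoc, mul_assoc, heb, ← mul_assoc]
          congr 3
          refine List.map_congr_left fun x _ => ?_
          rw [Function.comp_apply, sev_smul, map_add, map_add, sev_em]
          congr 2
          · congr 1
            split_ifs
            · rw [map_mul, sev_lv, sev_em, Algebra.smul_def]
            · rw [map_zero]
          · split_ifs
            · rw [map_mul, sev_rv, sev_em, Algebra.smul_def]
            · rw [map_zero]
        have h3 := coef_mem ⊥ P hz 1 1
        rw [Submodule.mem_bot] at h3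
        have h4 : j1_co 1 1 P = 0 := h3
        rw [hP, j1_co_sum] at h4
        rw [← h4]
        refine Finset.sum_congr rfl fun m _ => ?_
        rw [j1_co_smul, j1_co_mul_em, j1_co_em_mul,
          (j1_words τ i j he hec hce hed hde m).2.2.2, smul_comm]
        congr 1
        rw [mul_add, add_mul, mul_smul_comm, mul_smul_comm, smul_mul_assoc, smul_mul_assoc,
          smul_add, smul_smul, smul_smul]) γ
    have h5 : ∑ m ∈ (s.preimage (fun m => α :: (m ++ [β])) (j1_inj α β).injOn).filter
        (fun m : List X => (m : Multiset X) = γ),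
        cf f (α :: (m ++ [β])) • ((prs i j m : K) • (a * (c * d) * b) +
          (prs j i m : K) • (a * (d * c) * b)) =
        (∑ m ∈ (s.preimage (fun m => α :: (m ++ [β])) (j1_inj α β).injOn).filter
          (fun m : List X => (m : Multiset X) = γ), cf f (α :: (m ++ [β])) * (prs i j m : K)) •
          (a * (c * d) * b - a * (d * c) * b) +
        (∑ m ∈ (s.preimage (fun m => α :: (m ++ [β])) (j1_inj α β).injOn).filter
          (fun m : List X => (m : Multiset X) = γ), cf f (α :: (m ++ [β]))) •
          (((γ.count i : K) * (γ.count j : K)) • (a * (d * c) * b)) := by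
      rw [Finset.sum_smul, Finset.sum_smul, ← Finset.sum_add_distrib]
      refine Finset.sum_congr rfl fun m hm => ?_
      have hm2 := (Finset.mem_filter.1 hm).2
      have h6 := prs_add hij m
      have h7 : (prs i j m : K) + (prs j i m : K) = (γ.count i : K) * (γ.count j : K) := by
        rw [← hm2, Multiset.coe_count, Multiset.coe_count]
        exact_mod_cast h6
      rw [← h7]
      module
    rw [h5, hc2, zero_smul, add_zero] at h
    exact (smul_eq_zero.1 h).resolve_right hw

end Pool.Agent.H.MP_f5ceca_al.G
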