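import Pool.Agent.H.MP_f5ceca_al.G.J0

/-!
Job J2: if the coefficients of `f` satisfy `WCond` then `f` vanishes on every algebra with
`x[y,z][t,u]v = 0`, `x[y,z,t]u = 0`.

Proof. Let `J` be the ideal (in our application the algebra inside its unitization `B`),
`v : X → B` with values in `J`. Expand `f` in words: a word of length at least 2 is
`α :: (m ++ [β])`. Fix `α`, `β`; claim `∑_m cf f (α m β) • v_α m(v) v_β = 0`; group the `m` by
their multiset `γ` (`Multiset.lists`, `Finset.sum_fiberwise` on a large finite set, or an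
induction), so fix `γ` and a list `m0` with content `γ`.
Let `Q` be the quotient of `B` by the ideal `{g | ∀ x u ∈ J, ∀ s t : B, x s g t u = 0}`, or work with
equality between `v_α s` and `t v_β`, `s, t ∈ B`. Modulo this ideal all commutators of elements of
`J` are central, and products of two commutators are zero (from the hypotheses; a
commutator of elements of `B = K + J` is a commutator of elements of `J`, but only letters are needed).
For lists `m ∼ m'` (`List.Perm`) modulo this ideal
`m(v) - m'(v) = ∑_{i < j} (prs j i m - prs j i m') • [v_j, v_i] γ_ij(v)`, where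
`γ_ij(v)` is the product of the letters of `γ` with one `i` and one `j` removed, in any order (the order
does not matter next to a commutator). Prove it by `List.Perm` induction: `cons`: multiply
by the letter on the left, `prs j i (x :: m) = prs j i m + [x = j] count i m`, and `count i m = count i m'`;
`swap`: `y x l` versus `x y l`: `[v_y, v_x] l(v)`; `trans`: clear. (To avoid an order on `X`, sum over
all ordered pairs `(i, j)`, `i ≠ j`, with the coefficient `1/2`:
`m(v) - m'(v) = (1/2) ∑_{i ≠ j} (prs j i m - prs j i m') • [v_j, v_i] γ_ij(v)`, using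
`prs i j + prs j i = count * count`; here `K` has characteristic zero.)
Then `∑_{m ∼ γ} cf • m(v) = (∑ cf) • m0(v) + (1/2) ∑_{i≠j} (∑_m cf * (prs j i m - prs j i m0)) • ... = 0` by
(c2) and (c3).
-/

namespace Pool.Agent.H.MP_f5ceca_al.G

universe u v w

set_option linter.all false

variable {K : Type u} [Field K] {X : Type} [DecidableEq X]

/-- the value of a word -/
def j2_W {Q : Type v} [Ring Q] (a : X → Q) (m : List X) : Q := (m.map a).prod

theorem j2_W_nil {Q : Type v} [Ring Q] (a : X → Q) : j2_W a [] = 1 := by simp [j2_W]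

theorem j2_W_cons {Q : Type v} [Ring Q] (a : X → Q) (x : X) (m : List X) :
    j2_W a (x :: m) = a x * j2_W a m := by simp [j2_W]

theorem j2_comm {Q : Type v} [Ring Q] (a : X → Q)
    (hc : ∀ x y z, (a x * a y - a y * a x) * a z = a z * (a x * a y - a y * a x))
    (hn : ∀ x y z t, (a x * a y - a y * a x) * (a z * a t - a t * a z) = 0) (x y : X)
    {m m' : List X} (h : m.Perm m') :
    (a x * a y - a y * a x) * j2_W a m = (a x * a y - a y * a x) * j2_W a m' := by
  induction h with
  | nil => rfl
  | cons z _ ih => rw [j2_W_cons, j2_W_cons, ← mul_assoc, ← mul_assoc, hc, mul_assoc, mul_assoc, ih]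
  | swap z t l =>
    rw [← sub_eq_zero, ← mul_sub, j2_W_cons, j2_W_cons, j2_W_cons, j2_W_cons, ← mul_assoc,
      ← mul_assoc (a z), ← sub_mul, ← mul_assoc, hn, zero_mul]
  | trans _ _ ih1 ih2 => exact ih1.trans ih2

/-- the term of the pair `i`, `j` -/
noncomputable def j2_E {Q : Type v} [Ring Q] (a : X → Q) (i j : X) (g : Multiset X) : Q :=
  (a j * a i - a i * a j) * j2_W a ((g.erase i).erase j).toList

theorem j2_prs_zero_left {i j : X} {l : List X} (h : i ∉ l) : prs i j l = 0 := by
  induction l with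
  | nil => rfl
  | cons x l ih =>
    simp only [List.mem_cons, not_or] at h
    rw [prs, ih h.2, if_neg (fun e => h.1 e.symm)]

theorem j2_prs_zero_right {i j : X} {l : List X} (h : j ∉ l) : prs i j l = 0 := by
  induction l with
  | nil => rfl
  | cons x l ih =>
    simp only [List.mem_cons, not_or] at h
    rw [prs, ih h.2, List.count_eq_zero_of_not_mem h.2]
    simp

theorem j2_sort {Q : Type v} [Ring Q] (a : X → Q)
    (hc : ∀ x y z, (a x * a y - a y * a x) * a z = a z * (a x * a y - a y * a x))
    (hn : ∀ x y z t, (a x * a y - a y * a x) * (a z * a t - a t * a z) = 0)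
    {m m' : List X} (h : m.Perm m') (s : Finset X) :
    (∀ x ∈ m, x ∈ s) → 2 * (j2_W a m - j2_W a m') = ∑ i ∈ s, ∑ j ∈ s,
      ((prs j i m : ℤ) - prs j i m') • j2_E a i j (m : Multiset X) := by
  induction h with
  | nil => intro _; simp
  | @cons x l l' hl ih =>
    intro hs
    have ih' := ih (fun z hz => hs z (List.mem_cons_of_mem _ hz))
    have e2 : ∀ z : Q, 2 * (a x * z) = a x * (2 * z) := fun z => by rw [two_mul, two_mul, mul_add]
    rw [j2_W_cons, j2_W_cons, ← mul_sub, e2, ih', Finset.mul_sum]
    refine Finset.sum_congr rfl fun i _ => ?_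
    rw [Finset.mul_sum]
    refine Finset.sum_congr rfl fun j _ => ?_
    have hcoef : ((prs j i (x :: l) : ℤ) - prs j i (x :: l')) = (prs j i l : ℤ) - prs j i l' := by
      rw [prs, prs, hl.count_eq i]
      push_cast
      ring
    rw [hcoef]
    by_cases hi : i ∈ l
    · by_cases hj : j ∈ l
      · by_cases hij : i = j
        · subst hij
          simp [j2_E]
        · rw [mul_smul_comm]
          congr 1
          unfold j2_E
          rw [← mul_assoc, ← hc, mul_assoc, ← j2_W_cons]
          apply j2_comm a hc hn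
          rw [← Multiset.coe_eq_coe, Multiset.coe_toList]
          have h1 : ((x :: l : List X) : Multiset X) = x ::ₘ (l : Multiset X) := rfl
          rw [h1, Multiset.erase_cons_tail_of_mem (by simpa using hi),
            Multiset.erase_cons_tail_of_mem, ← Multiset.cons_coe, Multiset.coe_toList]
          rw [Multiset.mem_erase_of_ne (fun e => hij e.symm)]
          simpa using hj
      · rw [j2_prs_zero_left hj, j2_prs_zero_left (fun h' => hj (hl.mem_iff.2 h'))]
        simp
    · rw [j2_prs_zero_right hi, j2_prs_zero_right (fun h' => hi (hl.mem_iff.2 h'))]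
      simp
  | swap x y l =>
    intro hs
    have hx : x ∈ s := hs x (by simp)
    have hy : y ∈ s := hs y (by simp)
    have hcoef : ∀ i j, ((prs j i (y :: x :: l) : ℤ) - prs j i (x :: y :: l)) =
        (if y = j ∧ x = i then 1 else 0) - (if x = j ∧ y = i then 1 else 0) := by
      intro i j
      simp only [prs, List.count_cons, beq_iff_eq]
      push_cast
      split_ifs <;> first | ring1 | (exfalso; tauto)
    have e1 : ∑ i ∈ s, ∑ j ∈ s, ((prs j i (y :: x :: l) : ℤ) - prs j i (x :: y :: l)) •
        j2_E a i j ((y :: x :: l : List X) : Multiset X) =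
        j2_E a x y ((y :: x :: l : List X) : Multiset X) -
        j2_E a y x ((y :: x :: l : List X) : Multiset X) := by
      have e3 : ∀ (u v : X), u ∈ s → v ∈ s → ∑ i ∈ s, ∑ j ∈ s,
          (if u = j ∧ v = i then (1 : ℤ) else 0) • j2_E a i j ((y :: x :: l : List X) : Multiset X) =
          j2_E a v u ((y :: x :: l : List X) : Multiset X) := by
        intro u v hu hv
        rw [Finset.sum_eq_single_of_mem v hv, Finset.sum_eq_single_of_mem u hu]
        · simp
        · intro b _ hb
          rw [if_neg (fun e => hb e.1.symm), zero_smul]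
        · intro b _ hb
          refine Finset.sum_eq_zero fun c _ => ?_
          rw [if_neg (fun e => hb e.2.symm), zero_smul]
      rw [← e3 y x hy hx, ← e3 x y hx hy, ← Finset.sum_sub_distrib]
      refine Finset.sum_congr rfl fun i _ => ?_
      rw [← Finset.sum_sub_distrib]
      refine Finset.sum_congr rfl fun j _ => ?_
      rw [hcoef, sub_smul]
    rw [e1]
    have h1 : ((((y :: x :: l : List X) : Multiset X).erase x).erase y) = (l : Multiset X) := by
      have h0 : ((y :: x :: l : List X) : Multiset X) = x ::ₘ y ::ₘ (l : Multiset X) :=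
        Multiset.cons_swap y x (l : Multiset X)
      rw [h0, Multiset.erase_cons_head, Multiset.erase_cons_head]
    have h2 : ((((y :: x :: l : List X) : Multiset X).erase y).erase x) = (l : Multiset X) := by
      rw [Multiset.erase_comm, h1]
    have h3 : (l : Multiset X).toList.Perm l := by
      rw [← Multiset.coe_eq_coe, Multiset.coe_toList]
    unfold j2_E
    rw [h1, h2, j2_comm a hc hn y x h3, j2_comm a hc hn x y h3, j2_W_cons, j2_W_cons, j2_W_cons,
      j2_W_cons]
    noncomm_ring
  | @trans l1 l2 l3 h1 h2 ih1 ih2 =>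
    intro hs
    have hs2 : ∀ x ∈ l2, x ∈ s := fun x hx => hs x (h1.mem_iff.2 hx)
    have e : 2 * (j2_W a l1 - j2_W a l3) = 2 * (j2_W a l1 - j2_W a l2) +
      2 * (j2_W a l2 - j2_W a l3) := by rw [← mul_add, sub_add_sub_cancel]
    rw [e, ih1 hs, ih2 hs2, ← Finset.sum_add_distrib]
    refine Finset.sum_congr rfl fun i _ => ?_
    rw [← Finset.sum_add_distrib]
    refine Finset.sum_congr rfl fun j _ => ?_
    rw [show ((l2 : List X) : Multiset X) = (l1 : Multiset X) from Multiset.coe_eq_coe.2 h1.symm,
      ← add_smul, sub_add_sub_cancel]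

/-- equality between elements of `J` on both sides -/
def j2_con {B : Type v} [Ring B] [Algebra K B] (J : Submodule K B)
    (hJ : ∀ a u b : B, u ∈ J → a * u * b ∈ J) : RingCon B where
  r s t := ∀ x ∈ J, ∀ u ∈ J, x * s * u = x * t * u
  iseqv := ⟨fun _ _ _ _ _ => rfl, fun h x hx u hu => (h x hx u hu).symm,
    fun h h' x hx u hu => (h x hx u hu).trans (h' x hx u hu)⟩
  mul' := by
    intro a b c d h h' x hx u hu
    have h1 : c * u ∈ J := by simpa using hJ c u 1 hu
    have h2 : x * b ∈ J := by simpa using hJ 1 x b hx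
    calc x * (a * c) * u = x * a * (c * u) := by simp only [mul_assoc]
      _ = x * b * (c * u) := h x hx _ h1
      _ = x * b * c * u := by simp only [mul_assoc]
      _ = x * b * d * u := h' _ h2 u hu
      _ = x * (b * d) * u := by simp only [mul_assoc]
  add' := by
    intro a b c d h h' x hx u hu
    rw [mul_add, add_mul, h x hx u hu, h' x hx u hu, ← add_mul, ← mul_add]

theorem j2_sort' {B : Type v} [Ring B] [Algebra K B] {J : Submodule K B}
    (hJ : ∀ a u b : B, u ∈ J → a * u * b ∈ J)
    (h1 : ∀ x ∈ J, ∀ y ∈ J, ∀ z ∈ J, ∀ t ∈ J, ∀ u ∈ J, ∀ v ∈ J,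
      x * (y * z - z * y) * (t * u - u * t) * v = 0)
    (h2 : ∀ x ∈ J, ∀ y ∈ J, ∀ z ∈ J, ∀ t ∈ J, ∀ u ∈ J,
      x * ((y * z - z * y) * t - t * (y * z - z * y)) * u = 0)
    (y : X → B) (hy : ∀ x, y x ∈ J) {m m' : List X} (h : m.Perm m') (s : Finset X)
    (hs : ∀ x ∈ m, x ∈ s) (p q : B) (hp : p ∈ J) (hq : q ∈ J) :
    p * (2 * (j2_W y m - j2_W y m')) * q = p * (∑ i ∈ s, ∑ j ∈ s,
      ((prs j i m : ℤ) - prs j i m') • j2_E y i j (m : Multiset X)) * q := by
  let c := j2_con J hJ
  let π : B →+* c.Quotient := c.mk'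
  have hπ : ∀ a b : B, π a = π b ↔ ∀ x ∈ J, ∀ u ∈ J, x * a * u = x * b * u := fun a b =>
    RingCon.eq c
  have hc : ∀ x z t, (π (y x) * π (y z) - π (y z) * π (y x)) * π (y t) =
      π (y t) * (π (y x) * π (y z) - π (y z) * π (y x)) := by
    intro x z t
    simp only [← map_mul, ← map_sub]
    rw [hπ]
    intro p hp u hu
    rw [← sub_eq_zero, ← sub_mul, ← mul_sub]
    exact h2 p hp _ (hy x) _ (hy z) _ (hy t) u hu
  have hn : ∀ x z t w, (π (y x) * π (y z) - π (y z) * π (y x)) *
      (π (y t) * π (y w) - π (y w) * π (y t)) = 0 := by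
    intro x z t w
    simp only [← map_mul, ← map_sub]
    rw [← map_zero π, hπ]
    intro p hp u hu
    rw [mul_zero, zero_mul, ← mul_assoc]
    exact h1 p hp _ (hy x) _ (hy z) _ (hy t) _ (hy w) u hu
  have hW : ∀ l : List X, j2_W (fun x => π (y x)) l = π (j2_W y l) := by
    intro l
    unfold j2_W
    rw [map_list_prod, List.map_map]
    rfl
  have hE : ∀ i j g, j2_E (fun x => π (y x)) i j g = π (j2_E y i j g) := by
    intro i j g
    unfold j2_E
    rw [hW, map_mul, map_sub, map_mul, map_mul]
  have key := j2_sort (fun x => π (y x)) hc hn h s hs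
  simp only [hW, hE, ← map_zsmul, ← map_sum, ← map_sub] at key
  rw [← map_ofNat π 2, ← map_mul, hπ] at key
  exact key p hp q hq

theorem j2_group [CharZero K] {B : Type v} [Ring B] [Algebra K B] {J : Submodule K B}
    (hJ : ∀ a u b : B, u ∈ J → a * u * b ∈ J)
    (h1 : ∀ x ∈ J, ∀ y ∈ J, ∀ z ∈ J, ∀ t ∈ J, ∀ u ∈ J, ∀ v ∈ J,
      x * (y * z - z * y) * (t * u - u * t) * v = 0)
    (h2 : ∀ x ∈ J, ∀ y ∈ J, ∀ z ∈ J, ∀ t ∈ J, ∀ u ∈ J,
      x * ((y * z - z * y) * t - t * (y * z - z * y)) * u = 0)
    (y : X → B) (hy : ∀ x, y x ∈ J) (g : Multiset X) (c : List X → K)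
    (hc0 : ∑ m ∈ g.lists.toFinset, c m = 0)
    (hc1 : ∀ i j : X, i ≠ j → ∑ m ∈ g.lists.toFinset, c m * (prs i j m : K) = 0)
    (p q : B) (hp : p ∈ J) (hq : q ∈ J) :
    ∑ m ∈ g.lists.toFinset, c m • (p * j2_W y m * q) = 0 := by
  set m0 : List X := g.toList with hm0
  have hm : ∀ m ∈ g.lists.toFinset, (m : Multiset X) = g := by
    intro m hm
    rw [Multiset.mem_toFinset, Multiset.mem_lists_iff] at hm
    exact hm.symm
  have e1 : ∀ m ∈ g.lists.toFinset, c m • (p * (2 * (j2_W y m - j2_W y m0)) * q) =
      ∑ i ∈ g.toFinset, ∑ j ∈ g.toFinset, (c m * ((prs j i m : K) - prs j i m0)) •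
        (p * j2_E y i j g * q) := by
    intro m hmm
    have hmg := hm m hmm
    have hperm : m.Perm m0 := by
      rw [← Multiset.coe_eq_coe, hm0, Multiset.coe_toList, hmg]
    rw [j2_sort' hJ h1 h2 y hy hperm g.toFinset
      (fun x hx => by rw [Multiset.mem_toFinset, ← hmg]; exact hx) p q hp hq, hmg,
      Finset.mul_sum, Finset.sum_mul, Finset.smul_sum]
    refine Finset.sum_congr rfl fun i _ => ?_
    rw [Finset.mul_sum, Finset.sum_mul, Finset.smul_sum]
    refine Finset.sum_congr rfl fun j _ => ?_
    rw [mul_smul_comm, smul_mul_assoc, mul_smul]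
    congr 1
    rw [← Int.cast_smul_eq_zsmul K]
    push_cast
    rfl
  have e2 : (2 : K) • ∑ m ∈ g.lists.toFinset, c m • (p * j2_W y m * q) =
      ∑ m ∈ g.lists.toFinset, c m • (p * (2 * (j2_W y m - j2_W y m0)) * q) +
      (2 * ∑ m ∈ g.lists.toFinset, c m) • (p * j2_W y m0 * q) := by
    rw [Finset.smul_sum, Finset.mul_sum, Finset.sum_smul, ← Finset.sum_add_distrib]
    refine Finset.sum_congr rfl fun m _ => ?_
    rw [two_mul, mul_add, add_mul, smul_add, mul_sub, sub_mul, smul_sub, two_mul, add_smul,
      two_smul]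
    abel
  have e3 : ∑ m ∈ g.lists.toFinset, c m • (p * (2 * (j2_W y m - j2_W y m0)) * q) = 0 := by
    rw [Finset.sum_congr rfl e1, Finset.sum_comm]
    refine Finset.sum_eq_zero fun i _ => ?_
    rw [Finset.sum_comm]
    refine Finset.sum_eq_zero fun j _ => ?_
    rw [← Finset.sum_smul]
    by_cases hij : i = j
    · subst hij
      simp [j2_E]
    · have e4 : ∑ m ∈ g.lists.toFinset, c m * ((prs j i m : K) - prs j i m0) = 0 := by
        simp only [mul_sub]
        rw [Finset.sum_sub_distrib, hc1 j i (fun e => hij e.symm), ← Finset.sum_mul, hc0, zero_mul,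
          sub_zero]
      rw [e4, zero_smul]
  rw [e3, hc0, mul_zero, zero_smul, add_zero] at e2
  exact (smul_eq_zero.1 e2).resolve_left two_ne_zero


theorem j2_expand {B : Type v} [Ring B] [Algebra K B] (f : FreeAlgebra K X) (y : X → B) :
    ∃ s : Finset (List X), (∀ l ∉ s, cf f l = 0) ∧
      FreeAlgebra.lift K y f = ∑ l ∈ s, cf f l • j2_W y l := by
  classical
  let b := FreeAlgebra.basisFreeMonoid K X
  refine ⟨(b.repr f).support, ?_, ?_⟩
  · intro l hl
    exact Finsupp.notMem_support_iff.1 hl
  · have h1 : f = ∑ l ∈ (b.repr f).support, (b.repr f l) • b l := by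
      conv_lhs => rw [← b.linearCombination_repr f]
      rw [Finsupp.linearCombination_apply, Finsupp.sum]
    have h2 : ∀ l : FreeMonoid X, FreeAlgebra.lift K y (b l) = j2_W y l.toList := by
      intro l
      have h3 : b l = FreeAlgebra.equivMonoidAlgebraFreeMonoid.symm (MonoidAlgebra.of K _ l) := by
        simp only [b, FreeAlgebra.basisFreeMonoid]
        rfl
      have h4 : ∀ l : FreeMonoid X, FreeAlgebra.lift K y
          (FreeAlgebra.equivMonoidAlgebraFreeMonoid.symm (MonoidAlgebra.of K _ l)) =
          j2_W y l.toList := by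
        intro l
        induction l using FreeMonoid.inductionOn' with
        | one => rw [map_one, map_one, map_one, FreeMonoid.toList_one, j2_W_nil]
        | of_mul x l ih =>
          rw [map_mul, map_mul, map_mul, ih, FreeMonoid.toList_of_mul, j2_W_cons]
          congr 1
          simp [FreeAlgebra.equivMonoidAlgebraFreeMonoid]
      rw [h3, h4]
    conv_lhs => rw [h1]
    rw [map_sum]
    refine Finset.sum_congr rfl fun l _ => ?_
    rw [map_smul, h2]
    rfl

theorem vanish_of_wcond [CharZero K] {B : Type v} [Ring B] [Algebra K B] {J : Submodule K B}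
    (hJ : ∀ a u b : B, u ∈ J → a * u * b ∈ J)
    (h1 : ∀ x ∈ J, ∀ y ∈ J, ∀ z ∈ J, ∀ t ∈ J, ∀ u ∈ J, ∀ v ∈ J,
      x * (y * z - z * y) * (t * u - u * t) * v = 0)
    (h2 : ∀ x ∈ J, ∀ y ∈ J, ∀ z ∈ J, ∀ t ∈ J, ∀ u ∈ J,
      x * ((y * z - z * y) * t - t * (y * z - z * y)) * u = 0)
    {f : FreeAlgebra K X} (hf : WCond f) (y : X → B) (hy : ∀ x, y x ∈ J) :
    FreeAlgebra.lift K y f = 0 := by
  classical
  obtain ⟨s, hs, he⟩ := j2_expand f y
  have e1 : ∑ l ∈ s, cf f l • j2_W y l =
      ∑ l ∈ s.filter (fun l => 2 ≤ l.length), cf f l • j2_W y l := by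
    refine (Finset.sum_filter_of_ne ?_).symm
    intro l _ hl
    match l with
    | [] => rw [hf.c0, zero_smul] at hl; exact absurd rfl hl
    | [x] => rw [hf.c1, zero_smul] at hl; exact absurd rfl hl
    | _ :: _ :: _ => simp
  let key : List X → Option X × Option X × Multiset X :=
    fun l => (l.head?, l.getLast?, (l.tail.dropLast : Multiset X))
  rw [he, e1, ← Finset.sum_fiberwise_of_maps_to (g := key)
    (t := (s.filter (fun l => 2 ≤ l.length)).image key)
    (fun l hl => Finset.mem_image_of_mem key hl)]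
  refine Finset.sum_eq_zero fun i hi => ?_
  obtain ⟨l0, hl0, rfl⟩ := Finset.mem_image.1 hi
  have hdec : ∀ l : List X, 2 ≤ l.length → ∃ α m β, l = α :: (m ++ [β]) := by
    intro l hl
    match l with
    | [] => simp at hl
    | [x] => simp at hl
    | x :: z :: l =>
      refine ⟨x, (z :: l).dropLast, (z :: l).getLast (by simp), ?_⟩
      rw [List.dropLast_append_getLast]
  obtain ⟨α, m0, β, rfl⟩ := hdec l0 (Finset.mem_filter.1 hl0).2
  have hkey : ∀ (a : X) (m : List X) (b : X), key (a :: (m ++ [b])) =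
      (some a, some b, (m : Multiset X)) := by
    intro a m b
    simp [key, List.getLast?_cons]
  set φ : List X → List X := fun m => α :: (m ++ [β]) with hφ
  have hinj : ∀ m m', φ m = φ m' → m = m' := by
    intro m m' h
    simpa [hφ] using h
  have e2 : ∑ l ∈ (s.filter (fun l => 2 ≤ l.length)).filter
      (fun l => key l = key (α :: (m0 ++ [β]))), cf f l • j2_W y l =
      ∑ l ∈ ((m0 : Multiset X).lists.toFinset).image φ, cf f l • j2_W y l := by
    refine Finset.sum_subset ?_ ?_
    · intro l hl
      rw [Finset.mem_filter, Finset.mem_filter] at hl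
      obtain ⟨⟨_, hl2⟩, hl3⟩ := hl
      obtain ⟨a, m, b, rfl⟩ := hdec l hl2
      rw [hkey, hkey] at hl3
      simp only [Prod.mk.injEq, Option.some.injEq] at hl3
      obtain ⟨rfl, rfl, h3⟩ := hl3
      refine Finset.mem_image.2 ⟨m, ?_, rfl⟩
      rw [Multiset.mem_toFinset, Multiset.mem_lists_iff]
      exact h3.symm
    · intro l hl hl'
      obtain ⟨m, hm, rfl⟩ := Finset.mem_image.1 hl
      rw [Multiset.mem_toFinset, Multiset.mem_lists_iff] at hm
      rw [hs, zero_smul]
      intro hms
      apply hl'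
      rw [Finset.mem_filter, Finset.mem_filter]
      refine ⟨⟨hms, by simp [hφ]⟩, ?_⟩
      rw [hkey, hkey, hm]
      rfl
  rw [e2, Finset.sum_image (fun m _ m' _ h => hinj m m' h)]
  have e3 := j2_group hJ h1 h2 y hy (m0 : Multiset X) (fun m => cf f (φ m)) (hf.c2 α β _)
    (fun i j hij => hf.c3 α β _ i j hij) (y α) (y β) (hy α) (hy β)
  rw [← e3]
  refine Finset.sum_congr rfl fun m _ => ?_
  simp only [hφ, j2_W, List.map_cons, List.prod_cons, List.map_append, List.prod_append,
    List.map_nil, List.prod_nil, mul_one, mul_assoc]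

end Pool.Agent.H.MP_f5ceca_al.G
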