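import Pool.Agent.H.MP_f5ceca_al.G.B2

/-!
Job J3: a finite-dimensional algebra with an identity which is not an identity of the
`2 × 2` matrices: products with many commutators vanish.

Proof. Let `rad = Ring.jacobson B` (two-sided, nilpotent since `B` is Artinian:
`IsArtinianRing.isNilpotent_jacobson_bot`, `rad ^ m = 0`). Claim: `B ⧸ rad` is commutative; then all
commutators are in `rad`, and a product with `m` commutators is in `rad ^ m = 0`.
`B ⧸ rad` is semisimple, finite-dimensional over the algebraically closed field `E`, so it is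
isomorphic to a product of matrix algebras `M_{d_i}(E)`
(`IsSemisimpleRing.exists_algEquiv_pi_matrix_of_isAlgClosed` or similar), `d_i ≥ 1`. Suppose
`d_i ≥ 2` for some `i`, and let `π : B → M_d(E)` be the surjection, `d = d_i`. `π(J)` is a two-sided ideal of
the simple ring `M_d(E)`. If it is `0` then, as `B = E 1 + J`, the image of `π` is `E 1`, but
`M_d(E)` is not commutative: contradiction. So `π(J) = M_d(E)` and `f` vanishes on
`M_d(E)`: for `y : X → M_d(E)` choose preimages in `J`. The constant term of `f` is zero (value at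
`0`). The map `M_2(K) → M_d(E)` which puts a matrix into the upper left corner (and maps the entries by
`algebraMap K E`) is additive, multiplicative, `K`-linear and injective, though not unital; since `f` has
no constant term it commutes with the evaluation of `f` (for the non-unital evaluation: prove by
`FreeAlgebra.induction` that `lift (ψ ∘ y) h = ψ (lift y h) + (constant term of h) • (1 - ψ 1)`). So
`f` vanishes on `M_2(K)`: contradiction.
-/

namespace Pool.Agent.H.MP_f5ceca_al.G

universe u v w

/-- a product of `l` elements of a left ideal power -/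
theorem j3_list {B : Type v} [Ring B] {I : Ideal B} [I.IsTwoSided] (l : List B)
    (h : ∀ a ∈ l, a ∈ I) : l.prod ∈ I ^ l.length := by
  induction l with
  | nil =>
    rw [List.length_nil, Submodule.pow_zero, Ideal.one_eq_top]
    exact Submodule.mem_top
  | cons a l ih =>
    rw [List.prod_cons, List.length_cons, Ideal.IsTwoSided.pow_succ]
    exact Ideal.mul_mem_mul (h a (by simp)) (ih fun b hb => h b (by simp [hb]))

/-- evaluation in matrices and corners -/
theorem j3_corner {K : Type u} [Field K] {E : Type u} [Field E] [Algebra K E] {d : ℕ}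
    {X : Type} (P : Matrix (Fin 2) (Fin d) E) (Q : Matrix (Fin d) (Fin 2) E) (hPQ : P * Q = 1)
    (y : X → Matrix (Fin 2) (Fin 2) E) (f : FreeAlgebra K X) :
    P * FreeAlgebra.lift K (fun x => Q * y x * P) f = FreeAlgebra.lift K y f * P := by
  induction f using FreeAlgebra.induction with
  | grade0 r =>
    rw [AlgHom.commutes, AlgHom.commutes, Algebra.algebraMap_eq_smul_one,
      Algebra.algebraMap_eq_smul_one, Matrix.mul_smul, Matrix.smul_mul, Matrix.mul_one,
      Matrix.one_mul]
  | grade1 x =>
    rw [FreeAlgebra.lift_ι_apply, FreeAlgebra.lift_ι_apply, Matrix.mul_assoc, ← Matrix.mul_assoc,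
      hPQ, Matrix.one_mul]
  | mul a b ha hb =>
    rw [map_mul, map_mul, ← Matrix.mul_assoc, ha, Matrix.mul_assoc, hb, Matrix.mul_assoc]
  | add a b ha hb => rw [map_add, map_add, Matrix.mul_add, Matrix.add_mul, ha, hb]

/-- an identity of `M_d(E)`, `d ≥ 2`, is an identity of `M_2(K)` -/
theorem j3_two {K : Type u} [Field K] {E : Type u} [Field E] [Algebra K E] {d : ℕ} (hd : 2 ≤ d)
    {X : Type} {f : FreeAlgebra K X}
    (h : ∀ y : X → Matrix (Fin d) (Fin d) E, FreeAlgebra.lift K y f = 0)
    (y : X → Matrix (Fin 2) (Fin 2) K) : FreeAlgebra.lift K y f = 0 := by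
  classical
  obtain ⟨Q, hQ⟩ : ∃ Q : Matrix (Fin d) (Fin 2) E,
      Q = fun i j => if i = Fin.castLE hd j then 1 else 0 := ⟨_, rfl⟩
  obtain ⟨P, hP⟩ : ∃ P : Matrix (Fin 2) (Fin d) E,
      P = fun i j => if j = Fin.castLE hd i then 1 else 0 := ⟨_, rfl⟩
  have hPQ : P * Q = 1 := by
    ext i j
    rw [Matrix.mul_apply, hP, hQ]
    simp only [ite_mul, one_mul, zero_mul, Finset.sum_ite_eq', Finset.mem_univ, if_true]
    rw [Matrix.one_apply]
    congr 1
    exact propext (Fin.castLE_injective hd).eq_iff
  obtain ⟨φ, hφ⟩ : ∃ φ : Matrix (Fin 2) (Fin 2) K →ₐ[K] Matrix (Fin 2) (Fin 2) E,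
      φ = (Algebra.ofId K E).mapMatrix := ⟨_, rfl⟩
  have hinj : Function.Injective φ := by
    intro A B hAB
    ext i j
    have h1 := congrFun (congrFun hAB i) j
    rw [hφ] at h1
    simp only [AlgHom.mapMatrix_apply, Matrix.map_apply] at h1
    exact (algebraMap K E).injective h1
  have h1 := j3_corner P Q hPQ (fun x => φ (y x)) f
  rw [h, Matrix.mul_zero] at h1
  have h2 : FreeAlgebra.lift K (fun x => φ (y x)) f = 0 := by
    have h3 := congrArg (fun M => M * Q) h1
    simp only [Matrix.zero_mul, Matrix.mul_assoc, hPQ, Matrix.mul_one] at h3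
    exact h3.symm
  have h3 : FreeAlgebra.lift K (fun x => φ (y x)) = φ.comp (FreeAlgebra.lift K y) := by
    ext x
    simp
  rw [h3, AlgHom.comp_apply] at h2
  exact hinj (by rw [h2, map_zero])

/-- the case of a surjection onto `M_d(E)` -/
theorem j3_surj {K : Type u} [Field K] {E : Type u} [Field E] [Algebra K E]
    {B : Type v} [Ring B] [Algebra E B] [Algebra K B]
    [IsScalarTower K E B] {J : Submodule E B}
    (hJ : ∀ a u b : B, u ∈ J → a * u * b ∈ J)
    (hB : ∀ x : B, ∃ c : E, x - algebraMap E B c ∈ J) {X : Type} {f : FreeAlgebra K X}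
    (hf : ∀ y : X → B, (∀ x, y x ∈ J) → FreeAlgebra.lift K y f = 0)
    (hM : ∃ y : X → Matrix (Fin 2) (Fin 2) K, FreeAlgebra.lift K y f ≠ 0) {d : ℕ}
    (π : B →ₐ[E] Matrix (Fin d) (Fin d) E) (hπ : Function.Surjective π) : d < 2 := by
  classical
  by_contra hd
  push Not at hd
  by_cases h0 : ∀ u ∈ J, π u = 0
  · obtain ⟨i, hi⟩ : ∃ i : Fin d, i = ⟨0, by omega⟩ := ⟨_, rfl⟩
    obtain ⟨j, hj⟩ : ∃ j : Fin d, j = ⟨1, by omega⟩ := ⟨_, rfl⟩
    have hij : i ≠ j := by
      rw [hi, hj]
      intro h
      simpa using congrArg Fin.val h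
    obtain ⟨x, hx⟩ := hπ (Matrix.single i j 1)
    obtain ⟨c, hc⟩ := hB x
    have h1 := h0 _ hc
    rw [map_sub, AlgHom.commutes, hx, sub_eq_zero] at h1
    have h2 := congrFun (congrFun h1 i) j
    rw [Matrix.single_apply_same, Matrix.algebraMap_matrix_apply, if_neg hij] at h2
    exact one_ne_zero h2
  · push Not at h0
    obtain ⟨u, hu, hu0⟩ := h0
    have hne : ∃ a b, π u a b ≠ 0 := by
      by_contra h
      push Not at h
      apply hu0
      ext a b
      exact h a b
    obtain ⟨a, b, hab⟩ := hne
    have hJs : ∀ M : Matrix (Fin d) (Fin d) E, ∃ v ∈ J, π v = M := by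
      intro M
      have h1 : ∀ p q : Fin d, ∃ v ∈ J, π v = Matrix.single p q (M p q) := by
        intro p q
        obtain ⟨r, hr⟩ := hπ (Matrix.single p a (M p q / π u a b))
        obtain ⟨s, hs⟩ := hπ (Matrix.single b q 1)
        refine ⟨r * u * s, hJ r u s hu, ?_⟩
        rw [map_mul, map_mul, hr, hs, Matrix.single_mul_mul_single]
        rw [mul_one, div_mul_cancel₀ _ hab]
      choose v hv hv' using h1
      refine ⟨∑ p, ∑ q, v p q, J.sum_mem fun p _ => J.sum_mem fun q _ => hv p q, ?_⟩
      rw [map_sum]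
      simp only [map_sum, hv']
      exact (Matrix.matrix_eq_sum_single M).symm
    obtain ⟨y, hy⟩ := hM
    apply hy
    apply j3_two (E := E) hd
    intro z
    choose v hv hv' using fun x => hJs (z x)
    have h2 := hf v hv
    have h3 : FreeAlgebra.lift K z = (π.restrictScalars K).comp (FreeAlgebra.lift K v) := by
      ext x
      simp [hv']
    rw [h3, AlgHom.comp_apply, h2, map_zero]

theorem cnil_of {K : Type u} [Field K] {E : Type u} [Field E] [IsAlgClosed E] [Algebra K E]
    {B : Type v} [Ring B] [Algebra E B] [FiniteDimensional E B] [Algebra K B]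
    [IsScalarTower K E B] {J : Submodule E B}
    (hJ : ∀ a u b : B, u ∈ J → a * u * b ∈ J)
    (hB : ∀ x : B, ∃ c : E, x - algebraMap E B c ∈ J) {X : Type} {f : FreeAlgebra K X}
    (hf : ∀ y : X → B, (∀ x, y x ∈ J) → FreeAlgebra.lift K y f = 0)
    (hM : ∃ y : X → Matrix (Fin 2) (Fin 2) K, FreeAlgebra.lift K y f ≠ 0) :
    ∃ m : ℕ, 0 < m ∧ CNil B m := by
  have hart : IsArtinianRing B := IsArtinianRing.of_finite E B
  have hfin : FiniteDimensional E (B ⧸ Ring.jacobson B) :=
    Module.Finite.of_surjective (Ideal.Quotient.mkₐ E (Ring.jacobson B)).toLinearMap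
      (Ideal.Quotient.mkₐ_surjective E (Ring.jacobson B))
  obtain ⟨n, d, -, ⟨e⟩⟩ :=
    IsSemisimpleRing.exists_algEquiv_pi_matrix_of_isAlgClosed E (B ⧸ Ring.jacobson B)
  have hd : ∀ i, d i < 2 := by
    intro i
    apply j3_surj hJ hB hf hM ((Pi.evalAlgHom E (fun i => Matrix (Fin (d i)) (Fin (d i)) E) i).comp
      (e.toAlgHom.comp (Ideal.Quotient.mkₐ E (Ring.jacobson B))))
    intro M
    classical
    obtain ⟨x, hx⟩ := e.surjective (Function.update 0 i M)
    obtain ⟨y, hy⟩ := Ideal.Quotient.mkₐ_surjective E (Ring.jacobson B) x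
    refine ⟨y, ?_⟩
    have : e (Ideal.Quotient.mkₐ E (Ring.jacobson B) y) i = M := by
      rw [hy, hx, Function.update_self]
    exact this
  have hcomm : ∀ x y : B, x * y - y * x ∈ Ring.jacobson B := by
    intro x y
    rw [← Ideal.Quotient.eq, map_mul, map_mul]
    apply e.injective
    rw [map_mul, map_mul]
    funext i
    have hs : Subsingleton (Fin (d i)) := Fin.subsingleton_iff_le_one.2 (by have := hd i; omega)
    ext a b
    rw [Pi.mul_apply, Pi.mul_apply, Matrix.mul_apply, Matrix.mul_apply]
    apply Finset.sum_congr rfl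
    intro k _
    rw [Subsingleton.elim k a, Subsingleton.elim b a, mul_comm]
  obtain ⟨m, hm⟩ := IsSemiprimaryRing.isNilpotent (R := B)
  refine ⟨m + 1, by omega, fun b x y => ?_⟩
  have h1 : (List.ofFn fun i : Fin (m + 1) => (x i * y i - y i * x i) * b i.succ).prod ∈
      Ring.jacobson B ^ (m + 1) := by
    have h2 := j3_list (I := Ring.jacobson B)
      (List.ofFn fun i : Fin (m + 1) => (x i * y i - y i * x i) * b i.succ) (by
        intro a ha
        rw [List.mem_ofFn] at ha
        obtain ⟨i, rfl⟩ := ha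
        exact Ideal.mul_mem_right _ _ (hcomm _ _))
    rwa [List.length_ofFn] at h2
  rw [Ideal.IsTwoSided.pow_succ, hm, mul_zero] at h1
  have h3 : (List.ofFn fun i : Fin (m + 1) => (x i * y i - y i * x i) * b i.succ).prod = 0 := by
    simpa using h1
  rw [h3, mul_zero]

end Pool.Agent.H.MP_f5ceca_al.G
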