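import Pool.Agent.H.MP_f5ceca_al.G.I1
import Pool.Agent.H.MP_f5ceca_al.G.B7
import Pool.Agent.H.MP_f5ceca_al.G.J1
import Pool.Agent.H.MP_f5ceca_al.G.J2
import Pool.Agent.H.MP_f5ceca_al.G.J3

/-!
Assembly: varieties, identities, and the decidability theorem under the representability hypothesis.
-/

namespace Pool.Agent.H.MP_f5ceca_al.G

open Pool.Agent.H.MP_f5ceca_al.Conv

universe u v w

/-- The (not necessarily unital) associative `K`-algebra `A` satisfies the polynomial identity
`f = 0`; the value of `f` is computed in the unitization of `A`. -/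
def IsIdentity {K : Type u} [Field K] {X : Type} (f : FreeAlgebra K X) (A : Type u)
    [NonUnitalRing A] [Module K A] [IsScalarTower K A A] [SMulCommClass K A A] : Prop :=
  ∀ v : X → A, FreeAlgebra.lift K (fun i => ((v i : A) : Unitization K A)) f = 0

/-- `A` belongs to the variety given by the set `S` of identities. -/
def Satisfies {K : Type u} [Field K] (S : Set (FreeAlgebra K ℕ)) (A : Type u)
    [NonUnitalRing A] [Module K A] [IsScalarTower K A A] [SMulCommClass K A A] : Prop :=
  ∀ f ∈ S, IsIdentity f A

/-- `A` satisfies the identities `x[y,z][t,u]v = 0` and `x[y,z,t]u = 0`. -/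
def IsW (A : Type u) [NonUnitalRing A] : Prop :=
  (∀ x y z t u v : A, x * (y * z - z * y) * (t * u - u * t) * v = 0) ∧
  (∀ x y z t u : A, x * ((y * z - z * y) * t - t * (y * z - z * y)) * u = 0)

/-- The variety given by `S` contains `W_K`. -/
def IncludesW {K : Type u} [Field K] (S : Set (FreeAlgebra K ℕ)) : Prop :=
  ∀ (A : Type u) [NonUnitalRing A] [Module K A] [IsScalarTower K A A] [SMulCommClass K A A],
    IsW A → Satisfies S A

/-- The identities in `k` variables of the variety given by `S`. -/
def identities {K : Type u} [Field K] (S : Set (FreeAlgebra K ℕ)) (k : ℕ) :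
    Set (FreeAlgebra K (Fin k)) :=
  {f | ∀ (A : Type u) [NonUnitalRing A] [Module K A] [IsScalarTower K A A]
    [SMulCommClass K A A], Satisfies S A → IsIdentity f A}

/-- Representability of the relatively free algebra of rank `k`: there is a finite-dimensional
algebra `B` over an algebraically closed field with an ideal `J` of codimension at most one in the
variety which has the same identities in `k` variables as the variety. -/
def LocRep {K : Type u} [Field K] (S : Set (FreeAlgebra K ℕ)) (k : ℕ) : Prop :=
  ∃ (E : Type u) (_ : Field E) (_ : IsAlgClosed E) (_ : Algebra K E) (B : Type u) (_ : Ring B)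
    (_ : Nontrivial B) (_ : Algebra E B) (_ : Algebra K B) (_ : IsScalarTower K E B)
    (J : Submodule E B),
    FiniteDimensional E B ∧ (∀ a u b : B, u ∈ J → a * u * b ∈ J) ∧
    (∀ x : B, ∃ c : E, x - algebraMap E B c ∈ J) ∧
    (∀ f ∈ S, ∀ y : ℕ → B, (∀ j, y j ∈ J) → FreeAlgebra.lift K y f = 0) ∧
    ∀ f : FreeAlgebra K (Fin k),
      (∀ y : Fin k → B, (∀ j, y j ∈ J) → FreeAlgebra.lift K y f = 0) → f ∈ identities S k

/-- The nonunital algebra given by an ideal. -/
def nus {K : Type u} [Field K] {E : Type u} [Field E] [Algebra K E] {B : Type u} [Ring B]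
    [Algebra E B] [Algebra K B] [IsScalarTower K E B] (J : Submodule E B)
    (hJ : ∀ a u b : B, u ∈ J → a * u * b ∈ J) : NonUnitalSubalgebra K B where
  carrier := J
  add_mem' := fun ha hb => J.add_mem ha hb
  zero_mem' := J.zero_mem
  mul_mem' := fun {a b} ha _ => by
    have := hJ 1 a b ha
    rwa [one_mul] at this
  smul_mem' := fun c x hx => by
    have := J.smul_mem (algebraMap K E c) hx
    rwa [algebraMap_smul] at this

/-- Evaluation in the unitization of an ideal and in the algebra. -/
theorem lift_nus {K : Type u} [Field K] {B : Type u} [Ring B] [Algebra K B] {X : Type}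
    (A : NonUnitalSubalgebra K B) (f : FreeAlgebra K X) (v : X → A) :
    Unitization.lift (NonUnitalSubalgebraClass.subtype A)
      (FreeAlgebra.lift K (fun i => ((v i : A) : Unitization K A)) f) =
      FreeAlgebra.lift K (fun i => (v i : B)) f := by
  have : (Unitization.lift (NonUnitalSubalgebraClass.subtype A)).comp
      (FreeAlgebra.lift K (fun i => ((v i : A) : Unitization K A))) =
      FreeAlgebra.lift K (fun i => (v i : B)) := by
    apply FreeAlgebra.hom_ext
    funext i
    simp
  exact DFunLike.congr_fun this f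

theorem vanish_of_identity {K : Type u} [Field K] {B : Type u} [Ring B] [Algebra K B] {X : Type}
    (A : NonUnitalSubalgebra K B) {f : FreeAlgebra K X} (hf : IsIdentity f A) (y : X → B)
    (hy : ∀ x, y x ∈ A) : FreeAlgebra.lift K y f = 0 := by
  have h := lift_nus A f fun i => ⟨y i, hy i⟩
  rw [hf, map_zero] at h
  exact h.symm

/-- The component in the field of a value is the constant term. -/
theorem lift_fst {K : Type u} [Field K] {A : Type u} [NonUnitalRing A] [Module K A]
    [IsScalarTower K A A] [SMulCommClass K A A] {X : Type} (f : FreeAlgebra K X) (v : X → A) :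
    (FreeAlgebra.lift K (fun i => ((v i : A) : Unitization K A)) f).fst =
      FreeAlgebra.algebraMapInv f := by
  have : (Unitization.fstHom K A).comp
      (FreeAlgebra.lift K (fun i => ((v i : A) : Unitization K A))) =
      FreeAlgebra.algebraMapInv := by
    apply FreeAlgebra.hom_ext
    funext i
    simp [FreeAlgebra.algebraMapInv]
  exact DFunLike.congr_fun this f

theorem identity_of_vanish {K : Type u} [Field K] {B : Type u} [Ring B] [Nontrivial B]
    [Algebra K B] {X : Type} (A : NonUnitalSubalgebra K B) {f : FreeAlgebra K X}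
    (hf : ∀ y : X → B, (∀ x, y x ∈ A) → FreeAlgebra.lift K y f = 0) : IsIdentity f A := by
  have h0 : FreeAlgebra.algebraMapInv f = 0 := by
    have h1 := hf (fun _ => 0) fun _ => A.zero_mem
    have h2 : FreeAlgebra.lift K (fun _ : X => (0 : B)) f =
        algebraMap K B (FreeAlgebra.algebraMapInv f) := by
      have : FreeAlgebra.lift K (fun _ : X => (0 : B)) =
          (Algebra.ofId K B).comp FreeAlgebra.algebraMapInv := by
        apply FreeAlgebra.hom_ext
        funext i
        simp [FreeAlgebra.algebraMapInv]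
      rw [this]
      rfl
    rw [h2] at h1
    exact (map_eq_zero_iff _ (algebraMap K B).injective).1 h1
  intro v
  have h1 := lift_nus A f v
  rw [hf _ fun x => (v x).2] at h1
  have h2 := lift_fst f v
  rw [h0] at h2
  set z := FreeAlgebra.lift K (fun i => ((v i : A) : Unitization K A)) f with hz
  have h3 : z = ((z.snd : A) : Unitization K A) := by
    apply Unitization.ext
    · rw [h2]; simp
    · simp
  rw [h3] at h1
  have h4 : (z.snd : B) = 0 := by simpa using h1
  rw [h3]
  have h5 : z.snd = 0 := Subtype.ext h4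
  rw [h5]
  simp

/-- The algebra inside its unitization. -/
def inrS (K : Type u) [Field K] (A : Type u) [NonUnitalRing A] [Module K A]
    [IsScalarTower K A A] [SMulCommClass K A A] : Submodule K (Unitization K A) :=
  LinearMap.ker (Unitization.fstHom K A).toLinearMap

theorem mem_inrS {K : Type u} [Field K] {A : Type u} [NonUnitalRing A] [Module K A]
    [IsScalarTower K A A] [SMulCommClass K A A] {x : Unitization K A} :
    x ∈ inrS K A ↔ x.fst = 0 := by
  simp [inrS]

theorem eq_inr {K : Type u} [Field K] {A : Type u} [NonUnitalRing A] [Module K A]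
    [IsScalarTower K A A] [SMulCommClass K A A] {x : Unitization K A} (hx : x ∈ inrS K A) :
    ∃ a : A, x = (a : Unitization K A) := by
  refine ⟨x.snd, ?_⟩
  rw [mem_inrS] at hx
  apply Unitization.ext
  · rw [hx]; simp
  · simp

theorem includesW_of_wcond {K : Type u} [Field K] [CharZero K] {S : Set (FreeAlgebra K ℕ)}
    (h : ∀ f ∈ S, WCond f) : IncludesW S := by
  intro A _ _ _ _ hA f hf v
  refine vanish_of_wcond (J := inrS K A) ?_ ?_ ?_ (h f hf) _ ?_
  · intro a u b hu
    rw [mem_inrS] at hu ⊢
    simp [hu]
  · intro x hx y hy z hz t ht u hu v hv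
    obtain ⟨x, rfl⟩ := eq_inr hx
    obtain ⟨y, rfl⟩ := eq_inr hy
    obtain ⟨z, rfl⟩ := eq_inr hz
    obtain ⟨t, rfl⟩ := eq_inr ht
    obtain ⟨u, rfl⟩ := eq_inr hu
    obtain ⟨v, rfl⟩ := eq_inr hv
    have := hA.1 x y z t u v
    have h1 := congrArg (fun a : A => (a : Unitization K A)) this
    simpa using h1
  · intro x hx y hy z hz t ht u hu
    obtain ⟨x, rfl⟩ := eq_inr hx
    obtain ⟨y, rfl⟩ := eq_inr hy
    obtain ⟨z, rfl⟩ := eq_inr hz
    obtain ⟨t, rfl⟩ := eq_inr ht
    obtain ⟨u, rfl⟩ := eq_inr hu
    have := hA.2 x y z t u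
    have h1 := congrArg (fun a : A => (a : Unitization K A)) this
    simpa using h1
  · intro x
    rw [mem_inrS]
    simp

theorem star_of_not_includesW {K : Type u} [Field K] [CharZero K] {S : Set (FreeAlgebra K ℕ)}
    (hW : ¬ IncludesW S) {E : Type u} [Field E] [Algebra K E] {B : Type u} [Ring B]
    [Algebra E B] [Algebra K B] [IsScalarTower K E B] {J : Submodule E B}
    (hJ : ∀ a u b : B, u ∈ J → a * u * b ∈ J)
    (hS : ∀ f ∈ S, ∀ y : ℕ → B, (∀ j, y j ∈ J) → FreeAlgebra.lift K y f = 0) : Alg E B J := by
  refine ⟨hJ, fun e heJ he => ?_⟩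
  by_contra hs
  apply hW
  apply includesW_of_wcond
  intro f hf
  exact wcond_of_not_star (J := J.restrictScalars K) hJ (hS f hf) heJ he hs

/-- The ideal generated by identities and relators. -/
theorem mem_span_iff_sup {K : Type u} [Field K] {n : ℕ} {T : Submodule K (FA K n)}
    (hT : IsTSI T) (R : Set (FA K n)) (x : FA K n) :
    x ∈ TwoSidedIdeal.span ((T : Set (FA K n)) ∪ R) ↔ x ∈ T ⊔ tspan K R := by
  have htsi : IsTSI (T ⊔ tspan K R) := by
    intro a u b hu
    obtain ⟨t, ht, r, hr, rfl⟩ := Submodule.mem_sup.1 hu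
    rw [mul_add, add_mul]
    refine Submodule.add_mem_sup (hT a t b ht) ?_
    induction hr using Submodule.span_induction with
    | mem r hr =>
      obtain ⟨c, d, g, hg, rfl⟩ := hr
      exact Submodule.subset_span ⟨a * c, d * b, g, hg, by simp only [mul_assoc]⟩
    | zero => simp
    | add x y _ _ hx hy =>
      rw [mul_add, add_mul]
      exact Submodule.add_mem _ (hx (Submodule.add_mem_sup ht (by assumption)))
        (hy (Submodule.add_mem_sup ht (by assumption)))
    | smul c x _ hx =>
      rw [mul_smul_comm, smul_mul_assoc]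
      exact Submodule.smul_mem _ _ (hx (Submodule.add_mem_sup ht (by assumption)))
  constructor
  · intro hx
    let I : TwoSidedIdeal (FA K n) := TwoSidedIdeal.mk' (T ⊔ tspan K R : Submodule K (FA K n))
      (Submodule.zero_mem _) (fun h1 h2 => Submodule.add_mem _ h1 h2)
      (fun h => Submodule.neg_mem _ h)
      (fun {a b} h => by simpa using htsi a b 1 h)
      (fun {a b} h => by simpa using htsi 1 a b h)
    have hI : ∀ y, y ∈ I ↔ y ∈ T ⊔ tspan K R := fun y => by
      simp [I, TwoSidedIdeal.mem_mk']
    rw [← hI]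
    refine (TwoSidedIdeal.span_le.2 ?_) hx
    rintro y (hy | hy)
    · exact (hI y).2 (Submodule.mem_sup_left hy)
    · refine (hI y).2 (Submodule.mem_sup_right (Submodule.subset_span ⟨1, 1, y, hy, by simp⟩))
  · intro hx
    obtain ⟨t, ht, r, hr, rfl⟩ := Submodule.mem_sup.1 hx
    refine TwoSidedIdeal.add_mem _ (TwoSidedIdeal.subset_span (Or.inl ht)) ?_
    clear hx
    induction hr using Submodule.span_induction with
    | mem r hr =>
      obtain ⟨c, d, g, hg, rfl⟩ := hr
      exact TwoSidedIdeal.mul_mem_right _ _ _ (TwoSidedIdeal.mul_mem_left _ _ _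
        (TwoSidedIdeal.subset_span (Or.inr hg)))
    | zero => exact TwoSidedIdeal.zero_mem _
    | add x y _ _ hx hy =>
      exact TwoSidedIdeal.add_mem _ hx hy
    | smul c x _ hx =>
      rw [Algebra.smul_def]
      exact TwoSidedIdeal.mul_mem_left _ _ _ hx

end Pool.Agent.H.MP_f5ceca_al.G
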