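import Pool.Agent.H.MP_f5ceca_al.G.Defs

/-!
Job A0: basic facts on `P2`, `evz`, coefficient extraction.
-/

namespace Pool.Agent.H.MP_f5ceca_al.G

universe u v w

section
variable {K : Type u} [Field K] {A : Type v} [Ring A] [Algebra K A]

/-- Evaluation of the variable of a polynomial over a (noncommutative) algebra at a scalar. -/
noncomputable def sev1 (l : K) : Polynomial A →+* A :=
  Polynomial.eval₂RingHom' (RingHom.id A) (algebraMap K A l)
    (fun a => (Algebra.commutes l a).symm)

/-- Evaluation of both variables `lv ↦ l`, `rv ↦ r` at scalars. -/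
noncomputable def sev (l r : K) : P2 A →+* A := (sev1 (A := A) l).comp (sev1 (A := Polynomial A) r)

theorem a0_sev1_C (l : K) (a : A) : sev1 l (Polynomial.C a) = a := by
  simp [sev1, Polynomial.eval₂RingHom'_apply]

theorem a0_sev1_X (l : K) : sev1 l (Polynomial.X : Polynomial A) = algebraMap K A l := by
  simp [sev1, Polynomial.eval₂RingHom'_apply]

theorem a0_algebraMap (c : K) : algebraMap K (P2 A) c = em (algebraMap K A c) := by
  simp [em, Polynomial.algebraMap_apply]

theorem a0_algebraMap1 (c : K) :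
    algebraMap K (Polynomial A) c = Polynomial.C (algebraMap K A c) := by
  simp [Polynomial.algebraMap_apply]

theorem sev_em (l r : K) (a : A) : sev l r (em a) = a := by
  show sev1 l (sev1 r (Polynomial.C (Polynomial.C a))) = a
  rw [a0_sev1_C, a0_sev1_C]

theorem sev_lv (l r : K) : sev l r (lv A) = algebraMap K A l := by
  show sev1 l (sev1 r (Polynomial.C Polynomial.X)) = _
  rw [a0_sev1_C, a0_sev1_X]

theorem sev_rv (l r : K) : sev l r (rv A) = algebraMap K A r := by
  show sev1 l (sev1 r Polynomial.X) = _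
  rw [a0_sev1_X, a0_algebraMap1, a0_sev1_C]

theorem sev_smul (l r c : K) (P : P2 A) : sev l r (c • P) = c • sev l r P := by
  rw [Algebra.smul_def, map_mul, a0_algebraMap, sev_em, Algebra.smul_def]

/-- `sev` as a double sum of coefficients -/
theorem sev_sum (l r : K) (P : P2 A) :
    sev l r P = P.sum fun s Q => Q.sum fun p a => (l ^ p * r ^ s) • a := by
  have h1 : ∀ (l : K) (Q : Polynomial A), sev1 l Q = Q.sum fun p a => l ^ p • a := by
    intro l Q
    have : sev1 l Q = Q.sum fun p a => a * (algebraMap K A l) ^ p := by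
      show Polynomial.eval₂ (RingHom.id A) (algebraMap K A l) Q = _
      rw [Polynomial.eval₂_eq_sum]
      rfl
    rw [this]
    unfold Polynomial.sum
    refine Finset.sum_congr rfl fun p _ => ?_
    show Q.coeff p * (algebraMap K A) l ^ p = l ^ p • Q.coeff p
    rw [Algebra.smul_def, Algebra.commutes, map_pow]
  have h2 : sev l r P = sev1 l (P.sum fun s Q => Q * (algebraMap K (Polynomial A) r) ^ s) := by
    show sev1 l (Polynomial.eval₂ (RingHom.id (Polynomial A)) (algebraMap K (Polynomial A) r) P) = _
    rw [Polynomial.eval₂_eq_sum]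
    rfl
  rw [h2]
  unfold Polynomial.sum
  rw [map_sum]
  refine Finset.sum_congr rfl fun s _ => ?_
  rw [map_mul, map_pow, a0_algebraMap1, a0_sev1_C, h1]
  unfold Polynomial.sum
  rw [Finset.sum_mul]
  refine Finset.sum_congr rfl fun p _ => ?_
  rw [← map_pow, ← Algebra.commutes, ← Algebra.smul_def, smul_smul, mul_comm]

theorem lv_comm (P : P2 A) : lv A * P = P * lv A := by
  unfold lv
  ext s : 1
  rw [Polynomial.coeff_C_mul, Polynomial.coeff_mul_C, Polynomial.X_mul]

theorem rv_comm (P : P2 A) : rv A * P = P * rv A := Polynomial.X_mul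

theorem a0_mono (a : A) (p s : ℕ) :
    em a * lv A ^ p * rv A ^ s = Polynomial.monomial s (Polynomial.monomial p a) := by
  have h1 : em a * lv A ^ p = Polynomial.C (Polynomial.monomial p a) := by
    rw [← Polynomial.C_mul_X_pow_eq_monomial, map_mul, map_pow]
    rfl
  rw [h1]
  exact Polynomial.C_mul_X_pow_eq_monomial

/-- Induction principle (auxiliary copy). -/
theorem a0_ind {motive : P2 A → Prop} (P : P2 A)
    (h1 : ∀ (a : A) (p s : ℕ), motive (em a * lv A ^ p * rv A ^ s))
    (h2 : ∀ P Q, motive P → motive Q → motive (P + Q)) : motive P := by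
  refine Polynomial.induction_on' (motive := motive) P (fun P Q => h2 P Q) ?_
  intro s Q
  refine Polynomial.induction_on' (motive := fun Q => motive (Polynomial.monomial s Q)) Q ?_ ?_
  · intro Q Q' hQ hQ'
    rw [map_add]
    exact h2 _ _ hQ hQ'
  · intro p a
    rw [← a0_mono]
    exact h1 a p s

theorem a0_evz_sum (z : A) (P : P2 A) :
    evz K z P = P.sum fun s Q => Q.sum fun p a => z ^ p * a * z ^ s := by
  unfold evz
  rw [Polynomial.lsum_apply]
  unfold Polynomial.sum
  refine Finset.sum_congr rfl fun s _ => ?_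
  show (LinearMap.mulRight K (z ^ s)) ((Polynomial.lsum fun p => LinearMap.mulLeft K (z ^ p))
    (P.coeff s)) = _
  rw [Polynomial.lsum_apply]
  unfold Polynomial.sum
  rw [map_sum]
  refine Finset.sum_congr rfl fun p _ => ?_
  rfl

theorem a0_evz_mono (z a : A) (p s : ℕ) :
    evz K z (em a * lv A ^ p * rv A ^ s) = z ^ p * a * z ^ s := by
  rw [a0_mono, a0_evz_sum, Polynomial.sum_monomial_index _ _ (by simp),
    Polynomial.sum_monomial_index _ _ (by simp)]

theorem evz_em (z a : A) : evz K z (em a) = a := by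
  have := a0_evz_mono (K := K) z a 0 0
  simpa using this

theorem evz_lv_mul (z : A) (P : P2 A) : evz K z (lv A * P) = z * evz K z P := by
  refine a0_ind (motive := fun P => evz K z (lv A * P) = z * evz K z P) P ?_ ?_
  · intro a p s
    have h : lv A * (em a * lv A ^ p * rv A ^ s) = em a * lv A ^ (p + 1) * rv A ^ s := by
      rw [← mul_assoc, ← mul_assoc, lv_comm (em a), mul_assoc (em a), ← pow_succ']
    rw [h, a0_evz_mono, a0_evz_mono, pow_succ']
    simp only [mul_assoc]
  · intro P Q hP hQ
    rw [mul_add, map_add, map_add, hP, hQ, mul_add]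

theorem evz_rv_mul (z : A) (P : P2 A) : evz K z (rv A * P) = evz K z P * z := by
  refine a0_ind (motive := fun P => evz K z (rv A * P) = evz K z P * z) P ?_ ?_
  · intro a p s
    have h : rv A * (em a * lv A ^ p * rv A ^ s) = em a * lv A ^ p * rv A ^ (s + 1) := by
      rw [rv_comm, mul_assoc, ← pow_succ]
    rw [h, a0_evz_mono, a0_evz_mono, pow_succ]
    simp only [mul_assoc]
  · intro P Q hP hQ
    rw [mul_add, map_add, map_add, hP, hQ, add_mul]

/-- if `a` commutes with `z` then left multiplication by `a` comes out -/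
theorem evz_em_mul (z a : A) (h : a * z = z * a) (P : P2 A) :
    evz K z (em a * P) = a * evz K z P := by
  refine a0_ind (motive := fun P => evz K z (em a * P) = a * evz K z P) P ?_ ?_
  · intro b p s
    have h' : em a * (em b * lv A ^ p * rv A ^ s) = em (a * b) * lv A ^ p * rv A ^ s := by
      rw [map_mul]
      simp only [mul_assoc]
    rw [h', a0_evz_mono, a0_evz_mono]
    have h2 : z ^ p * a = a * z ^ p := ((show Commute a z from h).pow_right p).symm
    rw [← mul_assoc (z ^ p) a b, h2]
    simp only [mul_assoc]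
  · intro P Q hP hQ
    rw [mul_add, map_add, map_add, hP, hQ, mul_add]

theorem evz_mul_em (z a : A) (h : a * z = z * a) (P : P2 A) :
    evz K z (P * em a) = evz K z P * a := by
  refine a0_ind (motive := fun P => evz K z (P * em a) = evz K z P * a) P ?_ ?_
  · intro b p s
    have h' : em b * lv A ^ p * rv A ^ s * em a = em (b * a) * lv A ^ p * rv A ^ s := by
      have e1 : rv A ^ s * em a = em a * rv A ^ s :=
        (show Commute (rv A) (em a) from rv_comm (em a)).pow_left s
      have e2 : lv A ^ p * em a = em a * lv A ^ p :=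
        (show Commute (lv A) (em a) from lv_comm (em a)).pow_left p
      rw [mul_assoc, e1, ← mul_assoc, mul_assoc (em b), e2, map_mul]
      simp only [mul_assoc]
    rw [h', a0_evz_mono, a0_evz_mono]
    have h2 : z ^ s * a = a * z ^ s := ((show Commute a z from h).pow_right s).symm
    rw [mul_assoc (z ^ p * b) (z ^ s) a, h2]
    simp only [mul_assoc]
  · intro P Q hP hQ
    rw [add_mul, map_add, map_add, hP, hQ, add_mul]

/-- `evz` as a double sum of coefficients -/
theorem evz_sum (z : A) (P : P2 A) :
    evz K z P = P.sum fun s Q => Q.sum fun p a => z ^ p * a * z ^ s := a0_evz_sum z P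

/-- Induction principle: every element of `P2 A` is a sum of elements `em a * l ^ p * r ^ s`. -/
theorem P2_induction {motive : P2 A → Prop} (P : P2 A)
    (h1 : ∀ (a : A) (p s : ℕ), motive (em a * lv A ^ p * rv A ^ s))
    (h2 : ∀ P Q, motive P → motive Q → motive (P + Q)) : motive P := a0_ind P h1 h2

theorem a0_vd [Infinite K] {W : Type v} [AddCommGroup W] [Module K W] (S : Submodule K W)
    (T : Finset ℕ) (g : ℕ → W) (h : ∀ t : K, (∑ i ∈ T, t ^ i • g i) ∈ S) {i : ℕ} (hi : i ∈ T) :
    g i ∈ S := by
  classical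
  rw [← Submodule.Quotient.mk_eq_zero S, ← Submodule.mkQ_apply,
    ← Module.forall_dual_apply_eq_zero_iff K]
  intro φ
  set q : Polynomial K := ∑ i ∈ T, Polynomial.monomial i (φ (S.mkQ (g i))) with hq
  have h0 : q = 0 := by
    apply Polynomial.funext
    intro t
    rw [Polynomial.eval_zero, hq, Polynomial.eval_finsetSum]
    have h1 := (Submodule.Quotient.mk_eq_zero S).2 (h t)
    rw [← Submodule.mkQ_apply, map_sum] at h1
    have h2 := congrArg φ h1
    rw [map_sum, map_zero] at h2
    rw [← h2]
    refine Finset.sum_congr rfl fun j _ => ?_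
    rw [Polynomial.eval_monomial, map_smul, map_smul, smul_eq_mul, mul_comm]
  have h3 : q.coeff i = φ (S.mkQ (g i)) := by
    rw [hq, Polynomial.finsetSum_coeff]
    simp only [Polynomial.coeff_monomial]
    rw [Finset.sum_ite_eq' T i, if_pos hi]
  rw [← h3, h0, Polynomial.coeff_zero]

/-- Coefficients of a polynomial function with values in a subspace (`K` infinite): apply a linear
functional which vanishes on `S` (i.e. work in `W ⧸ S`) and use that a polynomial over `K` which
vanishes everywhere is zero. -/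
theorem vd [Infinite K] {W : Type v} [AddCommGroup W] [Module K W] (S : Submodule K W)
    (f : ℕ →₀ W) (h : ∀ t : K, (f.sum fun i a => t ^ i • a) ∈ S) (i : ℕ) : f i ∈ S := by
  by_cases hi : i ∈ f.support
  · exact a0_vd S f.support f h hi
  · rw [Finsupp.notMem_support_iff.1 hi]
    exact S.zero_mem

/-- All coefficients of `P` are in `S` if all values at scalars are in `S`. (Use `vd` twice.) -/
theorem coef_mem [Infinite K] (S : Submodule K A) (P : P2 A) (h : ∀ l r : K, sev l r P ∈ S)
    (p s : ℕ) : (P.coeff s).coeff p ∈ S := by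
  by_cases hs : s ∈ P.support
  · by_cases hp : p ∈ (P.coeff s).support
    · refine a0_vd S (P.coeff s).support (fun p => (P.coeff s).coeff p) ?_ hp
      intro l
      refine a0_vd S P.support
        (fun s => ∑ p ∈ (P.coeff s).support, l ^ p • (P.coeff s).coeff p) ?_ hs
      intro r
      have h1 := h l r
      rw [sev_sum] at h1
      unfold Polynomial.sum at h1
      refine Eq.mp ?_ h1
      congr 1
      refine Finset.sum_congr rfl fun s _ => ?_
      rw [Finset.smul_sum]
      refine Finset.sum_congr rfl fun p _ => ?_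
      rw [smul_smul, mul_comm]
    · rw [Polynomial.notMem_support_iff.1 hp]
      exact S.zero_mem
  · rw [Polynomial.notMem_support_iff.1 hs, Polynomial.coeff_zero]
    exact S.zero_mem

/-- The extraction property for products: in a commutative algebra
`∑_j c s j ∏_i (1 + j D_i)` is the elementary symmetric function `e_s(D)`. Expand the product
(`Finset.prod_one_add` or `Finset.prod_add`), collect the powers of `j`, use `Extr`
(all sets have at most `k ≤ m` elements). -/
theorem extr_prod {R : Type v} [CommRing R] [Algebra K R] {m : ℕ} {cc : ℕ → ℕ → K}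
    (hcc : Extr K m cc) {k : ℕ} (hk : k ≤ m) (D : Fin k → R) {s : ℕ} (hs : s ≤ m) :
    ∑ j ∈ Finset.range (m + 1), cc s j • ∏ i : Fin k, (1 + (j : K) • D i) =
      ∑ t ∈ Finset.powersetCard s (Finset.univ : Finset (Fin k)), ∏ i ∈ t, D i := by
  classical
  have h1 : ∀ j : ℕ, ∏ i : Fin k, (1 + (j : K) • D i) =
      ∑ t ∈ (Finset.univ : Finset (Fin k)).powerset, ((j : K) ^ t.card) • ∏ i ∈ t, D i := by
    intro j
    rw [Finset.prod_one_add]
    refine Finset.sum_congr rfl fun t _ => ?_
    simp only [Algebra.smul_def]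
    rw [Finset.prod_mul_distrib, Finset.prod_const, map_pow]
  simp only [h1, Finset.smul_sum]
  rw [Finset.sum_comm, Finset.powersetCard_eq_filter, Finset.sum_filter]
  refine Finset.sum_congr rfl fun t _ => ?_
  have ht : t.card ≤ m := by
    have := Finset.card_le_univ t
    rw [Fintype.card_fin] at this
    omega
  have h2 := hcc s hs t.card ht
  have h3 : ∑ x ∈ Finset.range (m + 1), cc s x • ((x : K) ^ t.card) • ∏ i ∈ t, D i =
      (∑ x ∈ Finset.range (m + 1), cc s x * (x : K) ^ t.card) • ∏ i ∈ t, D i := by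
    rw [Finset.sum_smul]
    refine Finset.sum_congr rfl fun x _ => ?_
    rw [smul_smul]
  rw [h3, h2]
  by_cases h4 : s = t.card
  · rw [if_pos h4, if_pos h4.symm, one_smul]
  · rw [if_neg h4, if_neg (fun h => h4 h.symm), zero_smul]

end

/-- Existence of the numbers `c s j` (Vandermonde matrix of `0, 1, ..., m`, characteristic 0). -/
theorem extr_exists (K : Type u) [Field K] [CharZero K] (m : ℕ) :
    ∃ cc : ℕ → ℕ → K, Extr K m cc := by
  classical
  set V : Matrix (Fin (m + 1)) (Fin (m + 1)) K :=
    Matrix.vandermonde (fun j : Fin (m + 1) => ((j : ℕ) : K)) with hV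
  have hdet : V.det ≠ 0 := by
    rw [hV, Matrix.det_vandermonde_ne_zero_iff]
    intro a b hab
    exact Fin.ext (Nat.cast_injective hab)
  have hinv : V⁻¹ * V = 1 := Matrix.nonsing_inv_mul V (isUnit_iff_ne_zero.2 hdet)
  obtain ⟨U, hU⟩ : ∃ U : Fin (m + 1) → Fin (m + 1) → K, ∀ i j, U i j = V⁻¹ i j :=
    ⟨fun i j => V⁻¹ i j, fun _ _ => rfl⟩
  refine ⟨fun s j => if h : s < m + 1 ∧ j < m + 1 then U ⟨s, h.1⟩ ⟨j, h.2⟩ else 0, ?_⟩
  intro s hs t ht
  have hs' : s < m + 1 := by omega
  have ht' : t < m + 1 := by omega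
  have h1 := congrFun (congrFun hinv ⟨s, hs'⟩) ⟨t, ht'⟩
  rw [Matrix.mul_apply, Matrix.one_apply] at h1
  rw [Finset.sum_range]
  have h2 : (if s = t then (1 : K) else 0) =
      if (⟨s, hs'⟩ : Fin (m + 1)) = ⟨t, ht'⟩ then 1 else 0 := by
    simp only [Fin.mk.injEq]
  rw [h2, ← h1]
  refine Finset.sum_congr rfl fun j _ => ?_
  have h3 : (if h : s < m + 1 ∧ (j : ℕ) < m + 1 then U ⟨s, h.1⟩ ⟨j, h.2⟩ else 0) =
      V⁻¹ ⟨s, hs'⟩ j := by
    rw [dif_pos ⟨hs', j.2⟩, hU]
  have h4 : V j ⟨t, ht'⟩ = ((j : ℕ) : K) ^ t := by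
    rw [hV, Matrix.vandermonde_apply]
  show (if h : s < m + 1 ∧ (j : ℕ) < m + 1 then U ⟨s, h.1⟩ ⟨j, h.2⟩ else 0) * ((j : ℕ) : K) ^ t = _
  rw [h3, h4]

end Pool.Agent.H.MP_f5ceca_al.G
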