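import Pool.Agent.H.MP_f5ceca_al.G.Defs

/-!
Job A1: the filtration `Fil` by the powers of the commutator ideal of the free algebra.

Useful: the cons form `NW b c = b 0 * cm (c 0) * NW (Fin.tail b) (Fin.tail c)` for `k + 1`
(`List.ofFn_succ`), and induction on `k`.
-/

namespace Pool.Agent.H.MP_f5ceca_al.G

universe u v w

variable {K : Type u} [Field K] {n : ℕ}

theorem NW_mem {k : ℕ} (b : Fin (k + 1) → FA K n) (c : Fin k → Fin n × Fin n) :
    NW b c ∈ Fil K n k := Submodule.subset_span ⟨b, c, rfl⟩

theorem NW_zero (b : Fin 1 → FA K n) (c : Fin 0 → Fin n × Fin n) : NW b c = b 0 := by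
  rw [NW, List.ofFn_zero, List.prod_nil, mul_one]

theorem NW_cons {k : ℕ} (b : Fin (k + 2) → FA K n) (c : Fin (k + 1) → Fin n × Fin n) :
    NW b c = b 0 * cm K (c 0) * NW (fun i => b i.succ) (fun i => c i.succ) := by
  rw [NW, NW, List.ofFn_succ, List.prod_cons]
  simp only [mul_assoc]

theorem NW_left {k : ℕ} (a : FA K n) (b : Fin (k + 1) → FA K n) (c : Fin k → Fin n × Fin n) :
    a * NW b c = NW (Function.update b 0 (a * b 0)) c := by
  rw [NW, NW, Function.update_self, ← mul_assoc]
  congr 3

theorem NW_right {k : ℕ} (a : FA K n) (b : Fin (k + 1) → FA K n) (c : Fin k → Fin n × Fin n) :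
    NW b c * a = NW (Function.update b (Fin.last k) (b (Fin.last k) * a)) c := by
  induction k with
  | zero =>
    rw [NW_zero, NW_zero]
    have h : (Fin.last 0 : Fin 1) = 0 := rfl
    rw [h, Function.update_self]
  | succ k ih =>
    rw [NW_cons, NW_cons, mul_assoc (b 0 * cm K (c 0)), ih]
    have h0 : Function.update b (Fin.last (k + 1)) (b (Fin.last (k + 1)) * a) 0 = b 0 :=
      Function.update_of_ne (Fin.last_pos).ne _ _
    have h1 : (fun i : Fin (k + 1) => Function.update b (Fin.last (k + 1))
        (b (Fin.last (k + 1)) * a) i.succ) =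
        Function.update (fun i : Fin (k + 1) => b i.succ) (Fin.last k)
          (b (Fin.last k).succ * a) := by
      funext i
      by_cases hi : i = Fin.last k
      · subst hi
        rw [Function.update_self, Fin.succ_last, Function.update_self]
      · rw [Function.update_of_ne hi, Function.update_of_ne]
        intro h
        apply hi
        rw [← Fin.succ_last] at h
        exact Fin.succ_injective _ h
    rw [h0, h1]

theorem Fil_zero : Fil K n 0 = ⊤ := by
  rw [eq_top_iff]
  intro x _
  have h := NW_mem (K := K) (n := n) (k := 0) (fun _ => x) (fun i => i.elim0)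
  rwa [NW_zero] at h

theorem Fil_tsi (k : ℕ) : IsTSI (Fil K n k) := by
  intro a u b hu
  induction hu using Submodule.span_induction with
  | mem x hx =>
    obtain ⟨b', c, rfl⟩ := hx
    rw [NW_left, NW_right]
    exact NW_mem _ _
  | zero =>
    rw [mul_zero, zero_mul]
    exact Submodule.zero_mem _
  | add x y _ _ hx hy =>
    rw [mul_add, add_mul]
    exact Submodule.add_mem _ hx hy
  | smul r x _ hx =>
    rw [mul_smul_comm, smul_mul_assoc]
    exact Submodule.smul_mem _ _ hx

theorem a1_left {k : ℕ} (a : FA K n) {u : FA K n} (hu : u ∈ Fil K n k) : a * u ∈ Fil K n k := by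
  have h := Fil_tsi k a u 1 hu
  rwa [mul_one] at h

theorem a1_right {k : ℕ} (a : FA K n) {u : FA K n} (hu : u ∈ Fil K n k) : u * a ∈ Fil K n k := by
  have h := Fil_tsi k 1 u a hu
  rwa [one_mul] at h

/-- `b_0 [x, y] h` is in `Fil (k + 1)` if `h` is in `Fil k` (span induction, `NW_cons`). -/
theorem cm_mul_mem {k : ℕ} (b : FA K n) (c : Fin n × Fin n) {h : FA K n} (hh : h ∈ Fil K n k) :
    b * cm K c * h ∈ Fil K n (k + 1) := by
  induction hh using Submodule.span_induction with
  | mem x hx =>
    obtain ⟨b', c', rfl⟩ := hx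
    have h1 := NW_cons (K := K) (n := n) (k := k) (Fin.cons b b') (Fin.cons c c')
    have h2 : b * cm K c * NW b' c' = NW (Fin.cons b b' : Fin (k + 2) → FA K n)
        (Fin.cons c c' : Fin (k + 1) → Fin n × Fin n) := h1.symm
    rw [h2]
    exact NW_mem _ _
  | zero =>
    rw [mul_zero]
    exact Submodule.zero_mem _
  | add x y _ _ hx hy =>
    rw [mul_add]
    exact Submodule.add_mem _ hx hy
  | smul r x _ hx =>
    rw [mul_smul_comm]
    exact Submodule.smul_mem _ _ hx

theorem Fil_succ_le (k : ℕ) : Fil K n (k + 1) ≤ Fil K n k := by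
  unfold Fil
  rw [Submodule.span_le]
  rintro x ⟨b, c, rfl⟩
  rw [NW_cons]
  exact a1_left _ (NW_mem _ _)

theorem Fil_anti {j k : ℕ} (h : j ≤ k) : Fil K n k ≤ Fil K n j :=
  antitone_nat_of_succ_le (fun k => Fil_succ_le (K := K) (n := n) k) h

/-- Span induction on the first factor, then induction on `a` with `NW_cons`, `cm_mul_mem`. -/
theorem Fil_mul {a b : ℕ} {x y : FA K n} (hx : x ∈ Fil K n a) (hy : y ∈ Fil K n b) :
    x * y ∈ Fil K n (a + b) := by
  have key : ∀ (a : ℕ) (b' : Fin (a + 1) → FA K n) (c : Fin a → Fin n × Fin n),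
      NW b' c * y ∈ Fil K n (a + b) := by
    intro a
    induction a with
    | zero =>
      intro b' c
      rw [NW_zero, zero_add]
      exact a1_left _ hy
    | succ a ih =>
      intro b' c
      rw [NW_cons, mul_assoc (b' 0 * cm K (c 0))]
      have h1 : a + 1 + b = a + b + 1 := by ring
      rw [h1]
      exact cm_mul_mem _ _ (ih _ _)
  induction hx using Submodule.span_induction with
  | mem x hx =>
    obtain ⟨b', c, rfl⟩ := hx
    exact key a b' c
  | zero =>
    rw [zero_mul]
    exact Submodule.zero_mem _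
  | add x y _ _ hx hy =>
    rw [add_mul]
    exact Submodule.add_mem _ hx hy
  | smul r x _ hx =>
    rw [smul_mul_assoc]
    exact Submodule.smul_mem _ _ hx

/-- `FreeAlgebra.induction` on both arguments, `[ab, c] = a[b, c] + [a, c]b`. -/
theorem comm_mem (a b : FA K n) : a * b - b * a ∈ Fil K n 1 := by
  revert b
  induction a using FreeAlgebra.induction with
  | grade0 r =>
    intro b
    rw [Algebra.commutes, sub_self]
    exact Submodule.zero_mem _
  | grade1 i =>
    intro b
    induction b using FreeAlgebra.induction with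
    | grade0 r =>
      rw [Algebra.commutes, sub_self]
      exact Submodule.zero_mem _
    | grade1 j =>
      have h := cm_mul_mem (K := K) (n := n) (k := 0) 1 (i, j) (h := 1)
        (by rw [Fil_zero]; exact Submodule.mem_top)
      rw [one_mul, mul_one] at h
      exact h
    | mul x y hx hy =>
      have h : FreeAlgebra.ι K i * (x * y) - x * y * FreeAlgebra.ι K i =
          (FreeAlgebra.ι K i * x - x * FreeAlgebra.ι K i) * y +
            x * (FreeAlgebra.ι K i * y - y * FreeAlgebra.ι K i) := by noncomm_ring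
      rw [h]
      exact Submodule.add_mem _ (a1_right _ hx) (a1_left _ hy)
    | add x y hx hy =>
      have h : FreeAlgebra.ι K i * (x + y) - (x + y) * FreeAlgebra.ι K i =
          (FreeAlgebra.ι K i * x - x * FreeAlgebra.ι K i) +
            (FreeAlgebra.ι K i * y - y * FreeAlgebra.ι K i) := by noncomm_ring
      rw [h]
      exact Submodule.add_mem _ hx hy
  | mul x y hx hy =>
    intro b
    have h : x * y * b - b * (x * y) = x * (y * b - b * y) + (x * b - b * x) * y := by
      noncomm_ring
    rw [h]
    exact Submodule.add_mem _ (a1_left _ (hy b)) (a1_right _ (hx b))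
  | add x y hx hy =>
    intro b
    have h : (x + y) * b - b * (x + y) = (x * b - b * x) + (y * b - b * y) := by
      noncomm_ring
    rw [h]
    exact Submodule.add_mem _ (hx b) (hy b)

theorem Fil_comm {k : ℕ} {x : FA K n} (hx : x ∈ Fil K n k) (y : FA K n) :
    x * y - y * x ∈ Fil K n k := Submodule.sub_mem _ (a1_right _ hx) (a1_left _ hx)

/-- Telescoping, induction on `k` with `NW_cons`, using `Fil_mul`. -/
theorem NW_congr {k : ℕ} (b b' : Fin (k + 1) → FA K n) (c : Fin k → Fin n × Fin n)
    (h : ∀ i, b i - b' i ∈ Fil K n 1) : NW b c - NW b' c ∈ Fil K n (k + 1) := by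
  induction k with
  | zero =>
    rw [NW_zero, NW_zero]
    exact h 0
  | succ k ih =>
    rw [NW_cons, NW_cons]
    have h1 := ih (fun i => b i.succ) (fun i => b' i.succ) (fun i => c i.succ)
      (fun i => h i.succ)
    generalize NW (fun i : Fin (k + 1) => b' i.succ) (fun i => c i.succ) = N' at h1 ⊢
    have hN : NW (fun i : Fin (k + 1) => b i.succ) (fun i => c i.succ) ∈ Fil K n k := NW_mem _ _
    generalize NW (fun i : Fin (k + 1) => b i.succ) (fun i => c i.succ) = N at h1 hN ⊢
    have h2 : b 0 * cm K (c 0) * N - b' 0 * cm K (c 0) * N' =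
        (b 0 - b' 0) * (1 * cm K (c 0) * N) + b' 0 * cm K (c 0) * (N - N') := by
      noncomm_ring
    rw [h2]
    have h3 := Fil_mul (h 0) (cm_mul_mem 1 (c 0) hN)
    have h4 : 1 + (k + 1) = k + 1 + 1 := by ring
    rw [h4] at h3
    exact Submodule.add_mem _ h3 (cm_mul_mem _ _ h1)

end Pool.Agent.H.MP_f5ceca_al.G
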