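import Pool.Agent.H.MP_f5ceca_al.G.A1

/-!
Job A2: the symbol maps `Lam c : RR K n k → FA K n`. Modulo `Fil (k + 1)` the element
`b_0 c_1 b_1 ... c_k b_k` depends only on the commutative images of the `b_i`.
-/

namespace Pool.Agent.H.MP_f5ceca_al.G

universe u v w

variable {K : Type u} [Field K] {n : ℕ}

theorem Lam_monomial {k : ℕ} (c : Fin k → Fin n × Fin n) (e : Fin (k + 1) × Fin n →₀ ℕ) :
    Lam c (MvPolynomial.monomial e (1 : K)) = NW (fun i => srt fun j => e (i, j)) c := by
  have h := (MvPolynomial.basisMonomials (Fin (k + 1) × Fin n) K).constr_basis K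
    (fun e => NW (K := K) (fun i => srt fun j => e (i, j)) c) e
  rw [MvPolynomial.coe_basisMonomials] at h
  exact h

theorem a2_perm {l₁ l₂ : List (FA K n)} (h : l₁.Perm l₂) : l₁.prod - l₂.prod ∈ Fil K n 1 := by
  induction h with
  | nil => simp
  | cons x _ ih =>
    rw [List.prod_cons, List.prod_cons, ← mul_sub]
    have := Fil_tsi (K := K) (n := n) 1 x _ 1 ih
    rwa [mul_one] at this
  | swap x y l =>
    rw [List.prod_cons, List.prod_cons, List.prod_cons, List.prod_cons, ← mul_assoc, ← mul_assoc,
      ← sub_mul]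
    have := Fil_tsi (K := K) (n := n) 1 1 _ l.prod (comm_mem y x)
    rwa [one_mul] at this
  | trans _ _ ih1 ih2 =>
    have := Submodule.add_mem _ ih1 ih2
    rwa [sub_add_sub_cancel] at this

theorem a2_srt (e : Fin n → ℕ) :
    srt e = (((List.ofFn fun j => List.replicate (e j) j).flatten).map (xx K)).prod := by
  unfold srt
  rw [List.map_flatten, List.prod_flatten, List.map_ofFn, List.map_ofFn]
  congr 1
  congr 1
  funext j
  simp [List.map_replicate, List.prod_replicate]

/-- A word is congruent to the sorted word modulo `Fil 1` (swap neighbours with `comm_mem`). -/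
theorem word_srt (l : List (Fin n)) :
    (l.map (xx K)).prod - srt (fun j => l.count j) ∈ Fil K n 1 := by
  rw [a2_srt]
  apply a2_perm
  apply List.Perm.map
  rw [List.perm_iff_count]
  intro a
  rw [List.count_flatten, List.map_ofFn, List.sum_ofFn]
  rw [Finset.sum_eq_single a]
  · simp
  · intro b _ hb
    simp [List.count_replicate, hb]
  · simp

theorem a2_ab_word {k : ℕ} (i : Fin (k + 1)) (l : List (Fin n)) :
    ab i (l.map (xx K)).prod = ∏ j, (MvPolynomial.X (i, j) : RR K n k) ^ l.count j := by
  induction l with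
  | nil => simp
  | cons a t ih =>
    rw [List.map_cons, List.prod_cons, map_mul, ih]
    have h1 : ab i (xx K a) = (MvPolynomial.X (i, a) : RR K n k) := by
      unfold ab xx
      rw [FreeAlgebra.lift_ι_apply]
    have h2 : (∏ j, (MvPolynomial.X (i, j) : RR K n k) ^ (a :: t).count j) =
        (∏ j, (MvPolynomial.X (i, j) : RR K n k) ^ t.count j) *
          ∏ j, (MvPolynomial.X (i, j) : RR K n k) ^ (if a = j then 1 else 0) := by
      rw [← Finset.prod_mul_distrib]
      refine Finset.prod_congr rfl fun j _ => ?_
      rw [← pow_add, List.count_cons]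
      congr 2
      simp
    rw [h2, h1]
    have h3 : (∏ j, (MvPolynomial.X (i, j) : RR K n k) ^ (if a = j then 1 else 0)) =
        MvPolynomial.X (i, a) := by
      rw [Finset.prod_eq_single a]
      · simp
      · intro b _ hb
        rw [if_neg (fun h => hb h.symm), pow_zero]
      · simp
    rw [h3, mul_comm]

theorem a2_ab_srt {k : ℕ} (i : Fin (k + 1)) (e : Fin n → ℕ) :
    ab i (srt e) = ∏ j, (MvPolynomial.X (i, j) : RR K n k) ^ e j := by
  unfold srt
  rw [map_list_prod, List.map_ofFn, List.prod_ofFn]
  refine Finset.prod_congr rfl fun j _ => ?_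
  show ab i (xx K j ^ e j) = _
  rw [map_pow]
  congr 1
  unfold ab xx
  rw [FreeAlgebra.lift_ι_apply]

theorem a2_mono {k : ℕ} (e : Fin (k + 1) × Fin n →₀ ℕ) :
    (MvPolynomial.monomial e (1 : K) : RR K n k) = ∏ i, ab i (srt fun j => e (i, j)) := by
  rw [MvPolynomial.monomial_eq, MvPolynomial.C_1, one_mul, Finsupp.prod_fintype _ _ (by simp),
    Fintype.prod_prod_type]
  refine Finset.prod_congr rfl fun i _ => ?_
  rw [a2_ab_srt]

theorem a2_basis (w : FreeMonoid (Fin n)) :
    FreeAlgebra.basisFreeMonoid K (Fin n) w = ((FreeMonoid.toList w).map (xx K)).prod := by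
  have h1 : FreeAlgebra.basisFreeMonoid K (Fin n) w =
      (FreeAlgebra.equivMonoidAlgebraFreeMonoid (R := K) (X := Fin n)).symm
        (MonoidAlgebra.single w 1) := by
    unfold FreeAlgebra.basisFreeMonoid
    rw [Module.Basis.map_apply, LinearEquiv.symm_apply_eq]
    simp
  rw [h1]
  show (MonoidAlgebra.lift K (FreeAlgebra K (Fin n)) (FreeMonoid (Fin n))
    (FreeMonoid.lift (FreeAlgebra.ι K))) (MonoidAlgebra.single w 1) = _
  rw [MonoidAlgebra.lift_single, one_smul, FreeMonoid.lift_apply]

/-- The left hand side of `Lam_pt` as a multilinear map. -/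
noncomputable def a2_f {k : ℕ} (c : Fin k → Fin n × Fin n) :
    MultilinearMap K (fun _ : Fin (k + 1) => FA K n) (FA K n ⧸ Fil K n (k + 1)) :=
  ((Fil K n (k + 1)).mkQ.comp (Lam c)).compMultilinearMap
    ((MultilinearMap.mkPiAlgebra K (Fin (k + 1)) (RR K n k)).compLinearMap
      fun i => (ab i : FA K n →ₐ[K] RR K n k).toLinearMap)

/-- The right hand side of `Lam_pt` as a multilinear map. -/
noncomputable def a2_g {k : ℕ} (c : Fin k → Fin n × Fin n) :
    MultilinearMap K (fun _ : Fin (k + 1) => FA K n) (FA K n ⧸ Fil K n (k + 1)) :=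
  (Fil K n (k + 1)).mkQ.compMultilinearMap
    ((MultilinearMap.mkPiAlgebraFin K (k + 1) (FA K n)).compLinearMap
      (Fin.cons LinearMap.id fun i => LinearMap.mulLeft K (cm K (c i)) :
        Fin (k + 1) → FA K n →ₗ[K] FA K n))

theorem a2_f_apply {k : ℕ} (c : Fin k → Fin n × Fin n) (b : Fin (k + 1) → FA K n) :
    a2_f c b = (Fil K n (k + 1)).mkQ (Lam c (∏ i, ab i (b i))) := by
  unfold a2_f
  rw [LinearMap.compMultilinearMap_apply, MultilinearMap.compLinearMap_apply,
    MultilinearMap.mkPiAlgebra_apply]
  rfl

theorem a2_g_apply {k : ℕ} (c : Fin k → Fin n × Fin n) (b : Fin (k + 1) → FA K n) :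
    a2_g c b = (Fil K n (k + 1)).mkQ (NW b c) := by
  unfold a2_g NW
  rw [LinearMap.compMultilinearMap_apply, MultilinearMap.compLinearMap_apply,
    MultilinearMap.mkPiAlgebraFin_apply, List.ofFn_succ, List.prod_cons]
  rfl

/-- Both sides are multilinear in `b`; on words: the product of the `ab i (word)` is a monomial,
then `word_srt` and `NW_congr`. (For the extension from words to all elements use for example
`Module.Basis.ext_multilinear` for multilinear maps with values in `FA K n ⧸ Fil K n (k + 1)` and
the basis `FreeAlgebra.basisFreeMonoid`, or induct on the number of arguments which are not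
words.) -/
theorem Lam_pt {k : ℕ} (b : Fin (k + 1) → FA K n) (c : Fin k → Fin n × Fin n) :
    Lam c (∏ i, ab i (b i)) - NW b c ∈ Fil K n (k + 1) := by
  have h : a2_f (K := K) c = a2_g c := by
    refine Module.Basis.ext_multilinear
      (fun _ => FreeAlgebra.basisFreeMonoid K (Fin n)) fun v => ?_
    rw [a2_f_apply, a2_g_apply, ← sub_eq_zero, ← map_sub, ← LinearMap.mem_ker,
      Submodule.ker_mkQ]
    have e1 : ∀ i, FreeAlgebra.basisFreeMonoid K (Fin n) (v i) =
        ((FreeMonoid.toList (v i)).map (xx K)).prod := fun i => a2_basis (v i)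
    simp only [e1]
    have e2 : (∏ i : Fin (k + 1), (ab i ((FreeMonoid.toList (v i)).map (xx K)).prod : RR K n k)) =
        MvPolynomial.monomial (Finsupp.equivFunOnFinite.symm
          (fun p : Fin (k + 1) × Fin n => (FreeMonoid.toList (v p.1)).count p.2)) (1 : K) := by
      rw [a2_mono]
      refine Finset.prod_congr rfl fun i _ => ?_
      rw [a2_ab_word, a2_ab_srt]
      rfl
    rw [e2, Lam_monomial]
    have h3 := NW_congr (K := K) (fun i => ((FreeMonoid.toList (v i)).map (xx K)).prod)
      (fun i => srt fun j => (FreeMonoid.toList (v i)).count j) c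
      (fun i => word_srt (FreeMonoid.toList (v i)))
    have h4 := Submodule.neg_mem _ h3
    rw [neg_sub] at h4
    exact h4
  have h1 := congrArg (fun f => f b) h
  simp only [a2_f_apply, a2_g_apply] at h1
  rwa [← sub_eq_zero, ← map_sub, ← LinearMap.mem_ker, Submodule.ker_mkQ] at h1

theorem Lam_mem {k : ℕ} (c : Fin k → Fin n × Fin n) (v : RR K n k) : Lam c v ∈ Fil K n k := by
  induction v using MvPolynomial.induction_on' with
  | monomial u a =>
    have h : (MvPolynomial.monomial u a : RR K n k) = a • MvPolynomial.monomial u (1 : K) := by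
      rw [MvPolynomial.smul_monomial, smul_eq_mul, mul_one]
    rw [h, map_smul, Lam_monomial]
    exact Submodule.smul_mem _ _ (NW_mem _ _)
  | add p q hp hq =>
    rw [map_add]
    exact Submodule.add_mem _ hp hq

/-- Linear in `v`; for a monomial use `Lam_pt` with `b i` sorted words, `b 0` replaced by
`a * b 0` (`NW_left`). -/
theorem Lam_left {k : ℕ} (c : Fin k → Fin n × Fin n) (v : RR K n k) (a : FA K n) :
    a * Lam c v - Lam c (ab 0 a * v) ∈ Fil K n (k + 1) := by
  induction v using MvPolynomial.induction_on' with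
  | monomial u s =>
    have h : (MvPolynomial.monomial u s : RR K n k) = s • MvPolynomial.monomial u (1 : K) := by
      rw [MvPolynomial.smul_monomial, smul_eq_mul, mul_one]
    have key : a * Lam c (MvPolynomial.monomial u (1 : K)) -
        Lam c (ab 0 a * MvPolynomial.monomial u (1 : K)) ∈ Fil K n (k + 1) := by
      have h1 := Lam_pt (K := K) (Function.update (fun i => srt fun j => u (i, j)) 0
        (a * srt fun j => u (0, j))) c
      have h2 : (∏ i, ab i (Function.update (fun i => srt fun j => u (i, j)) 0
          (a * srt fun j => u (0, j)) i) : RR K n k) =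
          ab 0 a * MvPolynomial.monomial u (1 : K) := by
        rw [a2_mono, Fin.prod_univ_succ, Fin.prod_univ_succ, Function.update_self, map_mul,
          mul_assoc]
        have h5 : (∏ i : Fin k, ab i.succ (Function.update (fun i => srt fun j => u (i, j))
            0 (a * srt fun j => u (0, j)) i.succ) : RR K n k) =
            ∏ i : Fin k, ab i.succ (srt fun j => u (i.succ, j)) := by
          refine Finset.prod_congr rfl fun i _ => ?_
          rw [Function.update_of_ne (Fin.succ_ne_zero i)]
        rw [h5]
      rw [h2, ← NW_left] at h1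
      rw [Lam_monomial]
      have h3 := Submodule.neg_mem _ h1
      rwa [neg_sub] at h3
    rw [h, mul_smul_comm, map_smul, map_smul, mul_smul_comm, ← smul_sub]
    exact Submodule.smul_mem _ _ key
  | add p q hp hq =>
    rw [map_add, mul_add, mul_add, map_add, add_sub_add_comm]
    exact Submodule.add_mem _ hp hq

theorem Lam_right {k : ℕ} (c : Fin k → Fin n × Fin n) (v : RR K n k) (a : FA K n) :
    Lam c v * a - Lam c (ab (Fin.last k) a * v) ∈ Fil K n (k + 1) := by
  induction v using MvPolynomial.induction_on' with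
  | monomial u s =>
    have h : (MvPolynomial.monomial u s : RR K n k) = s • MvPolynomial.monomial u (1 : K) := by
      rw [MvPolynomial.smul_monomial, smul_eq_mul, mul_one]
    have key : Lam c (MvPolynomial.monomial u (1 : K)) * a -
        Lam c (ab (Fin.last k) a * MvPolynomial.monomial u (1 : K)) ∈ Fil K n (k + 1) := by
      have h1 := Lam_pt (K := K) (Function.update (fun i => srt fun j => u (i, j)) (Fin.last k)
        ((srt fun j => u (Fin.last k, j)) * a)) c
      have h2 : (∏ i, ab i (Function.update (fun i => srt fun j => u (i, j)) (Fin.last k)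
          ((srt fun j => u (Fin.last k, j)) * a) i) : RR K n k) =
          ab (Fin.last k) a * MvPolynomial.monomial u (1 : K) := by
        rw [a2_mono, Fin.prod_univ_castSucc, Fin.prod_univ_castSucc, Function.update_self, map_mul]
        have h5 : (∏ i : Fin k, ab i.castSucc (Function.update (fun i => srt fun j => u (i, j))
            (Fin.last k) ((srt fun j => u (Fin.last k, j)) * a) i.castSucc) : RR K n k) =
            ∏ i : Fin k, ab i.castSucc (srt fun j => u (i.castSucc, j)) := by
          refine Finset.prod_congr rfl fun i _ => ?_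
          rw [Function.update_of_ne (Fin.castSucc_lt_last i).ne]
        rw [h5]
        ring
      rw [h2, ← NW_right] at h1
      rw [Lam_monomial]
      have h3 := Submodule.neg_mem _ h1
      rwa [neg_sub] at h3
    rw [h, mul_smul_comm, map_smul, map_smul, smul_mul_assoc, ← smul_sub]
    exact Submodule.smul_mem _ _ key
  | add p q hp hq =>
    rw [map_add, mul_add, add_mul, map_add, add_sub_add_comm]
    exact Submodule.add_mem _ hp hq

theorem a2_rename_ab {k : ℕ} (i : Fin (k + 1)) (x : FA K n) :
    MvPolynomial.rename (fun p : Fin (k + 1) × Fin n => (p.1.succ, p.2)) (ab i x : RR K n k) =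
      (ab i.succ x : RR K n (k + 1)) := by
  have h : (MvPolynomial.rename (R := K)
      (fun p : Fin (k + 1) × Fin n => ((p.1.succ, p.2) : Fin (k + 2) × Fin n))).comp (ab i) =
      ab i.succ := by
    apply FreeAlgebra.hom_ext
    funext j
    simp [ab]
  exact congrArg (fun f => f x) h

/-- The same for adding a commutator on the left; the variables are shifted by one gap. -/
theorem Lam_cons {k : ℕ} (c0 : Fin n × Fin n) (c : Fin k → Fin n × Fin n) (v : RR K n k)
    (b0 : FA K n) :
    b0 * cm K c0 * Lam c v -
      Lam (Fin.cons c0 c : Fin (k + 1) → Fin n × Fin n)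
        (ab 0 b0 * MvPolynomial.rename (fun p : Fin (k + 1) × Fin n => (p.1.succ, p.2)) v)
      ∈ Fil K n (k + 2) := by
  induction v using MvPolynomial.induction_on' with
  | monomial u s =>
    have h : (MvPolynomial.monomial u s : RR K n k) = s • MvPolynomial.monomial u (1 : K) := by
      rw [MvPolynomial.smul_monomial, smul_eq_mul, mul_one]
    have key : b0 * cm K c0 * Lam c (MvPolynomial.monomial u (1 : K)) -
        Lam (Fin.cons c0 c : Fin (k + 1) → Fin n × Fin n)
        (ab 0 b0 * MvPolynomial.rename (fun p : Fin (k + 1) × Fin n => (p.1.succ, p.2))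
          (MvPolynomial.monomial u (1 : K))) ∈ Fil K n (k + 2) := by
      have h1 := Lam_pt (K := K) (Fin.cons b0 (fun i => srt fun j => u (i, j)) :
        Fin (k + 2) → FA K n) (Fin.cons c0 c : Fin (k + 1) → Fin n × Fin n)
      have h2 : (∏ i, ab i ((Fin.cons b0 (fun i => srt fun j => u (i, j)) :
          Fin (k + 2) → FA K n) i) : RR K n (k + 1)) =
          ab 0 b0 * MvPolynomial.rename (fun p : Fin (k + 1) × Fin n => (p.1.succ, p.2))
          (MvPolynomial.monomial u (1 : K)) := by
        rw [Fin.prod_univ_succ, Fin.cons_zero, a2_mono, map_prod]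
        congr 1
        refine Finset.prod_congr rfl fun i _ => ?_
        rw [Fin.cons_succ, a2_rename_ab]
      have h3 : NW (Fin.cons b0 (fun i => srt fun j => u (i, j)) : Fin (k + 2) → FA K n)
          (Fin.cons c0 c : Fin (k + 1) → Fin n × Fin n) =
          b0 * cm K c0 * NW (fun i => srt fun j => u (i, j)) c := by
        rw [NW_cons]
        simp only [Fin.cons_zero, Fin.cons_succ]
      rw [h2, h3] at h1
      rw [Lam_monomial]
      have h4 := Submodule.neg_mem _ h1
      rwa [neg_sub] at h4
    rw [h, map_smul, map_smul, mul_smul_comm, mul_smul_comm, map_smul, ← smul_sub]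
    exact Submodule.smul_mem _ _ key
  | add p q hp hq =>
    rw [map_add, map_add, mul_add, mul_add, map_add, add_sub_add_comm]
    exact Submodule.add_mem _ hp hq

/-- Span induction and `Lam_pt`. -/
theorem Fil_le_Lam {k : ℕ} {x : FA K n} (hx : x ∈ Fil K n k) :
    ∃ v : (Fin k → Fin n × Fin n) → RR K n k, x - ∑ c, Lam c (v c) ∈ Fil K n (k + 1) := by
  classical
  unfold Fil at hx
  induction hx using Submodule.span_induction with
  | mem x hx =>
    obtain ⟨b, c, rfl⟩ := hx
    refine ⟨Pi.single c (∏ i, ab i (b i)), ?_⟩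
    rw [Finset.sum_eq_single c]
    · rw [Pi.single_eq_same]
      have h := Submodule.neg_mem _ (Lam_pt b c)
      rwa [neg_sub] at h
    · intro d _ hd
      rw [Pi.single_eq_of_ne hd, map_zero]
    · simp
  | zero =>
    refine ⟨0, ?_⟩
    simp
  | add x y _ _ hx hy =>
    obtain ⟨v, hv⟩ := hx
    obtain ⟨w, hw⟩ := hy
    refine ⟨v + w, ?_⟩
    have h : x + y - ∑ c, Lam c ((v + w) c) =
        (x - ∑ c, Lam c (v c)) + (y - ∑ c, Lam c (w c)) := by
      simp only [Pi.add_apply, map_add, Finset.sum_add_distrib]
      abel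
    rw [h]
    exact Submodule.add_mem _ hv hw
  | smul a x _ hx =>
    obtain ⟨v, hv⟩ := hx
    refine ⟨a • v, ?_⟩
    have h : a • x - ∑ c, Lam c ((a • v) c) = a • (x - ∑ c, Lam c (v c)) := by
      simp only [Pi.smul_apply, map_smul, smul_sub, Finset.smul_sum]
    rw [h]
    exact Submodule.smul_mem _ _ hv

end Pool.Agent.H.MP_f5ceca_al.G
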