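import Pool.Agent.H.MP_f5ceca_al.G.A2

/-!
Job A3: the substitution `x_j ↦ x_j + b [x_j, q] g` in the free algebra, modulo `Fil (k + 1)`.
-/

namespace Pool.Agent.H.MP_f5ceca_al.G

universe u v w

variable {K : Type u} [Field K] {n : ℕ}

/-- the substitution with arbitrary elements `q`, `g` of the free algebra -/
noncomputable def sg (q g : FA K n) (b : K) : FA K n →ₐ[K] FA K n :=
  FreeAlgebra.lift K fun j => xx K j + b • ((xx K j * q - q * xx K j) * g)

theorem a3_xx (q g : FA K n) (b : K) (j : Fin n) :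
    sg q g b (xx K j) = xx K j + b • ((xx K j * q - q * xx K j) * g) := by
  unfold sg
  exact FreeAlgebra.lift_ι_apply _ _

theorem a3_right {k : ℕ} {x : FA K n} (hx : x ∈ Fil K n k) (a : FA K n) : x * a ∈ Fil K n k := by
  have h := Fil_tsi (K := K) (n := n) k 1 x a hx
  rwa [one_mul] at h

theorem a3_left {k : ℕ} {x : FA K n} (hx : x ∈ Fil K n k) (a : FA K n) : a * x ∈ Fil K n k := by
  have h := Fil_tsi (K := K) (n := n) k a x 1 hx
  rwa [mul_one] at h

theorem a3_cm_mem (c : Fin n × Fin n) : cm K c ∈ Fil K n 1 := comm_mem _ _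

theorem a3_trans {k : ℕ} {x y z : FA K n} (h1 : x - y ∈ Fil K n k) (h2 : y - z ∈ Fil K n k) :
    x - z ∈ Fil K n k := by
  have h3 := Submodule.add_mem _ h1 h2
  rwa [sub_add_sub_cancel] at h3

/-- `sg` is the identity modulo `Fil 1` (`FreeAlgebra.induction`). -/
theorem sg_sub (q g : FA K n) (b : K) (h : FA K n) : sg q g b h - h ∈ Fil K n 1 := by
  induction h using FreeAlgebra.induction with
  | grade0 r =>
    rw [AlgHom.commutes, sub_self]
    exact Submodule.zero_mem _
  | grade1 j =>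
    have h1 : sg q g b (FreeAlgebra.ι K j) - FreeAlgebra.ι K j =
        b • ((xx K j * q - q * xx K j) * g) := by
      rw [a3_xx, add_sub_cancel_left]
    rw [h1]
    exact Submodule.smul_mem _ _ (a3_right (comm_mem _ _) g)
  | mul x y hx hy =>
    have h1 : sg q g b (x * y) - x * y =
        (sg q g b x - x) * sg q g b y + x * (sg q g b y - y) := by
      rw [map_mul]
      noncomm_ring
    rw [h1]
    exact Submodule.add_mem _ (a3_right hx _) (a3_left hy _)
  | add x y hx hy =>
    have h1 : sg q g b (x + y) - (x + y) = (sg q g b x - x) + (sg q g b y - y) := by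
      rw [map_add]
      abel
    rw [h1]
    exact Submodule.add_mem _ hx hy

/-- On a commutator of letters: expand; `[x + E x, y + E y]` with `E x = b [x, q] g`. The term
`[E x, E y]` is in `Fil 2`; `[x, q] g y - y [x, q] g` is congruent to `[[x, q], y] g` modulo
`Fil 2`; finally the Jacobi identity `[[x, q], y] + [x, [y, q]] = [[x, y], q]`. -/
theorem sg_cm (q g : FA K n) (b : K) (c : Fin n × Fin n) :
    sg q g b (cm K c) - (cm K c + b • ((cm K c * q - q * cm K c) * g)) ∈ Fil K n 2 := by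
  obtain ⟨x, hx⟩ : ∃ x, x = xx K c.1 := ⟨_, rfl⟩
  obtain ⟨y, hy⟩ : ∃ y, y = xx K c.2 := ⟨_, rfl⟩
  have hc : cm K c = x * y - y * x := by rw [hx, hy]; rfl
  have hsx : sg q g b x = x + b • ((x * q - q * x) * g) := by rw [hx]; exact a3_xx q g b _
  have hsy : sg q g b y = y + b • ((y * q - q * y) * g) := by rw [hy]; exact a3_xx q g b _
  have hP : (x * q - q * x) * g ∈ Fil K n 1 := a3_right (comm_mem _ _) g
  have hQ : (y * q - q * y) * g ∈ Fil K n 1 := a3_right (comm_mem _ _) g
  have e1 : ∀ P Q R : FA K n, (x + b • P) * (y + b • Q) - (y + b • Q) * (x + b • P) -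
      ((x * y - y * x) + b • R) = b • (x * Q - Q * x + P * y - y * P - R) +
        ((b • P) * (b • Q) - (b • Q) * (b • P)) := by
    intro P Q R
    simp only [add_mul, mul_add, mul_smul_comm, smul_mul_assoc, smul_sub, smul_add]
    abel
  have e2 : x * ((y * q - q * y) * g) - ((y * q - q * y) * g) * x + ((x * q - q * x) * g) * y -
      y * ((x * q - q * x) * g) - ((x * y - y * x) * q - q * (x * y - y * x)) * g =
      (x * q - q * x) * (g * y - y * g) + (y * q - q * y) * (x * g - g * x) := by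
    noncomm_ring
  rw [hc, map_sub, map_mul, map_mul, hsx, hsy, e1, e2]
  have h2 : (2 : ℕ) = 1 + 1 := rfl
  refine Submodule.add_mem _ (Submodule.smul_mem _ _ (Submodule.add_mem _ ?_ ?_))
    (Submodule.sub_mem _ ?_ ?_)
  · exact Fil_mul (a := 1) (b := 1) (comm_mem _ _) (comm_mem _ _)
  · exact Fil_mul (a := 1) (b := 1) (comm_mem _ _) (comm_mem _ _)
  · exact Fil_mul (a := 1) (b := 1) (Submodule.smul_mem _ _ hP) (Submodule.smul_mem _ _ hQ)
  · exact Fil_mul (a := 1) (b := 1) (Submodule.smul_mem _ _ hQ) (Submodule.smul_mem _ _ hP)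

/-- The symbol of the commutator number `i`. -/
noncomputable def sgS {k : ℕ} (q g : FA K n) (b : K) (i : Fin k) : RR K n k :=
  1 + b • ((ab i.succ q - ab i.castSucc q) * ab i.succ g)

/-- shift of the gaps by one -/
noncomputable def a3_sh {k : ℕ} : RR K n k →ₐ[K] RR K n (k + 1) :=
  MvPolynomial.rename (fun p : Fin (k + 1) × Fin n => (p.1.succ, p.2))

theorem a3_sh_ab {k : ℕ} (i : Fin (k + 1)) (a : FA K n) : a3_sh (ab i a) = ab i.succ a := by
  have h : (a3_sh (K := K) (n := n) (k := k)).comp (ab i) = ab i.succ := by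
    apply FreeAlgebra.hom_ext
    funext j
    show a3_sh (ab i (FreeAlgebra.ι K j)) = ab i.succ (FreeAlgebra.ι K j)
    unfold ab a3_sh
    rw [FreeAlgebra.lift_ι_apply, FreeAlgebra.lift_ι_apply, MvPolynomial.rename_X]
  exact DFunLike.congr_fun h a

theorem a3_sh_sgS {k : ℕ} (q g : FA K n) (b : K) (i : Fin k) :
    a3_sh (sgS q g b i) = sgS q g b i.succ := by
  unfold sgS
  rw [map_add, map_one, map_smul, map_mul, map_sub, a3_sh_ab, a3_sh_ab, a3_sh_ab,
    Fin.succ_castSucc]

theorem a3_sh_prod {k : ℕ} (q g : FA K n) (b : K) (w : Fin (k + 1) → FA K n) :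
    a3_sh ((∏ i : Fin k, sgS q g b i) * ∏ i, ab i (w i)) =
      (∏ i : Fin k, sgS q g b i.succ) * ∏ i : Fin (k + 1), ab i.succ (w i) := by
  rw [map_mul, map_prod, map_prod]
  congr 1
  · exact Finset.prod_congr rfl fun i _ => a3_sh_sgS q g b i
  · exact Finset.prod_congr rfl fun i _ => a3_sh_ab i (w i)

/-- a factor in front of `Lam` and a commutator in front of it -/
theorem a3_step {k : ℕ} (c : Fin (k + 1) → Fin n × Fin n) (v : RR K n k) (b0 a : FA K n) :
    b0 * cm K (c 0) * (a * Lam (fun i => c i.succ) v) -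
      Lam c (ab 0 b0 * (ab 1 a * a3_sh v)) ∈ Fil K n (k + 2) := by
  have h1 := cm_mul_mem b0 (c 0) (Lam_left (fun i => c i.succ) v a)
  rw [mul_sub] at h1
  have h2 := Lam_cons (c 0) (fun i => c i.succ) (ab 0 a * v) b0
  have h3 : (Fin.cons (c 0) (fun i => c i.succ) : Fin (k + 1) → Fin n × Fin n) = c :=
    Fin.cons_self_tail c
  rw [h3] at h2
  have h4 : MvPolynomial.rename (fun p : Fin (k + 1) × Fin n => (p.1.succ, p.2)) (ab 0 a * v) =
      ab 1 a * a3_sh (K := K) (n := n) (k := k) v := by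
    show a3_sh (ab 0 a * v) = _
    rw [map_mul, a3_sh_ab]
    rfl
  rw [h4] at h2
  exact a3_trans h1 h2

/-- Induction on `k` (peel off `b 0` and `c 0` with `NW_cons`); let
`Y = ∏ ...` be the rest, `Y ≡ Lam c' r'` modulo `Fil (k + 1)`. Then
`σ(b_0) σ(c_0) Y ≡ b_0 c_0 Y + b (b_0 c_0 (q g Y)) - b ((b_0 q) c_0 (g Y))`, and use `Lam_left`,
`Lam_cons`. -/
theorem sg_NW {k : ℕ} (q g : FA K n) (b : K) (c : Fin k → Fin n × Fin n)
    (w : Fin (k + 1) → FA K n) :
    sg q g b (NW w c) - Lam c ((∏ i, sgS q g b i) * ∏ i, ab i (w i)) ∈ Fil K n (k + 1) := by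
  induction k with
  | zero =>
    have h1 : NW w c = w 0 := NW_zero w c
    have h2 := Lam_pt w c
    have h3 : (∏ i : Fin 0, sgS q g b i) = 1 := rfl
    rw [h3, one_mul]
    rw [h1] at h2 ⊢
    have h4 := sg_sub q g b (w 0)
    have h5 := Submodule.sub_mem _ h4 h2
    rwa [sub_sub_sub_cancel_right] at h5
  | succ k ih =>
    obtain ⟨r, hr⟩ : ∃ r : RR K n k, r = (∏ i : Fin k, sgS q g b i) * ∏ i, ab i (w i.succ) :=
      ⟨_, rfl⟩
    have hih := ih (fun i => c i.succ) (fun i => w i.succ)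
    rw [← hr] at hih
    obtain ⟨Y, hY⟩ : ∃ Y, Y = Lam (fun i => c i.succ) r := ⟨_, rfl⟩
    rw [← hY] at hih
    have hYm : Y ∈ Fil K n k := by rw [hY]; exact Lam_mem _ _
    obtain ⟨Y0, hY0⟩ : ∃ Y0, Y0 = sg q g b (NW (fun i => w i.succ) (fun i => c i.succ)) :=
      ⟨_, rfl⟩
    rw [← hY0] at hih
    have hY0m : Y0 ∈ Fil K n k := by
      have h1 := Submodule.add_mem _ (Fil_succ_le k hih) hYm
      rwa [sub_add_cancel] at h1
    obtain ⟨C, hC⟩ : ∃ C, C = cm K (c 0) := ⟨_, rfl⟩
    have hCm : C ∈ Fil K n 1 := by rw [hC]; exact a3_cm_mem _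
    have hD : (C + b • ((C * q - q * C) * g)) ∈ Fil K n 1 :=
      Submodule.add_mem _ hCm (Submodule.smul_mem _ _ (a3_right (comm_mem _ _) g))
    have hcm := sg_cm q g b (c 0)
    rw [← hC] at hcm
    have hsC : sg q g b C ∈ Fil K n 1 := by
      have h1 := Submodule.add_mem _ (Fil_succ_le 1 hcm) hD
      rwa [sub_add_cancel] at h1
    have hw := sg_sub q g b (w 0)
    have k1 : (sg q g b (w 0) - w 0) * sg q g b C * Y0 ∈ Fil K n (k + 2) := by
      have h1 := Fil_mul (Fil_mul hw hsC) hY0m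
      rwa [show 1 + 1 + k = k + 2 by omega] at h1
    have k2 : w 0 * (sg q g b C - (C + b • ((C * q - q * C) * g))) * Y0 ∈ Fil K n (k + 2) := by
      have h1 := Fil_mul (a3_left hcm (w 0)) hY0m
      rwa [show 2 + k = k + 2 by omega] at h1
    have k3 : w 0 * (C + b • ((C * q - q * C) * g)) * (Y0 - Y) ∈ Fil K n (k + 2) := by
      have h1 := Fil_mul (a3_left hD (w 0)) hih
      rwa [show 1 + (k + 1) = k + 2 by omega] at h1
    have k4 : sg q g b (NW w c) - w 0 * (C + b • ((C * q - q * C) * g)) * Y ∈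
        Fil K n (k + 2) := by
      have h1 := Submodule.add_mem _ (Submodule.add_mem _ k1 k2) k3
      have h2 : sg q g b (NW w c) = sg q g b (w 0) * sg q g b C * Y0 := by
        rw [NW_cons, map_mul, map_mul, ← hC, hY0]
      rw [h2]
      have h3 : ∀ s D : FA K n, (s - w 0) * sg q g b C * Y0 + w 0 * (sg q g b C - D) * Y0 +
          w 0 * D * (Y0 - Y) = s * sg q g b C * Y0 - w 0 * D * Y := by
        intro s D
        noncomm_ring
      rw [h3] at h1
      exact h1
    have k5 : w 0 * (C + b • ((C * q - q * C) * g)) * Y =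
        w 0 * C * (1 * Y) + b • (w 0 * C * ((q * g) * Y)) - b • ((w 0 * q) * C * (g * Y)) := by
      rw [one_mul, mul_add, add_mul, mul_smul_comm, smul_mul_assoc, add_sub_assoc, ← smul_sub]
      congr 2
      noncomm_ring
    have s1 := a3_step c r (w 0) 1
    have s2 := a3_step c r (w 0) (q * g)
    have s3 := a3_step c r (w 0 * q) g
    rw [← hY, ← hC] at s1 s2 s3
    have s4 := Submodule.sub_mem _ (Submodule.add_mem _ s1 (Submodule.smul_mem _ b s2))
      (Submodule.smul_mem _ b s3)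
    rw [k5] at k4
    have s5 : (∏ i : Fin (k + 1), sgS q g b i) * ∏ i : Fin (k + 2), ab i (w i) =
        ab 0 (w 0) * (ab 1 1 * a3_sh r) + b • (ab 0 (w 0) * (ab 1 (q * g) * a3_sh r)) -
          b • (ab 0 (w 0 * q) * (ab 1 g * a3_sh r)) := by
      rw [hr, a3_sh_prod, Fin.prod_univ_succ (fun i : Fin (k + 1) => sgS q g b i),
        Fin.prod_univ_succ (fun i : Fin (k + 2) => ab i (w i))]
      have h1 : sgS q g b (0 : Fin (k + 1)) =
          1 + b • ((ab 1 q - ab 0 q) * (ab 1 g : RR K n (k + 1))) := rfl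
      rw [h1, map_one, map_mul, map_mul]
      simp only [MvPolynomial.smul_eq_C_mul]
      ring
    rw [s5, map_sub, map_add, map_smul, map_smul]
    have h6 : ∀ a1 a2 a3 l1 l2 l3 : FA K n, (a1 - l1) + b • (a2 - l2) - b • (a3 - l3) =
        (a1 + b • a2 - b • a3) - (l1 + b • l2 - b • l3) := by
      intro a1 a2 a3 l1 l2 l3
      simp only [smul_sub]
      abel
    rw [h6] at s4
    exact a3_trans k4 s4

theorem a3_srt {k : ℕ} (i : Fin (k + 1)) (e : Fin n → ℕ) :
    ab i (srt e : FA K n) = ∏ j, MvPolynomial.X (i, j) ^ e j := by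
  unfold srt
  rw [map_list_prod, List.map_ofFn, ← List.prod_ofFn]
  congr 1
  refine congrArg List.ofFn ?_
  funext j
  show ab i (xx K j ^ e j) = _
  rw [map_pow]
  congr 1
  unfold ab
  exact FreeAlgebra.lift_ι_apply _ _

theorem a3_monomial {k : ℕ} (e : Fin (k + 1) × Fin n →₀ ℕ) :
    (∏ i, ab i (srt fun j => e (i, j) : FA K n)) = MvPolynomial.monomial e (1 : K) := by
  rw [MvPolynomial.monomial_eq, MvPolynomial.C_1, one_mul,
    Finsupp.prod_fintype _ _ (fun _ => pow_zero _), Fintype.prod_prod_type]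
  exact Finset.prod_congr rfl fun i _ => a3_srt i _

/-- Linear in `v`; monomials are products of the `ab i (sorted word)`. -/
theorem sg_layer {k : ℕ} (q g : FA K n) (b : K) (c : Fin k → Fin n × Fin n) (v : RR K n k) :
    sg q g b (Lam c v) - Lam c ((∏ i, sgS q g b i) * v) ∈ Fil K n (k + 1) := by
  induction v using MvPolynomial.induction_on' with
  | monomial e a =>
    have h1 : MvPolynomial.monomial e a = a • MvPolynomial.monomial e (1 : K) := by
      rw [MvPolynomial.smul_monomial, smul_eq_mul, mul_one]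
    have h2 := sg_NW q g b c (fun i => srt fun j => e (i, j))
    rw [a3_monomial, ← Lam_monomial] at h2
    rw [h1, map_smul, map_smul, mul_smul_comm, map_smul, ← smul_sub]
    exact Submodule.smul_mem _ _ h2
  | add v v' hv hv' =>
    rw [map_add, map_add, mul_add, map_add, add_sub_add_comm]
    exact Submodule.add_mem _ hv hv'

theorem sg_Fil {k : ℕ} (q g : FA K n) (b : K) {h : FA K n} (hh : h ∈ Fil K n k) :
    sg q g b h ∈ Fil K n k := by
  induction hh using Submodule.span_induction with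
  | mem x hx =>
    obtain ⟨w, c, rfl⟩ := hx
    have h1 := Submodule.add_mem _ (Fil_succ_le k (sg_NW q g b c w))
      (Lam_mem c ((∏ i, sgS q g b i) * ∏ i, ab i (w i)))
    rwa [sub_add_cancel] at h1
  | zero =>
    rw [map_zero]
    exact Submodule.zero_mem _
  | add x y _ _ hx hy =>
    rw [map_add]
    exact Submodule.add_mem _ hx hy
  | smul a x _ hx =>
    rw [map_smul]
    exact Submodule.smul_mem _ _ hx

end Pool.Agent.H.MP_f5ceca_al.G
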