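import Pool.Agent.H.MP_f5ceca_al.G.A0
import Pool.Agent.H.MP_f5ceca_al.G.A3

/-!
Job A4: the operator `opw`: layers, stability of the filtration and of `T`.

For scalars `l r : K` the ring homomorphism `sev l r` maps `sbst K M z (gg M z a x e) b (xx K) h`
to `sg q g b h` with `q = (z (z - l) (z - r)) ^ M`, `g = q ^ a * x * q ^ e` (`sg` from A3).
-/

namespace Pool.Agent.H.MP_f5ceca_al.G

universe u v w

variable {K : Type u} [Field K] {n : ℕ}

section a4

variable {A : Type v} [Ring A] [Algebra K A] {B : Type w} [Ring B] [Algebra K B]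

theorem a4_evz [Infinite K] {S : Submodule K A} (hS : IsTSI S) (z : A) (P : P2 A)
    (h : ∀ l r : K, sev l r P ∈ S) : evz K z P ∈ S := by
  rw [evz_sum, Polynomial.sum_def]
  refine Submodule.sum_mem _ fun s _ => ?_
  rw [Polynomial.sum_def]
  refine Submodule.sum_mem _ fun p _ => ?_
  exact hS _ _ _ (coef_mem S P h p s)

/-- a linear map applied to the coefficients -/
noncomputable def a4_map1 (f : A →ₗ[K] B) : Polynomial A →ₗ[K] Polynomial B :=
  Polynomial.lsum fun s => ((Polynomial.monomial (R := B) s).restrictScalars K).comp f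

theorem a4_map1_monomial (f : A →ₗ[K] B) (s : ℕ) (x : A) :
    a4_map1 f (Polynomial.monomial s x) = Polynomial.monomial s (f x) := by
  unfold a4_map1
  rw [Polynomial.lsum_apply, Polynomial.sum_monomial_index]
  · rfl
  · simp

/-- the same for two variables -/
noncomputable def a4_map (f : A →ₗ[K] B) : P2 A →ₗ[K] P2 B := a4_map1 (a4_map1 f)

theorem a4_mon (x : A) (p s : ℕ) : em x * lv A ^ p * rv A ^ s =
    Polynomial.monomial s (Polynomial.monomial p x) := by
  have h1 : em x * lv A ^ p = Polynomial.C (Polynomial.monomial p x) := by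
    rw [← Polynomial.C_mul_X_pow_eq_monomial, Polynomial.C_mul, Polynomial.C_pow]
    rfl
  rw [h1, rv, Polynomial.C_mul_X_pow_eq_monomial]

theorem a4_map2 (f : A →ₗ[K] B) (x : A) (p s : ℕ) :
    a4_map f (em x * lv A ^ p * rv A ^ s) = em (f x) * lv B ^ p * rv B ^ s := by
  unfold a4_map
  rw [a4_mon, a4_mon, a4_map1_monomial, a4_map1_monomial]

theorem a4_sev_mon (l r : K) (x : A) (p s : ℕ) :
    sev l r (em x * lv A ^ p * rv A ^ s) = (l ^ p * r ^ s) • x := by
  rw [map_mul, map_mul, map_pow, map_pow, sev_em, sev_lv, sev_rv, ← map_pow, ← map_pow,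
    mul_assoc, ← map_mul, ← Algebra.commutes, Algebra.smul_def]

theorem a4_sev_map (l r : K) (f : A →ₗ[K] B) (P : P2 A) :
    sev l r (a4_map f P) = f (sev l r P) := by
  refine P2_induction (motive := fun P => sev l r (a4_map f P) = f (sev l r P)) P
    (fun x p s => ?_) fun P Q h1 h2 => ?_
  · rw [a4_map2, a4_sev_mon, a4_sev_mon, map_smul]
  · rw [map_add, map_add, map_add, map_add, h1, h2]

theorem a4_lv_pow_mul (z : A) (p : ℕ) (P : P2 A) :
    evz K z (lv A ^ p * P) = z ^ p * evz K z P := by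
  induction p with
  | zero => rw [pow_zero, pow_zero, one_mul, one_mul]
  | succ p ih => rw [pow_succ', mul_assoc, evz_lv_mul, ih, pow_succ', mul_assoc]

theorem a4_rv_pow_mul (z : A) (s : ℕ) (P : P2 A) :
    evz K z (rv A ^ s * P) = evz K z P * z ^ s := by
  induction s with
  | zero => rw [pow_zero, pow_zero, one_mul, mul_one]
  | succ s ih => rw [pow_succ', mul_assoc, evz_rv_mul, ih, pow_succ, mul_assoc]

theorem a4_evz_mon (z x : A) (p s : ℕ) :
    evz K z (em x * lv A ^ p * rv A ^ s) = z ^ p * x * z ^ s := by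
  have h1 : ∀ Q : P2 A, Q * lv A ^ p = lv A ^ p * Q := fun Q =>
    ((show Commute (lv A) Q from lv_comm Q).pow_left p).eq.symm
  have h2 : ∀ Q : P2 A, Q * rv A ^ s = rv A ^ s * Q := fun Q =>
    ((show Commute (rv A) Q from rv_comm Q).pow_left s).eq.symm
  rw [h2, a4_rv_pow_mul, h1, a4_lv_pow_mul, evz_em]

end a4

theorem a4_Lam {k : ℕ} (c : Fin k → Fin n × Fin n) (z : FA K n) (v : RR K n k) (p s : ℕ) :
    z ^ p * Lam c v * z ^ s - Lam c (v * ab 0 z ^ p * ab (Fin.last k) z ^ s) ∈
      Fil K n (k + 1) := by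
  have h1 := Lam_left c v (z ^ p)
  have h2 := Lam_right c (ab 0 (z ^ p) * v) (z ^ s)
  have h3 := Fil_tsi (K := K) (n := n) (k + 1) 1 _ (z ^ s) h1
  have h4 := Submodule.add_mem _ h3 h2
  rw [map_pow, map_pow] at h4
  have e : v * ab 0 z ^ p * ab (Fin.last k) z ^ s =
      ab (Fin.last k) z ^ s * (ab 0 z ^ p * v) := by ring
  rw [e]
  rw [one_mul, sub_mul, sub_add_sub_cancel] at h4
  exact h4

/-- the evaluation of the two variables in the ring of symbols -/
noncomputable def a4_ev {R : Type v} [CommRing R] (y y' : R) : P2 R →+* R :=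
  (Polynomial.evalRingHom y).comp (Polynomial.evalRingHom (Polynomial.C y'))

theorem a4_ev_em {R : Type v} [CommRing R] (y y' x : R) : a4_ev y y' (em x) = x := by
  unfold a4_ev em
  simp

theorem a4_ev_lv {R : Type v} [CommRing R] (y y' : R) : a4_ev y y' (lv R) = y := by
  unfold a4_ev lv
  simp

theorem a4_ev_rv {R : Type v} [CommRing R] (y y' : R) : a4_ev y y' (rv R) = y' := by
  unfold a4_ev rv
  simp

theorem a4_evz_Lam {k : ℕ} (c : Fin k → Fin n × Fin n) (z : FA K n) (Q : P2 (RR K n k)) :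
    evz K z (a4_map (Lam c) Q) - Lam c (a4_ev (ab 0 z) (ab (Fin.last k) z) Q) ∈
      Fil K n (k + 1) := by
  refine P2_induction (motive := fun Q => evz K z (a4_map (Lam c) Q) -
    Lam c (a4_ev (ab 0 z) (ab (Fin.last k) z) Q) ∈ Fil K n (k + 1)) Q
    (fun x p s => ?_) fun P Q h1 h2 => ?_
  · have h0 : a4_ev (ab 0 z) (ab (Fin.last k) z) (em x * lv _ ^ p * rv _ ^ s) =
        x * ab 0 z ^ p * ab (Fin.last k) z ^ s := by
      rw [map_mul (a4_ev (ab 0 z) (ab (Fin.last k) z)),
        map_mul (a4_ev (ab 0 z) (ab (Fin.last k) z)),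
        map_pow (a4_ev (ab 0 z) (ab (Fin.last k) z)),
        map_pow (a4_ev (ab 0 z) (ab (Fin.last k) z)), a4_ev_em, a4_ev_lv, a4_ev_rv]
    rw [a4_map2, a4_evz_mon, h0]
    exact a4_Lam c z x p s
  · have h3 := Submodule.add_mem _ h1 h2
    rw [map_add, map_add, map_add, map_add, add_sub_add_comm]
    exact h3

theorem a4_sev_qq {A : Type v} [Ring A] [Algebra K A] (l r : K) (M : ℕ) (z : A) :
    sev l r (qq M z) = (z * (z - algebraMap K _ l) * (z - algebraMap K _ r)) ^ M := by
  unfold qq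
  rw [map_pow, map_mul, map_mul, map_sub, map_sub, sev_em, sev_lv, sev_rv]

theorem a4_sev_gg {A : Type v} [Ring A] [Algebra K A] (l r : K) (M : ℕ) (z : A) (a : ℕ) (x : A)
    (e : ℕ) : sev l r (gg M z a x e) =
      (z * (z - algebraMap K _ l) * (z - algebraMap K _ r)) ^ (M * a) * x *
        (z * (z - algebraMap K _ l) * (z - algebraMap K _ r)) ^ (M * e) := by
  unfold gg
  rw [map_mul, map_mul, map_pow, map_pow, a4_sev_qq, sev_em, pow_mul, pow_mul]

theorem opw_lin (K : Type u) [Field K] {A : Type v} [Ring A] [Algebra K A] (M : ℕ) (z : A)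
    (a : ℕ) (x : A) (e : ℕ) (b : K) {σ : Type w} (y : σ → A) :
    ∃ f : FreeAlgebra K σ →ₗ[K] A, ∀ h, opw K M z a x e b y h = f h :=
  ⟨(evz K z).comp (sbst K M z (gg M z a x e) b y).toLinearMap, fun _ => rfl⟩

theorem sev_sbst (M : ℕ) (z : FA K n) (a : ℕ) (x : FA K n) (e : ℕ) (b : K) (h : FA K n)
    (l r : K) :
    sev l r (sbst K M z (gg M z a x e) b (xx K) h) =
      sg ((z * (z - algebraMap K _ l) * (z - algebraMap K _ r)) ^ M)
        ((z * (z - algebraMap K _ l) * (z - algebraMap K _ r)) ^ (M * a) * x *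
          (z * (z - algebraMap K _ l) * (z - algebraMap K _ r)) ^ (M * e)) b h := by
  refine FreeAlgebra.induction K (Fin n) (motive := fun h =>
    sev l r (sbst K M z (gg M z a x e) b (xx K) h) =
      sg ((z * (z - algebraMap K _ l) * (z - algebraMap K _ r)) ^ M)
        ((z * (z - algebraMap K _ l) * (z - algebraMap K _ r)) ^ (M * a) * x *
          (z * (z - algebraMap K _ l) * (z - algebraMap K _ r)) ^ (M * e)) b h) ?_ ?_ ?_ ?_ h
  · intro t
    rw [AlgHom.commutes, AlgHom.commutes, Algebra.algebraMap_eq_smul_one, sev_smul, map_one,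
      Algebra.algebraMap_eq_smul_one]
  · intro j
    have e1 : sbst K M z (gg M z a x e) b (xx K) (FreeAlgebra.ι K j) =
        em (xx K j) + b • ((em (xx K j) * qq M z - qq M z * em (xx K j)) * gg M z a x e) := by
      unfold sbst
      rw [FreeAlgebra.lift_ι_apply]
    have e2 : ∀ q g : FA K n, sg q g b (FreeAlgebra.ι K j) =
        xx K j + b • ((xx K j * q - q * xx K j) * g) := by
      intro q g
      unfold sg
      rw [FreeAlgebra.lift_ι_apply]
    rw [e1, e2, map_add, sev_smul, map_mul, map_sub, map_mul, map_mul, sev_em, a4_sev_qq,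
      a4_sev_gg]
  · intro f g hf hg
    rw [map_mul, map_mul, map_mul, hf, hg]
  · intro f g hf hg
    rw [map_add, map_add, map_add, hf, hg]

/-- Let `P = sbst ... (Lam c v)` in `P2 (FA K n)` and let `Q` in `P2 (RR K n k)` be the
corresponding product `∏ (1 + b (q_i - q_{i-1}) g_i) * em v`. For all scalars `l, r` we have
`sev l r P - Lam c (sev l r Q)` in `Fil (k + 1)` by `sg_layer`; hence the same for all coefficients
(as in `coef_mem`; consider for example the polynomial with coefficients in `FA K n` obtained from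
`Q` by applying `Lam c` to all coefficients). Then multiply by `z ^ p` on the left and `z ^ s` on
the right with `Lam_left`, `Lam_right`, and note that the evaluation of `Q` at
`lv ↦ ab 0 z`, `rv ↦ ab (Fin.last k) z` is `opS k M z a x e b * v`. Needs `K` infinite. -/
theorem opw_layer [Infinite K] {k : ℕ} (M : ℕ) (z : FA K n) (a : ℕ) (x : FA K n) (e : ℕ) (b : K)
    (c : Fin k → Fin n × Fin n) (v : RR K n k) :
    opw K M z a x e b (xx K) (Lam c v) - Lam c (opS k M z a x e b * v) ∈ Fil K n (k + 1) := by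
  obtain ⟨P, hP⟩ : ∃ P, P = sbst K M z (gg M z a x e) b (xx K) (Lam c v) := ⟨_, rfl⟩
  obtain ⟨Q, hQ⟩ : ∃ Q : P2 (RR K n k), Q = (∏ i : Fin k, (1 + em (algebraMap K (RR K n k) b) *
      ((qq M (ab i.succ z) - qq M (ab i.castSucc z)) *
        gg M (ab i.succ z) a (ab i.succ x) e))) * em v := ⟨_, rfl⟩
  have h1 : ∀ l r : K, sev l r (P - a4_map (Lam c) Q) ∈ Fil K n (k + 1) := by
    intro l r
    rw [map_sub, a4_sev_map, hP, sev_sbst]
    have h2 := sg_layer ((z * (z - algebraMap K _ l) * (z - algebraMap K _ r)) ^ M)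
      ((z * (z - algebraMap K _ l) * (z - algebraMap K _ r)) ^ (M * a) * x *
        (z * (z - algebraMap K _ l) * (z - algebraMap K _ r)) ^ (M * e)) b c v
    have h3 : sev l r Q = (∏ i, sgS ((z * (z - algebraMap K _ l) * (z - algebraMap K _ r)) ^ M)
      ((z * (z - algebraMap K _ l) * (z - algebraMap K _ r)) ^ (M * a) * x *
        (z * (z - algebraMap K _ l) * (z - algebraMap K _ r)) ^ (M * e)) b i) * v := by
      rw [hQ, map_mul, sev_em, map_prod]
      congr 1
      refine Finset.prod_congr rfl fun i _ => ?_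
      unfold sgS
      rw [map_add, map_one, map_mul, sev_em, map_mul, map_sub, a4_sev_qq, a4_sev_qq, a4_sev_gg,
        Algebra.smul_def]
      simp only [map_mul, map_pow, map_sub, AlgHom.commutes]
    rw [h3]
    exact h2
  have h2 := a4_evz (Fil_tsi (k + 1)) z _ h1
  rw [map_sub] at h2
  have h3 := a4_evz_Lam c z Q
  have h4 : a4_ev (ab 0 z) (ab (Fin.last k) z) Q = opS k M z a x e b * v := by
    rw [hQ, map_mul, a4_ev_em, map_prod]
    congr 1
    unfold opS
    refine Finset.prod_congr rfl fun i _ => ?_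
    have e1 : ∀ i : Fin (k + 1), a4_ev (ab 0 z) (ab (Fin.last k) z) (qq M (ab i z)) =
        us z i ^ M := by
      intro i
      unfold qq us
      rw [map_pow, map_mul, map_mul, map_sub, map_sub, a4_ev_em, a4_ev_lv, a4_ev_rv]
    have e2 : a4_ev (ab 0 z) (ab (Fin.last k) z) (gg M (ab i.succ z) a (ab i.succ x) e) =
        us z i.succ ^ (M * a) * ab i.succ x * us z i.succ ^ (M * e) := by
      unfold gg
      rw [map_mul, map_mul, map_pow, map_pow, e1, a4_ev_em, pow_mul, pow_mul]
    rw [map_add, map_one, map_mul, a4_ev_em, map_mul, map_sub, e1, e1, e2, Algebra.smul_def]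
    rfl
  rw [h4] at h3
  have h5 := Submodule.add_mem _ h2 h3
  rw [sub_add_sub_cancel, hP] at h5
  exact h5

theorem opw_Fil [Infinite K] {k : ℕ} (M : ℕ) (z : FA K n) (a : ℕ) (x : FA K n) (e : ℕ) (b : K)
    {h : FA K n} (hh : h ∈ Fil K n k) : opw K M z a x e b (xx K) h ∈ Fil K n k := by
  refine a4_evz (Fil_tsi k) z _ fun l r => ?_
  rw [sev_sbst]
  exact sg_Fil _ _ _ hh

/-- All values at scalars are in `T` (substitution), hence all coefficients (`coef_mem`). -/
theorem opw_T [Infinite K] {T : Submodule K (FA K n)} (htsi : IsTSI T)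
    (hsub : ∀ f : FA K n →ₐ[K] FA K n,
      (∀ j, FreeAlgebra.algebraMapInv (f (xx K j)) = 0) → ∀ h ∈ T, f h ∈ T)
    (M : ℕ) (z : FA K n) (a : ℕ) (x : FA K n) (e : ℕ) (b : K) {h : FA K n} (hh : h ∈ T) :
    opw K M z a x e b (xx K) h ∈ T := by
  refine a4_evz htsi z _ fun l r => ?_
  rw [sev_sbst]
  refine hsub _ (fun j => ?_) h hh
  unfold sg
  rw [FreeAlgebra.lift_ι_apply, map_add, map_smul, map_mul, map_sub, map_mul, map_mul,
    mul_comm (FreeAlgebra.algebraMapInv (xx K j)), sub_self, zero_mul, smul_zero, add_zero]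
  unfold FreeAlgebra.algebraMapInv
  rw [FreeAlgebra.lift_ι_apply]
  rfl

end Pool.Agent.H.MP_f5ceca_al.G
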