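import Pool.Agent.H.MP_f5ceca_al.G.A0
import Pool.Agent.H.MP_f5ceca_al.G.A2

/-!
Job A6: the symbol of the relation `Erel`.

Linear in `v`, so `v` is a monomial, `Lam c v ≡ NW w c` with sorted words `w i`. Put
`a = w_0 c_1 w_1 ... c_i w_i`, `x = c_{i+1} w_{i+1} ... c_{i'}`, `b = w_{i'} c_{i'+1} ... w_k`
(so `a * x * b = NW w c`). For scalars `l, r` and `q = (z (z - l) (z - r)) ^ M` the element
`a q x q y q b - a q y q x q b` is congruent to `Lam c` of
`(q_i q_{i'} y_{i'} q_{i'} - q_i y_i q_i q_{i'}) * v` by `Lam_pt`, where `q_j = ab j q`;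
this holds for all coefficients in `l, r` (`coef_mem`), and applying outer multiplications by `z`
(`Lam_left`, `Lam_right`) gives `Erel K M z a x y b ≡ Lam c (erS M z y i i' * v)`.
-/

namespace Pool.Agent.H.MP_f5ceca_al.G

universe u v w

variable {K : Type u} [Field K] {n : ℕ}

/-- Evaluation of the two central variables over a commutative ring. -/
noncomputable def a6_ev {B : Type v} [CommRing B] (L R : B) : P2 B →+* B :=
  (Polynomial.evalRingHom L).comp (Polynomial.evalRingHom (Polynomial.C R))

theorem a6_ev_em {B : Type v} [CommRing B] (L R : B) (a : B) : a6_ev L R (em a) = a := by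
  simp [a6_ev, em]

theorem a6_ev_lv {B : Type v} [CommRing B] (L R : B) : a6_ev L R (lv B) = L := by
  simp [a6_ev, lv]

theorem a6_ev_rv {B : Type v} [CommRing B] (L R : B) : a6_ev L R (rv B) = R := by
  simp [a6_ev, rv]

theorem a6_ev_qq {B : Type v} [CommRing B] (L R : B) (M : ℕ) (z : B) :
    a6_ev L R (qq M z) = (z * (z - L) * (z - R)) ^ M := by
  simp only [qq, map_pow, map_mul, map_sub, a6_ev_em, a6_ev_lv, a6_ev_rv]

theorem a6_ev_mono {B : Type v} [CommRing B] (L R : B) (a : B) (p s : ℕ) :
    a6_ev L R (em a * lv B ^ p * rv B ^ s) = a * L ^ p * R ^ s := by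
  rw [map_mul, map_mul, map_pow, map_pow, a6_ev_em, a6_ev_lv, a6_ev_rv]

theorem a6_sev_qq {A : Type v} [Ring A] [Algebra K A] (l r : K) (M : ℕ) (z : A) :
    sev l r (qq M z) = (z * (z - algebraMap K A l) * (z - algebraMap K A r)) ^ M := by
  simp only [qq, map_pow, map_mul, map_sub, sev_em, sev_lv, sev_rv]

theorem a6_lv_pow {A : Type v} [Ring A] (p : ℕ) (P : P2 A) : P * lv A ^ p = lv A ^ p * P := by
  have h : Commute (lv A) P := lv_comm P
  exact (h.pow_left p).eq.symm

theorem a6_rv_pow {A : Type v} [Ring A] (p : ℕ) (P : P2 A) : P * rv A ^ p = rv A ^ p * P := by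
  have h : Commute (rv A) P := rv_comm P
  exact (h.pow_left p).eq.symm

theorem a6_evz_lv {A : Type v} [Ring A] [Algebra K A] (z : A) (p : ℕ) (P : P2 A) :
    evz K z (lv A ^ p * P) = z ^ p * evz K z P := by
  induction p with
  | zero => rw [pow_zero, pow_zero, one_mul, one_mul]
  | succ p ih => rw [pow_succ', mul_assoc, evz_lv_mul, ih, pow_succ', mul_assoc]

theorem a6_evz_rv {A : Type v} [Ring A] [Algebra K A] (z : A) (p : ℕ) (P : P2 A) :
    evz K z (rv A ^ p * P) = evz K z P * z ^ p := by
  induction p with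
  | zero => rw [pow_zero, pow_zero, one_mul, mul_one]
  | succ p ih => rw [pow_succ', mul_assoc, evz_rv_mul, ih, pow_succ, mul_assoc]

theorem a6_evz_mono {A : Type v} [Ring A] [Algebra K A] (z a : A) (p s : ℕ) :
    evz K z (em a * lv A ^ p * rv A ^ s) = z ^ p * a * z ^ s := by
  rw [a6_rv_pow, a6_evz_rv, a6_lv_pow, a6_evz_lv, evz_em]

theorem a6_sev_mono {A : Type v} [Ring A] [Algebra K A] (l r : K) (a : A) (p s : ℕ) :
    sev l r (em a * lv A ^ p * rv A ^ s) = (l ^ p * r ^ s) • a := by
  rw [map_mul, map_mul, map_pow, map_pow, sev_em, sev_lv, sev_rv, ← map_pow, ← map_pow, mul_assoc,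
    ← map_mul, ← Algebra.commutes, ← Algebra.smul_def]

/-- If all coefficients are in a two-sided ideal then so is the value. -/
theorem a6_evz_mem {A : Type v} [Ring A] [Algebra K A] {U : Submodule K A} (hU : IsTSI U) (z : A)
    (P : P2 A) (h : ∀ p s, (P.coeff s).coeff p ∈ U) : evz K z P ∈ U := by
  rw [evz_sum]
  unfold Polynomial.sum
  refine Submodule.sum_mem _ fun s _ => Submodule.sum_mem _ fun p _ => ?_
  exact hU _ _ _ (h p s)

/-- Lifting of a polynomial of symbols. -/
theorem a6_lift {k : ℕ} (z : FA K n) (c : Fin k → Fin n × Fin n) (Q : P2 (RR K n k)) :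
    ∃ Q' : P2 (FA K n), (∀ l r : K, sev l r Q' = Lam c (sev l r Q)) ∧
      evz K z Q' - Lam c (a6_ev (ab 0 z) (ab (Fin.last k) z) Q) ∈ Fil K n (k + 1) := by
  induction Q using P2_induction with
  | h1 a p s =>
    refine ⟨em (Lam c a) * lv _ ^ p * rv _ ^ s, ?_, ?_⟩
    · intro l r
      rw [a6_sev_mono, a6_sev_mono, map_smul]
    · rw [a6_evz_mono, a6_ev_mono, ← map_pow, ← map_pow]
      have h1 := a1_right (z ^ s) (Lam_left c a (z ^ p))
      have h2 := Lam_right c (ab 0 (z ^ p) * a) (z ^ s)
      have h3 := Submodule.add_mem _ h1 h2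
      have e : z ^ p * Lam c a * z ^ s - Lam c (a * ab 0 (z ^ p) * ab (Fin.last k) (z ^ s)) =
          (z ^ p * Lam c a - Lam c (ab 0 (z ^ p) * a)) * z ^ s +
          (Lam c (ab 0 (z ^ p) * a) * z ^ s -
            Lam c (ab (Fin.last k) (z ^ s) * (ab 0 (z ^ p) * a))) := by
        have e1 : a * ab 0 (z ^ p) * ab (Fin.last k) (z ^ s) =
            ab (Fin.last k) (z ^ s) * (ab 0 (z ^ p) * a) := by ring
        rw [e1, sub_mul]
        abel
      rw [e]
      exact h3
  | h2 P Q hP hQ =>
    obtain ⟨P', hP1, hP2⟩ := hP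
    obtain ⟨Q', hQ1, hQ2⟩ := hQ
    refine ⟨P' + Q', ?_, ?_⟩
    · intro l r
      rw [map_add, map_add, map_add, hP1, hQ1]
    · rw [map_add, map_add, map_add]
      have e : evz K z P' + evz K z Q' -
          (Lam c (a6_ev (ab 0 z) (ab (Fin.last k) z) P) +
            Lam c (a6_ev (ab 0 z) (ab (Fin.last k) z) Q)) =
          (evz K z P' - Lam c (a6_ev (ab 0 z) (ab (Fin.last k) z) P)) +
          (evz K z Q' - Lam c (a6_ev (ab 0 z) (ab (Fin.last k) z) Q)) := by abel
      rw [e]
      exact Submodule.add_mem _ hP2 hQ2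

/-- Congruences for all scalars give the congruence of the values. -/
theorem a6_layer [Infinite K] {k : ℕ} (z : FA K n) (c : Fin k → Fin n × Fin n)
    (P : P2 (FA K n)) (Q : P2 (RR K n k))
    (h : ∀ l r : K, sev l r P - Lam c (sev l r Q) ∈ Fil K n (k + 1)) :
    evz K z P - Lam c (a6_ev (ab 0 z) (ab (Fin.last k) z) Q) ∈ Fil K n (k + 1) := by
  obtain ⟨Q', h1, h2⟩ := a6_lift z c Q
  have h3 : evz K z (P - Q') ∈ Fil K n (k + 1) := by
    refine a6_evz_mem (Fil_tsi _) z _ fun p s => coef_mem _ _ (fun l r => ?_) p s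
    rw [map_sub, h1]
    exact h l r
  have e : evz K z P - Lam c (a6_ev (ab 0 z) (ab (Fin.last k) z) Q) =
      evz K z (P - Q') + (evz K z Q' - Lam c (a6_ev (ab 0 z) (ab (Fin.last k) z) Q)) := by
    rw [map_sub]
    abel
  rw [e]
  exact Submodule.add_mem _ h3 h2

theorem a6_split1 {k : ℕ} (w : Fin (k + 1) → FA K n) (c : Fin k → Fin n × Fin n)
    (j : Fin (k + 1)) :
    ∃ x b : FA K n, ∀ t, x * t * b = NW (Function.update w j (t * w j)) c := by
  induction k with
  | zero =>
    refine ⟨1, NW w c, fun t => ?_⟩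
    have hs : Subsingleton (Fin (0 + 1)) := (inferInstance : Subsingleton (Fin 1))
    have hj : j = 0 := Subsingleton.elim _ _
    subst hj
    rw [one_mul, NW_left]
  | succ k ih =>
    refine Fin.cases ?_ (fun j => ?_) j
    · refine ⟨1, NW w c, fun t => ?_⟩
      rw [one_mul, NW_left]
    · obtain ⟨x, b, hxb⟩ := ih (fun i => w i.succ) (fun i => c i.succ) j
      refine ⟨w 0 * cm K (c 0) * x, b, fun t => ?_⟩
      rw [NW_cons, Function.update_of_ne (Fin.succ_ne_zero j).symm]
      have h1 : (fun i : Fin (k + 1) => Function.update w j.succ (t * w j.succ) i.succ) =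
          Function.update (fun i : Fin (k + 1) => w i.succ) j (t * w j.succ) := by
        funext i
        by_cases hi : i = j
        · subst hi
          rw [Function.update_self, Function.update_self]
        · rw [Function.update_of_ne hi,
            Function.update_of_ne (fun h => hi (Fin.succ_injective _ h))]
      rw [h1, ← hxb]
      simp only [mul_assoc]

theorem a6_split {k : ℕ} (w : Fin (k + 1) → FA K n) (c : Fin k → Fin n × Fin n)
    (i i' : Fin (k + 1)) (hii : i < i') :
    ∃ a x b : FA K n, ∀ s t, a * s * x * t * b =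
      NW (Function.update (Function.update w i (w i * s)) i' (t * w i')) c := by
  induction k with
  | zero =>
    exfalso
    have hs : Subsingleton (Fin (0 + 1)) := (inferInstance : Subsingleton (Fin 1))
    have h1 : i = i' := Subsingleton.elim _ _
    exact absurd hii (by rw [h1]; exact lt_irrefl _)
  | succ k ih =>
    have key : ∀ (W : Fin (k + 2) → FA K n) (j : Fin (k + 1)) (y : FA K n),
        (fun i : Fin (k + 1) => Function.update W j.succ y i.succ) =
          Function.update (fun i : Fin (k + 1) => W i.succ) j y := by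
      intro W j y
      funext i
      by_cases hi : i = j
      · subst hi
        rw [Function.update_self, Function.update_self]
      · rw [Function.update_of_ne hi,
          Function.update_of_ne (fun h => hi (Fin.succ_injective _ h))]
    obtain ⟨j', rfl⟩ := Fin.exists_succ_eq.2 (show i' ≠ 0 by
      intro h0
      rw [h0] at hii
      exact absurd hii (Fin.not_lt_zero _))
    rcases Fin.eq_zero_or_eq_succ i with h0 | ⟨j, rfl⟩
    · subst h0
      obtain ⟨x, b, hxb⟩ := a6_split1 (fun i => w i.succ) (fun i => c i.succ) j'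
      refine ⟨w 0, cm K (c 0) * x, b, fun s t => ?_⟩
      rw [NW_cons, Function.update_of_ne (Fin.succ_ne_zero j').symm, Function.update_self, key]
      have h2 : (fun i : Fin (k + 1) => Function.update w 0 (w 0 * s) i.succ) =
          fun i : Fin (k + 1) => w i.succ := by
        funext i
        rw [Function.update_of_ne (Fin.succ_ne_zero i)]
      rw [h2, ← hxb]
      simp only [mul_assoc]
    · obtain ⟨a, x, b, hab⟩ := ih (fun i => w i.succ) (fun i => c i.succ) j j'
        (Fin.succ_lt_succ_iff.1 hii)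
      refine ⟨w 0 * cm K (c 0) * a, x, b, fun s t => ?_⟩
      rw [NW_cons, Function.update_of_ne (Fin.succ_ne_zero j').symm,
        Function.update_of_ne (Fin.succ_ne_zero j).symm, key, key, ← hab]
      simp only [mul_assoc]

theorem a6_upd {k : ℕ} (w : Fin (k + 1) → FA K n) (i : Fin (k + 1)) (y : FA K n)
    (s : RR K n k) (hs : ab i y = ab i (w i) * s) :
    ∏ j, ab j (Function.update w i y j) = (∏ j, ab j (w j)) * s := by
  have h1 : ∀ j, ab j (Function.update w i y j) = ab j (w j) * (if j = i then s else 1) := by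
    intro j
    by_cases h : j = i
    · subst h
      rw [Function.update_self, if_pos rfl, hs]
    · rw [Function.update_of_ne h, if_neg h, mul_one]
  rw [Finset.prod_congr rfl fun j _ => h1 j, Finset.prod_mul_distrib, Finset.prod_ite_eq',
    if_pos (Finset.mem_univ _)]

theorem a6_mono {k : ℕ} (e : Fin (k + 1) × Fin n →₀ ℕ) :
    (MvPolynomial.monomial e (1 : K) : RR K n k) = ∏ i, ab i (srt fun j => e (i, j)) := by
  have h1 : ∀ i : Fin (k + 1), ab i (srt fun j => e (i, j)) =
      ∏ j, (MvPolynomial.X (i, j) : RR K n k) ^ e (i, j) := by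
    intro i
    rw [srt, map_list_prod, List.map_ofFn, List.prod_ofFn]
    refine Finset.prod_congr rfl fun j _ => ?_
    simp [ab, xx]
  rw [MvPolynomial.monomial_eq, MvPolynomial.C_1, one_mul, Finsupp.prod_fintype _ _
    (fun _ => pow_zero _), Fintype.prod_prod_type]
  exact Finset.prod_congr rfl fun i _ => (h1 i).symm

/-- The symbol of `Erel`. -/
theorem a6_erel [Infinite K] {k : ℕ} (M : ℕ) (z y : FA K n) (i i' : Fin (k + 1))
    (hii : i < i') (c : Fin k → Fin n × Fin n) (w : Fin (k + 1) → FA K n) :
    ∃ a x b : FA K n, Erel K M z a x y b - Lam c (erS M z y i i' * ∏ j, ab j (w j)) ∈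
      Fil K n (k + 1) := by
  obtain ⟨a, x, b, hab⟩ := a6_split w c i i' hii
  refine ⟨a, x, b, ?_⟩
  set v : RR K n k := ∏ j, ab j (w j) with hv
  have h := a6_layer z c
    (em a * qq M z * em x * qq M z * em y * qq M z * em b
      - em a * qq M z * em y * qq M z * em x * qq M z * em b)
    ((qq M (ab i z) * qq M (ab i' z) ^ 2 * em (ab i' y) -
      qq M (ab i z) ^ 2 * em (ab i y) * qq M (ab i' z)) * em v) ?_
  · have e : a6_ev (ab 0 z) (ab (Fin.last k) z)
        ((qq M (ab i z) * qq M (ab i' z) ^ 2 * em (ab i' y) -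
          qq M (ab i z) ^ 2 * em (ab i y) * qq M (ab i' z)) * em v) = erS M z y i i' * v := by
      simp only [map_mul, map_sub, map_pow, a6_ev_qq, a6_ev_em, erS, us]
      ring
    rw [e] at h
    exact h
  · intro l r
    set q : FA K n := (z * (z - algebraMap K _ l) * (z - algebraMap K _ r)) ^ M with hq
    have hqi : ∀ j : Fin (k + 1), ab j q =
        (ab j z * (ab j z - algebraMap K (RR K n k) l) * (ab j z - algebraMap K (RR K n k) r)) ^ M := by
      intro j
      rw [hq]
      simp only [map_mul, map_sub, map_pow, AlgHom.commutes]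
    have e1 : sev l r (em a * qq M z * em x * qq M z * em y * qq M z * em b
        - em a * qq M z * em y * qq M z * em x * qq M z * em b) =
        a * q * x * (q * y * q) * b - a * (q * y * q) * x * q * b := by
      simp only [map_sub, map_mul, sev_em, a6_sev_qq, ← hq]
      simp only [mul_assoc]
    have e2 : sev l r ((qq M (ab i z) * qq M (ab i' z) ^ 2 * em (ab i' y) -
        qq M (ab i z) ^ 2 * em (ab i y) * qq M (ab i' z)) * em v) =
        v * ab i q * (ab i' (q * y * q)) - v * ab i (q * y * q) * ab i' q := by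
      simp only [map_sub, map_mul, map_pow, sev_em, a6_sev_qq, ← hqi]
      ring
    rw [e1, e2, hab, hab, map_sub]
    have hne : i' ≠ i := hii.ne'
    have p1 := Lam_pt (Function.update (Function.update w i (w i * q)) i' (q * y * q * w i')) c
    have p2 := Lam_pt (Function.update (Function.update w i (w i * (q * y * q))) i' (q * w i')) c
    rw [a6_upd _ i' _ (ab i' (q * y * q)) (by
      rw [Function.update_of_ne hne, map_mul _ (q * y * q) (w i'), mul_comm]),
      a6_upd w i _ (ab i q) (by rw [map_mul]), ← hv] at p1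
    rw [a6_upd _ i' _ (ab i' q) (by
      rw [Function.update_of_ne hne, map_mul _ q (w i'), mul_comm]),
      a6_upd w i _ (ab i (q * y * q)) (by rw [map_mul _ (w i)]), ← hv] at p2
    have p3 := Submodule.sub_mem _ p2 p1
    have e3 : ∀ X1 X2 Y1 Y2 : FA K n, X1 - X2 - (Y1 - Y2) = (Y2 - X2) - (Y1 - X1) := by
      intro X1 X2 Y1 Y2
      abel
    rw [e3]
    exact p3

theorem erel_layer [Infinite K] {k : ℕ} (M : ℕ) (z y : FA K n) (i i' : Fin (k + 1))
    (hii : i < i') (c : Fin k → Fin n × Fin n) (v : RR K n k) :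
    Lam c (erS M z y i i' * v) ∈
      Submodule.span K {w | ∃ a x b : FA K n, w = Erel K M z a x y b} ⊔ Fil K n (k + 1) := by
  induction v using MvPolynomial.induction_on' with
  | monomial e t =>
    have e1 : (MvPolynomial.monomial e t : RR K n k) = t • MvPolynomial.monomial e (1 : K) := by
      rw [MvPolynomial.smul_monomial, smul_eq_mul, mul_one]
    rw [e1, mul_smul_comm, map_smul, a6_mono]
    refine Submodule.smul_mem _ _ ?_
    obtain ⟨a, x, b, h⟩ := a6_erel M z y i i' hii c (fun i => srt fun j => e (i, j))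
    have e2 : Lam c (erS M z y i i' * ∏ i, ab i (srt fun j => e (i, j))) =
        Erel K M z a x y b + -(Erel K M z a x y b -
          Lam c (erS M z y i i' * ∏ i, ab i (srt fun j => e (i, j)))) := by
      abel
    rw [e2]
    exact Submodule.add_mem _
      (Submodule.mem_sup_left (Submodule.subset_span ⟨a, x, b, rfl⟩))
      (Submodule.mem_sup_right (Submodule.neg_mem _ h))
  | add p q hp hq =>
    rw [mul_add, map_add]
    exact Submodule.add_mem _ hp hq

end Pool.Agent.H.MP_f5ceca_al.G
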