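import Pool.Agent.H.MP_f5ceca_al.G.A0

/-!
Job B0: functoriality of the operators.

All statements: `evz_map` by `P2_induction` (or the coefficient formula `evz_sum`); then
`(mapRingHom (mapRingHom f))` maps `em`, `lv`, `rv`, `qq` to the same elements for the image, and
`(mapRingHom (mapRingHom f)) ∘ sbst = sbst` for the image by `FreeAlgebra.hom_ext`-like arguments.
-/

namespace Pool.Agent.H.MP_f5ceca_al.G

universe u v w

/-- The homomorphism on `P2`. -/
noncomputable def mp (K : Type u) [Field K] {A : Type v} {B : Type w} [Ring A] [Ring B]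
    [Algebra K A] [Algebra K B] (f : A →ₐ[K] B) : P2 A →+* P2 B :=
  Polynomial.mapRingHom (Polynomial.mapRingHom (f : A →+* B))

section
variable (K : Type u) [Field K] {A : Type v} {B : Type w} [Ring A] [Ring B] [Algebra K A]
  [Algebra K B] (f : A →ₐ[K] B)

theorem mp_em (a : A) : mp K f (em a) = em (f a) := by
  simp [mp, em]

theorem mp_lv : mp K f (lv A) = lv B := by
  simp [mp, lv]

theorem mp_rv : mp K f (rv A) = rv B := by
  simp [mp, rv]

theorem mp_smul (c : K) (P : P2 A) : mp K f (c • P) = c • mp K f P := by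
  have h1 : ∀ (Q : P2 A), c • Q = em (algebraMap K A c) * Q := fun Q => by
    rw [Algebra.smul_def]; rfl
  have h2 : ∀ (Q : P2 B), c • Q = em (algebraMap K B c) * Q := fun Q => by
    rw [Algebra.smul_def]; rfl
  rw [h1, h2, map_mul, mp_em, AlgHom.commutes]

theorem mp_qq (M : ℕ) (z : A) : mp K f (qq M z) = qq M (f z) := by
  simp only [qq, map_pow, map_mul, map_sub, mp_em, mp_lv, mp_rv]

theorem b0_evz_mono {A : Type v} [Ring A] [Algebra K A] (z a : A) (p s : ℕ) :
    evz K z (em a * lv A ^ p * rv A ^ s) = z ^ p * a * z ^ s := by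
  have hr : ∀ (s : ℕ) (P : P2 A), evz K z (P * rv A ^ s) = evz K z P * z ^ s := by
    intro s
    induction s with
    | zero => intro P; rw [pow_zero, mul_one, pow_zero, mul_one]
    | succ s ih =>
      intro P
      rw [pow_succ', ← mul_assoc, ih, ← rv_comm, evz_rv_mul, mul_assoc, ← pow_succ']
  have hl : ∀ (p : ℕ) (P : P2 A), evz K z (P * lv A ^ p) = z ^ p * evz K z P := by
    intro p
    induction p with
    | zero => intro P; rw [pow_zero, mul_one, pow_zero, one_mul]
    | succ p ih =>
      intro P
      rw [pow_succ, ← mul_assoc, ← lv_comm, evz_lv_mul, ih, ← mul_assoc, ← pow_succ']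
  rw [hr, hl, evz_em]

theorem evz_map (z : A) (P : P2 A) : f (evz K z P) = evz K (f z) (mp K f P) := by
  induction P using P2_induction with
  | h1 a p s =>
    have h1 : mp K f (em a * lv A ^ p * rv A ^ s) = em (f a) * lv B ^ p * rv B ^ s := by
      simp only [map_mul, map_pow, mp_em, mp_lv, mp_rv]
    rw [h1, b0_evz_mono, b0_evz_mono]
    simp only [map_mul, map_pow]
  | h2 P Q hP hQ => rw [map_add, map_add, map_add, map_add, hP, hQ]

theorem sbst_map (M : ℕ) (z : A) (g : P2 A) (b : K) {σ : Type}
    (y : σ → A) (h : FreeAlgebra K σ) :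
    mp K f (sbst K M z g b y h) = sbst K M (f z) (mp K f g) b (fun j => f (y j)) h := by
  induction h using FreeAlgebra.induction with
  | grade0 c =>
    rw [AlgHom.commutes, AlgHom.commutes]
    have h1 : algebraMap K (P2 A) c = em (algebraMap K A c) := rfl
    have h2 : algebraMap K (P2 B) c = em (algebraMap K B c) := rfl
    rw [h1, h2, mp_em, AlgHom.commutes]
  | grade1 j =>
    unfold sbst
    rw [FreeAlgebra.lift_ι_apply, FreeAlgebra.lift_ι_apply, map_add, mp_smul, map_mul, map_sub,
      map_mul, map_mul, mp_em, mp_qq]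
  | mul a b ha hb => rw [map_mul, map_mul, map_mul, ha, hb]
  | add a b ha hb => rw [map_add, map_add, map_add, ha, hb]

theorem opw_map (M : ℕ) (z : A) (a : ℕ) (x : A) (e : ℕ) (b : K) {σ : Type}
    (y : σ → A) (h : FreeAlgebra K σ) :
    f (opw K M z a x e b y h) = opw K M (f z) a (f x) e b (fun j => f (y j)) h := by
  unfold opw
  have h1 : mp K f (gg M z a x e) = gg M (f z) a (f x) e := by
    unfold gg
    simp only [map_mul, map_pow, mp_qq, mp_em]
  rw [evz_map, sbst_map, h1]

theorem theta_map (m M : ℕ) (cc : ℕ → ℕ → K) (z : A) {σ : Type}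
    (y : σ → A) (h : FreeAlgebra K σ) :
    f (theta K m M cc z y h) = theta K m M cc (f z) (fun j => f (y j)) h := by
  unfold theta
  simp only [map_sum, map_smul, opw_map, map_one]

theorem Pi1_map (N : ℕ) (z a i : A) : f (Pi1 K N z a i) = Pi1 K N (f z) (f a) (f i) := by
  unfold Pi1
  have h1 : mp K f (em a * qq N z * em i) = em (f a) * qq N (f z) * em (f i) := by
    simp only [map_mul, mp_em, mp_qq]
  rw [evz_map, h1]

theorem Erel_map (M : ℕ) (z a x y b : A) :
    f (Erel K M z a x y b) = Erel K M (f z) (f a) (f x) (f y) (f b) := by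
  unfold Erel
  have h1 : mp K f (em a * qq M z * em x * qq M z * em y * qq M z * em b
      - em a * qq M z * em y * qq M z * em x * qq M z * em b) =
      em (f a) * qq M (f z) * em (f x) * qq M (f z) * em (f y) * qq M (f z) * em (f b)
      - em (f a) * qq M (f z) * em (f y) * qq M (f z) * em (f x) * qq M (f z) * em (f b) := by
    simp only [map_sub, map_mul, mp_em, mp_qq]
  rw [evz_map, h1]

end

end Pool.Agent.H.MP_f5ceca_al.G
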