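import Mathlib

/-!
Job B1: spectral idempotents of an element `z` of a finite-dimensional algebra over an
algebraically closed field.

`spec_exists`: let `P = minpoly E z` (if `B` is the zero ring take `S = ∅`, `e = 0`). It
splits, `P = ∏_{a ∈ S} (X - a) ^ (μ a)`, `S` the set of roots, `μ a ≤ deg P ≤ finrank E B`. The
polynomials `∏_{b ≠ a} (X - b) ^ (μ b)`, `a ∈ S`, are coprime as a family; by the Chinese
remainder theorem choose `f_a` with `f_a ≡ 1` modulo `(X - a) ^ (μ a)` and `f_a ≡ 0` modulo
`(X - b) ^ (μ b)`, `b ≠ a`. Put `e a = aeval z f_a` for `a ∈ S`, `e a = 0` otherwise. All equations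
hold because the corresponding polynomial is divisible by all `(X - b) ^ (μ b)`, so by `P`.
(Another way: `E[z]` is a finite-dimensional commutative algebra, so Artinian; or use the
generalized eigenspaces of the multiplication by `z`.)

`spec_mem`: `(z - a) ^ d * e a = 0` and the binomial formula: `(-a) ^ d • e a = z * (...)`.
-/

namespace Pool.Agent.H.MP_f5ceca_al.G

universe u v w

/-- A system of spectral idempotents of `z`. -/
structure Spec {E : Type u} [Field E] {B : Type v} [Ring B] [Algebra E B] (z : B) (d : ℕ) where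
  S : Finset E
  e : E → B
  mem : ∀ a, e a ∈ Algebra.adjoin E {z}
  off : ∀ a, a ∉ S → e a = 0
  sum : ∑ a ∈ S, e a = 1
  idem : ∀ a, e a * e a = e a
  orth : ∀ a b, a ≠ b → e a * e b = 0
  nilp : ∀ a, (z - algebraMap E B a) ^ d * e a = 0

open Polynomial in
/-- A polynomial divisible by all the primary factors of `P` is divisible by `P`. -/
theorem b1_dvd {E : Type u} [Field E] [IsAlgClosed E] [DecidableEq E] {P f : E[X]} (hP : P.Monic)
    (h : ∀ b ∈ P.roots.toFinset, (X - C b) ^ (P.roots.count b) ∣ f) : P ∣ f := by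
  rw [(IsAlgClosed.splits P).eq_prod_roots_of_monic hP, Finset.prod_multiset_map_count]
  refine Finset.prod_dvd_of_coprime ?_ h
  intro a _ b _ hab
  show IsCoprime _ _
  refine IsCoprime.pow ?_
  exact isCoprime_X_sub_C_of_isUnit_sub (sub_ne_zero.2 hab).isUnit

open Polynomial in
/-- Chinese remainder theorem for the primary factors. -/
theorem b1_crt {E : Type u} [Field E] [DecidableEq E] (P : E[X]) (a : E) :
    ∃ f : E[X], (X - C a) ^ (P.roots.count a) ∣ f - 1 ∧
      ∀ b ∈ P.roots.toFinset, b ≠ a → (X - C b) ^ (P.roots.count b) ∣ f := by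
  have h1 : IsCoprime ((X - C a) ^ (P.roots.count a))
      (∏ b ∈ P.roots.toFinset.erase a, (X - C b) ^ (P.roots.count b)) := by
    refine IsCoprime.prod_right fun b hb => ?_
    refine IsCoprime.pow ?_
    exact isCoprime_X_sub_C_of_isUnit_sub (sub_ne_zero.2 (Finset.ne_of_mem_erase hb).symm).isUnit
  obtain ⟨u, v, huv⟩ := h1
  refine ⟨v * ∏ b ∈ P.roots.toFinset.erase a, (X - C b) ^ (P.roots.count b), ?_, ?_⟩
  · refine ⟨-u, ?_⟩
    rw [← huv]
    ring
  · intro b hb hba
    exact (Finset.dvd_prod_of_mem _ (Finset.mem_erase.2 ⟨hba, hb⟩)).mul_left v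

open Polynomial in
theorem spec_exists {E : Type u} [Field E] [IsAlgClosed E] {B : Type v} [Ring B] [Algebra E B]
    [FiniteDimensional E B] (z : B) : Nonempty (Spec (E := E) z (Module.finrank E B)) := by
  classical
  set P : E[X] := minpoly E z with hPdef
  have hP : P.Monic := minpoly.monic (Algebra.IsIntegral.isIntegral z)
  have hPz : aeval z P = 0 := minpoly.aeval E z
  have h0 : ∀ f : E[X], (∀ b ∈ P.roots.toFinset, (X - C b) ^ (P.roots.count b) ∣ f) →
      aeval z f = 0 := by
    intro f hf
    obtain ⟨g, rfl⟩ := b1_dvd hP hf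
    rw [map_mul, hPz, zero_mul]
  choose F hF1 hF2 using b1_crt P
  have hm : ∀ a, (if a ∈ P.roots.toFinset then aeval z (F a) else 0) ∈
      Algebra.adjoin E ({z} : Set B) := by
    intro a
    split_ifs
    · exact aeval_mem_adjoin_singleton E z
    · exact Subalgebra.zero_mem _
  refine ⟨⟨P.roots.toFinset, fun a => if a ∈ P.roots.toFinset then aeval z (F a) else 0, hm,
    fun a ha => if_neg ha, ?_, ?_, ?_, ?_⟩⟩
  · rw [Finset.sum_congr rfl fun a ha => if_pos ha, ← map_sum, ← sub_eq_zero,
      ← map_one (aeval (R := E) z), ← map_sub]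
    apply h0
    intro b hb
    rw [← Finset.add_sum_erase _ _ hb, add_sub_right_comm]
    refine dvd_add (hF1 b) (Finset.dvd_sum fun c hc => ?_)
    exact hF2 c b hb (Finset.ne_of_mem_erase hc).symm
  · intro a
    by_cases ha : a ∈ P.roots.toFinset
    · simp only [if_pos ha]
      rw [← sub_eq_zero, ← map_mul, ← map_sub]
      apply h0
      intro b hb
      have e : F a * F a - F a = F a * (F a - 1) := by ring
      rw [e]
      by_cases hba : b = a
      · rw [hba]
        exact (hF1 a).mul_left _
      · exact (hF2 a b hb hba).mul_right _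
    · simp only [if_neg ha, mul_zero]
  · intro a c hac
    by_cases ha : a ∈ P.roots.toFinset
    · by_cases hc : c ∈ P.roots.toFinset
      · simp only [if_pos ha, if_pos hc]
        rw [← map_mul]
        apply h0
        intro b hb
        by_cases hba : b = a
        · exact (hF2 c b hb (by rw [hba]; exact hac)).mul_left _
        · exact (hF2 a b hb hba).mul_right _
      · simp only [if_neg hc, mul_zero]
    · simp only [if_neg ha, zero_mul]
  · intro a
    by_cases ha : a ∈ P.roots.toFinset
    · simp only [if_pos ha]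
      have e : z - algebraMap E B a = aeval z (X - C a) := by
        rw [map_sub, aeval_X, aeval_C]
      rw [e, ← map_pow, ← map_mul]
      apply h0
      intro b hb
      by_cases hba : b = a
      · rw [hba]
        refine Dvd.dvd.mul_right (pow_dvd_pow _ ?_) _
        calc P.roots.count a ≤ Multiset.card P.roots := Multiset.count_le_card _ _
          _ ≤ P.natDegree := P.card_roots'
          _ ≤ Module.finrank E B := minpoly.natDegree_le z
      · exact (hF2 a b hb hba).mul_left _
    · simp only [if_neg ha, mul_zero]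

/-- the elements of `Algebra.adjoin E {z}` commute with `z` and with each other -/
theorem adjoin_comm {E : Type u} [Field E] {B : Type v} [Ring B] [Algebra E B] {z x y : B}
    (hx : x ∈ Algebra.adjoin E {z}) (hy : y ∈ Algebra.adjoin E {z}) : x * y = y * x := by
  rw [Algebra.adjoin_singleton_eq_range_aeval] at hx hy
  obtain ⟨p, rfl⟩ := hx
  obtain ⟨q, rfl⟩ := hy
  show Polynomial.aeval z p * Polynomial.aeval z q = Polynomial.aeval z q * Polynomial.aeval z p
  rw [← map_mul, ← map_mul, mul_comm]

theorem spec_comm {E : Type u} [Field E] {B : Type v} [Ring B] [Algebra E B] {z : B} {d : ℕ}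
    (s : Spec (E := E) z d) (a : E) : s.e a * z = z * s.e a :=
  adjoin_comm (s.mem a) (Algebra.self_mem_adjoin_singleton E z)

/-- the idempotents of nonzero values lie in the ideal generated by `z` -/
theorem spec_mem {E : Type u} [Field E] {B : Type v} [Ring B] [Algebra E B] {z : B} {d : ℕ}
    (s : Spec (E := E) z d) {a : E} (ha : a ≠ 0) :
    ∃ y ∈ Algebra.adjoin E {z}, s.e a = z * y := by
  open Polynomial in
  have h1 := s.nilp a
  have e : z - algebraMap E B a = aeval z (X - C a : E[X]) := by
    rw [map_sub, aeval_X, aeval_C]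
  have h2 : ((X - C a : E[X]) ^ d).coeff 0 = (-a) ^ d := by
    rw [coeff_zero_eq_eval_zero, eval_pow, eval_sub, eval_X, eval_C, zero_sub]
  have h3 := divX_mul_X_add ((X - C a : E[X]) ^ d)
  rw [h2] at h3
  have hc : (-a) ^ d ≠ 0 := pow_ne_zero _ (neg_ne_zero.2 ha)
  rw [e, ← map_pow, ← h3, map_add, map_mul, aeval_X, aeval_C, add_mul] at h1
  set q := aeval z (divX ((X - C a : E[X]) ^ d)) with hq
  have hqm : q ∈ Algebra.adjoin E ({z} : Set B) := aeval_mem_adjoin_singleton E z
  refine ⟨(-((-a) ^ d)⁻¹) • (q * s.e a),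
    Subalgebra.smul_mem _ (Subalgebra.mul_mem _ hqm (s.mem a)) _, ?_⟩
  have hzq : q * z = z * q := adjoin_comm hqm (Algebra.self_mem_adjoin_singleton E z)
  have h4 : algebraMap E B ((-a) ^ d) * s.e a = - (z * (q * s.e a)) := by
    rw [← mul_assoc z, ← hzq]
    exact eq_neg_of_add_eq_zero_right h1
  rw [← Algebra.smul_def] at h4
  calc s.e a = ((-a) ^ d)⁻¹ • ((-a) ^ d) • s.e a := by rw [smul_smul, inv_mul_cancel₀ hc, one_smul]
    _ = ((-a) ^ d)⁻¹ • (-(z * (q * s.e a))) := by rw [h4]
    _ = z * ((-((-a) ^ d)⁻¹) • (q * s.e a)) := by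
        rw [mul_smul_comm, neg_smul, smul_neg]

/-- Products of sums of orthogonal idempotents. -/
theorem b1_sum_mul {E : Type u} [Field E] {B : Type v} [Ring B] [Algebra E B] {z : B} {d : ℕ}
    (s : Spec (E := E) z d) (A : Finset E) :
    (∑ t ∈ A, s.e t) * (∑ t ∈ A, s.e t) = ∑ t ∈ A, s.e t := by
  classical
  rw [Finset.sum_mul]
  refine Finset.sum_congr rfl fun t ht => ?_
  rw [Finset.mul_sum, Finset.sum_eq_single t]
  · exact s.idem t
  · intro b _ hb
    exact s.orth t b hb.symm
  · intro h
    exact absurd ht h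

/-- The far idempotent: all values different from `0`, `a`, `b`. -/
noncomputable def Spec.far {E : Type u} [Field E] {B : Type v} [Ring B] [Algebra E B] {z : B}
    {d : ℕ} (s : Spec (E := E) z d) (a b : E) : B :=
  open Classical in ∑ t ∈ s.S.filter (fun t => t ≠ 0 ∧ t ≠ a ∧ t ≠ b), s.e t

theorem Spec.far_idem {E : Type u} [Field E] {B : Type v} [Ring B] [Algebra E B] {z : B}
    {d : ℕ} (s : Spec (E := E) z d) (a b : E) : s.far a b * s.far a b = s.far a b :=
  b1_sum_mul s _

theorem Spec.far_mem {E : Type u} [Field E] {B : Type v} [Ring B] [Algebra E B] {z : B}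
    {d : ℕ} (s : Spec (E := E) z d) (a b : E) :
    ∃ y ∈ Algebra.adjoin E {z}, s.far a b = z * y := by
  classical
  have h1 : ∀ t : E, ∃ y ∈ Algebra.adjoin E ({z} : Set B), t ≠ 0 → s.e t = z * y := by
    intro t
    by_cases ht : t = 0
    · exact ⟨0, Subalgebra.zero_mem _, fun h => absurd ht h⟩
    · obtain ⟨y, hy, hy'⟩ := spec_mem s ht
      exact ⟨y, hy, fun _ => hy'⟩
  choose y hy hy' using h1
  refine ⟨∑ t ∈ s.S.filter (fun t => t ≠ 0 ∧ t ≠ a ∧ t ≠ b), y t,
    Subalgebra.sum_mem _ fun t _ => hy t, ?_⟩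
  rw [Finset.mul_sum]
  unfold Spec.far
  refine Finset.sum_congr (by congr) fun t ht => ?_
  exact hy' t (Finset.mem_filter.1 ht).2.1

theorem Spec.far_comm {E : Type u} [Field E] {B : Type v} [Ring B] [Algebra E B] {z : B}
    {d : ℕ} (s : Spec (E := E) z d) (a b : E) : s.far a b * z = z * s.far a b := by
  unfold Spec.far
  rw [Finset.sum_mul, Finset.mul_sum]
  exact Finset.sum_congr rfl fun t _ => spec_comm s t

/-- the outer idempotents are orthogonal to the far idempotent -/
theorem Spec.e_far {E : Type u} [Field E] {B : Type v} [Ring B] [Algebra E B] {z : B}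
    {d : ℕ} (s : Spec (E := E) z d) (a b c : E) (hc : c = 0 ∨ c = a ∨ c = b) :
    s.e c * s.far a b = 0 ∧ s.far a b * s.e c = 0 := by
  classical
  have hne : ∀ t : E, (t ≠ 0 ∧ t ≠ a ∧ t ≠ b) → c ≠ t := by
    rintro t ⟨h1, h2, h3⟩ rfl
    rcases hc with h | h | h
    · exact h1 h
    · exact h2 h
    · exact h3 h
  unfold Spec.far
  constructor
  · rw [Finset.mul_sum]
    refine Finset.sum_eq_zero fun t ht => ?_
    rw [Finset.mem_filter] at ht
    exact s.orth c t (hne t ht.2)
  · rw [Finset.sum_mul]
    refine Finset.sum_eq_zero fun t ht => ?_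
    rw [Finset.mem_filter] at ht
    exact s.orth t c (hne t ht.2).symm

/-- the complement of the far idempotent -/
theorem Spec.one_sub_far {E : Type u} [Field E] {B : Type v} [Ring B] [Algebra E B] {z : B}
    {d : ℕ} (s : Spec (E := E) z d) (a b : E) :
    open Classical in 1 - s.far a b = ∑ t ∈ ({0, a, b} : Finset E), s.e t := by
  classical
  have h1 : (∑ t ∈ s.S.filter (fun t => t ≠ 0 ∧ t ≠ a ∧ t ≠ b), s.e t) +
      ∑ t ∈ s.S.filter (fun t => ¬ (t ≠ 0 ∧ t ≠ a ∧ t ≠ b)), s.e t = 1 := by
    rw [Finset.sum_filter_add_sum_filter_not]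
    exact s.sum
  have h2 : s.far a b = ∑ t ∈ s.S.filter (fun t => t ≠ 0 ∧ t ≠ a ∧ t ≠ b), s.e t := by
    unfold Spec.far
    exact Finset.sum_congr (by congr) fun _ _ => rfl
  rw [h2, ← h1, add_sub_cancel_left]
  refine Finset.sum_subset_zero_on_sdiff ?_ ?_ fun _ _ => rfl
  · intro t ht
    rw [Finset.mem_filter] at ht
    simp only [Finset.mem_insert, Finset.mem_singleton]
    tauto
  · intro t ht
    rw [Finset.mem_sdiff, Finset.mem_filter] at ht
    apply s.off
    intro hS
    apply ht.2
    refine ⟨hS, ?_⟩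
    have h3 := ht.1
    simp only [Finset.mem_insert, Finset.mem_singleton] at h3
    tauto

end Pool.Agent.H.MP_f5ceca_al.G
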