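import Pool.Agent.H.MP_f5ceca_al.G.A0
import Pool.Agent.H.MP_f5ceca_al.G.B1

/-!
Job B2: reduction to rings in which `l - a`, `r - b` are nilpotent.

`red`: `1 = ∑ e a`, so `evz K z P = ∑_{a, b ∈ S} e a * evz K z P * e b`. Fix `a, b`. The set of all
`x` with `e a * evz K z (U * x * V) * e b = 0` for all `U`, `V` is a two-sided ideal of `P2 B`, and it
contains `(l - a) ^ d` and `(r - b) ^ d`. The quotient map is a `Loc`.

`Loc.star`, `Loc.cnil`: every element of `C` is a sum of elements `th (em y) * l ^ p * r ^ s` with
central `l`, `r`.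

`Loc.qq_far`: `1 - far a b` is the sum of the `e t`, `t ∈ {0, a, b}`, and all these idempotents
are killed by `q`.
-/

namespace Pool.Agent.H.MP_f5ceca_al.G

universe u v w

/-- The situation after fixing the outer values `(a, b)`. -/
structure Loc (E : Type u) [Field E] (B : Type v) [Ring B] [Algebra E B] (d : ℕ) (a b : E)
    (C : Type v) [Ring C] where
  th : P2 B →+* C
  lc : ∀ x, th (lv B) * x = x * th (lv B)
  rc : ∀ x, th (rv B) * x = x * th (rv B)
  sp : ∀ x, x ∈ AddSubmonoid.closure
    {x | ∃ (y : B) (p s : ℕ), x = th (em y) * th (lv B) ^ p * th (rv B) ^ s}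
  ln : (th (lv B) - th (em (algebraMap E B a))) ^ d = 0
  rn : (th (rv B) - th (em (algebraMap E B b))) ^ d = 0

/-! ### Central elements of `P2 B` -/

section central
variable {E : Type u} [Field E] {B : Type v} [Ring B] [Algebra E B]

theorem b2_em_alg_comm (a : E) (P : P2 B) :
    em (algebraMap E B a) * P = P * em (algebraMap E B a) := by
  induction P using P2_induction with
  | h1 y p s =>
    have h1 : em (algebraMap E B a) * em y = em y * em (algebraMap E B a) := by
      rw [← map_mul, ← map_mul, Algebra.commutes]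
    have h2 : em (algebraMap E B a) * lv B ^ p = lv B ^ p * em (algebraMap E B a) :=
      ((Commute.pow_left (lv_comm (em (algebraMap E B a))) p) :).symm
    have h3 : em (algebraMap E B a) * rv B ^ s = rv B ^ s * em (algebraMap E B a) :=
      ((Commute.pow_left (rv_comm (em (algebraMap E B a))) s) :).symm
    rw [← mul_assoc, ← mul_assoc, h1, mul_assoc (em y), h2, ← mul_assoc, mul_assoc _ (em _), h3,
      ← mul_assoc]
  | h2 P Q hP hQ => rw [mul_add, add_mul, hP, hQ]

theorem b2_l_comm (a : E) (P : P2 B) :
    (lv B - em (algebraMap E B a)) * P = P * (lv B - em (algebraMap E B a)) := by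
  rw [sub_mul, mul_sub, lv_comm, b2_em_alg_comm]

theorem b2_r_comm (a : E) (P : P2 B) :
    (rv B - em (algebraMap E B a)) * P = P * (rv B - em (algebraMap E B a)) := by
  rw [sub_mul, mul_sub, rv_comm, b2_em_alg_comm]

theorem b2_l_pow_comm (a : E) (n : ℕ) (P : P2 B) :
    (lv B - em (algebraMap E B a)) ^ n * P = P * (lv B - em (algebraMap E B a)) ^ n :=
  (Commute.pow_left (b2_l_comm a P) n :)

theorem b2_r_pow_comm (a : E) (n : ℕ) (P : P2 B) :
    (rv B - em (algebraMap E B a)) ^ n * P = P * (rv B - em (algebraMap E B a)) ^ n :=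
  (Commute.pow_left (b2_r_comm a P) n :)

theorem b2_evz_l (K : Type u) [Field K] [Algebra K B] (z : B) (a : E) (n : ℕ) (P : P2 B) :
    evz K z ((lv B - em (algebraMap E B a)) ^ n * P) =
      (z - algebraMap E B a) ^ n * evz K z P := by
  induction n generalizing P with
  | zero => simp
  | succ n ih =>
    rw [pow_succ, mul_assoc, ih, sub_mul, map_sub, evz_lv_mul,
      evz_em_mul z (algebraMap E B a) (Algebra.commutes a z), ← sub_mul, pow_succ, mul_assoc]

theorem b2_evz_r (K : Type u) [Field K] [Algebra K B] (z : B) (a : E) (n : ℕ) (P : P2 B) :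
    evz K z (P * (rv B - em (algebraMap E B a)) ^ n) =
      evz K z P * (z - algebraMap E B a) ^ n := by
  induction n generalizing P with
  | zero => simp
  | succ n ih =>
    rw [pow_succ', ← mul_assoc, ih, mul_sub, map_sub, ← rv_comm P, evz_rv_mul,
      evz_mul_em z (algebraMap E B a) (Algebra.commutes a z), ← mul_sub, pow_succ', mul_assoc]

theorem b2_e_nilp {z : B} {d : ℕ} (s : Spec (E := E) z d) (a : E) :
    s.e a * (z - algebraMap E B a) ^ d = 0 := by
  have h : Commute (s.e a) (z - algebraMap E B a) := by
    have h1 : Commute (s.e a) z := spec_comm s a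
    exact h1.sub_right (Algebra.commutes a (s.e a)).symm
  rw [(h.pow_right d).eq, s.nilp a]

end central

/-! ### The reduction -/

section red
variable (K : Type u) [Field K] {E : Type u} [Field E] {B : Type v} [Ring B] [Algebra E B]
  [Algebra K B] {z : B} {d : ℕ} (s : Spec (E := E) z d) (a b : E)

/-- The ideal. -/
noncomputable def b2_I : TwoSidedIdeal (P2 B) :=
  TwoSidedIdeal.mk' {x | ∀ U V : P2 B, s.e a * evz K z (U * x * V) * s.e b = 0}
    (by intro U V; simp)
    (by
      intro x y hx hy U V
      rw [mul_add, add_mul, map_add, mul_add, add_mul, hx U V, hy U V, add_zero])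
    (by
      intro x hx U V
      rw [mul_neg U, neg_mul, map_neg, mul_neg, neg_mul, hx U V, neg_zero])
    (by
      intro x y hy U V
      rw [← mul_assoc]
      exact hy (U * x) V)
    (by
      intro x y hx U V
      rw [← mul_assoc, mul_assoc _ y]
      exact hx U (y * V))

theorem b2_mem_I (x : P2 B) : x ∈ b2_I K s a b ↔
    ∀ U V : P2 B, s.e a * evz K z (U * x * V) * s.e b = 0 := by
  rw [b2_I, TwoSidedIdeal.mem_mk']
  rfl

theorem b2_l_mem : (lv B - em (algebraMap E B a)) ^ d ∈ b2_I K s a b := by
  rw [b2_mem_I]
  intro U V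
  rw [← b2_l_pow_comm, mul_assoc ((lv B - em (algebraMap E B a)) ^ d), b2_evz_l, ← mul_assoc,
    b2_e_nilp, zero_mul, zero_mul]

theorem b2_r_mem : (rv B - em (algebraMap E B b)) ^ d ∈ b2_I K s a b := by
  rw [b2_mem_I]
  intro U V
  rw [mul_assoc U, b2_r_pow_comm, ← mul_assoc, b2_evz_r, mul_assoc, mul_assoc, s.nilp b, mul_zero,
    mul_zero]

/-- The quotient map. -/
noncomputable def b2_mk : P2 B →+* (b2_I K s a b).ringCon.Quotient := (b2_I K s a b).ringCon.mk'

theorem b2_mk_zero (x : P2 B) : b2_mk K s a b x = 0 ↔ x ∈ b2_I K s a b := by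
  rw [TwoSidedIdeal.mem_iff, ← map_zero (b2_mk K s a b)]
  exact RingCon.eq _

theorem b2_mk_surj : Function.Surjective (b2_mk K s a b) := RingCon.mk'_surjective _

/-- The quotient as a `Loc`. -/
noncomputable def b2_loc : Loc E B d a b (b2_I K s a b).ringCon.Quotient where
  th := b2_mk K s a b
  lc := by
    intro x
    obtain ⟨y, rfl⟩ := b2_mk_surj K s a b x
    rw [← map_mul, lv_comm, map_mul]
  rc := by
    intro x
    obtain ⟨y, rfl⟩ := b2_mk_surj K s a b x
    rw [← map_mul, rv_comm, map_mul]
  sp := by
    intro x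
    obtain ⟨y, rfl⟩ := b2_mk_surj K s a b x
    induction y using P2_induction with
    | h1 y p q =>
      refine AddSubmonoid.subset_closure ⟨y, p, q, ?_⟩
      rw [map_mul, map_mul, map_pow, map_pow]
    | h2 P Q hP hQ =>
      rw [map_add]
      exact add_mem hP hQ
  ln := by
    rw [← map_sub, ← map_pow, b2_mk_zero]
    exact b2_l_mem K s a b
  rn := by
    rw [← map_sub, ← map_pow, b2_mk_zero]
    exact b2_r_mem K s a b

theorem b2_one_block (P : P2 B)
    (h : b2_mk K s a b (em (1 - s.far a b)) * b2_mk K s a b P *
      b2_mk K s a b (em (1 - s.far a b)) = 0) :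
    s.e a * evz K z P * s.e b = 0 := by
  rw [← map_mul, ← map_mul, b2_mk_zero, b2_mem_I] at h
  have h1 := h 1 1
  have hc : (1 - s.far a b) * z = z * (1 - s.far a b) := by
    rw [sub_mul, mul_sub, one_mul, mul_one, s.far_comm]
  rw [one_mul, mul_one, evz_mul_em z _ hc, evz_em_mul z _ hc] at h1
  have h2 : s.e a * (1 - s.far a b) = s.e a := by
    rw [mul_sub, mul_one, (s.e_far a b a (Or.inr (Or.inl rfl))).1, sub_zero]
  have h3 : (1 - s.far a b) * s.e b = s.e b := by
    rw [sub_mul, one_mul, (s.e_far a b b (Or.inr (Or.inr rfl))).2, sub_zero]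
  calc s.e a * evz K z P * s.e b
      = (s.e a * (1 - s.far a b)) * evz K z P * ((1 - s.far a b) * s.e b) := by rw [h2, h3]
    _ = s.e a * ((1 - s.far a b) * evz K z P * (1 - s.far a b)) * s.e b := by
        simp only [mul_assoc]
    _ = 0 := h1

end red

theorem red (K : Type u) [Field K] {E : Type u} [Field E] {B : Type v} [Ring B] [Algebra E B]
    [Algebra K B] {z : B} {d : ℕ} (s : Spec (E := E) z d) (P : P2 B)
    (h : ∀ (a b : E) (C : Type v) [Ring C] (L : Loc E B d a b C),
      L.th (em (1 - s.far a b)) * L.th P * L.th (em (1 - s.far a b)) = 0) :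
    evz K z P = 0 := by
  calc evz K z P = (∑ a ∈ s.S, s.e a) * evz K z P * (∑ b ∈ s.S, s.e b) := by
        rw [s.sum, one_mul, mul_one]
    _ = ∑ b ∈ s.S, ∑ a ∈ s.S, s.e a * evz K z P * s.e b := by
        rw [Finset.sum_mul, Finset.mul_sum]
        refine Finset.sum_congr rfl fun b _ => ?_
        rw [Finset.sum_mul]
    _ = 0 := by
        refine Finset.sum_eq_zero fun b _ => Finset.sum_eq_zero fun a _ => ?_
        exact b2_one_block K s a b P (h a b _ (b2_loc K s a b))

/-- The identity of commutation in the middle. -/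
def Star {C : Type v} [Ring C] (e : C) : Prop :=
  ∀ a b c d : C, (1 - e) * a * e * c * e * d * e * b * (1 - e) =
    (1 - e) * a * e * d * e * c * e * b * (1 - e)

/-- Products with `m` commutators vanish. -/
def CNil (C : Type v) [Ring C] (m : ℕ) : Prop :=
  ∀ (b : Fin (m + 1) → C) (x y : Fin m → C),
    b 0 * (List.ofFn fun i : Fin m => (x i * y i - y i * x i) * b i.succ).prod = 0

/-! ### Induction over the elements of a `Loc` -/

section loc
variable {E : Type u} [Field E] {B : Type v} [Ring B] [Algebra E B] {d : ℕ} {a b : E}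
  {C : Type v} [Ring C] (L : Loc E B d a b C)

include L in
theorem b2_ind {motive : C → Prop} (x : C)
    (h1 : ∀ (y : B) (k : C), (∀ X : C, k * X = X * k) → motive (L.th (em y) * k))
    (h2 : ∀ x y, motive x → motive y → motive (x + y)) : motive x := by
  refine AddSubmonoid.closure_induction (motive := fun x _ => motive x) ?_ ?_ ?_ (L.sp x)
  · rintro x ⟨y, p, s, rfl⟩
    rw [mul_assoc]
    refine h1 y _ fun X => ?_
    have e1 : Commute (L.th (lv B) ^ p) X := Commute.pow_left (L.lc X) p
    have e2 : Commute (L.th (rv B) ^ s) X := Commute.pow_left (L.rc X) s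
    exact (e1.mul_left e2).eq
  · have h := h1 0 1 (fun X => by rw [one_mul, mul_one])
    rwa [map_zero, map_zero, zero_mul] at h
  · intro x y _ _ hx hy
    exact h2 x y hx hy

end loc

theorem b2_pull {C : Type v} [Ring C] {k : C} (hk : ∀ X : C, k * X = X * k) (X A : C) :
    X * (A * k) = k * (X * A) := by
  rw [← mul_assoc, hk]

theorem Loc.star {E : Type u} [Field E] {B : Type v} [Ring B] [Algebra E B] {d : ℕ} {a b : E}
    {C : Type v} [Ring C] (L : Loc E B d a b C) {e : B} (he : Star e) : Star (L.th (em e)) := by
  intro x y s t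
  induction x using b2_ind L with
  | h2 x x' hx hx' =>
    simp only [mul_add, add_mul, hx, hx']
  | h1 x k hk =>
    rw [b2_pull hk]
    simp only [mul_assoc k]
    congr 1
    induction y using b2_ind L with
    | h2 y y' hy hy' =>
      simp only [mul_add, add_mul, hy, hy']
    | h1 y k hk =>
      rw [b2_pull hk, b2_pull hk]
      simp only [mul_assoc k]
      congr 1
      induction s using b2_ind L with
      | h2 s s' hs hs' =>
        simp only [mul_add, add_mul, hs, hs']
      | h1 s k hk =>
        rw [b2_pull hk, b2_pull hk]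
        simp only [mul_assoc k]
        congr 1
        induction t using b2_ind L with
        | h2 t t' ht ht' =>
          simp only [mul_add, add_mul, ht, ht']
        | h1 t k hk =>
          rw [b2_pull hk, b2_pull hk]
          simp only [mul_assoc k]
          congr 1
          have h := congrArg (fun q => L.th (em q)) (he x y s t)
          simpa only [map_mul, map_sub, map_one] using h

/-! ### Products of commutators -/

/-- `u` is killed by products of `m` commutators. -/
def b2_Kill {C : Type v} [Ring C] : ℕ → C → Prop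
  | 0, u => u = 0
  | m + 1, u => ∀ b x y : C, b2_Kill m (u * b * (x * y - y * x))

theorem b2_Kill_add {C : Type v} [Ring C] (m : ℕ) (u u' : C) (h : b2_Kill m u)
    (h' : b2_Kill m u') : b2_Kill m (u + u') := by
  induction m generalizing u u' with
  | zero =>
    have e1 : u = 0 := h
    have e2 : u' = 0 := h'
    show u + u' = 0
    rw [e1, e2, add_zero]
  | succ m ih =>
    intro b x y
    rw [add_mul, add_mul]
    exact ih _ _ (h b x y) (h' b x y)

theorem b2_Kill_mul {C : Type v} [Ring C] (m : ℕ) (k u : C) (h : b2_Kill m u) :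
    b2_Kill m (k * u) := by
  induction m generalizing u with
  | zero =>
    have e1 : u = 0 := h
    show k * u = 0
    rw [e1, mul_zero]
  | succ m ih =>
    intro b x y
    rw [mul_assoc k, mul_assoc k]
    exact ih _ (h b x y)

theorem b2_Kill_iff {C : Type v} [Ring C] (m : ℕ) (u : C) : b2_Kill m u ↔
    ∀ (b : Fin (m + 1) → C) (x y : Fin m → C),
      u * (b 0 * (List.ofFn fun i : Fin m => (x i * y i - y i * x i) * b i.succ).prod) = 0 := by
  induction m generalizing u with
  | zero =>
    constructor
    · intro h b x y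
      have e1 : u = 0 := h
      rw [e1, zero_mul]
    · intro h
      have := h (fun _ => 1) (fun _ => 1) (fun _ => 1)
      show u = 0
      simpa using this
  | succ m ih =>
    have key : ∀ (b : Fin (m + 1 + 1) → C) (x y : Fin (m + 1) → C),
        u * (b 0 * (List.ofFn fun i : Fin (m + 1) =>
          (x i * y i - y i * x i) * b i.succ).prod) =
        (u * b 0 * (x 0 * y 0 - y 0 * x 0)) * ((fun i : Fin (m + 1) => b i.succ) 0 *
          (List.ofFn fun i : Fin m => (x i.succ * y i.succ - y i.succ * x i.succ) *
            (fun i : Fin (m + 1) => b i.succ) i.succ).prod) := by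
      intro b x y
      rw [List.ofFn_succ, List.prod_cons]
      simp only [mul_assoc]
    constructor
    · intro h b x y
      rw [key]
      exact (ih _).1 (h (b 0) (x 0) (y 0)) (fun i => b i.succ) (fun i => x i.succ)
        (fun i => y i.succ)
    · intro h b x y
      refine (ih _).2 fun b' x' y' => ?_
      have h1 := h (Fin.cons b b') (Fin.cons x x') (Fin.cons y y')
      rw [key] at h1
      simpa using h1

theorem b2_Kill_loc {E : Type u} [Field E] {B : Type v} [Ring B] [Algebra E B] {d : ℕ} {a b : E}
    {C : Type v} [Ring C] (L : Loc E B d a b C) (m : ℕ) (u : B) (h : b2_Kill m u) :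
    b2_Kill m (L.th (em u)) := by
  induction m generalizing u with
  | zero =>
    have e1 : u = 0 := h
    show L.th (em u) = 0
    rw [e1, map_zero, map_zero]
  | succ m ih =>
    intro p x y
    induction p using b2_ind L with
    | h2 p p' hp hp' =>
      rw [mul_add, add_mul]
      exact b2_Kill_add m _ _ hp hp'
    | h1 p k hk =>
      rw [b2_pull hk, mul_assoc k]
      refine b2_Kill_mul m k _ ?_
      induction x using b2_ind L with
      | h2 x x' hx hx' =>
        have e : (x + x') * y - y * (x + x') = (x * y - y * x) + (x' * y - y * x') := by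
          rw [add_mul, mul_add]; abel
        rw [e, mul_add]
        exact b2_Kill_add m _ _ hx hx'
      | h1 x k hk =>
        have e : L.th (em x) * k * y - y * (L.th (em x) * k) =
            k * (L.th (em x) * y - y * L.th (em x)) := by
          rw [b2_pull hk, ← hk (L.th (em x)), mul_assoc, mul_sub]
        have e' : ∀ X Y : C, X * (k * Y) = k * (X * Y) := by
          intro X Y
          rw [← mul_assoc, ← hk X, mul_assoc]
        rw [e, e']
        refine b2_Kill_mul m k _ ?_
        clear e e'
        induction y using b2_ind L with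
        | h2 y y' hy hy' =>
          have e : L.th (em x) * (y + y') - (y + y') * L.th (em x) =
              (L.th (em x) * y - y * L.th (em x)) + (L.th (em x) * y' - y' * L.th (em x)) := by
            rw [add_mul, mul_add]; abel
          rw [e, mul_add]
          exact b2_Kill_add m _ _ hy hy'
        | h1 y k hk =>
          have e : L.th (em x) * (L.th (em y) * k) - L.th (em y) * k * L.th (em x) =
              k * (L.th (em x) * L.th (em y) - L.th (em y) * L.th (em x)) := by
            rw [b2_pull hk, ← hk (L.th (em y)), mul_assoc, mul_sub]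
          have e' : ∀ X Y : C, X * (k * Y) = k * (X * Y) := by
            intro X Y
            rw [← mul_assoc, ← hk X, mul_assoc]
          rw [e, e']
          refine b2_Kill_mul m k _ ?_
          have h1 := ih _ (h p x y)
          simpa only [map_mul, map_sub] using h1

theorem Loc.cnil {E : Type u} [Field E] {B : Type v} [Ring B] [Algebra E B] {d : ℕ} {a b : E}
    {C : Type v} [Ring C] (L : Loc E B d a b C) {m : ℕ} (h : CNil B m) : CNil C m := by
  have h1 : b2_Kill m (1 : B) := (b2_Kill_iff m 1).2 fun b x y => by rw [one_mul]; exact h b x y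
  have h2 := b2_Kill_loc L m 1 h1
  rw [map_one, map_one] at h2
  intro b x y
  have h3 := (b2_Kill_iff m 1).1 h2 b x y
  rwa [one_mul] at h3

/-! ### The far block -/

theorem b2_bin {C : Type v} [Ring C] {x y e : C} (hxy : Commute x y) (he : Commute y e)
    {d M : ℕ} (hM : 2 * d ≤ M) (hx : x ^ d * e = 0) (hy : y ^ d = 0) : (x + y) ^ M * e = 0 := by
  rw [hxy.add_pow, Finset.sum_mul]
  refine Finset.sum_eq_zero fun m hm => ?_
  rw [Finset.mem_range] at hm
  by_cases h : d ≤ m
  · have h1 : x ^ m * y ^ (M - m) * (M.choose m : C) * e =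
        x ^ (m - d) * ((M.choose m : C) * (x ^ d * e) * y ^ (M - m)) := by
      have e1 : x ^ m = x ^ (m - d) * x ^ d := by rw [← pow_add]; congr 1; omega
      have e2 : y ^ (M - m) * (M.choose m : C) * e = (M.choose m : C) * e * y ^ (M - m) := by
        have := Nat.cast_commute (M.choose m) (y ^ (M - m))
        rw [← this.eq, mul_assoc, (he.pow_left (M - m)).eq, mul_assoc]
      have e3 := Nat.cast_commute (M.choose m) (x ^ d)
      rw [mul_assoc (x ^ m) _ _, mul_assoc (x ^ m) _ _, e2, e1]
      simp only [mul_assoc]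
      rw [← mul_assoc (x ^ d), ← e3.eq]
      simp only [mul_assoc]
    rw [h1, hx, mul_zero, zero_mul, mul_zero]
  · have e1 : y ^ (M - m) = y ^ (M - m - d) * y ^ d := by rw [← pow_add]; congr 1; omega
    rw [e1, hy, mul_zero, mul_zero, zero_mul, zero_mul]

theorem b2_two {C : Type v} [Ring C] {p q e : C} (h : Commute p q) (M : ℕ)
    (h0 : q ^ M * e = 0) : (p * q) ^ M * e = 0 := by
  rw [h.mul_pow, mul_assoc, h0, mul_zero]

section far
variable {E : Type u} [Field E] {B : Type v} [Ring B] [Algebra E B] {d : ℕ} {a b : E}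
    {C : Type v} [Ring C] (L : Loc E B d a b C) {z : B} (s : Spec (E := E) z d) {M : ℕ}

include L

theorem b2_alg_comm (t : E) (X : C) :
    L.th (em (algebraMap E B t)) * X = X * L.th (em (algebraMap E B t)) := by
  induction X using b2_ind L with
  | h2 x y hx hy => rw [mul_add, add_mul, hx, hy]
  | h1 y k hk =>
    rw [← mul_assoc, ← map_mul, ← map_mul, Algebra.commutes, map_mul, map_mul, mul_assoc,
      ← hk, ← mul_assoc]

theorem b2_nil (t : E) : (L.th (em z) - L.th (em (algebraMap E B t))) ^ d * L.th (em (s.e t)) = 0 := by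
  rw [← map_sub, ← map_sub, ← map_pow, ← map_pow, ← map_mul, ← map_mul, s.nilp, map_zero, map_zero]

theorem b2_far_zero (hM : 2 * d ≤ M) (t : E) (ht : t = 0 ∨ t = a ∨ t = b) :
    L.th (qq M z) * L.th (em (s.e t)) = 0 ∧ L.th (em (s.e t)) * L.th (qq M z) = 0 := by
  have q : L.th (qq M z) = (L.th (em z) * (L.th (em z) - L.th (lv B)) *
      (L.th (em z) - L.th (rv B))) ^ M := by
    rw [qq, map_pow, map_mul, map_mul, map_sub, map_sub]
  have hl : ∀ X : C, Commute (L.th (lv B)) X := L.lc
  have hr : ∀ X : C, Commute (L.th (rv B)) X := L.rc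
  have hα : ∀ (t : E) (X : C), Commute (L.th (em (algebraMap E B t))) X := b2_alg_comm L
  have hz : Commute (L.th (em z)) (L.th (em (s.e t))) := by
    have := (spec_comm s t).symm
    have h1 := congrArg (fun q => L.th (em q)) this
    simp only [map_mul] at h1
    exact h1
  have main : L.th (qq M z) * L.th (em (s.e t)) = 0 := by
    rw [q]
    rcases ht with rfl | rfl | rfl
    · rw [mul_assoc, ((((Commute.refl (L.th (em z))).sub_right (hl _).symm)).mul_right
        ((Commute.refl (L.th (em z))).sub_right (hr _).symm)).eq]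
      refine b2_two ((((Commute.refl (L.th (em z))).sub_right (hl _).symm)).mul_right
        ((Commute.refl (L.th (em z))).sub_right (hr _).symm)).symm M ?_
      have h1 := b2_nil L s 0
      rw [map_zero, map_zero, map_zero, sub_zero] at h1
      have e1 : L.th (em z) ^ M = L.th (em z) ^ (M - d) * L.th (em z) ^ d := by
        rw [← pow_add]; congr 1; omega
      rw [e1, mul_assoc, h1, mul_zero]
    · have e0 : L.th (em z) * (L.th (em z) - L.th (lv B)) * (L.th (em z) - L.th (rv B)) =
          (L.th (em z) * (L.th (em z) - L.th (rv B))) * (L.th (em z) - L.th (lv B)) := by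
        have c : Commute (L.th (em z) - L.th (lv B)) (L.th (em z) - L.th (rv B)) :=
          ((Commute.refl (L.th (em z))).sub_right (hr _).symm).sub_left (hl _)
        rw [mul_assoc, c.eq, ← mul_assoc]
      rw [e0]
      have c1 : Commute (L.th (em z)) (L.th (em z) - L.th (lv B)) :=
        (Commute.refl (L.th (em z))).sub_right (hl _).symm
      have c2 : Commute (L.th (em z) - L.th (rv B)) (L.th (em z) - L.th (lv B)) :=
        ((Commute.refl (L.th (em z))).sub_right (hl _).symm).sub_left (hr _)
      refine b2_two (c1.mul_left c2) M ?_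
      have e1 : L.th (em z) - L.th (lv B) = (L.th (em z) - L.th (em (algebraMap E B t))) +
          (-(L.th (lv B) - L.th (em (algebraMap E B t)))) := by abel
      rw [e1]
      refine b2_bin ?_ ?_ hM (b2_nil L s t) ?_
      · exact (((hl _).sub_left (hα t _)).neg_left).symm
      · exact ((hl _).sub_left (hα t _)).neg_left
      · rw [neg_pow, L.ln, mul_zero]
    · have c1 : Commute (L.th (em z)) (L.th (em z) - L.th (rv B)) :=
        (Commute.refl (L.th (em z))).sub_right (hr _).symm
      have c2 : Commute (L.th (em z) - L.th (lv B)) (L.th (em z) - L.th (rv B)) :=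
        ((Commute.refl (L.th (em z))).sub_right (hr _).symm).sub_left (hl _)
      refine b2_two (c1.mul_left c2) M ?_
      have e1 : L.th (em z) - L.th (rv B) = (L.th (em z) - L.th (em (algebraMap E B t))) +
          (-(L.th (rv B) - L.th (em (algebraMap E B t)))) := by abel
      rw [e1]
      refine b2_bin ?_ ?_ hM (b2_nil L s t) ?_
      · exact (((hr _).sub_left (hα t _)).neg_left).symm
      · exact ((hr _).sub_left (hα t _)).neg_left
      · rw [neg_pow, L.rn, mul_zero]
  refine ⟨main, ?_⟩
  have c : Commute (L.th (em (s.e t))) (L.th (qq M z)) := by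
    rw [q]
    refine Commute.pow_right ?_ M
    exact (hz.symm.mul_right (hz.symm.sub_right (hl _).symm)).mul_right
      (hz.symm.sub_right (hr _).symm)
  rw [c.eq, main]

end far

theorem Loc.qq_far {E : Type u} [Field E] {B : Type v} [Ring B] [Algebra E B] {d : ℕ} {a b : E}
    {C : Type v} [Ring C] (L : Loc E B d a b C) {z : B} (s : Spec (E := E) z d) {M : ℕ}
    (hM : 2 * d ≤ M) :
    L.th (em (s.far a b)) * L.th (qq M z) = L.th (qq M z) ∧
    L.th (qq M z) * L.th (em (s.far a b)) = L.th (qq M z) := by
  classical
  have h1 := s.one_sub_far a b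
  have h2 : s.far a b = 1 - ∑ t ∈ ({0, a, b} : Finset E), s.e t := by
    have e : s.far a b = 1 - (1 - s.far a b) := by abel
    rw [e, h1]
  have h3 : ∀ t ∈ ({0, a, b} : Finset E), t = 0 ∨ t = a ∨ t = b := by
    intro t ht
    simpa using ht
  rw [h2, map_sub, map_sub, map_sum, map_sum, map_one, map_one]
  constructor
  · rw [sub_mul, one_mul, Finset.sum_mul, Finset.sum_eq_zero, sub_zero]
    intro t ht
    exact (b2_far_zero L s hM t (h3 t ht)).2
  · rw [mul_sub, mul_one, Finset.mul_sum, Finset.sum_eq_zero, sub_zero]
    intro t ht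
    exact (b2_far_zero L s hM t (h3 t ht)).1

end Pool.Agent.H.MP_f5ceca_al.G
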