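import Pool.Agent.H.MP_f5ceca_al.G.B2

/-!
Job B3: the functions `NN`, `ent` in an abstract ring.

`ent_mul`, `ent_one_eq`, `ent_form`: the homomorphism to the matrices
`[[f y f, f y e d], [0, y]]`, `f = 1 - e`, has the diagonal entries `N' h` (evaluation at the
compressed letters `f y_j f`) and `h(y)`, and the lower left entry is `0`; `N' h` commutes with
`f`, `NN h = f * N' h`, and `ent h = f * ent h` by induction. So from the product of
matrices `ent (a b) = N' a * ent b + ent a * b(y)` and `N' a * ent b = N' a * f * ent b`.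
`ent_one_eq`: `f * a(y) = NN a + ent K e e y a` by induction on `a`: for a product
`f a b = NN a * b + ent a * b = NN a * (f b) + ent a * b` (as `NN a = NN a * f`)
`= NN a * NN b + NN a * ent b + ent a * b`. `ent_form`: induction on `a`.
-/

namespace Pool.Agent.H.MP_f5ceca_al.G

universe u v w

section abs
variable {K : Type u} [Field K] {C : Type v} [Ring C] [Algebra K C] {σ : Type}

/-- compressed evaluation -/
noncomputable def NN (K : Type u) [Field K] {C : Type v} [Ring C] [Algebra K C] {σ : Type}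
    (e : C) (y : σ → C) (h : FreeAlgebra K σ) : C :=
  (1 - e) * FreeAlgebra.lift K (fun j => (1 - e) * y j * (1 - e)) h

/-- insertion of `d` at the first entry into the block of `e` -/
noncomputable def ent (K : Type u) [Field K] {C : Type v} [Ring C] [Algebra K C] {σ : Type}
    (e d : C) (y : σ → C) (h : FreeAlgebra K σ) : C :=
  (FreeAlgebra.lift K (fun j => !![(1 - e) * y j * (1 - e), (1 - e) * y j * e * d; 0, y j]) h :
    Matrix (Fin 2) (Fin 2) C) 0 1

/-- the substitution in the abstract ring -/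
noncomputable def sbC (K : Type u) [Field K] {C : Type v} [Ring C] [Algebra K C] {σ : Type}
    (q : C) (a : ℕ) (b : K) (y : σ → C) : FreeAlgebra K σ →ₐ[K] C :=
  FreeAlgebra.lift K fun j => y j + b • ((y j * q - q * y j) * q ^ a)

theorem b3_comm (e : C) (he : e * e = e) (y : σ → C) (h : FreeAlgebra K σ) :
    (1 - e) * FreeAlgebra.lift K (fun j => (1 - e) * y j * (1 - e)) h =
      FreeAlgebra.lift K (fun j => (1 - e) * y j * (1 - e)) h * (1 - e) := by
  have hf : (1 - e) * (1 - e) = 1 - e := by
    have : (1 - e) * (1 - e) = 1 - e - e + e * e := by noncomm_ring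
    rw [this, he]; abel
  refine FreeAlgebra.induction K σ
    (motive := fun h => (1 - e) * FreeAlgebra.lift K (fun j => (1 - e) * y j * (1 - e)) h =
      FreeAlgebra.lift K (fun j => (1 - e) * y j * (1 - e)) h * (1 - e)) ?_ ?_ ?_ ?_ h
  · intro r
    rw [AlgHom.commutes]
    exact (Algebra.commutes r (1 - e)).symm
  · intro j
    rw [FreeAlgebra.lift_ι_apply]
    rw [← mul_assoc, ← mul_assoc, hf, mul_assoc _ (1 - e) (1 - e), hf]
  · intro a b ha hb
    rw [map_mul, ← mul_assoc, ha, mul_assoc, hb, mul_assoc]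
  · intro a b ha hb
    rw [map_add, mul_add, add_mul, ha, hb]

theorem b3_idem (e : C) (he : e * e = e) : (1 - e) * (1 - e) = 1 - e := by
  have : (1 - e) * (1 - e) = 1 - e - e + e * e := by noncomm_ring
  rw [this, he]; abel

theorem NN_mul (e : C) (he : e * e = e) (y : σ → C) (a b : FreeAlgebra K σ) :
    NN K e y (a * b) = NN K e y a * NN K e y b := by
  have hf := b3_idem e he
  unfold NN
  rw [map_mul, ← mul_assoc ((1 - e) * _) (1 - e) _, mul_assoc (1 - e) _ (1 - e),
    ← b3_comm e he y a, ← mul_assoc (1 - e) (1 - e), hf, mul_assoc]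

theorem NN_one (e : C) (y : σ → C) : NN K e y (1 : FreeAlgebra K σ) = 1 - e := by
  unfold NN
  rw [map_one, mul_one]

theorem NN_ι (e : C) (he : e * e = e) (y : σ → C) (j : σ) :
    NN K e y (FreeAlgebra.ι K j) = (1 - e) * y j * (1 - e) := by
  unfold NN
  rw [FreeAlgebra.lift_ι_apply, ← mul_assoc, ← mul_assoc, b3_idem e he]

theorem NN_add (e : C) (y : σ → C) (a b : FreeAlgebra K σ) :
    NN K e y (a + b) = NN K e y a + NN K e y b := by
  unfold NN
  rw [map_add, mul_add]

theorem NN_smul (e : C) (y : σ → C) (c : K) (a : FreeAlgebra K σ) :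
    NN K e y (c • a) = c • NN K e y a := by
  unfold NN
  rw [map_smul, mul_smul_comm]

/-- `NN` is in the corner of `1 - e` -/
theorem NN_corner (e : C) (he : e * e = e) (y : σ → C) (a : FreeAlgebra K σ) :
    (1 - e) * NN K e y a = NN K e y a ∧ NN K e y a * (1 - e) = NN K e y a := by
  unfold NN
  constructor
  · rw [← mul_assoc, b3_idem e he]
  · rw [mul_assoc, ← b3_comm e he y a, ← mul_assoc, b3_idem e he]

theorem ent_add (e d : C) (y : σ → C) (a b : FreeAlgebra K σ) :
    ent K e d y (a + b) = ent K e d y a + ent K e d y b := by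
  unfold ent
  rw [map_add]; rfl

theorem ent_smul (e d : C) (y : σ → C) (c : K) (a : FreeAlgebra K σ) :
    ent K e d y (c • a) = c • ent K e d y a := by
  unfold ent
  rw [map_smul]; rfl

theorem ent_ι (e d : C) (y : σ → C) (j : σ) :
    ent K e d y (FreeAlgebra.ι K j) = (1 - e) * y j * e * d := by
  unfold ent
  rw [FreeAlgebra.lift_ι_apply]; rfl

/-- the homomorphism to the matrices -/
noncomputable def b3_M (K : Type u) [Field K] {C : Type v} [Ring C] [Algebra K C] {σ : Type}
    (e d : C) (y : σ → C) : FreeAlgebra K σ →ₐ[K] Matrix (Fin 2) (Fin 2) C :=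
  FreeAlgebra.lift K (fun j => !![(1 - e) * y j * (1 - e), (1 - e) * y j * e * d; 0, y j])

theorem b3_ent (e d : C) (y : σ → C) (h : FreeAlgebra K σ) :
    ent K e d y h = b3_M K e d y h 0 1 := rfl

theorem b3_M_ι (e d : C) (y : σ → C) (j : σ) :
    b3_M K e d y (FreeAlgebra.ι K j) =
      !![(1 - e) * y j * (1 - e), (1 - e) * y j * e * d; 0, y j] := by
  unfold b3_M
  rw [FreeAlgebra.lift_ι_apply]

theorem b3_M10 (e d : C) (y : σ → C) (h : FreeAlgebra K σ) :
    b3_M K e d y h 1 0 = 0 := by
  refine FreeAlgebra.induction K σ (motive := fun h => b3_M K e d y h 1 0 = 0) ?_ ?_ ?_ ?_ h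
  · intro r
    rw [AlgHom.commutes, Matrix.algebraMap_matrix_apply, if_neg (by decide)]
  · intro j
    rw [b3_M_ι]; rfl
  · intro a b ha hb
    rw [map_mul, Matrix.mul_apply, Fin.sum_univ_two, ha, hb]
    simp
  · intro a b ha hb
    rw [map_add, Matrix.add_apply, ha, hb, add_zero]

theorem b3_M00 (e d : C) (y : σ → C) (h : FreeAlgebra K σ) :
    b3_M K e d y h 0 0 = FreeAlgebra.lift K (fun j => (1 - e) * y j * (1 - e)) h := by
  refine FreeAlgebra.induction K σ (motive := fun h => b3_M K e d y h 0 0 =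
    FreeAlgebra.lift K (fun j => (1 - e) * y j * (1 - e)) h) ?_ ?_ ?_ ?_ h
  · intro r
    rw [AlgHom.commutes, AlgHom.commutes, Matrix.algebraMap_matrix_apply, if_pos rfl]
  · intro j
    rw [b3_M_ι, FreeAlgebra.lift_ι_apply]; rfl
  · intro a b ha hb
    rw [map_mul, map_mul, Matrix.mul_apply, Fin.sum_univ_two, ha, hb, b3_M10, mul_zero, add_zero]
  · intro a b ha hb
    rw [map_add, map_add, Matrix.add_apply, ha, hb]

theorem b3_M11 (e d : C) (y : σ → C) (h : FreeAlgebra K σ) :
    b3_M K e d y h 1 1 = FreeAlgebra.lift K y h := by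
  refine FreeAlgebra.induction K σ (motive := fun h => b3_M K e d y h 1 1 =
    FreeAlgebra.lift K y h) ?_ ?_ ?_ ?_ h
  · intro r
    rw [AlgHom.commutes, AlgHom.commutes, Matrix.algebraMap_matrix_apply, if_pos rfl]
  · intro j
    rw [b3_M_ι, FreeAlgebra.lift_ι_apply]; rfl
  · intro a b ha hb
    rw [map_mul, map_mul, Matrix.mul_apply, Fin.sum_univ_two, ha, hb, b3_M10, zero_mul, zero_add]
  · intro a b ha hb
    rw [map_add, map_add, Matrix.add_apply, ha, hb]

theorem b3_ent_algebraMap (e d : C) (y : σ → C) (r : K) :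
    ent K e d y (algebraMap K (FreeAlgebra K σ) r) = 0 := by
  rw [b3_ent, AlgHom.commutes, Matrix.algebraMap_matrix_apply, if_neg (by decide)]

theorem b3_ent_mul' (e d : C) (y : σ → C) (a b : FreeAlgebra K σ) :
    ent K e d y (a * b) = ent K e d y a * FreeAlgebra.lift K y b +
      FreeAlgebra.lift K (fun j => (1 - e) * y j * (1 - e)) a * ent K e d y b := by
  rw [b3_ent, map_mul, Matrix.mul_apply, Fin.sum_univ_two, b3_M00, b3_M11, ← b3_ent, ← b3_ent,
    add_comm]

theorem b3_f_ent (e d : C) (he : e * e = e) (y : σ → C) (a : FreeAlgebra K σ) :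
    (1 - e) * ent K e d y a = ent K e d y a := by
  refine FreeAlgebra.induction K σ (motive := fun a => (1 - e) * ent K e d y a = ent K e d y a)
    ?_ ?_ ?_ ?_ a
  · intro r
    rw [b3_ent_algebraMap, mul_zero]
  · intro j
    rw [ent_ι]
    simp only [← mul_assoc]
    rw [b3_idem e he]
  · intro a b ha hb
    rw [b3_ent_mul', mul_add, ← mul_assoc, ha, ← mul_assoc, b3_comm e he y a, mul_assoc, hb]
  · intro a b ha hb
    rw [ent_add, mul_add, ha, hb]

theorem ent_mul (e d : C) (he : e * e = e) (y : σ → C) (a b : FreeAlgebra K σ) :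
    ent K e d y (a * b) = ent K e d y a * FreeAlgebra.lift K y b + NN K e y a * ent K e d y b := by
  rw [b3_ent_mul']
  congr 1
  unfold NN
  rw [b3_comm e he y a, mul_assoc, b3_f_ent e d he y b]

theorem ent_one_eq (e : C) (he : e * e = e) (y : σ → C) (a : FreeAlgebra K σ) :
    (1 - e) * FreeAlgebra.lift K y a = NN K e y a + ent K e e y a := by
  refine FreeAlgebra.induction K σ (motive := fun a =>
    (1 - e) * FreeAlgebra.lift K y a = NN K e y a + ent K e e y a) ?_ ?_ ?_ ?_ a
  · intro r
    rw [b3_ent_algebraMap, add_zero]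
    unfold NN
    rw [AlgHom.commutes, AlgHom.commutes]
  · intro j
    rw [NN_ι e he, ent_ι, FreeAlgebra.lift_ι_apply, mul_assoc _ e e, he, ← mul_add]
    rw [sub_add_cancel, mul_one]
  · intro a b ha hb
    have h1 : NN K e y a * FreeAlgebra.lift K y b =
        NN K e y a * NN K e y b + NN K e y a * ent K e e y b := by
      rw [← mul_add, ← hb, ← mul_assoc, (NN_corner e he y a).2]
    rw [map_mul, ← mul_assoc, ha, add_mul, h1, NN_mul e he, ent_mul e e he]
    abel
  · intro a b ha hb
    rw [map_add, mul_add, ha, hb, NN_add, ent_add]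
    abel

/-- `ent` is a sum of elements `f p e d s` where `p`, `s` do not depend on `d`. -/
theorem ent_form (e : C) (he : e * e = e) (y : σ → C) (a : FreeAlgebra K σ) :
    ∃ (t : ℕ) (p s : Fin t → C), ∀ d, ent K e d y a = ∑ i, (1 - e) * p i * e * d * s i := by
  refine FreeAlgebra.induction K σ (motive := fun a =>
    ∃ (t : ℕ) (p s : Fin t → C), ∀ d, ent K e d y a = ∑ i, (1 - e) * p i * e * d * s i)
    ?_ ?_ ?_ ?_ a
  · intro r
    refine ⟨0, fun _ => 0, fun _ => 0, fun d => ?_⟩
    rw [b3_ent_algebraMap]; simp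
  · intro j
    refine ⟨1, fun _ => y j, fun _ => 1, fun d => ?_⟩
    rw [ent_ι]; simp
  · rintro a b ⟨t1, p1, s1, h1⟩ ⟨t2, p2, s2, h2⟩
    refine ⟨t1 + t2, Fin.append p1 (fun i => FreeAlgebra.lift K
      (fun j => (1 - e) * y j * (1 - e)) a * p2 i),
      Fin.append (fun i => s1 i * FreeAlgebra.lift K y b) s2, fun d => ?_⟩
    rw [b3_ent_mul', h1, h2, Fin.sum_univ_add, Finset.sum_mul, Finset.mul_sum]
    congr 1
    · refine Finset.sum_congr rfl fun i _ => ?_
      rw [Fin.append_left, Fin.append_left, mul_assoc _ (s1 i)]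
    · refine Finset.sum_congr rfl fun i _ => ?_
      rw [Fin.append_right, Fin.append_right]
      simp only [← mul_assoc]
      rw [b3_comm e he y a]
  · rintro a b ⟨t1, p1, s1, h1⟩ ⟨t2, p2, s2, h2⟩
    refine ⟨t1 + t2, Fin.append p1 p2, Fin.append s1 s2, fun d => ?_⟩
    rw [ent_add, h1, h2, Fin.sum_univ_add]
    congr 1
    · refine Finset.sum_congr rfl fun i _ => ?_
      rw [Fin.append_left, Fin.append_left]
    · refine Finset.sum_congr rfl fun i _ => ?_
      rw [Fin.append_right, Fin.append_right]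

end abs

end Pool.Agent.H.MP_f5ceca_al.G
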