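import Pool.Agent.H.MP_f5ceca_al.G.B3

/-!
Job B3b: the first entry formula.

`first_entry`. Write `f = 1 - e`. Let `C' = Polynomial C` (`t` the variable) and
`y_t j = f y_j f + t f y_j e + e y_j f + e y_j e`, i.e. `C (y_j) + (t - 1) * C (f y_j e)`. For `d` in
`C` with `e d = d = d e` let `G d h = ent K (C e) (C d) y_t h`, a polynomial in `t`; `G d h r` its
coefficient at `t ^ r`. Fix `b : K` and `q' = q ^ (a + 1)`, `a ≥ 1`, and let
`φ = sbC K q a b y`. For words `w` (products of letters) prove by induction on the length (append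
a letter at the end) both of
 (i) for all `x`, `(f * φ w * e - ∑_r G ((e + b q') ^ r) w r * e) * x * f = 0`,
 (ii) `f * φ w * f = NN w + ∑_r G ((e + b q') ^ r) w r * f`.
Here `(e + b q')^r` is the power in `e C e` (i.e. `e * (1 + b q') ^ r`); `G _ w 0 = 0`.
The four components of the image `y + b [y, q] q ^ a` of a letter are
`f y f`, `f y e (1 + b q')`, `e y f`, `e y e + b [e y e, q] q ^ a` (`e q = q = q e`, `a ≥ 1`).
(ii) for `w y`: `f φ(w) f * f y f + f φ(w) e * e y f`; by (i) the second product is
`∑_r G .. w r * e y f`; and `G d (w y) r * f = G d w r * (f y f + e y f)`, because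
`G d (w y) = G d w * y_t + NN w * f y e d * t`.
(i) for `w y`: `f φ(w) f * f y e (1 + b q') + f φ(w) e * (e y e + b [e y e, q] q ^ a)`; after
multiplication by `x * f` on the right the term with `[e y e, q]` vanishes by `Star` (it is
between `f .. e` and `e .. f`); and `G d w r = ∑ f p_i e d s_i` (`ent_form`, `p_i`, `s_i` not
depending on `d`), so by `Star` `G d w r * f y e * q' * x f = G (d q') w r * f y e * x f` (the
elements `d`, `e s_i f y e`, `q'` of `e C e` commute between `f p_i` and `x f`), so the factor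
`(1 + b q')` moves to the first entry and raises the exponent `r` to `r + 1`.
By linearity (ii) holds for all `h`.
Moreover `G d w r * f = 0` for `r > m`: the coefficient at `t ^ r` is a sum of products with at least
`r` commutators, because `f y e = f * (f y - y f) * e` (induction on words; `CNil`). So
`f φ(h) f = NN h + ∑_{r ≤ m} ∑_{s ≤ r} (r choose s) b ^ s G (q' ^ s) h r * f` (for `s = 0` with
`q' ^ 0` replaced by `e`). Now put `b = j`, `a = 2 m! / s - 1` (so `a ≥ 1`, and `q' ^ s = q ^ (2 m!)` as
`s ∣ m!`), sum over `j` with the coefficients `cc s j` (`Extr`, `s ≥ 1`) and then over `s` with the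
signs: `∑_{s=1}^m (-1)^(s+1) (r choose s) = 1` for `1 ≤ r ≤ m`. The result is
`∑_{r=1}^m G (q ^ (2 m!)) h r * f = ent K e (q ^ (2 m!)) y h * f` (put `t = 1`).
-/

namespace Pool.Agent.H.MP_f5ceca_al.G

universe u v w

section ind
variable {K : Type u} [Field K] {σ : Type}

/-- induction on words -/
theorem b3b_ind {P : FreeAlgebra K σ → Prop} (h1 : P 1) (hadd : ∀ a b, P a → P b → P (a + b))
    (hs : ∀ (c : K) (a : FreeAlgebra K σ), P a → P (c • a))
    (hι : ∀ (a : FreeAlgebra K σ) (j : σ), P a → P (a * FreeAlgebra.ι K j))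
    (h : FreeAlgebra K σ) : P h := by
  have key : ∀ h g : FreeAlgebra K σ, P g → P (g * h) := by
    intro h
    induction h using FreeAlgebra.induction with
    | grade0 r =>
      intro g hg
      rw [← Algebra.commutes, ← Algebra.smul_def]
      exact hs r g hg
    | grade1 j => exact fun g hg => hι g j hg
    | mul a b ha hb =>
      intro g hg
      rw [← mul_assoc]
      exact hb _ (ha g hg)
    | add a b ha hb =>
      intro g hg
      rw [mul_add]
      exact hadd _ _ (ha g hg) (hb g hg)
  have := key h 1 h1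
  rwa [one_mul] at this

end ind

section nil
variable {C : Type v} [Ring C]

/-- products with `k` commutators -/
def b3b_W (C : Type v) [Ring C] : ℕ → C → Prop
  | 0, _ => True
  | k + 1, x => ∃ b u v x' : C, b3b_W C k x' ∧ x = b * (u * v - v * u) * x'

theorem b3b_W_form (k : ℕ) : ∀ x : C, b3b_W C k x → ∃ (b : Fin (k + 1) → C) (u v : Fin k → C),
    x = b 0 * (List.ofFn fun i : Fin k => (u i * v i - v i * u i) * b i.succ).prod := by
  induction k with
  | zero =>
    intro x _
    refine ⟨fun _ => x, fun _ => 0, fun _ => 0, ?_⟩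
    simp
  | succ k ih =>
    rintro x ⟨b0, u0, v0, x', hx', rfl⟩
    obtain ⟨b, u, v, rfl⟩ := ih x' hx'
    refine ⟨Fin.cons b0 b, Fin.cons u0 u, Fin.cons v0 v, ?_⟩
    rw [List.ofFn_succ, List.prod_cons]
    simp only [Fin.cons_zero, Fin.cons_succ, mul_assoc]

theorem b3b_W_zero {m : ℕ} (hn : CNil C m) {x : C} (hx : b3b_W C m x) : x = 0 := by
  obtain ⟨b, u, v, rfl⟩ := b3b_W_form m x hx
  exact hn b u v

theorem b3b_W_mul {k : ℕ} {x : C} (a : C) (hx : b3b_W C k x) : b3b_W C k (a * x) := by
  cases k with
  | zero => trivial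
  | succ k =>
    obtain ⟨b, u, v, x', hx', rfl⟩ := hx
    exact ⟨a * b, u, v, x', hx', by simp only [mul_assoc]⟩

/-- `x` kills the products with `k` commutators -/
def b3b_V (k : ℕ) (x : C) : Prop := ∀ z, b3b_W C k z → x * z = 0

theorem b3b_V_all {m : ℕ} (hn : CNil C m) (x : C) : b3b_V m x := fun z hz => by
  rw [b3b_W_zero hn hz, mul_zero]

theorem b3b_V_zero {x : C} (h : b3b_V 0 x) : x = 0 := by
  have := h 1 trivial
  rwa [mul_one] at this

theorem b3b_V_mul {k : ℕ} {x : C} (h : b3b_V k x) (a : C) : b3b_V k (x * a) := fun z hz => by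
  rw [mul_assoc]
  exact h _ (b3b_W_mul a hz)

theorem b3b_V_add {k : ℕ} {x y : C} (h : b3b_V k x) (h' : b3b_V k y) : b3b_V k (x + y) :=
  fun z hz => by rw [add_mul, h z hz, h' z hz, add_zero]

theorem b3b_V_fe {k : ℕ} {x : C} (h : b3b_V (k + 1) x) {e : C} (he : e * e = e) (y : C) :
    b3b_V k (x * ((1 - e) * y * e)) := fun z hz => by
  have e1 : (1 - e) * y * e = (1 - e) * ((1 - e) * y - y * (1 - e)) * e := by
    have h0 : (1 - e) * e = 0 := by rw [sub_mul, one_mul, he, sub_self]
    have h1 : (1 - e) * (1 - e) = 1 - e := by rw [mul_sub, mul_one, h0, sub_zero]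
    have a1 : (1 - e) * ((1 - e) * y - y * (1 - e)) * e =
        ((1 - e) * (1 - e)) * y * e - (1 - e) * y * ((1 - e) * e) := by
      generalize 1 - e = F
      simp only [mul_sub, sub_mul, mul_assoc]
    rw [a1, h1, h0, mul_zero, sub_zero]
  rw [e1, mul_assoc]
  refine h _ ⟨1 - e, 1 - e, y, e * z, b3b_W_mul e hz, ?_⟩
  rw [mul_assoc]

end nil

section op
variable {K : Type u} [Field K] {C : Type v} [Ring C] [Algebra K C] {σ : Type}

/-- One letter acts on the states: a state consists of the value of `NN` and the parts with `r`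
entries, as functions of the element inserted at the first entry. -/
noncomputable def b3b_T (K : Type u) [Field K] {C : Type v} [Ring C] [Algebra K C] (e y : C) :
    Module.End K (C × (ℕ → (C →ₗ[K] C))) where
  toFun s := (s.1 * ((1 - e) * y * (1 - e)), fun r =>
    (LinearMap.mulRight K (y - (1 - e) * y * e)).comp (s.2 r) +
    (LinearMap.mulRight K ((1 - e) * y * e)).comp (if r = 0 then 0 else s.2 (r - 1)) +
    (if r = 1 then LinearMap.mulLeft K (s.1 * ((1 - e) * y * e)) else 0))
  map_add' s t := by
    refine Prod.ext (add_mul _ _ _) ?_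
    funext r
    refine LinearMap.ext fun d => ?_
    by_cases h0 : r = 0
    · subst h0
      simp [add_mul]
    · by_cases h1 : r = 1
      · subst h1
        simp only [Prod.snd_add, Prod.fst_add, Pi.add_apply, LinearMap.add_apply,
          LinearMap.comp_apply, LinearMap.mulRight_apply, LinearMap.mulLeft_apply, h0, if_false,
          if_true, add_mul]
        abel
      · simp only [Prod.snd_add, Prod.fst_add, Pi.add_apply, LinearMap.add_apply,
          LinearMap.comp_apply, LinearMap.mulRight_apply, LinearMap.mulLeft_apply, h0, h1, if_false,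
          LinearMap.zero_apply, add_mul]
        abel
  map_smul' c s := by
    refine Prod.ext (smul_mul_assoc _ _ _) ?_
    funext r
    refine LinearMap.ext fun d => ?_
    by_cases h0 : r = 0
    · subst h0
      simp
    · by_cases h1 : r = 1
      · subst h1
        simp only [Prod.smul_snd, Prod.smul_fst, Pi.smul_apply, LinearMap.add_apply,
          LinearMap.smul_apply, RingHom.id_apply, smul_mul_assoc, smul_add,
          LinearMap.comp_apply, LinearMap.mulRight_apply, LinearMap.mulLeft_apply, h0, if_false,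
          if_true]
      · simp only [Prod.smul_snd, Prod.smul_fst, Pi.smul_apply, LinearMap.add_apply,
          LinearMap.smul_apply, RingHom.id_apply, smul_mul_assoc, smul_add,
          LinearMap.comp_apply, LinearMap.mulRight_apply, LinearMap.mulLeft_apply, h0, h1, if_false,
          LinearMap.zero_apply, smul_zero]

/-- the state after a word -/
noncomputable def b3b_S (K : Type u) [Field K] {C : Type v} [Ring C] [Algebra K C] {σ : Type}
    (e : C) (y : σ → C) (h : FreeAlgebra K σ) : C × (ℕ → (C →ₗ[K] C)) :=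
  (FreeAlgebra.lift K (fun j => MulOpposite.op (b3b_T K e (y j))) h).unop (1 - e, 0)

theorem b3b_S_one (e : C) (y : σ → C) : b3b_S K e y 1 = (1 - e, 0) := by
  unfold b3b_S
  rw [map_one, MulOpposite.unop_one, Module.End.one_apply]

theorem b3b_S_add (e : C) (y : σ → C) (a b : FreeAlgebra K σ) :
    b3b_S K e y (a + b) = b3b_S K e y a + b3b_S K e y b := by
  unfold b3b_S
  rw [map_add, MulOpposite.unop_add, LinearMap.add_apply]

theorem b3b_S_smul (e : C) (y : σ → C) (c : K) (a : FreeAlgebra K σ) :
    b3b_S K e y (c • a) = c • b3b_S K e y a := by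
  unfold b3b_S
  rw [map_smul, MulOpposite.unop_smul, LinearMap.smul_apply]

theorem b3b_S_mul (e : C) (y : σ → C) (a : FreeAlgebra K σ) (j : σ) :
    b3b_S K e y (a * FreeAlgebra.ι K j) = b3b_T K e (y j) (b3b_S K e y a) := by
  unfold b3b_S
  rw [map_mul, MulOpposite.unop_mul, FreeAlgebra.lift_ι_apply, MulOpposite.unop_op,
    Module.End.mul_apply]

theorem b3b_S_fst (e : C) (he : e * e = e) (y : σ → C) (h : FreeAlgebra K σ) :
    (b3b_S K e y h).1 = NN K e y h := by
  induction h using b3b_ind with
  | h1 => rw [b3b_S_one, NN_one]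
  | hadd a b ha hb => rw [b3b_S_add, NN_add, Prod.fst_add, ha, hb]
  | hs c a ha => rw [b3b_S_smul, NN_smul, Prod.smul_fst, ha]
  | hι a j ha =>
    rw [b3b_S_mul, NN_mul e he, NN_ι e he, ← ha]
    rfl

/-- the part with `r` entries -/
noncomputable def b3b_E (K : Type u) [Field K] {C : Type v} [Ring C] [Algebra K C] {σ : Type}
    (e : C) (y : σ → C) (r : ℕ) (h : FreeAlgebra K σ) : C →ₗ[K] C := (b3b_S K e y h).2 r

theorem b3b_E_one (e : C) (y : σ → C) (r : ℕ) : b3b_E K e y r 1 = 0 := by
  unfold b3b_E
  rw [b3b_S_one]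
  rfl

theorem b3b_E_add (e : C) (y : σ → C) (r : ℕ) (a b : FreeAlgebra K σ) :
    b3b_E K e y r (a + b) = b3b_E K e y r a + b3b_E K e y r b := by
  unfold b3b_E
  rw [b3b_S_add]
  rfl

theorem b3b_E_smul (e : C) (y : σ → C) (r : ℕ) (c : K) (a : FreeAlgebra K σ) :
    b3b_E K e y r (c • a) = c • b3b_E K e y r a := by
  unfold b3b_E
  rw [b3b_S_smul]
  rfl

theorem b3b_E_mul_zero (e : C) (y : σ → C) (a : FreeAlgebra K σ) (j : σ) (d : C) :
    b3b_E K e y 0 (a * FreeAlgebra.ι K j) d =
      b3b_E K e y 0 a d * (y j - (1 - e) * y j * e) := by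
  unfold b3b_E
  rw [b3b_S_mul]
  simp [b3b_T]

theorem b3b_E_mul_succ (e : C) (he : e * e = e) (y : σ → C) (r : ℕ) (a : FreeAlgebra K σ) (j : σ)
    (d : C) : b3b_E K e y (r + 1) (a * FreeAlgebra.ι K j) d =
      b3b_E K e y (r + 1) a d * (y j - (1 - e) * y j * e) +
        b3b_E K e y r a d * ((1 - e) * y j * e) +
        if r = 0 then NN K e y a * ((1 - e) * y j * e) * d else 0 := by
  unfold b3b_E
  rw [b3b_S_mul, ← b3b_S_fst e he]
  by_cases h : r = 0
  · subst h
    simp [b3b_T, mul_assoc]
  · have h' : r + 1 ≠ 1 := by omega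
    simp [b3b_T, h, mul_assoc]

theorem b3b_E_zero (e : C) (y : σ → C) (h : FreeAlgebra K σ) (d : C) :
    b3b_E K e y 0 h d = 0 := by
  induction h using b3b_ind with
  | h1 => rw [b3b_E_one, LinearMap.zero_apply]
  | hadd a b ha hb => rw [b3b_E_add, LinearMap.add_apply, ha, hb, add_zero]
  | hs c a ha => rw [b3b_E_smul, LinearMap.smul_apply, ha, smul_zero]
  | hι a j ha => rw [b3b_E_mul_zero, ha, zero_mul]

theorem b3b_E_left (e : C) (he : e * e = e) (y : σ → C) (h : FreeAlgebra K σ) :
    ∀ r d, (1 - e) * b3b_E K e y r h d = b3b_E K e y r h d := by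
  induction h using b3b_ind with
  | h1 => intro r d; rw [b3b_E_one, LinearMap.zero_apply, mul_zero]
  | hadd a b ha hb => intro r d; rw [b3b_E_add, LinearMap.add_apply, mul_add, ha, hb]
  | hs c a ha => intro r d; rw [b3b_E_smul, LinearMap.smul_apply, mul_smul_comm, ha]
  | hι a j ha =>
    intro r d
    cases r with
    | zero => rw [b3b_E_zero, mul_zero]
    | succ r =>
      rw [b3b_E_mul_succ e he, mul_add, mul_add, ← mul_assoc, ha, ← mul_assoc, ha]
      congr 1
      split_ifs
      · rw [← mul_assoc, ← mul_assoc, (NN_corner e he y a).1]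
      · rw [mul_zero]

theorem b3b_E_nil {m : ℕ} (hn : CNil C m) (e : C) (he : e * e = e) (y : σ → C)
    (h : FreeAlgebra K σ) : ∀ r d, b3b_V (m - r) (b3b_E K e y r h d) := by
  induction h using b3b_ind with
  | h1 => intro r d z _; rw [b3b_E_one, LinearMap.zero_apply, zero_mul]
  | hadd a b ha hb =>
    intro r d
    rw [b3b_E_add, LinearMap.add_apply]
    exact b3b_V_add (ha r d) (hb r d)
  | hs c a ha =>
    intro r d z hz
    rw [b3b_E_smul, LinearMap.smul_apply, smul_mul_assoc, ha r d z hz, smul_zero]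
  | hι a j ha =>
    intro r d
    cases r with
    | zero =>
      rw [b3b_E_zero]
      exact fun z _ => zero_mul z
    | succ r =>
      rw [b3b_E_mul_succ e he]
      refine b3b_V_add (b3b_V_add (b3b_V_mul (ha (r + 1) d) _) ?_) ?_
      · have h1 := ha r d
        rcases Nat.eq_zero_or_pos (m - r) with h0 | h0
        · rw [h0] at h1
          rw [b3b_V_zero h1, zero_mul]
          exact fun z _ => zero_mul z
        · have h2 : m - r = m - (r + 1) + 1 := by omega
          rw [h2] at h1
          exact b3b_V_fe h1 he _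
      · split_ifs with h0
        · subst h0
          rcases Nat.eq_zero_or_pos m with h1 | h1
          · subst h1
            exact b3b_V_all hn _
          · obtain ⟨k, rfl⟩ : ∃ k, m = k + 1 := ⟨m - 1, by omega⟩
            exact b3b_V_mul (b3b_V_fe (b3b_V_all hn _) he _) _
        · exact fun z _ => zero_mul z

theorem b3b_E_big {m : ℕ} (hn : CNil C m) (e : C) (he : e * e = e) (y : σ → C)
    (h : FreeAlgebra K σ) (d : C) : b3b_E K e y m h d = 0 := by
  have h1 := b3b_E_nil hn e he y h m d
  rw [Nat.sub_self] at h1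
  exact b3b_V_zero h1

/-- the sum over the numbers of entries -/
noncomputable def b3b_SB (K : Type u) [Field K] {C : Type v} [Ring C] [Algebra K C] {σ : Type}
    (m : ℕ) (e : C) (y : σ → C) (dd : ℕ → C) (h : FreeAlgebra K σ) : C :=
  ∑ r ∈ Finset.range (m + 1), b3b_E K e y r h (dd r)

theorem b3b_SB_mul {m : ℕ} (hm : 0 < m) (hn : CNil C m) (e : C) (he : e * e = e) (y : σ → C)
    (dd : ℕ → C) (a : FreeAlgebra K σ) (j : σ) :
    b3b_SB K m e y dd (a * FreeAlgebra.ι K j) = b3b_SB K m e y dd a * (y j - (1 - e) * y j * e) +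
      b3b_SB K m e y (fun r => dd (r + 1)) a * ((1 - e) * y j * e) +
      NN K e y a * ((1 - e) * y j * e) * dd 1 := by
  have h1 : b3b_SB K m e y dd (a * FreeAlgebra.ι K j) = ∑ r ∈ Finset.range m,
      b3b_E K e y (r + 1) (a * FreeAlgebra.ι K j) (dd (r + 1)) := by
    unfold b3b_SB
    rw [Finset.sum_range_succ', b3b_E_zero, add_zero]
  have h2 : b3b_SB K m e y dd a = ∑ r ∈ Finset.range m, b3b_E K e y (r + 1) a (dd (r + 1)) := by
    unfold b3b_SB
    rw [Finset.sum_range_succ', b3b_E_zero, add_zero]
  have h3 : b3b_SB K m e y (fun r => dd (r + 1)) a =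
      ∑ r ∈ Finset.range m, b3b_E K e y r a (dd (r + 1)) := by
    unfold b3b_SB
    rw [Finset.sum_range_succ, b3b_E_big hn e he, add_zero]
  rw [h1, h2, h3, Finset.sum_mul, Finset.sum_mul, ← Finset.sum_add_distrib]
  have h4 : NN K e y a * ((1 - e) * y j * e) * dd 1 = ∑ r ∈ Finset.range m,
      if r = 0 then NN K e y a * ((1 - e) * y j * e) * dd (r + 1) else 0 := by
    rw [Finset.sum_ite_eq' (Finset.range m) 0
      (fun r => NN K e y a * ((1 - e) * y j * e) * dd (r + 1)),
      if_pos (Finset.mem_range.2 hm)]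
  rw [h4, ← Finset.sum_add_distrib]
  exact Finset.sum_congr rfl fun r _ => b3b_E_mul_succ e he y r a j _

theorem b3b_SB_one (m : ℕ) (e : C) (y : σ → C) (dd : ℕ → C) :
    b3b_SB K m e y dd 1 = 0 := by
  unfold b3b_SB
  exact Finset.sum_eq_zero fun r _ => by rw [b3b_E_one, LinearMap.zero_apply]

theorem b3b_SB_add (m : ℕ) (e : C) (y : σ → C) (dd : ℕ → C) (a b : FreeAlgebra K σ) :
    b3b_SB K m e y dd (a + b) = b3b_SB K m e y dd a + b3b_SB K m e y dd b := by
  unfold b3b_SB
  rw [← Finset.sum_add_distrib]
  exact Finset.sum_congr rfl fun r _ => by rw [b3b_E_add, LinearMap.add_apply]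

theorem b3b_SB_smul (m : ℕ) (e : C) (y : σ → C) (dd : ℕ → C) (c : K) (a : FreeAlgebra K σ) :
    b3b_SB K m e y dd (c • a) = c • b3b_SB K m e y dd a := by
  unfold b3b_SB
  rw [Finset.smul_sum]
  exact Finset.sum_congr rfl fun r _ => by rw [b3b_E_smul, LinearMap.smul_apply]

theorem b3b_SB_left (m : ℕ) (e : C) (he : e * e = e) (y : σ → C) (dd : ℕ → C)
    (a : FreeAlgebra K σ) : (1 - e) * b3b_SB K m e y dd a = b3b_SB K m e y dd a := by
  unfold b3b_SB
  rw [Finset.mul_sum]
  exact Finset.sum_congr rfl fun r _ => b3b_E_left e he y a r _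

theorem b3b_ent {m : ℕ} (hm : 0 < m) (hn : CNil C m) (e : C) (he : e * e = e) (y : σ → C) (Q : C)
    (h : FreeAlgebra K σ) : b3b_SB K m e y (fun _ => Q) h = ent K e Q y h := by
  induction h using b3b_ind with
  | h1 =>
    rw [b3b_SB_one]
    simp [ent]
  | hadd a b ha hb => rw [b3b_SB_add, ent_add, ha, hb]
  | hs c a ha => rw [b3b_SB_smul, ent_smul, ha]
  | hι a j ha =>
    rw [b3b_SB_mul hm hn e he, ent_mul e Q he, ha, FreeAlgebra.lift_ι_apply, ent_ι, mul_sub,
      sub_add_cancel, mul_assoc (NN K e y a)]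

/-- the elements of the block of `e` can be moved to the first entry -/
theorem b3b_star {e : C} (he : e * e = e) (hst : Star e) (y : σ → C) (h : FreeAlgebra K σ) :
    ∀ (r : ℕ) (d v p x : C), d * e = d → e * p = p → p * e = p →
      b3b_E K e y r h d * v * p * x * (1 - e) =
        b3b_E K e y r h (d * p) * v * e * x * (1 - e) := by
  induction h using b3b_ind with
  | h1 =>
    intro r d v p x _ _ _
    simp only [b3b_E_one, LinearMap.zero_apply, zero_mul]
  | hadd a b ha hb =>
    intro r d v p x h1 h2 h3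
    simp only [b3b_E_add, LinearMap.add_apply, add_mul]
    rw [ha r d v p x h1 h2 h3, hb r d v p x h1 h2 h3]
  | hs c a ha =>
    intro r d v p x h1 h2 h3
    simp only [b3b_E_smul, LinearMap.smul_apply, smul_mul_assoc]
    rw [ha r d v p x h1 h2 h3]
  | hι a j ha =>
    intro r d v p x h1 h2 h3
    cases r with
    | zero => simp only [b3b_E_zero, zero_mul]
    | succ r =>
      rw [b3b_E_mul_succ e he, b3b_E_mul_succ e he]
      simp only [add_mul]
      have a1 := ha (r + 1) d ((y j - (1 - e) * y j * e) * v) p x h1 h2 h3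
      have a2 := ha r d (((1 - e) * y j * e) * v) p x h1 h2 h3
      rw [← mul_assoc (b3b_E K e y (r + 1) a d), ← mul_assoc (b3b_E K e y (r + 1) a (d * p))] at a1
      rw [← mul_assoc (b3b_E K e y r a d), ← mul_assoc (b3b_E K e y r a (d * p))] at a2
      rw [a1, a2]
      congr 1
      split_ifs
      · have b1 := hst (y j * e * d) x v p
        have b2 : (1 - e) * (y j * e * d) * e * v * e * p * e * x * (1 - e) =
            (1 - e) * y j * e * d * v * p * x * (1 - e) := by
          have c1 : (1 - e) * (y j * e * d) * e * v * e * p * e * x * (1 - e) =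
              (1 - e) * y j * e * (d * e) * v * ((e * p) * e) * x * (1 - e) := by
            simp only [mul_assoc]
          rw [c1, h1, h2, h3]
        have b3 : (1 - e) * (y j * e * d) * e * p * e * v * e * x * (1 - e) =
            (1 - e) * y j * e * (d * p) * v * e * x * (1 - e) := by
          have c1 : (1 - e) * (y j * e * d) * e * p * e * v * e * x * (1 - e) =
              (1 - e) * y j * e * ((d * e) * (p * e)) * v * e * x * (1 - e) := by
            simp only [mul_assoc]
          rw [c1, h1, h3]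
        rw [b2, b3] at b1
        have b4 := congrArg (fun t => NN K e y a * t) b1
        simp only [← mul_assoc] at b4 ⊢
        exact b4
      · simp only [zero_mul]

/-- the formula for one value of the parameter -/
theorem b3b_key {m : ℕ} (hm : 0 < m) (hn : CNil C m) {e q : C} (he : e * e = e) (hst : Star e)
    (hq1 : e * q = q) (hq2 : q * e = q) (y : σ → C) {a : ℕ} (ha : 1 ≤ a) (b : K)
    (h : FreeAlgebra K σ) :
    (∀ x, (1 - e) * sbC K q a b y h * e * x * (1 - e) =
      b3b_SB K m e y (fun r => e * (1 + b • q ^ (a + 1)) ^ r) h * e * x * (1 - e)) ∧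
    (1 - e) * sbC K q a b y h * (1 - e) = NN K e y h +
      b3b_SB K m e y (fun r => e * (1 + b • q ^ (a + 1)) ^ r) h * (1 - e) := by
  have h0 : (1 - e) * e = 0 := by rw [sub_mul, one_mul, he, sub_self]
  have h0' : e * (1 - e) = 0 := by rw [mul_sub, mul_one, he, sub_self]
  have h1 : (1 - e) * (1 - e) = 1 - e := by rw [mul_sub, mul_one, h0, sub_zero]
  have hF : 1 = (1 - e) + e := by abel
  obtain ⟨a', rfl⟩ : ∃ a', a = a' + 1 := ⟨a - 1, by omega⟩
  have hqF : q * (1 - e) = 0 := by rw [mul_sub, mul_one, hq2, sub_self]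
  have hFq : (1 - e) * q = 0 := by rw [sub_mul, one_mul, hq1, sub_self]
  have hqa : q ^ (a' + 1) * (1 - e) = 0 := by rw [pow_succ, mul_assoc, hqF, mul_zero]
  have hqe : q ^ (a' + 1 + 1) * e = q ^ (a' + 1 + 1) := by rw [pow_succ, mul_assoc, hq2]
  have heq : e * q ^ (a' + 1 + 1) = q ^ (a' + 1 + 1) := by rw [pow_succ', ← mul_assoc, hq1]
  have hqe1 : q ^ (a' + 1) * e = q ^ (a' + 1) := by rw [pow_succ, mul_assoc, hq2]
  have heq1 : e * q ^ (a' + 1) = q ^ (a' + 1) := by rw [pow_succ', ← mul_assoc, hq1]
  set A : C := 1 + b • q ^ (a' + 1 + 1) with hA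
  have hAc : A * e = e * A := by
    rw [hA, add_mul, mul_add, smul_mul_assoc, mul_smul_comm, hqe, heq, one_mul, mul_one]
  have hApc : ∀ r : ℕ, A ^ r * e = e * A ^ r := fun r => (Commute.pow_left (show Commute A e from hAc) r)
  have hD1 : ∀ r, e * A ^ r * e = e * A ^ r := fun r => by
    rw [mul_assoc, hApc, ← mul_assoc, he]
  have hD2 : ∀ r, e * (e * A ^ r) = e * A ^ r := fun r => by rw [← mul_assoc, he]
  have hD3 : ∀ r, e * A ^ r * (e * A ^ 1) = e * A ^ (r + 1) := fun r => by
    rw [← mul_assoc, hD1, mul_assoc, pow_one, ← pow_succ]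
  have hD4 : ∀ r, e * A ^ r * (1 - e) = 0 := fun r => by
    rw [mul_sub, mul_one, hD1, sub_self]
  induction h using b3b_ind with
  | h1 =>
    rw [b3b_SB_one, map_one, NN_one]
    constructor
    · intro x
      rw [mul_one, h0]
      simp only [zero_mul]
    · rw [mul_one, h1, zero_mul, add_zero]
  | hadd c d hc hd =>
    rw [b3b_SB_add, map_add, NN_add]
    constructor
    · intro x
      simp only [mul_add, add_mul]
      rw [hc.1 x, hd.1 x]
    · have e1 : (1 - e) * (sbC K q (a' + 1) b y c + sbC K q (a' + 1) b y d) * (1 - e) =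
          (1 - e) * sbC K q (a' + 1) b y c * (1 - e) +
          (1 - e) * sbC K q (a' + 1) b y d * (1 - e) := by
        rw [mul_add (1 - e), add_mul]
      rw [e1, hc.2, hd.2, add_mul _ _ (1 - e)]
      abel
  | hs k c hc =>
    rw [b3b_SB_smul, map_smul, NN_smul]
    constructor
    · intro x
      simp only [mul_smul_comm, smul_mul_assoc]
      rw [hc.1 x]
    · rw [mul_smul_comm, smul_mul_assoc, smul_mul_assoc, hc.2, smul_add]
  | hι c j hc =>
    obtain ⟨hi, hii⟩ := hc
    have hNF : NN K e y c * (1 - e) = NN K e y c := (NN_corner e he y c).2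
    set S := b3b_SB K m e y (fun r => e * A ^ r) c with hS
    have hSL : (1 - e) * S = S := b3b_SB_left m e he y _ c
    set Φ := sbC K q (a' + 1) b y c with hΦ
    set Y := y j with hY
    have hu : sbC K q (a' + 1) b y (c * FreeAlgebra.ι K j) =
        Φ * (Y + b • ((Y * q - q * Y) * q ^ (a' + 1))) := by
      rw [map_mul]
      congr 1
      unfold sbC
      rw [FreeAlgebra.lift_ι_apply]
    set U := Y + b • ((Y * q - q * Y) * q ^ (a' + 1)) with hU
    -- the components of the letter
    have hUF : U * (1 - e) = Y * (1 - e) := by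
      rw [hU, add_mul, smul_mul_assoc, mul_assoc (Y * q - q * Y), hqa, mul_zero, smul_zero,
        add_zero]
    have hFU : (1 - e) * U * e = (1 - e) * Y * e * (e * A ^ 1) := by
      have e1 : (1 - e) * ((Y * q - q * Y) * q ^ (a' + 1)) * e =
          (1 - e) * Y * q ^ (a' + 1 + 1) := by
        have e2 : (1 - e) * (Y * q - q * Y) = (1 - e) * Y * q := by
          rw [mul_sub, ← mul_assoc, ← mul_assoc, hFq, zero_mul, sub_zero]
        rw [← mul_assoc, e2, mul_assoc ((1 - e) * Y * q), hqe1, mul_assoc ((1 - e) * Y), ← pow_succ']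
      have e3 : e * A ^ 1 = e + b • q ^ (a' + 1 + 1) := by
        rw [pow_one, hA, mul_add, mul_one, mul_smul_comm, heq]
      rw [hU, mul_add, add_mul, mul_smul_comm, smul_mul_assoc, e1, e3, mul_add, mul_smul_comm,
        mul_assoc ((1 - e) * Y) e e, he, mul_assoc ((1 - e) * Y) e, heq]
    have hSU : ∀ x, S * e * U * e * x * (1 - e) = S * e * Y * e * x * (1 - e) := by
      intro x
      have e1 := hst S (q ^ (a' + 1) * x) Y q
      have e2 : S * e * (Y * q) * q ^ (a' + 1) * e * x * (1 - e) =
          (1 - e) * S * e * Y * e * q * e * (q ^ (a' + 1) * x) * (1 - e) := by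
        have c1 : (1 - e) * S * e * Y * e * q * e * (q ^ (a' + 1) * x) * (1 - e) =
            ((1 - e) * S) * e * Y * ((e * q) * (e * q ^ (a' + 1))) * x * (1 - e) := by
          simp only [mul_assoc]
        have c2 : S * e * (Y * q) * q ^ (a' + 1) * e * x * (1 - e) =
            S * e * Y * (q * (q ^ (a' + 1) * e)) * x * (1 - e) := by
          simp only [mul_assoc]
        rw [c1, c2, hSL, hq1, heq1, hqe1]
      have e3 : S * e * (q * Y) * q ^ (a' + 1) * e * x * (1 - e) =
          (1 - e) * S * e * q * e * Y * e * (q ^ (a' + 1) * x) * (1 - e) := by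
        have c1 : (1 - e) * S * e * q * e * Y * e * (q ^ (a' + 1) * x) * (1 - e) =
            ((1 - e) * S) * e * (q * e) * Y * (e * q ^ (a' + 1)) * x * (1 - e) := by
          simp only [mul_assoc]
        have c2 : S * e * (q * Y) * q ^ (a' + 1) * e * x * (1 - e) =
            S * e * q * Y * (q ^ (a' + 1) * e) * x * (1 - e) := by
          simp only [mul_assoc]
        rw [c1, c2, hSL, hq2, heq1, hqe1]
      have e4 : S * e * ((Y * q - q * Y) * q ^ (a' + 1)) * e * x * (1 - e) = 0 := by
        have c1 : S * e * ((Y * q - q * Y) * q ^ (a' + 1)) * e * x * (1 - e) =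
            S * e * (Y * q) * q ^ (a' + 1) * e * x * (1 - e) -
            S * e * (q * Y) * q ^ (a' + 1) * e * x * (1 - e) := by
          simp only [sub_mul, mul_sub, mul_assoc]
          abel
        rw [c1, e2, e3, e1, sub_self]
      rw [hU, mul_add]
      simp only [add_mul, mul_smul_comm, smul_mul_assoc]
      rw [e4, smul_zero, add_zero]
    have hSB := b3b_SB_mul hm hn e he y (fun r => e * A ^ r) c j
    rw [← hS, ← hY] at hSB
    have hmove : ∀ x, b3b_SB K m e y (fun r => e * A ^ (r + 1)) c * ((1 - e) * Y * e) * e * x *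
        (1 - e) = S * ((1 - e) * Y * e) * (e * A ^ 1) * x * (1 - e) := by
      intro x
      rw [hS]
      unfold b3b_SB
      simp only [Finset.sum_mul]
      refine Finset.sum_congr rfl fun r _ => ?_
      have e1 := b3b_star he hst y c r (e * A ^ r) ((1 - e) * Y * e) (e * A ^ 1) x (hD1 r)
        (hD2 1) (hD1 1)
      rw [hD3] at e1
      exact e1.symm
    rw [hu, NN_mul e he, NN_ι e he, ← hY]
    constructor
    · intro x
      have L1 : (1 - e) * (Φ * U) * e * x * (1 - e) =
          ((1 - e) * Φ * (1 - e)) * U * e * x * (1 - e) +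
            (1 - e) * Φ * e * (U * e * x) * (1 - e) := by
        have : (1 - e) * (Φ * U) * e * x * (1 - e) =
            (1 - e) * Φ * ((1 - e) + e) * U * e * x * (1 - e) := by
          rw [← hF]
          simp only [mul_one, mul_assoc]
        rw [this]
        simp only [mul_add, add_mul, mul_assoc]
      have L2 : S * e * (U * e * x) * (1 - e) = S * e * Y * e * x * (1 - e) := by
        rw [← hSU x]
        simp only [mul_assoc]
      rw [L1, hii, hi, L2, hSB]
      have R1 : (S * (Y - (1 - e) * Y * e) +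
          b3b_SB K m e y (fun r => e * A ^ (r + 1)) c * ((1 - e) * Y * e) +
          NN K e y c * ((1 - e) * Y * e) * (e * A ^ 1)) * e * x * (1 - e) =
          S * (Y - (1 - e) * Y * e) * e * x * (1 - e) +
          b3b_SB K m e y (fun r => e * A ^ (r + 1)) c * ((1 - e) * Y * e) * e * x * (1 - e) +
          NN K e y c * ((1 - e) * Y * e) * (e * A ^ 1) * e * x * (1 - e) := by
        simp only [add_mul]
      rw [R1, hmove]
      have R2 : (Y - (1 - e) * Y * e) * e = e * Y * e := by
        rw [sub_mul, mul_assoc ((1 - e) * Y), he, mul_assoc (1 - e) Y e, sub_mul, one_mul,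
          mul_assoc e Y e]
        abel
      have R3 : S * (Y - (1 - e) * Y * e) * e * x * (1 - e) = S * e * Y * e * x * (1 - e) := by
        rw [mul_assoc S, R2]
        simp only [mul_assoc]
      have R4 : NN K e y c * U * e * x * (1 - e) =
          NN K e y c * ((1 - e) * Y * e) * (e * A ^ 1) * e * x * (1 - e) := by
        have c1 : NN K e y c * U * e * x * (1 - e) =
            NN K e y c * ((1 - e) * U * e) * x * (1 - e) := by
          conv_lhs => rw [← hNF]
          simp only [mul_assoc]
        have c2 : NN K e y c * ((1 - e) * Y * e) * (e * A ^ 1) * e * x * (1 - e) =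
            NN K e y c * ((1 - e) * Y * e * (e * A ^ 1 * e)) * x * (1 - e) := by
          simp only [mul_assoc]
        rw [c1, c2, hFU, hD1]
      have R5 : S * (1 - e) * U * e * x * (1 - e) =
          S * ((1 - e) * Y * e) * (e * A ^ 1) * x * (1 - e) := by
        have c1 : S * (1 - e) * U * e * x * (1 - e) =
            S * ((1 - e) * U * e) * x * (1 - e) := by
          simp only [mul_assoc]
        rw [c1, hFU]
        simp only [mul_assoc]
      rw [R3, ← R4, ← R5]
      simp only [add_mul]
      abel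
    · have L1 : (1 - e) * (Φ * U) * (1 - e) =
          ((1 - e) * Φ * (1 - e)) * Y * (1 - e) + (1 - e) * Φ * e * Y * (1 - e) := by
        have : (1 - e) * (Φ * U) * (1 - e) = (1 - e) * Φ * ((1 - e) + e) * (U * (1 - e)) := by
          rw [← hF]
          simp only [mul_one, mul_assoc]
        rw [this, hUF]
        simp only [mul_add, add_mul, mul_assoc]
      rw [L1, hii, hi, hSB]
      have R1 : (S * (Y - (1 - e) * Y * e) +
          b3b_SB K m e y (fun r => e * A ^ (r + 1)) c * ((1 - e) * Y * e) +
          NN K e y c * ((1 - e) * Y * e) * (e * A ^ 1)) * (1 - e) = S * Y * (1 - e) := by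
        have c1 : (S * (Y - (1 - e) * Y * e) +
          b3b_SB K m e y (fun r => e * A ^ (r + 1)) c * ((1 - e) * Y * e) +
          NN K e y c * ((1 - e) * Y * e) * (e * A ^ 1)) * (1 - e) =
          S * Y * (1 - e) - S * ((1 - e) * Y) * (e * (1 - e)) +
          b3b_SB K m e y (fun r => e * A ^ (r + 1)) c * ((1 - e) * Y) * (e * (1 - e)) +
          NN K e y c * ((1 - e) * Y * e) * (e * A ^ 1 * (1 - e)) := by
          simp only [add_mul _ _ (1 - e), mul_sub S, sub_mul _ _ (1 - e), mul_assoc]
        rw [c1, h0', hD4, mul_zero, mul_zero, mul_zero, sub_zero, add_zero, add_zero]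
      rw [R1]
      have R2 : S * Y * (1 - e) = S * (1 - e) * Y * (1 - e) + S * e * Y * (1 - e) := by
        have : S * Y * (1 - e) = S * ((1 - e) + e) * Y * (1 - e) := by
          rw [← hF, mul_one]
        rw [this]
        simp only [mul_add, add_mul]
      have R3 : NN K e y c * Y * (1 - e) = NN K e y c * ((1 - e) * Y * (1 - e)) := by
        conv_lhs => rw [← hNF]
        simp only [mul_assoc]
      rw [R2, add_mul, add_mul, R3]
      abel

theorem b3b_alt {r m : ℕ} (h1 : 1 ≤ r) (h2 : r ≤ m) :
    ∑ s ∈ Finset.Icc 1 m, (-1 : K) ^ (s + 1) * (r.choose s : K) = 1 := by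
  have h3 : ∑ s ∈ Finset.range (m + 1), (-1 : K) ^ s * (r.choose s : K) = 0 := by
    have h4 := add_pow (-1 : K) 1 r
    rw [neg_add_cancel, zero_pow (by omega)] at h4
    have h5 : ∑ s ∈ Finset.range (r + 1), (-1 : K) ^ s * (r.choose s : K) =
        ∑ s ∈ Finset.range (m + 1), (-1 : K) ^ s * (r.choose s : K) := by
      refine Finset.sum_subset (Finset.range_subset_range.2 (by omega)) fun s _ hs => ?_
      rw [Finset.mem_range, not_lt] at hs
      rw [Nat.choose_eq_zero_of_lt (by omega), Nat.cast_zero, mul_zero]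
    rw [← h5, h4]
    exact Finset.sum_congr rfl fun s _ => by rw [one_pow, mul_one]
  rw [Finset.sum_range_succ'] at h3
  have h6 : ∑ s ∈ Finset.Icc 1 m, (-1 : K) ^ (s + 1) * (r.choose s : K) =
      ∑ s ∈ Finset.range m, (-1 : K) ^ (s + 1 + 1) * (r.choose (s + 1) : K) := by
    rw [Finset.range_eq_Ico, Finset.sum_Ico_add' (fun s => (-1 : K) ^ (s + 1) * (r.choose s : K)) 0 m 1]
    rfl
  have h7 : ∑ s ∈ Finset.range m, (-1 : K) ^ (s + 1 + 1) * (r.choose (s + 1) : K) =
      - ∑ s ∈ Finset.range m, (-1 : K) ^ (s + 1) * (r.choose (s + 1) : K) := by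
    rw [← Finset.sum_neg_distrib]
    exact Finset.sum_congr rfl fun s _ => by rw [pow_succ (-1 : K) (s + 1)]; ring
  rw [h6, h7]
  rw [pow_zero, one_mul, Nat.choose_zero_right, Nat.cast_one] at h3
  linear_combination -h3

theorem b3b_binom (e Q : C) (b : K) {r m : ℕ} (h : r ≤ m) :
    e * (1 + b • Q) ^ r = ∑ i ∈ Finset.range (m + 1), ((r.choose i : K) * b ^ i) • (e * Q ^ i) := by
  have h1 : (1 + b • Q) ^ r = ∑ i ∈ Finset.range (r + 1), ((r.choose i : K) * b ^ i) • Q ^ i := by
    rw [add_comm, (Commute.one_right (b • Q)).add_pow]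
    refine Finset.sum_congr rfl fun i _ => ?_
    rw [one_pow, mul_one, smul_pow, smul_mul_assoc, mul_smul, smul_comm, ← Nat.cast_comm,
      ← nsmul_eq_mul, Nat.cast_smul_eq_nsmul]
  have h2 : ∑ i ∈ Finset.range (r + 1), ((r.choose i : K) * b ^ i) • Q ^ i =
      ∑ i ∈ Finset.range (m + 1), ((r.choose i : K) * b ^ i) • Q ^ i := by
    refine Finset.sum_subset (Finset.range_subset_range.2 (by omega)) fun s _ hs => ?_
    rw [Finset.mem_range, not_lt] at hs
    rw [Nat.choose_eq_zero_of_lt (by omega), Nat.cast_zero, zero_mul, zero_smul]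
  rw [h1, h2, Finset.mul_sum]
  exact Finset.sum_congr rfl fun i _ => mul_smul_comm _ _ _

end op

section abs
variable {K : Type u} [Field K] {C : Type v} [Ring C] [Algebra K C] {σ : Type}

theorem first_entry [CharZero K] {m : ℕ} {cc : ℕ → ℕ → K} (hcc : Extr K m cc) {e q : C}
    (he : e * e = e) (hst : Star e) (hn : CNil C m) (hq1 : e * q = q) (hq2 : q * e = q)
    (y : σ → C) (h : FreeAlgebra K σ) :
    (1 - e) * (∑ s ∈ Finset.Icc 1 m, (-1 : K) ^ (s + 1) • ∑ j ∈ Finset.range (m + 1),
      cc s j • sbC K q (2 * m.factorial / s - 1) (j : K) y h) * (1 - e)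
      = ent K e (q ^ (2 * m.factorial)) y h * (1 - e) := by
  rcases Nat.eq_zero_or_pos m with hm | hm
  · subst hm
    have h1 : (1 : C) = 0 := by
      have := hn (fun _ => 1) (fun _ => 0) (fun _ => 0)
      simpa using this
    have : Subsingleton C := subsingleton_of_zero_eq_one h1.symm
    exact Subsingleton.elim _ _
  · have hone : ∀ s ∈ Finset.Icc 1 m, ∑ j ∈ Finset.range (m + 1),
        cc s j • ((1 - e) * sbC K q (2 * m.factorial / s - 1) (j : K) y h * (1 - e)) =
        ∑ r ∈ Finset.range (m + 1), (r.choose s : K) •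
          (b3b_E K e y r h (q ^ (2 * m.factorial)) * (1 - e)) := by
      intro s hs
      rw [Finset.mem_Icc] at hs
      have hdvd : s ∣ m.factorial := Nat.dvd_factorial (by omega) hs.2
      obtain ⟨k, hk⟩ := hdvd
      have hkpos : 0 < k := by
        rcases Nat.eq_zero_or_pos k with h0 | h0
        · rw [h0, mul_zero] at hk
          exact absurd hk (Nat.factorial_ne_zero m)
        · exact h0
      have hdiv : 2 * m.factorial / s = 2 * k := by
        rw [hk, show 2 * (s * k) = s * (2 * k) by ring]
        exact Nat.mul_div_cancel_left _ (by omega)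
      have ha : 1 ≤ 2 * m.factorial / s - 1 := by rw [hdiv]; omega
      have hpow : (q ^ (2 * m.factorial / s - 1 + 1)) ^ s = q ^ (2 * m.factorial) := by
        rw [← pow_mul, hdiv]
        congr 1
        rw [hk, show 2 * k - 1 + 1 = 2 * k by omega]
        ring
      have heq : e * q ^ (2 * m.factorial) = q ^ (2 * m.factorial) := by
        have : 2 * m.factorial = (2 * m.factorial - 1) + 1 := by
          have := Nat.factorial_pos m
          omega
        rw [this, pow_succ', ← mul_assoc, hq1]
      set q' := q ^ (2 * m.factorial / s - 1 + 1) with hq'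
      have h1 : ∀ j ∈ Finset.range (m + 1),
          cc s j • ((1 - e) * sbC K q (2 * m.factorial / s - 1) (j : K) y h * (1 - e)) =
          cc s j • NN K e y h + ∑ r ∈ Finset.range (m + 1), ∑ i ∈ Finset.range (m + 1),
            (cc s j * ((r.choose i : K) * (j : K) ^ i)) •
              (b3b_E K e y r h (e * q' ^ i) * (1 - e)) := by
        intro j _
        rw [(b3b_key hm hn he hst hq1 hq2 y ha (j : K) h).2, smul_add]
        congr 1
        unfold b3b_SB
        rw [Finset.sum_mul, Finset.smul_sum]
        refine Finset.sum_congr rfl fun r hr => ?_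
        rw [Finset.mem_range] at hr
        show cc s j • (b3b_E K e y r h (e * (1 + (j : K) • q') ^ r) * (1 - e)) = _
        rw [b3b_binom e q' (j : K) (show r ≤ m by omega), map_sum, Finset.sum_mul,
          Finset.smul_sum]
        refine Finset.sum_congr rfl fun i _ => ?_
        rw [map_smul, smul_mul_assoc, smul_smul]
      rw [Finset.sum_congr rfl h1, Finset.sum_add_distrib, ← Finset.sum_smul]
      have h2 : ∑ j ∈ Finset.range (m + 1), cc s j = 0 := by
        have h3 := hcc s hs.2 0 (Nat.zero_le m)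
        rw [if_neg (by omega)] at h3
        rw [← h3]
        exact Finset.sum_congr rfl fun j _ => by rw [pow_zero, mul_one]
      rw [h2, zero_smul, zero_add, Finset.sum_comm]
      refine Finset.sum_congr rfl fun r _ => ?_
      rw [Finset.sum_comm]
      have h4 : ∀ i ∈ Finset.range (m + 1), ∑ j ∈ Finset.range (m + 1),
          (cc s j * ((r.choose i : K) * (j : K) ^ i)) •
            (b3b_E K e y r h (e * q' ^ i) * (1 - e)) =
          if s = i then (r.choose i : K) • (b3b_E K e y r h (e * q' ^ i) * (1 - e)) else 0 := by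
        intro i hi
        rw [Finset.mem_range] at hi
        rw [← Finset.sum_smul]
        have h5 : ∑ j ∈ Finset.range (m + 1), cc s j * ((r.choose i : K) * (j : K) ^ i) =
            (r.choose i : K) * ∑ j ∈ Finset.range (m + 1), cc s j * (j : K) ^ i := by
          rw [Finset.mul_sum]
          exact Finset.sum_congr rfl fun j _ => by ring
        rw [h5, hcc s hs.2 i (by omega)]
        split_ifs
        · rw [mul_one]
        · rw [mul_zero, zero_smul]
      rw [Finset.sum_congr rfl h4, Finset.sum_ite_eq, if_pos (Finset.mem_range.2 (by omega)),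
        hpow, heq]
    have hL : (1 - e) * (∑ s ∈ Finset.Icc 1 m, (-1 : K) ^ (s + 1) •
        ∑ j ∈ Finset.range (m + 1), cc s j • sbC K q (2 * m.factorial / s - 1) (j : K) y h) *
        (1 - e) = ∑ s ∈ Finset.Icc 1 m, (-1 : K) ^ (s + 1) • ∑ j ∈ Finset.range (m + 1),
          cc s j • ((1 - e) * sbC K q (2 * m.factorial / s - 1) (j : K) y h * (1 - e)) := by
      simp only [Finset.mul_sum, Finset.sum_mul, mul_smul_comm, smul_mul_assoc, Finset.smul_sum]
    rw [hL, Finset.sum_congr rfl fun s hs => by rw [hone s hs]]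
    simp only [Finset.smul_sum, smul_smul]
    rw [Finset.sum_comm, ← b3b_ent hm hn e he]
    unfold b3b_SB
    rw [Finset.sum_mul]
    refine Finset.sum_congr rfl fun r hr => ?_
    rw [← Finset.sum_smul]
    rw [Finset.mem_range] at hr
    rcases Nat.eq_zero_or_pos r with h0 | h0
    · subst h0
      rw [b3b_E_zero, zero_mul, smul_zero]
    · rw [b3b_alt h0 (by omega), one_smul]

end abs

end Pool.Agent.H.MP_f5ceca_al.G
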