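import Pool.Agent.H.MP_f5ceca_al.G.Defs

/-!
The free algebra with a new letter.
-/

namespace Pool.Agent.H.MP_f5ceca_al.G

universe u v w

variable {K : Type u} [Field K] {n : ℕ}

/-- The value of the letters when the new letter is `i`. -/
noncomputable def yy (i : FA K n) : Option (Fin n) → FA K n
  | none => i
  | some j => xx K j

/-- Inclusion into the free algebra with a new letter. -/
noncomputable def up : FA K n →ₐ[K] FreeAlgebra K (Option (Fin n)) :=
  FreeAlgebra.lift K fun j => FreeAlgebra.ι K (some j)

/-- The far product `a u^N X` with a new letter `X`. -/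
noncomputable def vh1 (N : ℕ) (u : FA K n) (j : Fin n) (a v : FA K n) :
    FreeAlgebra K (Option (Fin n)) :=
  up u * Pi1 K N (FreeAlgebra.ι K (some j)) (up a) (FreeAlgebra.ι K none) * up v

/-- The far product `X u^N a` with a new letter `X`. -/
noncomputable def vh2 (N : ℕ) (u : FA K n) (j : Fin n) (a v : FA K n) :
    FreeAlgebra K (Option (Fin n)) :=
  up u * Pi1 K N (FreeAlgebra.ι K (some j)) (FreeAlgebra.ι K none) (up a) * up v

theorem lift_up {A : Type v} [Ring A] [Algebra K A] (y : Option (Fin n) → A) (h : FA K n) :
    FreeAlgebra.lift K y (up h) = FreeAlgebra.lift K (fun j => y (some j)) h := by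
  have : (FreeAlgebra.lift K y).comp up = FreeAlgebra.lift K (fun j => y (some j)) := by
    apply FreeAlgebra.hom_ext
    funext j
    simp [up]
  exact DFunLike.congr_fun this h

end Pool.Agent.H.MP_f5ceca_al.G
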