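import Pool.Agent.H.MP_f5ceca_al.G.B3
import Pool.Agent.H.MP_f5ceca_al.G.C0

/-!
Job B4: the difference formula.

Write `f = 1 - e`, `ī` for the value of `i`, `B̄` for the value of `B` (evaluation at `y`),
`N a = NN K e y a`, `E_d a = ent K e d y a` (for the element `up A` with the extended
evaluation these are the same as for `A` with `y`). By `ent_mul` (twice)
`E_d (A i B) = E_d A * ī * B̄ + N A * E_d i * B̄ + N A * N i * E_d B`, and for the new letter `X`
`E_d' (A X B) = E_d A * ī * B̄ + N A * (f ī e d) * B̄ + N A * (f ī f) * E_d B`.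
By `ent_one_eq`: `f ī = N i + E_e i`, so `f ī f = N i + E_e i f` and `f ī e d = E_e i e d`
(as `N i = N i f`, `f e = 0`) `= E_e i d`. The difference is therefore
`N A * ((E_d i - E_e i d) * B̄ - E_e i * f * E_d B)`. Multiply by `f` on the right. With
`ent_form` write `E_d i = ∑ f p e d s`, `E_e i = ∑ f p e s` (same `p`, `s`) and
`E_d B = ∑ f p' e d s'`, `E_e B = ∑ f p' e s'`. Then `B̄ f = e B̄ f + f B̄ f`, and
* `(E_d i - E_e i d) e B̄ f = ∑ (f p e d (e s e) B̄ f - f p (e s e) d B̄ f) = 0` by `Star`,
* `(E_d i - E_e i d) f B̄ f = E_d i f B̄ f = E_d i (N B + E_e B f)` (`d f = 0`, `ent_one_eq`),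
* `E_d i f E_e B f = ∑ f p e d (e s f p' e) s' f = ∑ f p (e s f p' e) d s' f = E_e i f E_d B f` by `Star`.
The sum is `N A * E_d i * N B = N A * (E_d i * f) * N B`.
-/

namespace Pool.Agent.H.MP_f5ceca_al.G

universe u v w

section abs
variable {K : Type u} [Field K] {C : Type v} [Ring C] [Algebra K C]

theorem b4_ent_up {e d : C} {n : ℕ} (y : Fin n → C) (x : C) (A : FA K n) :
    ent K e d (fun j : Option (Fin n) => j.elim x y) (up A) = ent K e d y A := by
  unfold ent
  rw [lift_up]
  rfl

theorem b4_NN_up {e : C} {n : ℕ} (y : Fin n → C) (x : C) (A : FA K n) :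
    NN K e (fun j : Option (Fin n) => j.elim x y) (up A) = NN K e y A := by
  unfold NN
  rw [lift_up]
  rfl

theorem b4_star {e d : C} (he : e * e = e) (hst : Star e) (hd1 : e * d = d)
    (hd2 : d * e = d) {n : ℕ} (y : Fin n → C) (i : FA K n) (x b : C) :
    ent K e d y i * x * e * b * (1 - e) = ent K e e y i * x * d * b * (1 - e) := by
  obtain ⟨t, p, s, hp⟩ := ent_form (K := K) e he y i
  rw [hp d, hp e]
  simp only [Finset.sum_mul]
  refine Finset.sum_congr rfl fun j _ => ?_
  have h1 := hst (p j) b d (s j * x)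
  have h2 : (1 - e) * p j * e * d * s j * x * e * b * (1 - e) =
      (1 - e) * p j * e * d * e * (s j * x) * e * b * (1 - e) := by
    have h3 : (1 - e) * p j * e * d * e = (1 - e) * p j * e * d := by
      rw [mul_assoc _ d e, hd2]
    rw [h3]
    simp only [mul_assoc]
  have h4 : (1 - e) * p j * e * e * s j * x * d * b * (1 - e) =
      (1 - e) * p j * e * (s j * x) * e * d * e * b * (1 - e) := by
    have h5 : (1 - e) * p j * e * e = (1 - e) * p j * e := by
      rw [mul_assoc _ e e, he]
    have h6 : (1 - e) * p j * e * (s j * x) * e * d * e = (1 - e) * p j * e * (s j * x) * d := by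
      rw [mul_assoc _ d e, hd2, mul_assoc _ e d, hd1]
    rw [h5, h6]
    simp only [mul_assoc]
  rw [h2, h4, h1]

/-- The difference formula. -/
theorem diff_formula {e d : C} (he : e * e = e) (hst : Star e) (hd1 : e * d = d)
    (hd2 : d * e = d) {n : ℕ} (y : Fin n → C) (i A B : FA K n) :
    ent K e d y (A * i * B) * (1 - e)
      - ent K e d (fun j : Option (Fin n) => j.elim (FreeAlgebra.lift K y i) y)
        (up A * FreeAlgebra.ι K none * up B) * (1 - e)
      = NN K e y A * (ent K e d y i * (1 - e)) * NN K e y B := by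
  rw [ent_mul e d he, ent_mul e d he, ent_mul e d he, ent_mul e d he, NN_mul e he, NN_mul e he,
    b4_ent_up, b4_ent_up, b4_NN_up, ent_ι, NN_ι e he, lift_up, FreeAlgebra.lift_ι_apply]
  show ((ent K e d y A * FreeAlgebra.lift K y i + NN K e y A * ent K e d y i) *
        FreeAlgebra.lift K y B + NN K e y A * NN K e y i * ent K e d y B) * (1 - e) -
      ((ent K e d y A * FreeAlgebra.lift K y i + NN K e y A *
        ((1 - e) * FreeAlgebra.lift K y i * e * d)) * FreeAlgebra.lift K y B +
        NN K e y A * ((1 - e) * FreeAlgebra.lift K y i * (1 - e)) * ent K e d y B) * (1 - e) =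
      NN K e y A * (ent K e d y i * (1 - e)) * NN K e y B
  have q1 := ent_one_eq (K := K) e he y i
  have q2 := ent_one_eq (K := K) e he y B
  have c1 := (NN_corner (K := K) e he y i).2
  have c2 := NN_corner (K := K) e he y B
  have ff : (1 - e) * (1 - e) = 1 - e := by
    rw [mul_sub, mul_one, sub_mul, one_mul, he, sub_self, sub_zero]
  have k1 : (1 - e) * FreeAlgebra.lift K y i * e * d = ent K e e y i * d := by
    have h1 : NN K e y i * e = 0 := by
      rw [← c1, mul_assoc, sub_mul, one_mul, he, sub_self, mul_zero]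
    rw [q1, add_mul, h1, zero_add, mul_assoc, hd1]
  have k2 : (1 - e) * FreeAlgebra.lift K y i * (1 - e) =
      NN K e y i + ent K e e y i * (1 - e) := by
    rw [q1, add_mul, c1]
  have k3 : ent K e d y i * FreeAlgebra.lift K y B * (1 - e) =
      ent K e e y i * d * FreeAlgebra.lift K y B * (1 - e) + (ent K e d y i * NN K e y B +
        ent K e d y i * ent K e e y B * (1 - e)) := by
    have h1 := b4_star (K := K) he hst hd1 hd2 y i 1 (FreeAlgebra.lift K y B)
    rw [mul_one, mul_one] at h1
    have h2 : ent K e d y i * FreeAlgebra.lift K y B * (1 - e) =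
        ent K e d y i * e * FreeAlgebra.lift K y B * (1 - e) +
        ent K e d y i * ((1 - e) * FreeAlgebra.lift K y B) * (1 - e) := by
      noncomm_ring
    rw [h2, h1, q2, mul_add, add_mul, mul_assoc _ (NN K e y B) (1 - e), c2.2]
  have k4 : ent K e d y i * ent K e e y B * (1 - e) =
      ent K e e y i * (1 - e) * ent K e d y B * (1 - e) := by
    obtain ⟨t, p, s, hp⟩ := ent_form (K := K) e he y B
    rw [hp d, hp e]
    simp only [Finset.sum_mul, Finset.mul_sum]
    refine Finset.sum_congr rfl fun j _ => ?_
    have h1 := b4_star (K := K) he hst hd1 hd2 y i ((1 - e) * p j) (e * s j)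
    have h2 : ent K e d y i * ((1 - e) * p j * e * e * s j) * (1 - e) =
        ent K e d y i * ((1 - e) * p j) * e * (e * s j) * (1 - e) := by
      simp only [mul_assoc]
    have h3 : ent K e e y i * (1 - e) * ((1 - e) * p j * e * d * s j) * (1 - e) =
        ent K e e y i * ((1 - e) * p j) * d * (e * s j) * (1 - e) := by
      have h4 : (1 - e) * ((1 - e) * p j * e * d * s j) = (1 - e) * p j * d * s j := by
        have h5 : (1 - e) * ((1 - e) * p j * e * d * s j) =
            ((1 - e) * (1 - e)) * p j * (e * d) * s j := by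
          simp only [mul_assoc]
        rw [h5, ff, hd1]
      have h6 : d * (e * s j) = d * s j := by rw [← mul_assoc, hd2]
      rw [mul_assoc _ (1 - e) _, h4, mul_assoc _ d (e * s j), h6]
      simp only [mul_assoc]
    rw [h2, h3, h1]
  rw [k1, k2]
  have k5 : ((ent K e d y A * FreeAlgebra.lift K y i + NN K e y A * ent K e d y i) *
        FreeAlgebra.lift K y B + NN K e y A * NN K e y i * ent K e d y B) * (1 - e) -
      ((ent K e d y A * FreeAlgebra.lift K y i + NN K e y A * (ent K e e y i * d)) *
        FreeAlgebra.lift K y B + NN K e y A * (NN K e y i + ent K e e y i * (1 - e)) *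
        ent K e d y B) * (1 - e) =
      NN K e y A * (ent K e d y i * FreeAlgebra.lift K y B * (1 - e)) -
        NN K e y A * (ent K e e y i * d * FreeAlgebra.lift K y B * (1 - e)) -
        NN K e y A * (ent K e e y i * (1 - e) * ent K e d y B * (1 - e)) := by
    generalize FreeAlgebra.lift K y B = b
    generalize FreeAlgebra.lift K y i = i'
    generalize (1 - e) = f
    noncomm_ring
  rw [k5, k3, k4, mul_add, mul_add, mul_assoc (NN K e y A), mul_assoc (ent K e d y i), c2.1]
  abel

end abs

end Pool.Agent.H.MP_f5ceca_al.G
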