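import Pool.Agent.H.MP_f5ceca_al.G.B2

/-!
Job B5: the compressed far product vanishes; the relation `Erel` holds.

`comp0` (first statement). Let `z2 = (1-e) z (1-e)`, `a2 = (1-e) a (1-e)`,
`Y = (1-e) y1 e y2 (1-e)`, `s : Spec z2 d` (`spec_exists`), and apply `red` to
`P = em a2 * qq N z2 * em Y`. Let `L` be a `Loc`, `e2 = s.far a b`; by `Spec.far_mem`
`e2 = z2 * x = x * z2`, so `e * e2 = 0 = e2 * e` and `e2 ∈ J`; so `ε = e + e2` is an idempotent of
`J`, `(1 - e) * (1 - e2) = 1 - ε = (1 - e2) * (1 - e)`, and `Star ε` in `B`, so `Star` for the image of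
`ε` in `C` by `Loc.star`. Write the same letters for the images in `C`, and `q = L.th (qq N z2)`;
`e2 * q = q = q * e2` (`Loc.qq_far`). The element in question is
`(1 - e2) * a2 * q * Y * (1 - e2) = (1 - ε) a (1 - e) e2 q e2 (1 - e) y1 e y2 (1 - ε)
 = (1 - ε) (a q) (e2 y1 e) y2 (1 - ε)`. By `Star ε` with `(a, c, d, b) := (a q, e2 y1 e, e, y2)`:
`(1-ε) a q ε (e2 y1 e) ε e ε y2 (1-ε) = (1-ε) a q ε e ε (e2 y1 e) ε y2 (1-ε)`; the left side is the
element in question and the right side is zero as `e * e2 = 0`.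
Second statement in the same way with `P = em Y * qq N z2 * em a2`: the element is
`(1 - ε) y1 e (e y2 e2) q a (1 - ε)`, and `(c, d) := (e, e y2 e2)` in `Star`, `e2 * e = 0`.

`Erel_zero`. Let `s : Spec z d`, apply `red`; `e = s.far a b ∈ J` (`Spec.far_mem`, `z ∈ J`) is
idempotent, so `Star` for its image; `q = e q = q e` (image of `qq M z`). Between
`(1 - e) a` and `b (1 - e)` the elements `q`, `e x e`, `q`, `e y e`, `q` of `e C e` may be permuted
(apply `Star` to neighbours; the other factors are absorbed into `a` and `b`). So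
`(1-e) (a q x q y q b) (1-e) = (1-e) (a q y q x q b) (1-e)`.
-/

namespace Pool.Agent.H.MP_f5ceca_al.G

universe u v w

/-- the computation for `comp0` -/
theorem b5_alg1 {C : Type v} [Ring C] {e2 p q : C} (hE : p * p = p) (hEF : p * e2 = 0)
    (hFE : e2 * p = 0) (hq1 : e2 * q = q) (hq2 : q * e2 = q) (hst : Star (p + e2))
    (a y1 y2 : C) :
    (1 - e2) * (((1 - p) * a * (1 - p)) * q * ((1 - p) * y1 * p * y2 * (1 - p))) * (1 - e2) = 0 ∧
    (1 - e2) * (((1 - p) * y1 * p * y2 * (1 - p)) * q * ((1 - p) * a * (1 - p))) * (1 - e2) = 0 := by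
  have h1 : (1 - e2) * (1 - p) = 1 - (p + e2) := by
    rw [mul_sub (1 - e2) 1 p, sub_mul 1 e2 p, hFE]
    noncomm_ring
  have h2 : (1 - p) * (1 - e2) = 1 - (p + e2) := by
    rw [mul_sub (1 - p) 1 e2, sub_mul 1 p e2, hEF]
    noncomm_ring
  have hpq : p * q = 0 := by rw [← hq1, ← mul_assoc, hEF, zero_mul]
  have hqp : q * p = 0 := by rw [← hq2, mul_assoc, hFE, mul_zero]
  have h3 : (1 - p) * q = q := by rw [sub_mul, hpq, one_mul, sub_zero]
  have h4 : q * (1 - p) = q := by rw [mul_sub, hqp, mul_one, sub_zero]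
  have h5 : q * (p + e2) = q := by rw [mul_add, hqp, hq2, zero_add]
  have h6 : (p + e2) * q = q := by rw [add_mul, hpq, hq1, zero_add]
  have h7 : p * (p + e2) = p := by rw [mul_add, hE, hEF, add_zero]
  have h8 : (p + e2) * p = p := by rw [add_mul, hE, hFE, add_zero]
  generalize hε : p + e2 = ε at *
  refine ⟨?_, ?_⟩
  · have st := hst (a * q) y2 (e2 * y1 * p) p
    calc (1 - e2) * (((1 - p) * a * (1 - p)) * q * ((1 - p) * y1 * p * y2 * (1 - p))) * (1 - e2)
        = ((1 - e2) * (1 - p)) * a * (((1 - p) * q) * (1 - p)) * y1 * p * y2 *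
          ((1 - p) * (1 - e2)) := by simp only [mul_assoc]
      _ = (1 - ε) * a * q * y1 * p * y2 * (1 - ε) := by rw [h1, h2, h3, h4]
      _ = (1 - ε) * a * ((q * ε) * e2) * y1 * ((p * ε) * (p * ε)) * y2 * (1 - ε) := by
          rw [h5, h7, hE, hq2]
      _ = (1 - ε) * (a * q) * ε * (e2 * y1 * p) * ε * p * ε * y2 * (1 - ε) := by
          simp only [mul_assoc]
      _ = (1 - ε) * (a * q) * ε * p * ε * (e2 * y1 * p) * ε * y2 * (1 - ε) := st
      _ = (1 - ε) * a * ((q * ε) * p) * ε * (e2 * y1 * p) * ε * y2 * (1 - ε) := by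
          simp only [mul_assoc]
      _ = 0 := by rw [h5, hqp]; simp
  · have st := hst y1 (q * a) p (p * y2 * e2)
    calc (1 - e2) * (((1 - p) * y1 * p * y2 * (1 - p)) * q * ((1 - p) * a * (1 - p))) * (1 - e2)
        = ((1 - e2) * (1 - p)) * y1 * p * y2 * (((1 - p) * q) * (1 - p)) * a *
          ((1 - p) * (1 - e2)) := by simp only [mul_assoc]
      _ = (1 - ε) * y1 * p * y2 * q * a * (1 - ε) := by rw [h1, h2, h3, h4]
      _ = (1 - ε) * y1 * ((ε * p) * (ε * p)) * y2 * (e2 * (ε * q)) * a * (1 - ε) := by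
          rw [h6, h8, hE, hq1]
      _ = (1 - ε) * y1 * ε * p * ε * (p * y2 * e2) * ε * (q * a) * (1 - ε) := by
          simp only [mul_assoc]
      _ = (1 - ε) * y1 * ε * (p * y2 * e2) * ε * p * ε * (q * a) * (1 - ε) := st
      _ = (1 - ε) * y1 * ε * (p * y2 * e2) * ε * (p * (ε * q)) * a * (1 - ε) := by
          simp only [mul_assoc]
      _ = 0 := by rw [h6, hpq]; simp

/-- the computation for `Erel_zero` -/
theorem b5_alg2 {C : Type v} [Ring C] {e q : C} (hq2 : q * e = q) (hst : Star e)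
    (a x y b : C) :
    (1 - e) * (a * q * x * q * y * q * b - a * q * y * q * x * q * b) * (1 - e) = 0 := by
  have st := hst (a * q) b (x * q) (y * q)
  have h1 : (1 - e) * (a * q) * e * (x * q) * e * (y * q) * e * b * (1 - e) =
      (1 - e) * (a * q * x * q * y * q * b) * (1 - e) := by
    calc (1 - e) * (a * q) * e * (x * q) * e * (y * q) * e * b * (1 - e)
        = (1 - e) * a * (q * e) * x * (q * e) * y * (q * e) * b * (1 - e) := by
          simp only [mul_assoc]
      _ = _ := by rw [hq2]; simp only [mul_assoc]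
  have h2 : (1 - e) * (a * q) * e * (y * q) * e * (x * q) * e * b * (1 - e) =
      (1 - e) * (a * q * y * q * x * q * b) * (1 - e) := by
    calc (1 - e) * (a * q) * e * (y * q) * e * (x * q) * e * b * (1 - e)
        = (1 - e) * a * (q * e) * y * (q * e) * x * (q * e) * b * (1 - e) := by
          simp only [mul_assoc]
      _ = _ := by rw [hq2]; simp only [mul_assoc]
  rw [mul_sub (1 - e) (a * q * x * q * y * q * b) (a * q * y * q * x * q * b),
    sub_mul _ _ (1 - e), ← h1, ← h2, st, sub_self]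

section comp
variable {K : Type u} [Field K] {E : Type u} [Field E] [IsAlgClosed E] {B : Type v} [Ring B]
  [Algebra E B] [FiniteDimensional E B] [Algebra K B]

/-- the assumptions on the algebra: `J` is an ideal, `Star` holds for the idempotents in `J` -/
structure Alg (E : Type u) [Field E] (B : Type v) [Ring B] [Algebra E B] (J : Submodule E B) :
    Prop where
  tsi : ∀ a u b : B, u ∈ J → a * u * b ∈ J
  star : ∀ e ∈ J, e * e = e → Star e

theorem comp0 {J : Submodule E B} (hJ : Alg E B J) {e : B} (heJ : e ∈ J) (he : e * e = e)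
    {z : B} (hz : z ∈ J) {N : ℕ} (hN : 2 * Module.finrank E B ≤ N) (a y1 y2 : B) :
    Pi1 K N ((1 - e) * z * (1 - e)) ((1 - e) * a * (1 - e))
      ((1 - e) * y1 * e * y2 * (1 - e)) = 0 ∧
    Pi1 K N ((1 - e) * z * (1 - e)) ((1 - e) * y1 * e * y2 * (1 - e))
      ((1 - e) * a * (1 - e)) = 0 := by
  set z2 := (1 - e) * z * (1 - e) with hz2
  obtain ⟨s⟩ := spec_exists (E := E) z2
  have he1 : e * (1 - e) = 0 := by rw [mul_sub, mul_one, he, sub_self]
  have he2 : (1 - e) * e = 0 := by rw [sub_mul, one_mul, he, sub_self]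
  have hez : e * z2 = 0 := by
    rw [hz2, ← mul_assoc, ← mul_assoc, he1, zero_mul, zero_mul]
  have hze : z2 * e = 0 := by
    rw [hz2, mul_assoc, he2, mul_zero]
  have hz2J : z2 ∈ J := hJ.tsi _ _ _ hz
  have key : ∀ (a' b' : E) (C : Type v) [Ring C] (L : Loc E B (Module.finrank E B) a' b' C),
      L.th (em (1 - s.far a' b')) * L.th (em ((1 - e) * a * (1 - e)) * qq N z2 *
        em ((1 - e) * y1 * e * y2 * (1 - e))) * L.th (em (1 - s.far a' b')) = 0 ∧
      L.th (em (1 - s.far a' b')) * L.th (em ((1 - e) * y1 * e * y2 * (1 - e)) * qq N z2 *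
        em ((1 - e) * a * (1 - e))) * L.th (em (1 - s.far a' b')) = 0 := by
    intro a' b' C _ L
    obtain ⟨w, hw, hfar⟩ := s.far_mem a' b'
    have hcomm : z2 * w = w * z2 := adjoin_comm (Algebra.self_mem_adjoin_singleton E z2) hw
    have h1 : e * s.far a' b' = 0 := by rw [hfar, ← mul_assoc, hez, zero_mul]
    have h2 : s.far a' b' * e = 0 := by rw [hfar, hcomm, mul_assoc, hze, mul_zero]
    have hid := s.far_idem a' b'
    have hfJ : s.far a' b' ∈ J := by
      have := hJ.tsi 1 z2 w hz2J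
      rwa [one_mul, ← hfar] at this
    have hst : Star (e + s.far a' b') := by
      refine hJ.star _ (J.add_mem heJ hfJ) ?_
      rw [mul_add, add_mul, add_mul, he, h1, h2, hid, add_zero, zero_add]
    have hst' := L.star hst
    obtain ⟨hq1, hq2⟩ := L.qq_far s hN
    have hst2 : Star (L.th (em e) + L.th (em (s.far a' b'))) := by
      rw [← map_add, ← map_add]
      exact hst'
    have hE : L.th (em e) * L.th (em e) = L.th (em e) := by rw [← map_mul, ← map_mul, he]
    have hEF : L.th (em e) * L.th (em (s.far a' b')) = 0 := by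
      rw [← map_mul, ← map_mul, h1, map_zero, map_zero]
    have hFE : L.th (em (s.far a' b')) * L.th (em e) = 0 := by
      rw [← map_mul, ← map_mul, h2, map_zero, map_zero]
    have hfin := b5_alg1 hE hEF hFE hq1 hq2 hst2 (L.th (em a)) (L.th (em y1)) (L.th (em y2))
    simp only [map_mul, map_sub, map_one]
    exact hfin
  exact ⟨red K s _ fun a' b' C _ L => (key a' b' C L).1, red K s _ fun a' b' C _ L =>
    (key a' b' C L).2⟩

theorem Erel_zero {J : Submodule E B} (hJ : Alg E B J) {z : B} (hz : z ∈ J) {M : ℕ}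
    (hM : 2 * Module.finrank E B ≤ M) (a x y b : B) : Erel K M z a x y b = 0 := by
  obtain ⟨s⟩ := spec_exists (E := E) z
  refine red K s _ fun a' b' C _ L => ?_
  obtain ⟨w, hw, hfar⟩ := s.far_mem a' b'
  have hfJ : s.far a' b' ∈ J := by
    have := hJ.tsi 1 z w hz
    rwa [one_mul, ← hfar] at this
  have hst := L.star (hJ.star _ hfJ (s.far_idem a' b'))
  obtain ⟨hq1, hq2⟩ := L.qq_far s hM
  have hfin := b5_alg2 hq2 hst (L.th (em a)) (L.th (em x)) (L.th (em y)) (L.th (em b))
  simp only [map_mul, map_sub, map_one]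
  exact hfin

end comp

end Pool.Agent.H.MP_f5ceca_al.G
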