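import Pool.Agent.H.MP_f5ceca_al.G.A0
import Pool.Agent.H.MP_f5ceca_al.G.A1

/-!
Job D1: basic facts on `Pi1`, `tspan`, `Isharp`.
-/

namespace Pool.Agent.H.MP_f5ceca_al.G

universe u v w

section
variable {K : Type u} [Field K] {A : Type v} [Ring A] [Algebra K A]

theorem tspan_tsi (G : Set A) : IsTSI (tspan K G) := by
  intro a u b hu
  unfold tspan at hu ⊢
  induction hu using Submodule.span_induction with
  | zero => simp
  | add x y _ _ h1 h2 =>
    rw [mul_add, add_mul]
    exact add_mem h1 h2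
  | smul c x _ h1 =>
    rw [mul_smul_comm, smul_mul_assoc]
    exact Submodule.smul_mem _ _ h1
  | mem x hx =>
    obtain ⟨a', b', g, hg, rfl⟩ := hx
    refine Submodule.subset_span ⟨a * a', b' * b, g, hg, ?_⟩
    simp only [mul_assoc]

theorem subset_tspan (G : Set A) : G ⊆ tspan K G := by
  intro g hg
  refine Submodule.subset_span ⟨1, 1, g, hg, ?_⟩
  rw [one_mul, mul_one]

theorem tspan_le {G : Set A} {U : Submodule K A} (hU : IsTSI U) (hG : G ⊆ U) :
    tspan K G ≤ U := by
  refine Submodule.span_le.2 ?_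
  rintro _ ⟨a, b, g, hg, rfl⟩
  exact hU a g b (hG hg)

theorem isTSI_sup {U V : Submodule K A} (hU : IsTSI U) (hV : IsTSI V) : IsTSI (U ⊔ V) := by
  intro a x b hx
  obtain ⟨y, hy, z, hz, rfl⟩ := Submodule.mem_sup.1 hx
  rw [mul_add, add_mul]
  exact Submodule.add_mem_sup (hU a y b hy) (hV a z b hz)

theorem isTSI_inf {U V : Submodule K A} (hU : IsTSI U) (hV : IsTSI V) : IsTSI (U ⊓ V) :=
  fun a x b hx => ⟨hU a x b hx.1, hV a x b hx.2⟩

theorem tspan_union (G G' : Set A) : tspan K (G ∪ G') = tspan K G ⊔ tspan K G' := by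
  apply le_antisymm
  · refine tspan_le (isTSI_sup (tspan_tsi G) (tspan_tsi G')) ?_
    rintro x (hx | hx)
    · exact Submodule.mem_sup_left (subset_tspan G hx)
    · exact Submodule.mem_sup_right (subset_tspan G' hx)
  · refine sup_le ?_ ?_
    · exact tspan_le (tspan_tsi _) fun x hx => subset_tspan _ (Or.inl hx)
    · exact tspan_le (tspan_tsi _) fun x hx => subset_tspan _ (Or.inr hx)

theorem d1_evz_lv_pow (z : A) (p : ℕ) (P : P2 A) :
    evz K z (lv A ^ p * P) = z ^ p * evz K z P := by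
  induction p with
  | zero => simp
  | succ p ih => rw [pow_succ', mul_assoc, evz_lv_mul, ih, pow_succ', mul_assoc]

theorem d1_evz_rv_pow (z : A) (s : ℕ) (P : P2 A) :
    evz K z (rv A ^ s * P) = evz K z P * z ^ s := by
  induction s with
  | zero => simp
  | succ s ih => rw [pow_succ', mul_assoc, evz_rv_mul, ih, pow_succ, mul_assoc]

theorem d1_term (z a b i : A) (p s : ℕ) :
    evz K z (em a * (lv A ^ p * rv A ^ s * em b) * em i) = z ^ p * (a * b * i) * z ^ s := by
  have h1 : em a * lv A ^ p = lv A ^ p * em a := by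
    have : Commute (em a) (lv A) := (lv_comm (em a)).symm
    exact this.pow_right p
  have h2 : em a * rv A ^ s = rv A ^ s * em a := by
    have : Commute (em a) (rv A) := (rv_comm (em a)).symm
    exact this.pow_right s
  have h3 : em a * (lv A ^ p * rv A ^ s * em b) * em i =
      lv A ^ p * (rv A ^ s * em (a * b * i)) := by
    rw [map_mul, map_mul]
    calc em a * (lv A ^ p * rv A ^ s * em b) * em i
        = (em a * lv A ^ p) * rv A ^ s * em b * em i := by simp only [mul_assoc]
      _ = lv A ^ p * (em a * rv A ^ s) * em b * em i := by rw [h1]; simp only [mul_assoc]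
      _ = lv A ^ p * (rv A ^ s * em a) * em b * em i := by rw [h2]
      _ = _ := by simp only [mul_assoc]
  rw [h3, d1_evz_lv_pow, d1_evz_rv_pow, evz_em, ← mul_assoc (z ^ p)]

theorem d1_sub_pow {B : Type v} [Ring B] [Algebra K B] (x y : B) (h : Commute x y) (N : ℕ) :
    (x - y) ^ N = ∑ p ∈ Finset.range (N + 1),
      ((-1 : K) ^ p * (N.choose p : K)) • (y ^ p * x ^ (N - p)) := by
  rw [sub_eq_add_neg, add_comm, h.symm.neg_left.add_pow]
  refine Finset.sum_congr rfl fun p _ => ?_
  rw [mul_smul, Nat.cast_smul_eq_nsmul K, nsmul_eq_mul, neg_pow y p]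
  rcases neg_one_pow_eq_or K p with h1 | h1
  · have h2 : (-1 : B) ^ p = 1 := by
      have := congrArg (algebraMap K B) h1
      simpa using this
    rw [h1, h2, one_smul, one_mul, (Nat.cast_commute (N.choose p) (y ^ p * x ^ (N - p))).eq]
  · have h2 : (-1 : B) ^ p = -1 := by
      have := congrArg (algebraMap K B) h1
      simpa using this
    rw [h1, h2, neg_one_smul, (Nat.cast_commute (N.choose p) (y ^ p * x ^ (N - p))).eq]
    simp only [neg_mul, one_mul]

theorem d1_abs {B : Type v} [Ring B] [Algebra K B] (x l r : B) (cl : Commute x l)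
    (cr : Commute x r) (clr : Commute l r) (N : ℕ) : (x * (x - l) * (x - r)) ^ N =
    ∑ p ∈ Finset.range (N + 1), ∑ s ∈ Finset.range (N + 1),
      ((-1 : K) ^ (p + s) * (N.choose p : K) * (N.choose s : K)) •
        (l ^ p * r ^ s * x ^ (3 * N - p - s)) := by
  have c1 : Commute (x - l) (x - r) :=
    ((Commute.refl _).sub_right cr).sub_left (cl.symm.sub_right clr)
  have c2 : Commute x (x - l) := (Commute.refl _).sub_right cl
  have c3 : Commute x (x - r) := (Commute.refl _).sub_right cr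
  have c4 : Commute (x * (x - l)) (x - r) := c3.mul_left c1
  rw [c4.mul_pow, c2.mul_pow, d1_sub_pow (K := K) _ _ cl, d1_sub_pow (K := K) _ _ cr,
    Finset.mul_sum (Finset.range (N + 1)) _ (x ^ N), Finset.sum_mul]
  refine Finset.sum_congr rfl fun p hp => ?_
  rw [Finset.mul_sum]
  refine Finset.sum_congr rfl fun s hs => ?_
  have hp' : p ≤ N := Nat.lt_succ_iff.1 (Finset.mem_range.1 hp)
  have hs' : s ≤ N := Nat.lt_succ_iff.1 (Finset.mem_range.1 hs)
  have e1 : 3 * N - p - s = N + (N - p) + (N - s) := by omega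
  rw [e1, mul_smul_comm, mul_smul_comm, smul_mul_assoc, smul_smul, pow_add x, pow_add x]
  congr 1
  · ring
  · have d1 : x ^ N * l ^ p = l ^ p * x ^ N := cl.pow_pow N p
    have d2 : x ^ N * r ^ s = r ^ s * x ^ N := cr.pow_pow N s
    have d3 : x ^ (N - p) * r ^ s = r ^ s * x ^ (N - p) := cr.pow_pow (N - p) s
    calc x ^ N * (l ^ p * x ^ (N - p)) * (r ^ s * x ^ (N - s))
        = (x ^ N * l ^ p) * (x ^ (N - p) * r ^ s) * x ^ (N - s) := by
          simp only [mul_assoc]
      _ = l ^ p * (x ^ N * r ^ s) * x ^ (N - p) * x ^ (N - s) := by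
          rw [d1, d3]
          simp only [mul_assoc]
      _ = _ := by
          rw [d2]
          simp only [mul_assoc]

theorem d1_qq (N : ℕ) (z : A) : qq N z =
    ∑ p ∈ Finset.range (N + 1), ∑ s ∈ Finset.range (N + 1),
      ((-1 : K) ^ (p + s) * (N.choose p : K) * (N.choose s : K)) •
        (lv A ^ p * rv A ^ s * em z ^ (3 * N - p - s)) := by
  have cl : Commute (em z) (lv A) := (lv_comm (em z)).symm
  have cr : Commute (em z) (rv A) := (rv_comm (em z)).symm
  have clr : Commute (lv A) (rv A) := lv_comm (rv A)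
  exact d1_abs (em z) (lv A) (rv A) cl cr clr N

/-- `qq N z` as a sum: `(z (z - l) (z - r)) ^ N = ∑ coefficients`; the coefficient formula gives
`Pi1 K N z a i = ∑_{p, s ≤ N} c_{p,s} z ^ p a z ^ (3 N - p - s) i z ^ s` with `c_{0,0} = 1`. -/
theorem Pi1_eq (N : ℕ) (z a i : A) : Pi1 K N z a i =
    ∑ p ∈ Finset.range (N + 1), ∑ s ∈ Finset.range (N + 1),
      ((-1 : K) ^ (p + s) * (N.choose p : K) * (N.choose s : K)) •
        (z ^ p * a * z ^ (3 * N - p - s) * i * z ^ s) := by
  unfold Pi1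
  rw [d1_qq (K := K), Finset.mul_sum, Finset.sum_mul, map_sum]
  refine Finset.sum_congr rfl fun p _ => ?_
  rw [Finset.mul_sum, Finset.sum_mul, map_sum]
  refine Finset.sum_congr rfl fun s _ => ?_
  rw [mul_smul_comm, smul_mul_assoc, map_smul, ← map_pow, d1_term]
  simp only [mul_assoc]

end

variable {K : Type u} [Field K] {n : ℕ}

theorem Pi1_mem_right {N : ℕ} {I : Submodule K (FA K n)} (hI : IsTSI I) {z a i : FA K n}
    (hi : i ∈ I) : Pi1 K N z a i ∈ I := by
  rw [Pi1_eq]
  refine Submodule.sum_mem _ fun p _ => Submodule.sum_mem _ fun s _ =>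
    Submodule.smul_mem _ _ ?_
  exact hI _ _ _ hi

theorem Pi1_mem_left {N : ℕ} {I : Submodule K (FA K n)} (hI : IsTSI I) {z a i : FA K n}
    (hi : i ∈ I) : Pi1 K N z i a ∈ I := by
  rw [Pi1_eq]
  refine Submodule.sum_mem _ fun p _ => Submodule.sum_mem _ fun s _ =>
    Submodule.smul_mem _ _ ?_
  have h1 := hI (z ^ p) _ (z ^ (3 * N - p - s) * a * z ^ s) hi
  simpa only [mul_assoc] using h1

theorem isharp_le {N : ℕ} {T I : Submodule K (FA K n)} (hI : IsTSI I) (hTI : T ≤ I) :
    Isharp N T I ≤ I := by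
  unfold Isharp
  refine sup_le hTI (tspan_le hI ?_)
  rintro x (⟨j, a, i, hi, rfl⟩ | ⟨j, a, i, hi, rfl⟩)
  · exact Pi1_mem_right hI hi
  · exact Pi1_mem_left hI hi

theorem isharp_tsi {N : ℕ} {T I : Submodule K (FA K n)} (hT : IsTSI T) :
    IsTSI (Isharp N T I) :=
  isTSI_sup hT (tspan_tsi _)

theorem T_le_isharp {N : ℕ} {T I : Submodule K (FA K n)} : T ≤ Isharp N T I := le_sup_left

theorem Pi1_mem_isharp {N : ℕ} {T I : Submodule K (FA K n)} {j : Fin n} {a i : FA K n}
    (hi : i ∈ I) :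
    Pi1 K N (xx K j) a i ∈ Isharp N T I ∧ Pi1 K N (xx K j) i a ∈ Isharp N T I :=
  ⟨Submodule.mem_sup_right (subset_tspan _ (Or.inl ⟨j, a, i, hi, rfl⟩)),
    Submodule.mem_sup_right (subset_tspan _ (Or.inr ⟨j, a, i, hi, rfl⟩))⟩

end Pool.Agent.H.MP_f5ceca_al.G
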