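import Pool.Agent.H.MP_f5ceca_al.G.B0
import Pool.Agent.H.MP_f5ceca_al.G.B3b
import Pool.Agent.H.MP_f5ceca_al.G.B4
import Pool.Agent.H.MP_f5ceca_al.G.B5
import Pool.Agent.H.MP_f5ceca_al.G.D1

/-!
Job B6: the identities for `theta` in the algebra.

`theta K m M cc z y h = evz K z (TH h)` with
`TH h = ∑ s, (-1)^(s+1) • ∑ j, cc s j • sbst K M z (gg M z (2 m!/s - 1) 1 0) j y h`. Apply `red` (for
`s : Spec z d`) to `P = TH V - TH V^` (`V = u * Pi1 K N (xx K j) a i * v`, `V^ = vh1 N u j a v` with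
the extended letters). Let `L` be a `Loc`, `e = s.far a b ∈ J` (`Spec.far_mem`), idempotent,
`q = L.th (qq M z)`, `e q = q = q e` (`Loc.qq_far`), `Star` for the image of `e` (`Loc.star`),
`CNil C m` (`Loc.cnil`). Make `C` a `K`-algebra by `Loc.alg`. The map `thK : B →ₐ[K] C`,
`x ↦ L.th (em x)` is an algebra homomorphism, and `L.th (sbst K M z (gg M z a 1 0) b y h)
= sbC K q a b (fun j => thK (y j)) h` (both sides are ring homomorphisms in `h`). So by
`first_entry` `f * L.th (TH h) * f = ent K e (q ^ (2 m!)) ȳ h * f`, `f = 1 - e`, `ȳ = thK ∘ y`. By `Pi1_eq`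
(in the free algebra and in the free algebra with the new letter) `V` is a combination of the
elements `A * i * B` with `A = u * z' ^ p * a * z' ^ (3 N - p - s)`, `B = z' ^ s * v`,
`z' = xx K j`, and `V^` is the same combination of the `up A * X * up B`. With `diff_formula`
(`d = q ^ (2 m!)`) the difference is the combination of the
`NN A * (ent i * f) * NN B`, which is `NN u * Pi1 K N (NN z') (NN a) (ent i * f) * NN v`
(`NN_mul`, `NN_corner`). By `ent_form` `ent i * f` is a sum of elements `f * c1 * e * c2 * f`,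
`c1, c2 ∈ C`, and by `L.sp` we may take `c1 = thK y1`, `c2 = thK y2` (times powers of the central
elements `L.th lv`, `L.th rv`). `NN K e ȳ a = thK (NN K e_B y a)` and `NN K e ȳ z' = thK (f y_j f)`,
so the product is the image of `Pi1` in `B` (`Pi1_map`), which is zero by `comp0`.
`theta_eq2` in the same way with the second part of `comp0`.
-/

namespace Pool.Agent.H.MP_f5ceca_al.G

universe u v w

theorem Loc.comm_em {E : Type u} [Field E] {B : Type v} [Ring B] [Algebra E B] {d : ℕ} {a b : E}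
    {C : Type v} [Ring C] (L : Loc E B d a b C) {c : B} (hc : ∀ x, c * x = x * c) (x : C) :
    L.th (em c) * x = x * L.th (em c) := by
  induction L.sp x using AddSubmonoid.closure_induction with
  | mem x hx =>
    obtain ⟨y, p, s, rfl⟩ := hx
    have h1 : L.th (em c) * L.th (em y) = L.th (em y) * L.th (em c) := by
      rw [← map_mul, ← map_mul, ← map_mul, ← map_mul, hc]
    have h2 : ∀ p : ℕ, L.th (em c) * L.th (lv B) ^ p = L.th (lv B) ^ p * L.th (em c) := fun p =>
      ((show Commute (L.th (em c)) (L.th (lv B)) from (L.lc _).symm).pow_right p).eq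
    have h3 : ∀ p : ℕ, L.th (em c) * L.th (rv B) ^ p = L.th (rv B) ^ p * L.th (em c) := fun p =>
      ((show Commute (L.th (em c)) (L.th (rv B)) from (L.rc _).symm).pow_right p).eq
    rw [← mul_assoc, ← mul_assoc, h1, mul_assoc (L.th (em y)), h2, mul_assoc, mul_assoc, h3]
    simp only [mul_assoc]
  | zero => simp
  | add x y _ _ h1 h2 => rw [mul_add, add_mul, h1, h2]

/-- the structure of an algebra on the target of a `Loc` -/
@[reducible]
noncomputable def Loc.alg (K : Type u) [Field K] {E : Type u} [Field E] {B : Type v} [Ring B]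
    [Algebra E B] [Algebra K B] {d : ℕ} {a b : E}
    {C : Type v} [Ring C] (L : Loc E B d a b C) : Algebra K C :=
  RingHom.toAlgebra' ((L.th.comp em).comp (algebraMap K B)) fun c x => by
    simpa using L.comm_em (c := algebraMap K B c) (fun y => Algebra.commutes c y) x

section aux
variable {K : Type u} [Field K] {E : Type u} [Field E] {B : Type v} [Ring B]
  [Algebra E B] [Algebra K B] {d : ℕ} {a b : E} {C : Type v} [Ring C] [Algebra K C]

/-- the homomorphism of a `Loc` as a homomorphism of algebras -/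
noncomputable def b6_thK (L : Loc E B d a b C)
    (hL : ∀ c : K, algebraMap K C c = L.th (em (algebraMap K B c))) : P2 B →ₐ[K] C :=
  { L.th with
    commutes' := fun c => by
      rw [hL]
      rfl }

/-- the homomorphism of a `Loc` on the constants -/
noncomputable def b6_emK (L : Loc E B d a b C)
    (hL : ∀ c : K, algebraMap K C c = L.th (em (algebraMap K B c))) : B →ₐ[K] C :=
  { L.th.comp em with
    commutes' := fun c => by
      rw [hL]
      rfl }

theorem b6_smul (L : Loc E B d a b C)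
    (hL : ∀ c : K, algebraMap K C c = L.th (em (algebraMap K B c))) (c : K) (P : P2 B) :
    L.th (c • P) = c • L.th P :=
  map_smul (b6_thK L hL) c P

theorem b6_sbst (L : Loc E B d a b C)
    (hL : ∀ c : K, algebraMap K C c = L.th (em (algebraMap K B c))) (M : ℕ) (z : B) (a0 : ℕ)
    (b0 : K) {σ : Type} (y : σ → B) (h : FreeAlgebra K σ) :
    L.th (sbst K M z (gg M z a0 1 0) b0 y h) =
      sbC K (L.th (qq M z)) a0 b0 (fun j => L.th (em (y j))) h := by
  have h1 : (b6_thK L hL).comp (sbst K M z (gg M z a0 1 0) b0 y) =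
      sbC K (L.th (qq M z)) a0 b0 (fun j => L.th (em (y j))) := by
    apply FreeAlgebra.hom_ext
    funext j
    have h2 : ∀ P, b6_thK L hL P = L.th P := fun P => rfl
    simp only [Function.comp_apply, AlgHom.comp_apply, sbst, sbC, FreeAlgebra.lift_ι_apply,
      map_add, h2, b6_smul L hL, map_mul, map_sub, gg, map_pow, map_one, pow_zero, mul_one]
  exact DFunLike.congr_fun h1 h

theorem b6_lift (L : Loc E B d a b C)
    (hL : ∀ c : K, algebraMap K C c = L.th (em (algebraMap K B c))) {σ : Type} (y : σ → B)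
    (h : FreeAlgebra K σ) :
    L.th (em (FreeAlgebra.lift K y h)) = FreeAlgebra.lift K (fun j => L.th (em (y j))) h := by
  have h1 : (b6_emK L hL).comp (FreeAlgebra.lift K y) =
      FreeAlgebra.lift K (fun j => L.th (em (y j))) := by
    apply FreeAlgebra.hom_ext
    funext j
    have h2 : ∀ P, b6_emK L hL P = L.th (em P) := fun P => rfl
    simp only [Function.comp_apply, AlgHom.comp_apply, FreeAlgebra.lift_ι_apply, h2]
  exact DFunLike.congr_fun h1 h

theorem b6_NN (L : Loc E B d a b C)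
    (hL : ∀ c : K, algebraMap K C c = L.th (em (algebraMap K B c))) (e : B) {σ : Type} (y : σ → B)
    (h : FreeAlgebra K σ) :
    NN K (L.th (em e)) (fun j => L.th (em (y j))) h = L.th (em (NN K e y h)) := by
  have h1 : ∀ j, (1 - L.th (em e)) * L.th (em (y j)) * (1 - L.th (em e)) =
      L.th (em ((1 - e) * y j * (1 - e))) := fun j => by
    simp only [map_mul, map_sub, map_one]
  unfold NN
  simp only [h1]
  rw [← b6_lift L hL]
  simp only [map_mul, map_sub, map_one]

theorem b6_th_TH [IsAlgClosed E] [FiniteDimensional E B] [CharZero K] {J : Submodule E B}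
    (hJ : Alg E B J) {m : ℕ} (hn : CNil B m)
    {cc : ℕ → ℕ → K} (hcc : Extr K m cc) {M : ℕ} {z : B} (hz : z ∈ J)
    (s : Spec (E := E) z d) (hM : 2 * d ≤ M) {σ : Type} (y : σ → B) (L : Loc E B d a b C)
    (hL : ∀ c : K, algebraMap K C c = L.th (em (algebraMap K B c))) (h : FreeAlgebra K σ) :
    (1 - L.th (em (s.far a b))) * L.th (∑ t ∈ Finset.Icc 1 m, (-1 : K) ^ (t + 1) •
        ∑ j ∈ Finset.range (m + 1), cc t j •
          sbst K M z (gg M z (2 * m.factorial / t - 1) 1 0) (j : K) y h) *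
        (1 - L.th (em (s.far a b))) =
      ent K (L.th (em (s.far a b))) (L.th (qq M z) ^ (2 * m.factorial))
        (fun j => L.th (em (y j))) h * (1 - L.th (em (s.far a b))) := by
  have hfar : s.far a b ∈ J := by
    obtain ⟨x, -, hx⟩ := s.far_mem a b
    rw [hx]
    have := hJ.tsi 1 z x hz
    rwa [one_mul] at this
  have hid : L.th (em (s.far a b)) * L.th (em (s.far a b)) = L.th (em (s.far a b)) := by
    rw [← map_mul, ← map_mul, s.far_idem]
  have hst : Star (L.th (em (s.far a b))) := L.star (hJ.star _ hfar (s.far_idem a b))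
  obtain ⟨hq1, hq2⟩ := L.qq_far s hM
  rw [← first_entry hcc hid hst (L.cnil hn) hq1 hq2]
  simp only [map_sum, b6_smul L hL, b6_sbst L hL]

/-- additivity of the far product in the right factor -/
theorem b6_pi_sum {A : Type v} [Ring A] [Algebra K A] (N : ℕ) (z x : A) {ι : Type} (S : Finset ι)
    (f : ι → A) : Pi1 K N z x (∑ k ∈ S, f k) = ∑ k ∈ S, Pi1 K N z x (f k) := by
  unfold Pi1
  simp only [map_sum, Finset.mul_sum]

/-- additivity of the far product in the left factor -/
theorem b6_pi_sum' {A : Type v} [Ring A] [Algebra K A] (N : ℕ) (z x : A) {ι : Type} (S : Finset ι)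
    (f : ι → A) : Pi1 K N z (∑ k ∈ S, f k) x = ∑ k ∈ S, Pi1 K N z (f k) x := by
  unfold Pi1
  simp only [map_sum, Finset.sum_mul]

theorem b6_pi_add {A : Type v} [Ring A] [Algebra K A] (N : ℕ) (z x i i' : A) :
    Pi1 K N z x (i + i') = Pi1 K N z x i + Pi1 K N z x i' := by
  unfold Pi1
  simp only [map_add, mul_add]

theorem b6_pi_add' {A : Type v} [Ring A] [Algebra K A] (N : ℕ) (z x i i' : A) :
    Pi1 K N z (i + i') x = Pi1 K N z i x + Pi1 K N z i' x := by
  unfold Pi1
  simp only [map_add, add_mul]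

theorem b6_pi_zero {A : Type v} [Ring A] [Algebra K A] (N : ℕ) (z x : A) :
    Pi1 K N z x 0 = 0 ∧ Pi1 K N z 0 x = 0 := by
  unfold Pi1
  simp only [map_zero, mul_zero, zero_mul, and_self]

/-- central factors come out of the far product -/
theorem b6_pi_mul {A : Type v} [Ring A] [Algebra K A] (N : ℕ) (z x i c : A)
    (hc : ∀ t, c * t = t * c) :
    Pi1 K N z x (i * c) = Pi1 K N z x i * c ∧ Pi1 K N z (i * c) x = Pi1 K N z i x * c := by
  constructor
  · rw [Pi1_eq, Pi1_eq, Finset.sum_mul]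
    refine Finset.sum_congr rfl fun p _ => ?_
    rw [Finset.sum_mul]
    refine Finset.sum_congr rfl fun s _ => ?_
    rw [smul_mul_assoc]
    congr 1
    rw [← mul_assoc, mul_assoc _ c, hc, ← mul_assoc]
  · rw [Pi1_eq, Pi1_eq, Finset.sum_mul]
    refine Finset.sum_congr rfl fun p _ => ?_
    rw [Finset.sum_mul]
    refine Finset.sum_congr rfl fun s _ => ?_
    rw [smul_mul_assoc]
    congr 1
    rw [← mul_assoc (z ^ p)]
    simp only [mul_assoc]
    rw [hc]
    simp only [mul_assoc]

theorem b6_pi_base [IsAlgClosed E] [FiniteDimensional E B] {J : Submodule E B} (hJ : Alg E B J)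
    {z : B} (hz : z ∈ J) {N : ℕ}
    (hN : 2 * Module.finrank E B ≤ N) {e : B} (heJ : e ∈ J) (he : e * e = e)
    (L : Loc E B d a b C)
    (hL : ∀ c : K, algebraMap K C c = L.th (em (algebraMap K B c))) (a' y1 y2 : B) (c : C)
    (hc : ∀ t, c * t = t * c) :
    Pi1 K N (L.th (em ((1 - e) * z * (1 - e)))) (L.th (em ((1 - e) * a' * (1 - e))))
      (L.th (em ((1 - e) * y1 * e * y2 * (1 - e))) * c) = 0 ∧
    Pi1 K N (L.th (em ((1 - e) * z * (1 - e)))) (L.th (em ((1 - e) * y1 * e * y2 * (1 - e))) * c)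
      (L.th (em ((1 - e) * a' * (1 - e)))) = 0 := by
  obtain ⟨h1, h2⟩ := comp0 (K := K) hJ heJ he hz hN a' y1 y2
  have h3 := Pi1_map K (b6_emK L hL) N ((1 - e) * z * (1 - e)) ((1 - e) * a' * (1 - e))
    ((1 - e) * y1 * e * y2 * (1 - e))
  have h4 := Pi1_map K (b6_emK L hL) N ((1 - e) * z * (1 - e))
    ((1 - e) * y1 * e * y2 * (1 - e)) ((1 - e) * a' * (1 - e))
  rw [h1, map_zero] at h3
  rw [h2, map_zero] at h4
  have h5 : ∀ P, b6_emK L hL P = L.th (em P) := fun P => rfl
  simp only [h5] at h3 h4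
  rw [(b6_pi_mul N _ _ _ c hc).1, (b6_pi_mul N _ _ _ c hc).2, ← h3, ← h4, zero_mul]
  exact ⟨rfl, rfl⟩

theorem b6_cent (L : Loc E B d a b C) (p s : ℕ) (t : C) :
    (L.th (lv B) ^ p * L.th (rv B) ^ s) * t = t * (L.th (lv B) ^ p * L.th (rv B) ^ s) := by
  have h1 : Commute (L.th (lv B)) t := L.lc t
  have h2 : Commute (L.th (rv B)) t := L.rc t
  exact ((h1.pow_left p).mul_left (h2.pow_left s)).eq

theorem b6_assoc (f Y1 G Y2 c c' : C) (hc : ∀ t, c * t = t * c) (hc' : ∀ t, c' * t = t * c') :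
    f * (Y1 * c) * G * (Y2 * c') * f = f * Y1 * G * Y2 * f * (c * c') := by
  calc f * (Y1 * c) * G * (Y2 * c') * f = f * Y1 * (c * (G * Y2)) * (c' * f) := by
        simp only [mul_assoc]
    _ = f * Y1 * ((G * Y2) * c) * (f * c') := by rw [hc (G * Y2), hc' f]
    _ = f * Y1 * G * Y2 * (c * f) * c' := by simp only [mul_assoc]
    _ = f * Y1 * G * Y2 * (f * c) * c' := by rw [hc f]
    _ = f * Y1 * G * Y2 * f * (c * c') := by simp only [mul_assoc]

theorem b6_pi_main [IsAlgClosed E] [FiniteDimensional E B] {J : Submodule E B} (hJ : Alg E B J)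
    {z : B} (hz : z ∈ J) {N : ℕ}
    (hN : 2 * Module.finrank E B ≤ N) {e : B} (heJ : e ∈ J) (he : e * e = e)
    (L : Loc E B d a b C)
    (hL : ∀ c : K, algebraMap K C c = L.th (em (algebraMap K B c))) (a' : B) (c1 c2 : C) :
    Pi1 K N (L.th (em ((1 - e) * z * (1 - e)))) (L.th (em ((1 - e) * a' * (1 - e))))
      ((1 - L.th (em e)) * c1 * L.th (em e) * c2 * (1 - L.th (em e))) = 0 ∧
    Pi1 K N (L.th (em ((1 - e) * z * (1 - e))))
      ((1 - L.th (em e)) * c1 * L.th (em e) * c2 * (1 - L.th (em e)))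
      (L.th (em ((1 - e) * a' * (1 - e)))) = 0 := by
  induction L.sp c1 using AddSubmonoid.closure_induction with
  | mem x hx =>
    obtain ⟨y1, p, s, rfl⟩ := hx
    induction L.sp c2 using AddSubmonoid.closure_induction with
    | mem x hx =>
      obtain ⟨y2, p', s', rfl⟩ := hx
      have key : (1 - L.th (em e)) * (L.th (em y1) * L.th (lv B) ^ p * L.th (rv B) ^ s) *
          L.th (em e) * (L.th (em y2) * L.th (lv B) ^ p' * L.th (rv B) ^ s') *
          (1 - L.th (em e)) = L.th (em ((1 - e) * y1 * e * y2 * (1 - e))) *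
            ((L.th (lv B) ^ p * L.th (rv B) ^ s) * (L.th (lv B) ^ p' * L.th (rv B) ^ s')) := by
        simp only [map_mul, map_sub, map_one]
        rw [mul_assoc (L.th (em y1)), mul_assoc (L.th (em y2))]
        exact b6_assoc _ _ _ _ _ _ (b6_cent L p s) (b6_cent L p' s')
      rw [key]
      refine b6_pi_base hJ hz hN heJ he L hL a' y1 y2 _ fun t => ?_
      rw [mul_assoc, b6_cent L p' s', ← mul_assoc, b6_cent L p s, mul_assoc]
    | zero =>
      simp only [mul_zero, zero_mul]
      exact b6_pi_zero N _ _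
    | add x y _ _ h1 h2 =>
      simp only [mul_add, add_mul] at h1 h2 ⊢
      rw [b6_pi_add, b6_pi_add', h1.1, h1.2, h2.1, h2.2, add_zero]
      exact ⟨rfl, rfl⟩
  | zero =>
    simp only [mul_zero, zero_mul]
    exact b6_pi_zero N _ _
  | add x y _ _ h1 h2 =>
    simp only [mul_add, add_mul] at h1 h2 ⊢
    rw [b6_pi_add, b6_pi_add', h1.1, h1.2, h2.1, h2.2, add_zero]
    exact ⟨rfl, rfl⟩

theorem b6_NN_pow (e : C) (he : e * e = e) {σ : Type} (y : σ → C) (u z : FreeAlgebra K σ) (p : ℕ) :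
    NN K e y (u * z ^ p) = NN K e y u * NN K e y z ^ p := by
  induction p with
  | zero => simp only [pow_zero, mul_one]
  | succ p ih => rw [pow_succ, ← mul_assoc, NN_mul e he, ih, mul_assoc, ← pow_succ]

theorem b6_pow_NN (e : C) (he : e * e = e) {σ : Type} (y : σ → C) (v z : FreeAlgebra K σ) (p : ℕ) :
    NN K e y (z ^ p * v) = NN K e y z ^ p * NN K e y v := by
  induction p with
  | zero => simp only [pow_zero, one_mul]
  | succ p ih => rw [pow_succ', mul_assoc, NN_mul e he, ih, ← mul_assoc, ← pow_succ']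

/-- `ent` as a linear map -/
noncomputable def b6_entL (K : Type u) [Field K] {C : Type v} [Ring C] [Algebra K C] {σ : Type}
    (e d : C) (y : σ → C) : FreeAlgebra K σ →ₗ[K] C where
  toFun h := ent K e d y h
  map_add' a b := ent_add e d y a b
  map_smul' c a := ent_smul e d y c a

theorem b6_diff_gen {e d : C} (he : e * e = e) (hst : Star e) (hd1 : e * d = d)
    (hd2 : d * e = d) {n : ℕ} (y : Fin n → C) (i : FA K n) {ι : Type} (S : Finset ι) (c : ι → K)
    (A B : ι → FA K n) :
    ent K e d y (∑ k ∈ S, c k • (A k * i * B k)) * (1 - e)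
      - ent K e d (fun j : Option (Fin n) => j.elim (FreeAlgebra.lift K y i) y)
        (∑ k ∈ S, c k • (up (A k) * FreeAlgebra.ι K none * up (B k))) * (1 - e)
      = ∑ k ∈ S, c k • (NN K e y (A k) * (ent K e d y i * (1 - e)) * NN K e y (B k)) := by
  have h1 : ∀ (σ : Type) (y : σ → C) (h : FreeAlgebra K σ), ent K e d y h = b6_entL K e d y h :=
    fun _ _ _ => rfl
  rw [h1, h1, map_sum, map_sum, Finset.sum_mul, Finset.sum_mul, ← Finset.sum_sub_distrib]
  refine Finset.sum_congr rfl fun k _ => ?_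
  rw [map_smul, map_smul, smul_mul_assoc, smul_mul_assoc, ← smul_sub, ← h1, ← h1,
    diff_formula he hst hd1 hd2]

theorem b6_up_xx {n : ℕ} (j : Fin n) : up (xx K j) = FreeAlgebra.ι K (some j) := by
  unfold up xx
  rw [FreeAlgebra.lift_ι_apply]

theorem b6_prod_sum {R : Type v} [AddCommMonoid R] (N : ℕ) (F : ℕ → ℕ → R) :
    ∑ p ∈ Finset.range (N + 1), ∑ s ∈ Finset.range (N + 1), F p s =
      ∑ k ∈ Finset.range (N + 1) ×ˢ Finset.range (N + 1), F k.1 k.2 :=
  (Finset.sum_product' _ _ _).symm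

theorem b6_diff1 {e d : C} (he : e * e = e) (hst : Star e) (hd1 : e * d = d)
    (hd2 : d * e = d) {n : ℕ} (y : Fin n → C) (N : ℕ) (u : FA K n) (j : Fin n) (a v i : FA K n) :
    ent K e d y (u * Pi1 K N (xx K j) a i * v) * (1 - e)
      - ent K e d (fun j : Option (Fin n) => j.elim (FreeAlgebra.lift K y i) y)
        (vh1 N u j a v) * (1 - e)
      = NN K e y u * Pi1 K N (NN K e y (xx K j)) (NN K e y a) (ent K e d y i * (1 - e)) *
        NN K e y v := by
  have h1 : u * Pi1 K N (xx K j) a i * v = ∑ k ∈ Finset.range (N + 1) ×ˢ Finset.range (N + 1),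
      ((-1 : K) ^ (k.1 + k.2) * (N.choose k.1 : K) * (N.choose k.2 : K)) •
        ((u * xx K j ^ k.1 * a * xx K j ^ (3 * N - k.1 - k.2)) * i * (xx K j ^ k.2 * v)) := by
    rw [Pi1_eq, b6_prod_sum, Finset.mul_sum, Finset.sum_mul]
    refine Finset.sum_congr rfl fun k _ => ?_
    rw [mul_smul_comm, smul_mul_assoc]
    simp only [mul_assoc]
  have h2 : vh1 N u j a v = ∑ k ∈ Finset.range (N + 1) ×ˢ Finset.range (N + 1),
      ((-1 : K) ^ (k.1 + k.2) * (N.choose k.1 : K) * (N.choose k.2 : K)) •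
        (up (u * xx K j ^ k.1 * a * xx K j ^ (3 * N - k.1 - k.2)) * FreeAlgebra.ι K none *
          up (xx K j ^ k.2 * v)) := by
    unfold vh1
    rw [Pi1_eq, b6_prod_sum, Finset.mul_sum, Finset.sum_mul]
    refine Finset.sum_congr rfl fun k _ => ?_
    rw [mul_smul_comm, smul_mul_assoc]
    simp only [map_mul, map_pow, b6_up_xx, mul_assoc]
  rw [h1, h2, b6_diff_gen he hst hd1 hd2, Pi1_eq, b6_prod_sum, Finset.mul_sum, Finset.sum_mul]
  refine Finset.sum_congr rfl fun k _ => ?_
  rw [mul_smul_comm, smul_mul_assoc, b6_NN_pow e he, NN_mul e he, b6_NN_pow e he, b6_pow_NN e he]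
  simp only [mul_assoc]

theorem b6_diff2 {e d : C} (he : e * e = e) (hst : Star e) (hd1 : e * d = d)
    (hd2 : d * e = d) {n : ℕ} (y : Fin n → C) (N : ℕ) (u : FA K n) (j : Fin n) (a v i : FA K n) :
    ent K e d y (u * Pi1 K N (xx K j) i a * v) * (1 - e)
      - ent K e d (fun j : Option (Fin n) => j.elim (FreeAlgebra.lift K y i) y)
        (vh2 N u j a v) * (1 - e)
      = NN K e y u * Pi1 K N (NN K e y (xx K j)) (ent K e d y i * (1 - e)) (NN K e y a) *
        NN K e y v := by
  have h1 : u * Pi1 K N (xx K j) i a * v = ∑ k ∈ Finset.range (N + 1) ×ˢ Finset.range (N + 1),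
      ((-1 : K) ^ (k.1 + k.2) * (N.choose k.1 : K) * (N.choose k.2 : K)) •
        ((u * xx K j ^ k.1) * i * (xx K j ^ (3 * N - k.1 - k.2) * (a * (xx K j ^ k.2 * v)))) := by
    rw [Pi1_eq, b6_prod_sum, Finset.mul_sum, Finset.sum_mul]
    refine Finset.sum_congr rfl fun k _ => ?_
    rw [mul_smul_comm, smul_mul_assoc]
    simp only [mul_assoc]
  have h2 : vh2 N u j a v = ∑ k ∈ Finset.range (N + 1) ×ˢ Finset.range (N + 1),
      ((-1 : K) ^ (k.1 + k.2) * (N.choose k.1 : K) * (N.choose k.2 : K)) •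
        (up (u * xx K j ^ k.1) * FreeAlgebra.ι K none *
          up (xx K j ^ (3 * N - k.1 - k.2) * (a * (xx K j ^ k.2 * v)))) := by
    unfold vh2
    rw [Pi1_eq, b6_prod_sum, Finset.mul_sum, Finset.sum_mul]
    refine Finset.sum_congr rfl fun k _ => ?_
    rw [mul_smul_comm, smul_mul_assoc]
    simp only [map_mul, map_pow, b6_up_xx, mul_assoc]
  rw [h1, h2, b6_diff_gen he hst hd1 hd2, Pi1_eq, b6_prod_sum, Finset.mul_sum, Finset.sum_mul]
  refine Finset.sum_congr rfl fun k _ => ?_
  rw [mul_smul_comm, smul_mul_assoc, b6_NN_pow e he, b6_pow_NN e he, NN_mul e he, b6_pow_NN e he]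
  simp only [mul_assoc]

theorem b6_zero [IsAlgClosed E] [FiniteDimensional E B] {J : Submodule E B} (hJ : Alg E B J)
    {N : ℕ} (hN : 2 * Module.finrank E B ≤ N) {e : B} (heJ : e ∈ J) (he : e * e = e)
    (L : Loc E B d a b C)
    (hL : ∀ c : K, algebraMap K C c = L.th (em (algebraMap K B c))) {n : ℕ} (y : Fin n → B)
    (hy : ∀ j, y j ∈ J) (j : Fin n) (a' i : FA K n) (q : C) :
    Pi1 K N (NN K (L.th (em e)) (fun j => L.th (em (y j))) (xx K j))
      (NN K (L.th (em e)) (fun j => L.th (em (y j))) a')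
      (ent K (L.th (em e)) q (fun j => L.th (em (y j))) i * (1 - L.th (em e))) = 0 ∧
    Pi1 K N (NN K (L.th (em e)) (fun j => L.th (em (y j))) (xx K j))
      (ent K (L.th (em e)) q (fun j => L.th (em (y j))) i * (1 - L.th (em e)))
      (NN K (L.th (em e)) (fun j => L.th (em (y j))) a') = 0 := by
  have hid : L.th (em e) * L.th (em e) = L.th (em e) := by
    rw [← map_mul, ← map_mul, he]
  have h1 : NN K (L.th (em e)) (fun j => L.th (em (y j))) (xx K j) =
      L.th (em ((1 - e) * y j * (1 - e))) := by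
    rw [b6_NN L hL]
    unfold xx
    rw [NN_ι e he]
  have h2 : NN K (L.th (em e)) (fun j => L.th (em (y j))) a' =
      L.th (em ((1 - e) * NN K e y a' * (1 - e))) := by
    rw [b6_NN L hL, (NN_corner e he y a').1, (NN_corner e he y a').2]
  obtain ⟨t, p, s, h3⟩ := ent_form (L.th (em e)) hid (fun j => L.th (em (y j))) i
  have h4 : ∀ k : Fin t, (1 - L.th (em e)) * p k * L.th (em e) * q * s k * (1 - L.th (em e)) =
      (1 - L.th (em e)) * p k * L.th (em e) * (q * s k) * (1 - L.th (em e)) := fun k => by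
    simp only [mul_assoc]
  rw [h1, h2, h3, Finset.sum_mul, b6_pi_sum, b6_pi_sum']
  simp only [h4, (b6_pi_main hJ (hy j) hN heJ he L hL (NN K e y a') (p _) (q * s _)).1,
    (b6_pi_main hJ (hy j) hN heJ he L hL (NN K e y a') (p _) (q * s _)).2, Finset.sum_const_zero,
    and_self]

theorem b6_theta (m M : ℕ) (cc : ℕ → ℕ → K) (z : B) {σ : Type} (y : σ → B)
    (h : FreeAlgebra K σ) :
    theta K m M cc z y h = evz K z (∑ t ∈ Finset.Icc 1 m, (-1 : K) ^ (t + 1) •
        ∑ j ∈ Finset.range (m + 1), cc t j •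
          sbst K M z (gg M z (2 * m.factorial / t - 1) 1 0) (j : K) y h) := by
  unfold theta opw
  simp only [map_sum, map_smul]

theorem b6_letters (L : Loc E B d a b C)
    (hL : ∀ c : K, algebraMap K C c = L.th (em (algebraMap K B c))) {n : ℕ} (y : Fin n → B)
    (i : FA K n) :
    (fun l : Option (Fin n) => L.th (em (l.elim (FreeAlgebra.lift K y i) y))) =
      fun l : Option (Fin n) => l.elim (FreeAlgebra.lift K (fun j => L.th (em (y j))) i)
        (fun j => L.th (em (y j))) := by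
  funext l
  cases l with
  | none => exact b6_lift L hL y i
  | some j => rfl

theorem b6_split (f x y : C) : f * (x - y) * f = f * x * f - f * y * f := by
  rw [mul_sub, sub_mul]

end aux

section comp
variable {K : Type u} [Field K] {E : Type u} [Field E] [IsAlgClosed E] {B : Type v} [Ring B]
  [Algebra E B] [FiniteDimensional E B] [Algebra K B]

/-- `first_entry` for the image of the operator -/
theorem th_TH [CharZero K] {J : Submodule E B} (hJ : Alg E B J) {m : ℕ} (hn : CNil B m)
    {cc : ℕ → ℕ → K} (hcc : Extr K m cc) {M : ℕ} {z : B} (hz : z ∈ J) {d : ℕ}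
    (s : Spec (E := E) z d) (hM : 2 * d ≤ M) {σ : Type} (y : σ → B) {a b : E} {C : Type v}
    [Ring C] (L : Loc E B d a b C) (h : FreeAlgebra K σ) :
    letI := L.alg K
    (1 - L.th (em (s.far a b))) * L.th (∑ t ∈ Finset.Icc 1 m, (-1 : K) ^ (t + 1) •
        ∑ j ∈ Finset.range (m + 1), cc t j •
          sbst K M z (gg M z (2 * m.factorial / t - 1) 1 0) (j : K) y h) *
        (1 - L.th (em (s.far a b))) =
      ent K (L.th (em (s.far a b))) (L.th (qq M z) ^ (2 * m.factorial))
        (fun j => L.th (em (y j))) h * (1 - L.th (em (s.far a b))) := by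
  letI := L.alg K
  exact b6_th_TH hJ hn hcc hz s hM y L (fun _ => rfl) h

/-- the far product of compressed elements vanishes in `C` -/
theorem pi_zero {J : Submodule E B} (hJ : Alg E B J) {z : B} (hz : z ∈ J) {d : ℕ} {N : ℕ}
    (hN : 2 * Module.finrank E B ≤ N) {e : B} (heJ : e ∈ J) (he : e * e = e)
    {a b : E} {C : Type v} [Ring C] (L : Loc E B d a b C) (a' : B) (c1 c2 : C) :
    letI := L.alg K
    Pi1 K N (L.th (em ((1 - e) * z * (1 - e)))) (L.th (em ((1 - e) * a' * (1 - e))))
      ((1 - L.th (em e)) * c1 * L.th (em e) * c2 * (1 - L.th (em e))) = 0 ∧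
    Pi1 K N (L.th (em ((1 - e) * z * (1 - e))))
      ((1 - L.th (em e)) * c1 * L.th (em e) * c2 * (1 - L.th (em e)))
      (L.th (em ((1 - e) * a' * (1 - e)))) = 0 := by
  letI := L.alg K
  exact b6_pi_main hJ hz hN heJ he L (fun _ => rfl) a' c1 c2

theorem theta_eq1 [CharZero K] {J : Submodule E B} (hJ : Alg E B J) {m : ℕ} (hn : CNil B m)
    {cc : ℕ → ℕ → K} (hcc : Extr K m cc) {M N : ℕ} (hM : 2 * Module.finrank E B ≤ M)
    (hN : 2 * Module.finrank E B ≤ N) {n : ℕ} (y : Fin n → B) (hy : ∀ j, y j ∈ J)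
    {z : B} (hz : z ∈ J) (u : FA K n) (j : Fin n) (a v i : FA K n) :
    theta K m M cc z y (u * Pi1 K N (xx K j) a i * v) =
      theta K m M cc z (fun l : Option (Fin n) => l.elim (FreeAlgebra.lift K y i) y)
        (vh1 N u j a v) := by
  obtain ⟨s⟩ := spec_exists (E := E) z
  rw [b6_theta, b6_theta, ← sub_eq_zero, ← map_sub]
  refine red K s _ fun a' b' C _ L => ?_
  letI := L.alg K
  have hL : ∀ c : K, algebraMap K C c = L.th (em (algebraMap K B c)) := fun _ => rfl
  have hfar : s.far a' b' ∈ J := by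
    obtain ⟨x, -, hx⟩ := s.far_mem a' b'
    rw [hx]
    have := hJ.tsi 1 z x hz
    rwa [one_mul] at this
  have hid : L.th (em (s.far a' b')) * L.th (em (s.far a' b')) = L.th (em (s.far a' b')) := by
    rw [← map_mul, ← map_mul, s.far_idem]
  have hst : Star (L.th (em (s.far a' b'))) := L.star (hJ.star _ hfar (s.far_idem a' b'))
  obtain ⟨hq1, hq2⟩ := L.qq_far s hM
  have hd : ∀ k : ℕ, 0 < k → L.th (em (s.far a' b')) * L.th (qq M z) ^ k = L.th (qq M z) ^ k ∧
      L.th (qq M z) ^ k * L.th (em (s.far a' b')) = L.th (qq M z) ^ k := by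
    intro k hk
    obtain ⟨k, rfl⟩ := Nat.exists_eq_succ_of_ne_zero hk.ne'
    constructor
    · rw [Nat.succ_eq_add_one, pow_succ', ← mul_assoc, hq1]
    · rw [Nat.succ_eq_add_one, pow_succ, mul_assoc, hq2]
  obtain ⟨hd1, hd2⟩ := hd (2 * m.factorial) (Nat.mul_pos two_pos m.factorial_pos)
  rw [map_sub L.th, map_sub em, map_sub L.th, map_one, map_one, b6_split,
    b6_th_TH hJ hn hcc hz s hM y L hL, b6_th_TH hJ hn hcc hz s hM _ L hL, b6_letters L hL,
    b6_diff1 hid hst hd1 hd2,
    (b6_zero hJ hN hfar (s.far_idem a' b') L hL y hy j a i (L.th (qq M z) ^ (2 * m.factorial))).1,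
    mul_zero, zero_mul]

theorem theta_eq2 [CharZero K] {J : Submodule E B} (hJ : Alg E B J) {m : ℕ} (hn : CNil B m)
    {cc : ℕ → ℕ → K} (hcc : Extr K m cc) {M N : ℕ} (hM : 2 * Module.finrank E B ≤ M)
    (hN : 2 * Module.finrank E B ≤ N) {n : ℕ} (y : Fin n → B) (hy : ∀ j, y j ∈ J)
    {z : B} (hz : z ∈ J) (u : FA K n) (j : Fin n) (a v i : FA K n) :
    theta K m M cc z y (u * Pi1 K N (xx K j) i a * v) =
      theta K m M cc z (fun l : Option (Fin n) => l.elim (FreeAlgebra.lift K y i) y)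
        (vh2 N u j a v) := by
  obtain ⟨s⟩ := spec_exists (E := E) z
  rw [b6_theta, b6_theta, ← sub_eq_zero, ← map_sub]
  refine red K s _ fun a' b' C _ L => ?_
  letI := L.alg K
  have hL : ∀ c : K, algebraMap K C c = L.th (em (algebraMap K B c)) := fun _ => rfl
  have hfar : s.far a' b' ∈ J := by
    obtain ⟨x, -, hx⟩ := s.far_mem a' b'
    rw [hx]
    have := hJ.tsi 1 z x hz
    rwa [one_mul] at this
  have hid : L.th (em (s.far a' b')) * L.th (em (s.far a' b')) = L.th (em (s.far a' b')) := by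
    rw [← map_mul, ← map_mul, s.far_idem]
  have hst : Star (L.th (em (s.far a' b'))) := L.star (hJ.star _ hfar (s.far_idem a' b'))
  obtain ⟨hq1, hq2⟩ := L.qq_far s hM
  have hd : ∀ k : ℕ, 0 < k → L.th (em (s.far a' b')) * L.th (qq M z) ^ k = L.th (qq M z) ^ k ∧
      L.th (qq M z) ^ k * L.th (em (s.far a' b')) = L.th (qq M z) ^ k := by
    intro k hk
    obtain ⟨k, rfl⟩ := Nat.exists_eq_succ_of_ne_zero hk.ne'
    constructor
    · rw [Nat.succ_eq_add_one, pow_succ', ← mul_assoc, hq1]
    · rw [Nat.succ_eq_add_one, pow_succ, mul_assoc, hq2]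
  obtain ⟨hd1, hd2⟩ := hd (2 * m.factorial) (Nat.mul_pos two_pos m.factorial_pos)
  rw [map_sub L.th, map_sub em, map_sub L.th, map_one, map_one, b6_split,
    b6_th_TH hJ hn hcc hz s hM y L hL, b6_th_TH hJ hn hcc hz s hM _ L hL, b6_letters L hL,
    b6_diff2 hid hst hd1 hd2,
    (b6_zero hJ hN hfar (s.far_idem a' b') L hL y hy j a i (L.th (qq M z) ^ (2 * m.factorial))).2,
    mul_zero, zero_mul]

end comp

end Pool.Agent.H.MP_f5ceca_al.G
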