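import Pool.Agent.H.MP_f5ceca_al.G.C0
import Pool.Agent.H.MP_f5ceca_al.G.D1

/-!
Job C1: the operators `opw` and `theta` applied to far products with a new letter whose value
is in `I` give elements of `Isharp`.

Proof. Let `z = xx K l`, `q = qq M z` in `P2 (FA K n)`, and let `φ = sbst K M z g b (yy i)`, a ring
homomorphism from the free algebra with a new letter to `P2 (FA K n)`; let
`φ0 h = em (lift (yy i) h)`. Let `Q` be the two-sided ideal of `P2 (FA K n)` generated by `q`.
By induction on `h` (`FreeAlgebra.induction`), `φ h - φ0 h ∈ Q` for all `h`.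
Write `V = vh1 N u j a v` as a sum of elements `c • (up A * ι none * up B)` (`Pi1_eq`). Then
`φ V - φ0 V` is a combination of the elements
`φ (up A) * φ (ι none) * φ (up B) - φ0 (up A) * em i * φ0 (up B)`, where
`φ (ι none) = em i + b (em i * q - q * em i) * g`, so it is in the additive group
`E` generated by the elements `P * q * P' * em i * P''` and `P * em i * P' * q * P''` with
`P, P', P''` in `P2 (FA K n)`. Claim: `evz K z` maps `E` into `Isharp N T I`:
`q = qq M z = qq N z * qq (M - N) z` (as `N ≤ M`); expand `P`, and `P' * em i * P''` times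
the rest, as sums of elements `em c * lv ^ p * rv ^ s` (`P2_induction`); the second factor has
coefficients in the ideal `I`. So `evz K z` of the element is a sum of elements
`z ^ p * Pi1 K N z c i' * z ^ s` with `i' ∈ I`; similarly for the second kind
(`evz_lv_mul`, `evz_rv_mul`).
Finally `evz K z (φ0 V) = lift (yy i) V = u * Pi1 K N (xx K j) a i * v ∈ Isharp N T I`.
-/

namespace Pool.Agent.H.MP_f5ceca_al.G

universe u v w

variable {K : Type u} [Field K] {n : ℕ}

theorem c1_coef_left {I : Submodule K (FA K n)} (hI : IsTSI I) (P F : P2 (FA K n))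
    (hF : ∀ p s, (F.coeff s).coeff p ∈ I) : ∀ p s, ((P * F).coeff s).coeff p ∈ I := by
  intro p s
  rw [Polynomial.coeff_mul, Polynomial.finset_sum_coeff]
  refine Submodule.sum_mem _ fun x _ => ?_
  rw [Polynomial.coeff_mul]
  refine Submodule.sum_mem _ fun y _ => ?_
  have := hI ((P.coeff x.1).coeff y.1) ((F.coeff x.2).coeff y.2) 1 (hF _ _)
  rwa [mul_one] at this

theorem c1_coef_right {I : Submodule K (FA K n)} (hI : IsTSI I) (P F : P2 (FA K n))
    (hF : ∀ p s, (F.coeff s).coeff p ∈ I) : ∀ p s, ((F * P).coeff s).coeff p ∈ I := by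
  intro p s
  rw [Polynomial.coeff_mul, Polynomial.finset_sum_coeff]
  refine Submodule.sum_mem _ fun x _ => ?_
  rw [Polynomial.coeff_mul]
  refine Submodule.sum_mem _ fun y _ => ?_
  have := hI 1 ((F.coeff x.1).coeff y.1) ((P.coeff x.2).coeff y.2) (hF _ _)
  rwa [one_mul] at this

theorem c1_coef_em {I : Submodule K (FA K n)} {i : FA K n} (hi : i ∈ I) (p s : ℕ) :
    ((em i : P2 (FA K n)).coeff s).coeff p ∈ I := by
  change ((Polynomial.C (Polynomial.C i)).coeff s).coeff p ∈ I
  rw [Polynomial.coeff_C]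
  split_ifs
  · rw [Polynomial.coeff_C]
    split_ifs
    · exact hi
    · exact I.zero_mem
  · rw [Polynomial.coeff_zero]
    exact I.zero_mem

theorem c1_lv_pow (k : ℕ) (X : P2 (FA K n)) : lv (FA K n) ^ k * X = X * lv (FA K n) ^ k :=
  Commute.pow_left (lv_comm X) k

theorem c1_rv_pow (k : ℕ) (X : P2 (FA K n)) : rv (FA K n) ^ k * X = X * rv (FA K n) ^ k :=
  Commute.pow_left (rv_comm X) k

theorem c1_evz_lv (z : FA K n) (k : ℕ) (P : P2 (FA K n)) :
    evz K z (lv (FA K n) ^ k * P) = z ^ k * evz K z P := by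
  induction k with
  | zero => simp
  | succ k ih => rw [pow_succ', mul_assoc, evz_lv_mul, ih, pow_succ', mul_assoc]

theorem c1_evz_rv (z : FA K n) (k : ℕ) (P : P2 (FA K n)) :
    evz K z (rv (FA K n) ^ k * P) = evz K z P * z ^ k := by
  induction k with
  | zero => simp
  | succ k ih => rw [pow_succ', mul_assoc, evz_rv_mul, ih, pow_succ, mul_assoc]

theorem c1_arr (X L R Q Y L' R' : P2 (FA K n)) (hL : ∀ Z, L * Z = Z * L) (hR : ∀ Z, R * Z = Z * R)
    (hL' : ∀ Z, L' * Z = Z * L') (hR' : ∀ Z, R' * Z = Z * R') :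
    X * L * R * Q * (Y * L' * R') = L * (L' * (R * (R' * (X * Q * Y)))) := by
  have e1 : X * L * R * Q * (Y * L' * R') = X * Q * Y * R' * R * L' * L := by
    calc X * L * R * Q * (Y * L' * R') = X * (L * (R * (Q * (Y * (L' * R'))))) := by
          simp only [mul_assoc]
      _ = X * ((R * (Q * (Y * (L' * R')))) * L) := by rw [hL (R * (Q * (Y * (L' * R'))))]
      _ = X * (((Q * (Y * (L' * R'))) * R) * L) := by rw [hR (Q * (Y * (L' * R')))]
      _ = X * (((Q * (Y * (R' * L'))) * R) * L) := by rw [hL' R']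
      _ = X * Q * Y * R' * (L' * R) * L := by simp only [mul_assoc]
      _ = X * Q * Y * R' * (R * L') * L := by rw [hL' R]
      _ = X * Q * Y * R' * R * L' * L := by simp only [mul_assoc]
  rw [e1, hR' (X * Q * Y), hR (X * Q * Y * R'), hL' (X * Q * Y * R' * R),
    hL (X * Q * Y * R' * R * L')]

theorem c1_mono (N : ℕ) (z a c : FA K n) (p s p' s' : ℕ) :
    evz K z (em a * lv (FA K n) ^ p * rv (FA K n) ^ s * qq N z *
      (em c * lv (FA K n) ^ p' * rv (FA K n) ^ s')) =
      z ^ (p + p') * Pi1 K N z a c * z ^ (s' + s) := by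
  rw [c1_arr _ _ _ _ _ _ _ (c1_lv_pow p) (c1_rv_pow s) (c1_lv_pow p') (c1_rv_pow s'),
    c1_evz_lv, c1_evz_lv, c1_evz_rv, c1_evz_rv, pow_add, pow_add, Pi1]
  simp only [mul_assoc]

/-- An element of `P2` as a sum over its coefficients. -/
theorem c1_sum (P : P2 (FA K n)) : P = ∑ s ∈ P.support, ∑ p ∈ (P.coeff s).support,
    em ((P.coeff s).coeff p) * lv (FA K n) ^ p * rv (FA K n) ^ s := by
  conv_lhs => rw [Polynomial.as_sum_support_C_mul_X_pow P]
  refine Finset.sum_congr rfl fun s _ => ?_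
  have h := Polynomial.as_sum_support_C_mul_X_pow (P.coeff s)
  conv_lhs => rw [h]
  rw [map_sum, Finset.sum_mul]
  refine Finset.sum_congr rfl fun p _ => ?_
  rw [map_mul, map_pow]
  rfl

/-- `evz` of a product with a factor `qq N` between an arbitrary element and an element with
coefficients in `I`. -/
theorem evz_mem1 {N : ℕ} {T I : Submodule K (FA K n)} (hT : IsTSI T) (hI : IsTSI I) (l : Fin n)
    (P P' : P2 (FA K n)) (hP' : ∀ p s, (P'.coeff s).coeff p ∈ I) :
    evz K (xx K l) (P * qq N (xx K l) * P') ∈ Isharp N T I ∧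
    evz K (xx K l) (P' * qq N (xx K l) * P) ∈ Isharp N T I := by
  have hS := isharp_tsi (n := n) (N := N) (I := I) hT
  constructor
  · rw [c1_sum P']
    simp only [Finset.mul_sum, map_sum]
    refine Submodule.sum_mem _ fun s _ => Submodule.sum_mem _ fun p _ => ?_
    generalize hc : (P'.coeff s).coeff p = c
    have hcI : c ∈ I := hc ▸ hP' p s
    clear hc
    induction P using P2_induction with
    | h1 a p1 s1 =>
      rw [c1_mono]
      exact hS _ _ _ (Pi1_mem_isharp hcI).1
    | h2 P1 P2 h1 h2 =>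
      rw [add_mul, add_mul, map_add]
      exact Submodule.add_mem _ h1 h2
  · rw [c1_sum P']
    simp only [Finset.sum_mul, map_sum]
    refine Submodule.sum_mem _ fun s _ => Submodule.sum_mem _ fun p _ => ?_
    generalize hc : (P'.coeff s).coeff p = c
    have hcI : c ∈ I := hc ▸ hP' p s
    clear hc
    induction P using P2_induction with
    | h1 a p1 s1 =>
      rw [c1_mono]
      exact hS _ _ _ (Pi1_mem_isharp hcI).2
    | h2 P1 P2 h1 h2 =>
      rw [mul_add, map_add]
      exact Submodule.add_mem _ h1 h2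

/-- Elements all of whose multiples are mapped to `Isharp`. -/
noncomputable def c1E (N : ℕ) (T I : Submodule K (FA K n)) (l : Fin n) :
    Submodule K (P2 (FA K n)) where
  carrier := {x | ∀ P P' : P2 (FA K n), evz K (xx K l) (P * x * P') ∈ Isharp N T I}
  add_mem' := by
    intro x y hx hy P P'
    rw [mul_add, add_mul, map_add]
    exact Submodule.add_mem _ (hx P P') (hy P P')
  zero_mem' := by
    intro P P'
    rw [mul_zero, zero_mul, map_zero]
    exact Submodule.zero_mem _
  smul_mem' := by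
    intro c x hx P P'
    rw [mul_smul_comm, smul_mul_assoc, map_smul]
    exact Submodule.smul_mem _ _ (hx P P')

theorem c1E_left {N : ℕ} {T I : Submodule K (FA K n)} {l : Fin n} (y : P2 (FA K n))
    {x : P2 (FA K n)} (hx : x ∈ c1E N T I l) : y * x ∈ c1E N T I l := by
  intro P P'
  rw [← mul_assoc P y x]
  exact hx (P * y) P'

theorem c1E_right {N : ℕ} {T I : Submodule K (FA K n)} {l : Fin n} (y : P2 (FA K n))
    {x : P2 (FA K n)} (hx : x ∈ c1E N T I l) : x * y ∈ c1E N T I l := by
  intro P P'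
  rw [← mul_assoc P x y, mul_assoc (P * x) y P']
  exact hx P (y * P')

/-- The coefficients are in `I`. -/
def c1J (I : Submodule K (FA K n)) (F : P2 (FA K n)) : Prop := ∀ p s, (F.coeff s).coeff p ∈ I

theorem c1_q_left {M N : ℕ} (hNM : N ≤ M) {T I : Submodule K (FA K n)} (hT : IsTSI T)
    (hI : IsTSI I) (l : Fin n) {F : P2 (FA K n)} (hF : c1J I F) :
    qq M (xx K l) * F ∈ c1E N T I l := by
  intro P P'
  have e : qq M (xx K l) = qq N (xx K l) * qq (M - N) (xx K l) := by
    rw [qq, qq, qq, ← pow_add, Nat.add_sub_cancel' hNM]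
  have := (evz_mem1 (N := N) hT hI l P (qq (M - N) (xx K l) * F * P')
    (c1_coef_right hI _ _ (c1_coef_left hI _ _ hF))).1
  rw [e]
  simpa only [mul_assoc] using this

theorem c1_q_right {M N : ℕ} (hNM : N ≤ M) {T I : Submodule K (FA K n)} (hT : IsTSI T)
    (hI : IsTSI I) (l : Fin n) {F : P2 (FA K n)} (hF : c1J I F) :
    F * qq M (xx K l) ∈ c1E N T I l := by
  intro P P'
  have e : qq M (xx K l) = qq (M - N) (xx K l) * qq N (xx K l) := by
    rw [qq, qq, qq, ← pow_add, Nat.sub_add_cancel hNM]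
  have := (evz_mem1 (N := N) hT hI l P' (P * F * qq (M - N) (xx K l))
    (c1_coef_right hI _ _ (c1_coef_left hI _ _ hF))).2
  rw [e]
  simpa only [mul_assoc] using this

/-- Elements whose products with elements with coefficients in `I` are in `c1E`. -/
def c1Q (N : ℕ) (T I : Submodule K (FA K n)) (l : Fin n) (d : P2 (FA K n)) : Prop :=
  ∀ F, c1J I F → d * F ∈ c1E N T I l ∧ F * d ∈ c1E N T I l

theorem c1Q_add {N : ℕ} {T I : Submodule K (FA K n)} {l : Fin n} {d d' : P2 (FA K n)}
    (h : c1Q N T I l d) (h' : c1Q N T I l d') : c1Q N T I l (d + d') := by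
  intro F hF
  rw [add_mul, mul_add]
  exact ⟨Submodule.add_mem _ (h F hF).1 (h' F hF).1, Submodule.add_mem _ (h F hF).2 (h' F hF).2⟩

theorem c1Q_smul {N : ℕ} {T I : Submodule K (FA K n)} {l : Fin n} {d : P2 (FA K n)} (c : K)
    (h : c1Q N T I l d) : c1Q N T I l (c • d) := by
  intro F hF
  rw [smul_mul_assoc, mul_smul_comm]
  exact ⟨Submodule.smul_mem _ _ (h F hF).1, Submodule.smul_mem _ _ (h F hF).2⟩

theorem c1Q_left {N : ℕ} {T I : Submodule K (FA K n)} (hI : IsTSI I) {l : Fin n}
    {d : P2 (FA K n)} (r : P2 (FA K n)) (h : c1Q N T I l d) : c1Q N T I l (r * d) := by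
  intro F hF
  constructor
  · rw [mul_assoc]
    exact c1E_left r (h F hF).1
  · rw [← mul_assoc]
    exact (h (F * r) (c1_coef_right hI _ _ hF)).2

theorem c1Q_right {N : ℕ} {T I : Submodule K (FA K n)} (hI : IsTSI I) {l : Fin n}
    {d : P2 (FA K n)} (r : P2 (FA K n)) (h : c1Q N T I l d) : c1Q N T I l (d * r) := by
  intro F hF
  constructor
  · rw [mul_assoc]
    exact (h (r * F) (c1_coef_left hI _ _ hF)).1
  · rw [← mul_assoc]
    exact c1E_right r (h F hF).2

theorem c1Q_qq {M N : ℕ} (hNM : N ≤ M) {T I : Submodule K (FA K n)} (hT : IsTSI T)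
    (hI : IsTSI I) (l : Fin n) : c1Q N T I l (qq M (xx K l)) :=
  fun _ hF => ⟨c1_q_left hNM hT hI l hF, c1_q_right hNM hT hI l hF⟩

theorem c1_lift_up (i h : FA K n) : FreeAlgebra.lift K (yy i) (up h) = h := by
  rw [lift_up]
  have : FreeAlgebra.lift K (fun j => yy i (some j)) = AlgHom.id K (FA K n) := by
    apply FreeAlgebra.hom_ext
    funext j
    simp [yy, xx]
  rw [this]
  rfl

theorem c1_up_xx (j : Fin n) : up (xx K j) = FreeAlgebra.ι K (some j) := by
  simp [up, xx]

theorem c1_em_smul (c : K) (x : FA K n) : (em (c • x) : P2 (FA K n)) = c • em x := by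
  change Polynomial.C (Polynomial.C (c • x)) = c • Polynomial.C (Polynomial.C x)
  rw [← Polynomial.smul_C, ← Polynomial.smul_C]

theorem c1_sbst_ι (M : ℕ) (z : FA K n) (g : P2 (FA K n)) (b : K) (y : Option (Fin n) → FA K n)
    (o : Option (Fin n)) : sbst K M z g b y (FreeAlgebra.ι K o) =
      em (y o) + b • ((em (y o) * qq M z - qq M z * em (y o)) * g) := by
  rw [sbst, FreeAlgebra.lift_ι_apply]

theorem c1_sbst_up {M N : ℕ} (hNM : N ≤ M) {T I : Submodule K (FA K n)} (hT : IsTSI T)
    (hI : IsTSI I) (i : FA K n) (l : Fin n) (g : P2 (FA K n)) (b : K) (h : FA K n) :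
    c1Q N T I l (sbst K M (xx K l) g b (yy i) (up h) - em h) := by
  induction h using FreeAlgebra.induction with
  | grade0 r =>
    have : sbst K M (xx K l) g b (yy i) (up (algebraMap K (FA K n) r)) -
        em (algebraMap K (FA K n) r) = 0 := by
      rw [AlgHom.commutes, AlgHom.commutes, sub_eq_zero]
      rfl
    rw [this]
    intro F hF
    rw [zero_mul, mul_zero]
    exact ⟨Submodule.zero_mem _, Submodule.zero_mem _⟩
  | grade1 j =>
    have e : sbst K M (xx K l) g b (yy i) (up (FreeAlgebra.ι K j)) - em (FreeAlgebra.ι K j) =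
        b • ((em (xx K j) * qq M (xx K l) + (-1 : K) • (qq M (xx K l) * em (xx K j))) * g) := by
      rw [show up (FreeAlgebra.ι K j : FA K n) = FreeAlgebra.ι K (some j) from c1_up_xx j,
        c1_sbst_ι]
      simp only [yy, neg_smul, one_smul, ← sub_eq_add_neg]
      rw [add_sub_cancel_left]
    rw [e]
    have hq := c1Q_qq hNM hT hI l
    exact c1Q_smul _ (c1Q_right hI _ (c1Q_add (c1Q_left hI _ hq)
      (c1Q_smul _ (c1Q_right hI _ hq))))
  | mul x y hx hy =>
    have e : sbst K M (xx K l) g b (yy i) (up (x * y)) - em (x * y) =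
        sbst K M (xx K l) g b (yy i) (up x) * (sbst K M (xx K l) g b (yy i) (up y) - em y) +
        (sbst K M (xx K l) g b (yy i) (up x) - em x) * em y := by
      rw [map_mul, map_mul, map_mul, mul_sub, sub_mul]
      abel
    rw [e]
    exact c1Q_add (c1Q_left hI _ hy) (c1Q_right hI _ hx)
  | add x y hx hy =>
    have e : sbst K M (xx K l) g b (yy i) (up (x + y)) - em (x + y) =
        (sbst K M (xx K l) g b (yy i) (up x) - em x) +
        (sbst K M (xx K l) g b (yy i) (up y) - em y) := by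
      rw [map_add, map_add, map_add]
      abel
    rw [e]
    exact c1Q_add hx hy

/-- The constants as a linear map. -/
noncomputable def c1em : FA K n →ₗ[K] P2 (FA K n) where
  toFun := em
  map_add' := map_add em
  map_smul' := c1_em_smul

/-- The difference of the substitution and of the evaluation. -/
noncomputable def c1D (M : ℕ) (l : Fin n) (g : P2 (FA K n)) (b : K) (i : FA K n) :
    FreeAlgebra K (Option (Fin n)) →ₗ[K] P2 (FA K n) :=
  (sbst K M (xx K l) g b (yy i)).toLinearMap -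
    c1em.comp (FreeAlgebra.lift K (yy i)).toLinearMap

theorem c1D_apply (M : ℕ) (l : Fin n) (g : P2 (FA K n)) (b : K) (i : FA K n)
    (V : FreeAlgebra K (Option (Fin n))) : c1D M l g b i V =
      sbst K M (xx K l) g b (yy i) V - em (FreeAlgebra.lift K (yy i) V) := rfl

theorem c1D_mem {M N : ℕ} (hNM : N ≤ M) {T I : Submodule K (FA K n)} (hT : IsTSI T)
    (hI : IsTSI I) {i : FA K n} (hi : i ∈ I) (l : Fin n) (g : P2 (FA K n)) (b : K)
    (A B : FA K n) :
    c1D M l g b i (up A * FreeAlgebra.ι K none * up B) ∈ c1E N T I l := by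
  have hA := c1_sbst_up hNM hT hI i l g b A
  have hB := c1_sbst_up hNM hT hI i l g b B
  have hiJ : c1J I (em i : P2 (FA K n)) := fun p s => c1_coef_em hi p s
  rw [c1D_apply]
  simp only [map_mul, c1_lift_up, FreeAlgebra.lift_ι_apply]
  rw [c1_sbst_ι]
  simp only [yy]
  generalize sbst K M (xx K l) g b (yy i) (up A) = α at hA ⊢
  generalize sbst K M (xx K l) g b (yy i) (up B) = β at hB ⊢
  have hd : b • ((em i * qq M (xx K l) - qq M (xx K l) * em i) * g) ∈ c1E N T I l :=
    Submodule.smul_mem _ _ (c1E_right _ (Submodule.sub_mem _ (c1_q_right hNM hT hI l hiJ)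
      (c1_q_left hNM hT hI l hiJ)))
  generalize b • ((em i * qq M (xx K l) - qq M (xx K l) * em i) * g) = δ at hd ⊢
  have e : α * (em i + δ) * β - em A * em i * em B =
      α * δ * β + ((α - em A) * em i) * β + em A * (em i * (β - em B)) := by
    simp only [mul_add, add_mul, sub_mul, mul_sub, mul_assoc]
    abel
  rw [e]
  exact Submodule.add_mem _ (Submodule.add_mem _ (c1E_right _ (c1E_left _ hd))
    (c1E_right _ (hA _ hiJ).1)) (c1E_left _ (hB _ hiJ).2)

theorem c1_opw {M N : ℕ} {T I : Submodule K (FA K n)} (l : Fin n) (e : ℕ) (b : K) (i : FA K n)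
    (V : FreeAlgebra K (Option (Fin n)))
    (hV : c1D M l (gg M (xx K l) e 1 0) b i V ∈ c1E N T I l)
    (hV' : FreeAlgebra.lift K (yy i) V ∈ Isharp N T I) :
    opw K M (xx K l) e 1 0 b (yy i) V ∈ Isharp N T I := by
  have h := hV 1 1
  rw [one_mul, mul_one, c1D_apply, map_sub, evz_em] at h
  have := Submodule.add_mem _ h hV'
  rwa [sub_add_cancel] at this

theorem c1_map_Pi1 {A : Type*} {B : Type*} [Ring A] [Algebra K A] [Ring B] [Algebra K B]
    (f : A →ₐ[K] B) (N : ℕ) (z a i : A) :
    f (Pi1 K N z a i) = Pi1 K N (f z) (f a) (f i) := by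
  simp only [Pi1_eq, map_sum, map_smul, map_mul, map_pow]

theorem c1_vh1_eq (N : ℕ) (u : FA K n) (j : Fin n) (a v : FA K n) : vh1 N u j a v =
    ∑ p ∈ Finset.range (N + 1), ∑ s ∈ Finset.range (N + 1),
      ((-1 : K) ^ (p + s) * (N.choose p : K) * (N.choose s : K)) •
        (up (u * xx K j ^ p * a * xx K j ^ (3 * N - p - s)) * FreeAlgebra.ι K none *
          up (xx K j ^ s * v)) := by
  rw [vh1, Pi1_eq, Finset.mul_sum, Finset.sum_mul]
  refine Finset.sum_congr rfl fun p _ => ?_
  rw [Finset.mul_sum, Finset.sum_mul]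
  refine Finset.sum_congr rfl fun s _ => ?_
  rw [mul_smul_comm, smul_mul_assoc]
  simp only [map_mul, map_pow, c1_up_xx, mul_assoc]

theorem c1_vh2_eq (N : ℕ) (u : FA K n) (j : Fin n) (a v : FA K n) : vh2 N u j a v =
    ∑ p ∈ Finset.range (N + 1), ∑ s ∈ Finset.range (N + 1),
      ((-1 : K) ^ (p + s) * (N.choose p : K) * (N.choose s : K)) •
        (up (u * xx K j ^ p) * FreeAlgebra.ι K none *
          up (xx K j ^ (3 * N - p - s) * a * xx K j ^ s * v)) := by
  rw [vh2, Pi1_eq, Finset.mul_sum, Finset.sum_mul]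
  refine Finset.sum_congr rfl fun p _ => ?_
  rw [Finset.mul_sum, Finset.sum_mul]
  refine Finset.sum_congr rfl fun s _ => ?_
  rw [mul_smul_comm, smul_mul_assoc]
  simp only [map_mul, map_pow, c1_up_xx, mul_assoc]

theorem opw_vh1 {M N : ℕ} (hNM : N ≤ M) {T I : Submodule K (FA K n)} (hT : IsTSI T)
    (hI : IsTSI I) (u : FA K n) (j : Fin n) (a v i : FA K n) (hi : i ∈ I) (l : Fin n)
    (e : ℕ) (b : K) :
    opw K M (xx K l) e 1 0 b (yy i) (vh1 N u j a v) ∈ Isharp N T I := by
  apply c1_opw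
  · rw [c1_vh1_eq, map_sum]
    refine Submodule.sum_mem _ fun p _ => ?_
    rw [map_sum]
    refine Submodule.sum_mem _ fun s _ => ?_
    rw [map_smul]
    exact Submodule.smul_mem _ _ (c1D_mem hNM hT hI hi l _ b _ _)
  · rw [vh1, map_mul, map_mul, c1_lift_up, c1_lift_up, c1_map_Pi1, c1_lift_up,
      FreeAlgebra.lift_ι_apply, FreeAlgebra.lift_ι_apply]
    exact isharp_tsi hT _ _ _ (Pi1_mem_isharp hi).1

theorem opw_vh2 {M N : ℕ} (hNM : N ≤ M) {T I : Submodule K (FA K n)} (hT : IsTSI T)
    (hI : IsTSI I) (u : FA K n) (j : Fin n) (a v i : FA K n) (hi : i ∈ I) (l : Fin n)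
    (e : ℕ) (b : K) :
    opw K M (xx K l) e 1 0 b (yy i) (vh2 N u j a v) ∈ Isharp N T I := by
  apply c1_opw
  · rw [c1_vh2_eq, map_sum]
    refine Submodule.sum_mem _ fun p _ => ?_
    rw [map_sum]
    refine Submodule.sum_mem _ fun s _ => ?_
    rw [map_smul]
    exact Submodule.smul_mem _ _ (c1D_mem hNM hT hI hi l _ b _ _)
  · rw [vh2, map_mul, map_mul, c1_lift_up, c1_lift_up, c1_map_Pi1, c1_lift_up,
      FreeAlgebra.lift_ι_apply, FreeAlgebra.lift_ι_apply]
    exact isharp_tsi hT _ _ _ (Pi1_mem_isharp hi).2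

theorem theta_vh1 {m M N : ℕ} (hNM : N ≤ M) (cc : ℕ → ℕ → K)
    {T I : Submodule K (FA K n)} (hT : IsTSI T) (hI : IsTSI I) (u : FA K n) (j : Fin n)
    (a v i : FA K n) (hi : i ∈ I) (l : Fin n) :
    theta K m M cc (xx K l) (yy i) (vh1 N u j a v) ∈ Isharp N T I := by
  rw [theta]
  exact Submodule.sum_mem _ fun s _ => Submodule.smul_mem _ _ (Submodule.sum_mem _ fun t _ =>
    Submodule.smul_mem _ _ (opw_vh1 hNM hT hI u j a v i hi l _ _))

theorem theta_vh2 {m M N : ℕ} (hNM : N ≤ M) (cc : ℕ → ℕ → K)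
    {T I : Submodule K (FA K n)} (hT : IsTSI T) (hI : IsTSI I) (u : FA K n) (j : Fin n)
    (a v i : FA K n) (hi : i ∈ I) (l : Fin n) :
    theta K m M cc (xx K l) (yy i) (vh2 N u j a v) ∈ Isharp N T I := by
  rw [theta]
  exact Submodule.sum_mem _ fun s _ => Submodule.smul_mem _ _ (Submodule.sum_mem _ fun t _ =>
    Submodule.smul_mem _ _ (opw_vh2 hNM hT hI u j a v i hi l _ _))

end Pool.Agent.H.MP_f5ceca_al.G
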