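import Pool.Agent.H.MP_f5ceca_al.G.D2a

/-!
Job D2: near finiteness: `I / I#` is a Noetherian bimodule.

The pair `U' ≤ U` is noetherian if `NP U' U` holds (file D2a, where (i) transitivity `NP_trans` and
(ii) the criterion `NP_step` are proved).

(iii) Filtration: `U c = Isharp N T I ⊔ span {a * i * b | a ∈ Fil p, b ∈ Fil s, p + s = c, i ∈ I}`.
`U 0 = I` (`Fil 0 = ⊤`), `U (2 m) = I#` because `p ≥ m` or `s ≥ m`, `Fil m ≤ T`;
`U (c + 1) ≤ U c`; `C * U c ≤ U (c + 1)` and `U c * C ≤ U (c + 1)` (`I#` is an ideal and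
`C * I# ≤ I#`).

(iv) For every `c` there is a finite `g_c ⊆ U c ∩ I` with `U c ≤ U (c + 1) ⊔ tspan g_c`, by
induction on `c`. `c = 0`: `g_0 = R`. Step: let `g = g_c`. `U (c + 1)` is spanned modulo `I#` by the
`a * i * b` as above with `p + s = c + 1`, so with `p ≥ 1` (or `s ≥ 1`); write
`a = ∑ a1 * cm q * a2` with `a1` arbitrary, `a2 ∈ Fil (p - 1)` (`Fil` is spanned by the `NW`,
`NW_cons`); `a2 * i * b ∈ U c ≤ U (c + 1) ⊔ tspan g`, and `cm q * U (c + 1) ≤ U (c + 2)`. So modulo
`U (c + 2)` the ideal `U (c + 1)` is generated by the elements `cm q * w * g0` and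
`g0 * w * cm q` with `g0 ∈ g`, `w` a word (the second for `s ≥ 1`). Modulo `U (c + 2)` the
word `w` may be sorted (the difference is in `C`, and `cm q * C * g0 ⊆ C * C * U c ⊆ U (c + 2)`),
also with any letter at the last place. It remains to bound the exponents of the letters in `w`: let
`w` contain the letter `x_j` at least `3 N` times, then
`cm q * w * g0 ≡ a * x_j ^ (3 N) * g0` with `a = cm q * w'`, and by `Pi1_eq` and
`Pi1 K N (xx K j) a g0 ∈ I#` this is congruent to a combination of the elements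
`x_j ^ p * cm q * w' * x_j ^ (3 N - p - s) * g0 * x_j ^ s`, `(p, s) ≠ (0, 0)`, which lie in the
ideals generated by elements of the same form with a shorter word. Induction on the
length of `w`: `U (c + 1)` is generated modulo `U (c + 2)` by the elements `cm q * w * g0`,
`g0 * w * cm q` with `w` sorted with all exponents `< 3 N`: finitely many. All these elements are
in `I` and in `U (c + 1)`.

The theorem `nf` is the statement that the pair `I# = U (2 m) ≤ U 0 = I` is noetherian.
-/

namespace Pool.Agent.H.MP_f5ceca_al.G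

universe u v w

variable {K : Type u} [Field K] {n : ℕ}

theorem d2_words (x : FA K n) :
    x ∈ Submodule.span K (Set.range (fun l : List (Fin n) => ((l.map (xx K)).prod : FA K n))) := by
  induction x using FreeAlgebra.induction with
  | grade0 r =>
    rw [Algebra.algebraMap_eq_smul_one]
    exact Submodule.smul_mem _ _ (Submodule.subset_span ⟨[], by simp⟩)
  | grade1 j => exact Submodule.subset_span ⟨[j], by simp⟩
  | mul a b ha hb =>
    have h := Submodule.mul_mem_mul ha hb
    rw [Submodule.span_mul_span] at h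
    refine Submodule.span_mono ?_ h
    rintro _ ⟨_, ⟨l, rfl⟩, _, ⟨l', rfl⟩, rfl⟩
    exact ⟨l ++ l', by simp⟩
  | add a b ha hb => exact Submodule.add_mem _ ha hb

theorem d2_mulr {J : Submodule K (FA K n)} (hJ : IsTSI J) {x : FA K n} (hx : x ∈ J)
    (b : FA K n) : x * b ∈ J := by
  have := hJ 1 x b hx
  simpa using this

theorem d2_mull {J : Submodule K (FA K n)} (hJ : IsTSI J) {x : FA K n} (hx : x ∈ J)
    (b : FA K n) : b * x ∈ J := by
  have := hJ b x 1 hx
  simpa using this

/-- The core reduction: bound the exponents. -/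
theorem d2_core {N : ℕ} (hN : 0 < N) {J : Submodule K (FA K n)} (hJ : IsTSI J)
    (f : FA K n →ₗ[K] FA K n)
    (h1 : ∀ x ∈ Fil K n 1, f x ∈ J)
    (h2 : ∀ e : Fin n → ℕ, (∀ j, e j < 3 * N) → f (srt e) ∈ J)
    (h3 : ∀ (j : Fin n) (a : FA K n),
      ∑ p ∈ Finset.range (N + 1), ∑ s ∈ Finset.range (N + 1),
        ((-1 : K) ^ (p + s) * (N.choose p : K) * (N.choose s : K)) •
          (xx K j ^ p * f (a * xx K j ^ (3 * N - p - s)) * xx K j ^ s) ∈ J)
    (x : FA K n) : f x ∈ J := by
  have hcong : ∀ l l' : List (Fin n), l.Perm l' → f (l'.map (xx K)).prod ∈ J →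
      f (l.map (xx K)).prod ∈ J := by
    intro l l' hp h
    have e1 := word_srt (K := K) l
    have e2 := word_srt (K := K) l'
    have e3 : (fun j => l.count j) = (fun j => l'.count j) := funext fun j => hp.count_eq j
    rw [e3] at e1
    have e4 := h1 _ (Submodule.sub_mem _ e1 e2)
    have e5 : (l.map (xx K)).prod = ((l.map (xx K)).prod - srt (fun j => l'.count j) -
      ((l'.map (xx K)).prod - srt (fun j => l'.count j))) + (l'.map (xx K)).prod := by abel
    rw [e5, map_add]
    exact Submodule.add_mem _ e4 h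
  have hword : ∀ (d : ℕ) (l : List (Fin n)), l.length = d → f (l.map (xx K)).prod ∈ J := by
    intro d
    induction d using Nat.strong_induction_on with
    | _ d ih =>
      intro l hl
      by_cases hc : ∀ j, l.count j < 3 * N
      · have e1 := h1 _ (word_srt (K := K) l)
        have e2 := h2 _ hc
        have e3 : (l.map (xx K)).prod = ((l.map (xx K)).prod - srt (fun j => l.count j)) +
          srt (fun j => l.count j) := by abel
        rw [e3, map_add]
        exact Submodule.add_mem _ e1 e2
      · push Not at hc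
        obtain ⟨j, hj⟩ := hc
        have hsub : List.Sublist (List.replicate (3 * N) j) l :=
          List.replicate_sublist_iff.mpr hj
        obtain ⟨l', hl'⟩ := hsub.exists_perm_append
        have hlen : l.length = l'.length + 3 * N := by
          have := hl'.length_eq
          simp at this
          omega
        have hp : l.Perm (l' ++ List.replicate (3 * N) j) := hl'.trans List.perm_append_comm
        refine hcong _ _ hp ?_
        have hmap : ∀ k : ℕ, ((l' ++ List.replicate k j).map (xx K)).prod =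
            (l'.map (xx K)).prod * xx K j ^ k := by
          intro k
          simp
        have hrest : ∀ p ∈ Finset.range (N + 1), ∀ s ∈ Finset.range (N + 1), 0 < p + s →
            xx K j ^ p * f ((l'.map (xx K)).prod * xx K j ^ (3 * N - p - s)) * xx K j ^ s
              ∈ J := by
          intro p hp s hs hps
          refine hJ _ _ _ ?_
          rw [← hmap]
          refine ih (l' ++ List.replicate (3 * N - p - s) j).length ?_ _ rfl
          simp only [List.length_append, List.length_replicate]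
          omega
        have hsum := h3 j (l'.map (xx K)).prod
        rw [Finset.sum_range_succ', Finset.sum_range_succ'] at hsum
        have hA : ∑ p ∈ Finset.range N, ∑ s ∈ Finset.range (N + 1),
            ((-1 : K) ^ (p + 1 + s) * (N.choose (p + 1) : K) * (N.choose s : K)) •
              (xx K j ^ (p + 1) * f ((l'.map (xx K)).prod * xx K j ^ (3 * N - (p + 1) - s)) *
                xx K j ^ s) ∈ J := by
          refine Submodule.sum_mem _ fun p hp => Submodule.sum_mem _ fun s hs =>
            Submodule.smul_mem _ _ (hrest (p + 1) ?_ s hs (by omega))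
          simp only [Finset.mem_range] at hp ⊢
          omega
        have hB : ∑ s ∈ Finset.range N,
            ((-1 : K) ^ (0 + (s + 1)) * (N.choose 0 : K) * (N.choose (s + 1) : K)) •
              (xx K j ^ 0 * f ((l'.map (xx K)).prod * xx K j ^ (3 * N - 0 - (s + 1))) *
                xx K j ^ (s + 1)) ∈ J := by
          refine Submodule.sum_mem _ fun s hs =>
            Submodule.smul_mem _ _ (hrest 0 (by simp) (s + 1) ?_ (by omega))
          simp only [Finset.mem_range] at hs ⊢
          omega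
        have hC := (Submodule.add_mem_iff_right _ hB).mp
          ((Submodule.add_mem_iff_right _ hA).mp hsum)
        rw [hmap]
        simpa using hC
  have hspan := d2_words x
  have hle : Submodule.span K (Set.range (fun l : List (Fin n) =>
      ((l.map (xx K)).prod : FA K n))) ≤ J.comap f := by
    rw [Submodule.span_le]
    rintro _ ⟨l, rfl⟩
    exact hword _ l rfl
  exact hle hspan

/-- The filtration. -/
def d2_V (I : Submodule K (FA K n)) (c : ℕ) : Submodule K (FA K n) :=
  Submodule.span K {x | ∃ (p s : ℕ) (a i b : FA K n), p + s = c ∧ a ∈ Fil K n p ∧ i ∈ I ∧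
    b ∈ Fil K n s ∧ x = a * i * b}

theorem d2_V_mem {I : Submodule K (FA K n)} {p s : ℕ} {a i b : FA K n}
    (ha : a ∈ Fil K n p) (hi : i ∈ I) (hb : b ∈ Fil K n s) : a * i * b ∈ d2_V I (p + s) :=
  Submodule.subset_span ⟨p, s, a, i, b, rfl, ha, hi, hb, rfl⟩

theorem d2_V_tsi (I : Submodule K (FA K n)) (c : ℕ) : IsTSI (d2_V I c) := by
  intro x u y hu
  induction hu using Submodule.span_induction with
  | mem z hz =>
    obtain ⟨p, s, a, i, b, hps, ha, hi, hb, rfl⟩ := hz
    have e : x * (a * i * b) * y = (x * a) * i * (b * y) := by noncomm_ring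
    rw [e, ← hps]
    exact d2_V_mem (d2_mull (Fil_tsi p) ha x) hi (d2_mulr (Fil_tsi s) hb y)
  | zero => simp
  | add z w _ _ hz hw => rw [mul_add, add_mul]; exact Submodule.add_mem _ hz hw
  | smul r z _ hz =>
    rw [mul_smul_comm, smul_mul_assoc]
    exact Submodule.smul_mem _ _ hz

theorem d2_V_succ_le (I : Submodule K (FA K n)) (c : ℕ) : d2_V I (c + 1) ≤ d2_V I c := by
  rw [d2_V, Submodule.span_le]
  rintro _ ⟨p, s, a, i, b, hps, ha, hi, hb, rfl⟩
  rcases Nat.eq_zero_or_pos p with hp | hp
  · subst hp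
    obtain ⟨s, rfl⟩ : ∃ t, s = t + 1 := ⟨s - 1, by omega⟩
    have := d2_V_mem ha hi (Fil_succ_le s hb)
    have e : 0 + s = c := by omega
    rw [e] at this
    exact this
  · obtain ⟨p, rfl⟩ : ∃ t, p = t + 1 := ⟨p - 1, by omega⟩
    have := d2_V_mem (Fil_succ_le p ha) hi hb
    have e : p + s = c := by omega
    rw [e] at this
    exact this

theorem d2_V_mul {I : Submodule K (FA K n)} {k c : ℕ} {x y : FA K n} (hx : x ∈ Fil K n k)
    (hy : y ∈ d2_V I c) : x * y ∈ d2_V I (c + k) ∧ y * x ∈ d2_V I (c + k) := by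
  induction hy using Submodule.span_induction with
  | mem z hz =>
    obtain ⟨p, s, a, i, b, hps, ha, hi, hb, rfl⟩ := hz
    constructor
    · have e : x * (a * i * b) = (x * a) * i * b := by noncomm_ring
      have e2 : c + k = (k + p) + s := by omega
      rw [e, e2]
      exact d2_V_mem (Fil_mul hx ha) hi hb
    · have e : (a * i * b) * x = a * i * (b * x) := by noncomm_ring
      have e2 : c + k = p + (s + k) := by omega
      rw [e, e2]
      exact d2_V_mem ha hi (Fil_mul hb hx)
  | zero => simp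
  | add z w _ _ hz hw =>
    rw [mul_add, add_mul]
    exact ⟨Submodule.add_mem _ hz.1 hw.1, Submodule.add_mem _ hz.2 hw.2⟩
  | smul r z _ hz =>
    rw [mul_smul_comm, smul_mul_assoc]
    exact ⟨Submodule.smul_mem _ _ hz.1, Submodule.smul_mem _ _ hz.2⟩

theorem d2_V_zero {I : Submodule K (FA K n)} (hI : IsTSI I) : d2_V I 0 = I := by
  apply le_antisymm
  · rw [d2_V, Submodule.span_le]
    rintro _ ⟨p, s, a, i, b, hps, ha, hi, hb, rfl⟩
    exact hI a i b hi
  · intro x hx
    have h1 : (1 : FA K n) ∈ Fil K n 0 := by rw [Fil_zero]; trivial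
    have := d2_V_mem h1 hx h1
    simpa using this

theorem d2_V_le {I : Submodule K (FA K n)} (hI : IsTSI I) (c : ℕ) : d2_V I c ≤ I := by
  induction c with
  | zero => exact (d2_V_zero hI).le
  | succ c ih => exact (d2_V_succ_le I c).trans ih

theorem d2_V_top {m : ℕ} {T I : Submodule K (FA K n)} (hT : IsTSI T) (hnil : Fil K n m ≤ T) :
    d2_V I (2 * m) ≤ T := by
  rw [d2_V, Submodule.span_le]
  rintro _ ⟨p, s, a, i, b, hps, ha, hi, hb, rfl⟩
  rcases le_or_gt m p with hp | hp
  · have h := hnil (Fil_anti hp ha)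
    have := hT 1 a (i * b) h
    simpa [mul_assoc] using this
  · have h := hnil (Fil_anti (show m ≤ s by omega) hb)
    exact d2_mull hT h _

theorem d2_cm_mem (q : Fin n × Fin n) : cm K q ∈ Fil K n 1 := comm_mem _ _

theorem d2_fil_left {k : ℕ} {x : FA K n} (hx : x ∈ Fil K n (k + 1)) :
    x ∈ Submodule.span K {y | ∃ (a : FA K n) (q : Fin n × Fin n) (b : FA K n),
      b ∈ Fil K n k ∧ y = a * cm K q * b} := by
  refine (Submodule.span_le.mpr ?_ : Fil K n (k + 1) ≤ _) hx
  rintro _ ⟨b, c, rfl⟩
  exact Submodule.subset_span ⟨_, _, _, NW_mem _ _, NW_cons b c⟩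

theorem d2_fil_right {k : ℕ} {x : FA K n} (hx : x ∈ Fil K n (k + 1)) :
    x ∈ Submodule.span K {y | ∃ (a : FA K n) (q : Fin n × Fin n) (b : FA K n),
      b ∈ Fil K n k ∧ y = b * cm K q * a} := by
  refine (Submodule.span_le.mpr ?_ : Fil K n (k + 1) ≤ _) hx
  rintro _ ⟨b, c, rfl⟩
  refine Submodule.subset_span ⟨b (Fin.last (k + 1)), c (Fin.last k),
    NW (fun i => b i.castSucc) (fun i => c i.castSucc), NW_mem _ _, ?_⟩
  have e0 : (Fin.last k).succ = Fin.last (k + 1) := rfl
  simp only [NW, List.ofFn_succ', List.concat_eq_append, List.prod_append, List.prod_cons,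
    List.prod_nil, mul_one, e0]
  rw [mul_assoc, mul_assoc]
  rfl

/-- The basic generators of the next layer. -/
noncomputable def d2_gen (N : ℕ) (g : Finset (FA K n)) : Finset (FA K n) := by
  classical
  exact ((Finset.univ : Finset ((Fin n × Fin n) × (Fin n → Fin (3 * N)))) ×ˢ g).image
      (fun t => cm K t.1.1 * srt (fun j => (t.1.2 j : ℕ)) * t.2) ∪
    ((Finset.univ : Finset ((Fin n × Fin n) × (Fin n → Fin (3 * N)))) ×ˢ g).image
      (fun t => t.2 * srt (fun j => (t.1.2 j : ℕ)) * cm K t.1.1)

theorem d2_gen_left {N : ℕ} {g : Finset (FA K n)} (q : Fin n × Fin n) (e : Fin n → ℕ)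
    (he : ∀ j, e j < 3 * N) {y : FA K n} (hy : y ∈ g) :
    cm K q * srt e * y ∈ d2_gen N g := by
  classical
  rw [d2_gen, Finset.mem_union]
  left
  rw [Finset.mem_image]
  exact ⟨((q, fun j => ⟨e j, he j⟩), y), by simp [hy], rfl⟩

theorem d2_gen_right {N : ℕ} {g : Finset (FA K n)} (q : Fin n × Fin n) (e : Fin n → ℕ)
    (he : ∀ j, e j < 3 * N) {y : FA K n} (hy : y ∈ g) :
    y * srt e * cm K q ∈ d2_gen N g := by
  classical
  rw [d2_gen, Finset.mem_union]
  right
  rw [Finset.mem_image]
  exact ⟨((q, fun j => ⟨e j, he j⟩), y), by simp [hy], rfl⟩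

theorem d2_gen_cases {N : ℕ} {g : Finset (FA K n)} {x : FA K n} (hx : x ∈ d2_gen N g) :
    ∃ (q : Fin n × Fin n) (w y : FA K n), y ∈ g ∧ (x = cm K q * w * y ∨ x = y * w * cm K q) := by
  classical
  rw [d2_gen, Finset.mem_union, Finset.mem_image, Finset.mem_image] at hx
  rcases hx with ⟨t, ht, rfl⟩ | ⟨t, ht, rfl⟩
  · exact ⟨t.1.1, _, t.2, (Finset.mem_product.mp ht).2, Or.inl rfl⟩
  · exact ⟨t.1.1, _, t.2, (Finset.mem_product.mp ht).2, Or.inr rfl⟩

theorem d2_left {N : ℕ} (hN : 0 < N) {T I J : Submodule K (FA K n)} (hJ : IsTSI J)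
    (hSJ : Isharp N T I ≤ J) {c : ℕ} (hVJ : d2_V I (c + 2) ≤ J)
    {y : FA K n} (hyI : y ∈ I) (hy : y ∈ d2_V I c) (q : Fin n × Fin n)
    (h2 : ∀ e : Fin n → ℕ, (∀ j, e j < 3 * N) → cm K q * srt e * y ∈ J) (w : FA K n) :
    cm K q * w * y ∈ J := by
  let f : FA K n →ₗ[K] FA K n := (LinearMap.mulRight K y).comp (LinearMap.mulLeft K (cm K q))
  have hf : ∀ w, f w = cm K q * w * y := fun w => rfl
  rw [← hf]
  refine d2_core hN hJ f ?_ (fun e he => by rw [hf]; exact h2 e he) ?_ w
  · intro x hx
    rw [hf]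
    exact hVJ (d2_V_mul (Fil_mul (d2_cm_mem q) hx) hy).1
  · intro j a
    have h := (Pi1_mem_isharp (N := N) (T := T) (I := I) (j := j) (a := cm K q * a) hyI).1
    rw [Pi1_eq] at h
    have h' := hSJ h
    convert h' using 1
    refine Finset.sum_congr rfl fun p hp => Finset.sum_congr rfl fun s hs => ?_
    congr 1
    rw [hf]
    noncomm_ring

theorem d2_right {N : ℕ} (hN : 0 < N) {T I J : Submodule K (FA K n)} (hJ : IsTSI J)
    (hSJ : Isharp N T I ≤ J) {c : ℕ} (hVJ : d2_V I (c + 2) ≤ J)
    {y : FA K n} (hyI : y ∈ I) (hy : y ∈ d2_V I c) (q : Fin n × Fin n)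
    (h2 : ∀ e : Fin n → ℕ, (∀ j, e j < 3 * N) → y * srt e * cm K q ∈ J) (w : FA K n) :
    y * w * cm K q ∈ J := by
  let f : FA K n →ₗ[K] FA K n := (LinearMap.mulRight K (cm K q)).comp (LinearMap.mulLeft K y)
  have hf : ∀ w, f w = y * w * cm K q := fun w => rfl
  have h1 : ∀ x ∈ Fil K n 1, f x ∈ J := by
    intro x hx
    rw [hf, mul_assoc]
    exact hVJ (d2_V_mul (Fil_mul hx (d2_cm_mem q)) hy).2
  rw [← hf]
  refine d2_core hN hJ f h1 (fun e he => by rw [hf]; exact h2 e he) ?_ w
  intro j a
  have h := (Pi1_mem_isharp (N := N) (T := T) (I := I) (j := j) (a := a * cm K q) hyI).2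
  rw [Pi1_eq] at h
  have h' := hSJ h
  have hd : ∑ p ∈ Finset.range (N + 1), ∑ s ∈ Finset.range (N + 1),
      ((-1 : K) ^ (p + s) * (N.choose p : K) * (N.choose s : K)) •
        (xx K j ^ p * f (a * xx K j ^ (3 * N - p - s) - xx K j ^ (3 * N - p - s) * a) *
          xx K j ^ s) ∈ J := by
    refine Submodule.sum_mem _ fun p hp => Submodule.sum_mem _ fun s hs =>
      Submodule.smul_mem _ _ (hJ _ _ _ (h1 _ (comm_mem _ _)))
  convert Submodule.add_mem _ hd h' using 1
  rw [← Finset.sum_add_distrib]
  refine Finset.sum_congr rfl fun p hp => ?_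
  rw [← Finset.sum_add_distrib]
  refine Finset.sum_congr rfl fun s hs => ?_
  rw [← smul_add]
  congr 1
  rw [hf, hf]
  noncomm_ring

theorem nf {m N : ℕ} {T : Submodule K (FA K n)} (hT : IsTSI T) (hnil : Fil K n m ≤ T)
    (hm : 0 < m) (hN : 0 < N)
    (R : Finset (FA K n)) (W : Submodule K (FA K n)) (hW : IsTSI W)
    (h1 : Isharp N T (T ⊔ tspan K (R : Set (FA K n))) ≤ W)
    (h2 : W ≤ T ⊔ tspan K (R : Set (FA K n))) :
    ∃ G : Finset (FA K n), (G : Set (FA K n)) ⊆ W ∧
      W ≤ Isharp N T (T ⊔ tspan K (R : Set (FA K n))) ⊔ tspan K (G : Set (FA K n)) := by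
  set I : Submodule K (FA K n) := T ⊔ tspan K (R : Set (FA K n)) with hIdef
  have hI : IsTSI I := isTSI_sup hT (tspan_tsi _)
  have hTI : T ≤ I := le_sup_left
  set S : Submodule K (FA K n) := Isharp N T I with hSdef
  have hS : IsTSI S := isharp_tsi hT
  have hTS : T ≤ S := T_le_isharp
  have hSI : S ≤ I := isharp_le hI hTI
  have hU : ∀ c, IsTSI (S ⊔ d2_V I c) := fun c => isTSI_sup hS (d2_V_tsi I c)
  have hfin : ∀ c, ∃ g : Finset (FA K n), (g : Set (FA K n)) ⊆ d2_V I c ∧
      d2_V I c ≤ S ⊔ d2_V I (c + 1) ⊔ tspan K (g : Set (FA K n)) := by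
    intro c
    induction c with
    | zero =>
      refine ⟨R, ?_, ?_⟩
      · rw [d2_V_zero hI]
        exact (subset_tspan _).trans (show tspan K (R : Set (FA K n)) ≤ I from le_sup_right)
      · rw [d2_V_zero hI]
        refine sup_le ?_ le_sup_right
        exact (hTS.trans le_sup_left).trans le_sup_left
    | succ c ih =>
      obtain ⟨g, hg, hgen⟩ := ih
      refine ⟨d2_gen N g, ?_, ?_⟩
      · intro x hx
        obtain ⟨q, w, y, hy, h | h⟩ := d2_gen_cases hx
        · rw [h]
          have hy' := hg hy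
          have e : cm K q * w ∈ Fil K n 1 := d2_mulr (Fil_tsi 1) (d2_cm_mem q) w
          exact (d2_V_mul e hy').1
        · rw [h, mul_assoc]
          have hy' := hg hy
          have e : w * cm K q ∈ Fil K n 1 := d2_mull (Fil_tsi 1) (d2_cm_mem q) w
          exact (d2_V_mul e hy').2
      · set J : Submodule K (FA K n) :=
          S ⊔ d2_V I (c + 1 + 1) ⊔ tspan K (d2_gen N g : Set (FA K n)) with hJdef
        have hJ : IsTSI J := isTSI_sup (hU _) (tspan_tsi _)
        have hSJ : S ≤ J := le_sup_left.trans le_sup_left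
        have hVJ : d2_V I (c + 2) ≤ J := le_sup_right.trans le_sup_left
        have hGJ : ∀ x ∈ d2_gen N g, x ∈ J := fun x hx =>
          (le_sup_right : _ ≤ J) (subset_tspan _ hx)
        have hL : ∀ (q : Fin n × Fin n) (z : FA K n), z ∈ d2_V I c → cm K q * z ∈ J := by
          intro q z hz
          have hz' := hgen hz
          obtain ⟨z1, hz1, z2, hz2, rfl⟩ := Submodule.mem_sup.mp hz'
          obtain ⟨z3, hz3, z4, hz4, rfl⟩ := Submodule.mem_sup.mp hz1
          rw [mul_add, mul_add]
          refine Submodule.add_mem _ (Submodule.add_mem _ (hSJ (d2_mull hS hz3 _))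
            (hVJ (d2_V_mul (d2_cm_mem q) hz4).1)) ?_
          refine (Submodule.span_le.mpr ?_ :
            tspan K (g : Set (FA K n)) ≤ J.comap (LinearMap.mulLeft K (cm K q))) hz2
          rintro _ ⟨a, b, y, hy, rfl⟩
          have e : cm K q * (a * y * b) = (cm K q * a * y) * b := by noncomm_ring
          show cm K q * (a * y * b) ∈ J
          rw [e]
          refine d2_mulr hJ ?_ b
          have hyV := hg hy
          exact d2_left hN hJ hSJ hVJ (d2_V_le hI c hyV) hyV q
            (fun e he => hGJ _ (d2_gen_left q e he hy)) a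
        have hRt : ∀ (q : Fin n × Fin n) (z : FA K n), z ∈ d2_V I c → z * cm K q ∈ J := by
          intro q z hz
          have hz' := hgen hz
          obtain ⟨z1, hz1, z2, hz2, rfl⟩ := Submodule.mem_sup.mp hz'
          obtain ⟨z3, hz3, z4, hz4, rfl⟩ := Submodule.mem_sup.mp hz1
          rw [add_mul, add_mul]
          refine Submodule.add_mem _ (Submodule.add_mem _ (hSJ (d2_mulr hS hz3 _))
            (hVJ (d2_V_mul (d2_cm_mem q) hz4).2)) ?_
          refine (Submodule.span_le.mpr ?_ :
            tspan K (g : Set (FA K n)) ≤ J.comap (LinearMap.mulRight K (cm K q))) hz2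
          rintro _ ⟨a, b, y, hy, rfl⟩
          have e : (a * y * b) * cm K q = a * (y * b * cm K q) := by noncomm_ring
          show (a * y * b) * cm K q ∈ J
          rw [e]
          refine d2_mull hJ ?_ a
          have hyV := hg hy
          exact d2_right hN hJ hSJ hVJ (d2_V_le hI c hyV) hyV q
            (fun e he => hGJ _ (d2_gen_right q e he hy)) b
        rw [d2_V, Submodule.span_le]
        rintro _ ⟨p, s, a, i, b, hps, ha, hi, hb, rfl⟩
        rcases Nat.eq_zero_or_pos p with hp | hp
        · subst hp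
          obtain ⟨s, rfl⟩ : ∃ t, s = t + 1 := ⟨s - 1, by omega⟩
          have hb' := d2_fil_right hb
          refine (Submodule.span_le.mpr ?_ :
            _ ≤ J.comap (LinearMap.mulLeft K (a * i))) hb'
          rintro _ ⟨u, q, v, hv, rfl⟩
          show (a * i) * (v * cm K q * u) ∈ J
          have e : (a * i) * (v * cm K q * u) = ((a * i * v) * cm K q) * u := by noncomm_ring
          rw [e]
          refine d2_mulr hJ (hRt q _ ?_) u
          have := d2_V_mem ha hi hv
          have e2 : 0 + s = c := by omega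
          rwa [e2] at this
        · obtain ⟨p, rfl⟩ : ∃ t, p = t + 1 := ⟨p - 1, by omega⟩
          have ha' := d2_fil_left ha
          show a * i * b ∈ J
          rw [mul_assoc]
          refine (Submodule.span_le.mpr ?_ :
            _ ≤ J.comap (LinearMap.mulRight K (i * b))) ha'
          rintro _ ⟨u, q, v, hv, rfl⟩
          show (u * cm K q * v) * (i * b) ∈ J
          have e : (u * cm K q * v) * (i * b) = u * (cm K q * (v * i * b)) := by noncomm_ring
          rw [e]
          refine d2_mull hJ (hL q _ ?_) u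
          have := d2_V_mem hv hi hb
          have e2 : p + s = c := by omega
          rwa [e2] at this
  have hNP : ∀ c, NP (S ⊔ d2_V I (c + 1)) (S ⊔ d2_V I c) := by
    intro c
    obtain ⟨g, hg, hgen⟩ := hfin c
    refine NP_step (hU c) (hU (c + 1)) ⟨g, ?_, ?_⟩ ?_
    · exact hg.trans (show d2_V I c ≤ S ⊔ d2_V I c from le_sup_right)
    · exact sup_le (le_sup_left.trans le_sup_left) hgen
    · intro x hx y hy
      obtain ⟨y1, hy1, y2, hy2, rfl⟩ := Submodule.mem_sup.mp hy
      have h3 := d2_V_mul hx hy2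
      refine ⟨?_, ?_⟩
      · rw [mul_add]
        exact Submodule.add_mem _ ((le_sup_left : S ≤ _) (d2_mull hS hy1 _))
          ((le_sup_right : d2_V I (c + 1) ≤ _) h3.1)
      · rw [add_mul]
        exact Submodule.add_mem _ ((le_sup_left : S ≤ _) (d2_mulr hS hy1 _))
          ((le_sup_right : d2_V I (c + 1) ≤ _) h3.2)
  have hanti : ∀ c, S ⊔ d2_V I (c + 1) ≤ S ⊔ d2_V I c := fun c =>
    sup_le_sup_left (d2_V_succ_le I c) S
  have hle0 : ∀ c, S ⊔ d2_V I c ≤ S ⊔ d2_V I 0 := by
    intro c
    induction c with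
    | zero => exact le_rfl
    | succ c ih => exact (hanti c).trans ih
  have hchain : ∀ c, NP (S ⊔ d2_V I c) (S ⊔ d2_V I 0) := by
    intro c
    induction c with
    | zero => exact NP_refl _
    | succ c ih => exact NP_trans (hU c) (hanti c) (hle0 c) (hNP c) ih
  have hfinal := hchain (2 * m)
  have e1 : S ⊔ d2_V I (2 * m) = S := sup_eq_left.mpr ((d2_V_top hT hnil).trans hTS)
  have e2 : S ⊔ d2_V I 0 = I := by
    rw [d2_V_zero hI]
    exact sup_eq_right.mpr hSI
  rw [e1, e2] at hfinal
  exact hfinal W hW h1 h2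

end Pool.Agent.H.MP_f5ceca_al.G
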