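import Pool.Agent.H.MP_f5ceca_al.G.D1
import Pool.Agent.H.MP_f5ceca_al.G.A2

/-!
Job D2a: noetherian pairs of ideals.

Say that a pair `U' ≤ U` of two-sided ideals (`IsTSI`) is *noetherian* if for every two-sided ideal
`W` with `U' ≤ W ≤ U` there is a finite `G ⊆ W` with `W ≤ U' ⊔ tspan G`.

(i) Transitivity: if `U'' ≤ U' ≤ U` and both pairs are noetherian, then so is `U'' ≤ U`
(apply the two statements to `W ⊔ U'` - whose generators can be corrected by elements of `U'` so
that they lie in `W` - and to `W ⊓ U'`).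

(ii) If there is a finite set `g` with `U ≤ U' ⊔ tspan g`, `g ⊆ U`, and `C * U ≤ U'`,
`U * C ≤ U'` where `C = Fil 1` (i.e. `∀ x ∈ Fil K n 1, ∀ y ∈ U, x * y ∈ U' ∧ y * x ∈ U'`), then the pair is
noetherian. Proof: let `P = MvPolynomial (Fin 2 × Fin n) K` (Noetherian) and let
`φ : (g → P) → FA K n` be the `K`-linear map which sends the monomial with exponents
`(α, β)` at `g0` to `srt α * g0 * srt β`. Modulo `U'` it satisfies
`φ (X (0, j) • p) ≡ x_j * φ p`, `φ (X (1, j) • p) ≡ φ p * x_j` (as words may be sorted modulo `C`).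
So the preimage of `W` is a `P`-submodule of a Noetherian module, hence generated by finitely many
elements; their images `G ⊆ W` satisfy `W ≤ U' ⊔ tspan G`, since `φ` is surjective
modulo `U'` (`a * g0 * b ≡ φ (...)` by sorting).
-/

namespace Pool.Agent.H.MP_f5ceca_al.G

universe u v w

variable {K : Type u} [Field K] {n : ℕ}

/-- noetherian pairs -/
def NP (U' U : Submodule K (FA K n)) : Prop :=
  ∀ W : Submodule K (FA K n), IsTSI W → U' ≤ W → W ≤ U →
    ∃ G : Finset (FA K n), (G : Set (FA K n)) ⊆ W ∧ W ≤ U' ⊔ tspan K (G : Set (FA K n))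

theorem NP_refl (U : Submodule K (FA K n)) : NP U U := by
  intro W _ _ hW
  exact ⟨∅, by simp, hW.trans le_sup_left⟩

theorem NP_trans {U U' U'' : Submodule K (FA K n)} (hU' : IsTSI U') (h1 : U'' ≤ U')
    (h2 : U' ≤ U) (h : NP U'' U') (h' : NP U' U) : NP U'' U := by
  classical
  intro W hW hUW hWU
  obtain ⟨G1, hG1, hG1'⟩ := h' (W ⊔ U') (isTSI_sup hW hU') le_sup_right (sup_le hWU h2)
  obtain ⟨G2, hG2, hG2'⟩ := h (W ⊓ U') (isTSI_inf hW hU') (le_inf hUW h1) inf_le_right
  have hdec : ∀ x : FA K n, ∃ w : FA K n, x ∈ G1 → w ∈ W ∧ x - w ∈ U' := by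
    intro x
    by_cases hx : x ∈ G1
    · obtain ⟨w, hw, u, hu, hwu⟩ := Submodule.mem_sup.1 (hG1 hx)
      refine ⟨w, fun _ => ⟨hw, ?_⟩⟩
      rw [← hwu, add_sub_cancel_left]
      exact hu
    · exact ⟨0, fun h => absurd h hx⟩
  choose w hw using hdec
  have hG1W : ((G1.image w : Finset (FA K n)) : Set (FA K n)) ⊆ W := by
    intro x hx
    obtain ⟨y, hy, rfl⟩ := Finset.mem_image.1 hx
    exact (hw y hy).1
  have hle : tspan K (G1 : Set (FA K n)) ≤
      U' ⊔ tspan K ((G1.image w : Finset (FA K n)) : Set (FA K n)) := by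
    refine tspan_le (isTSI_sup hU' (tspan_tsi _)) fun x hx => ?_
    have h3 : x = (x - w x) + w x := by rw [sub_add_cancel]
    rw [h3]
    exact Submodule.add_mem_sup (hw x hx).2
      (subset_tspan _ (Finset.mem_coe.2 (Finset.mem_image_of_mem w hx)))
  refine ⟨G1.image w ∪ G2, ?_, ?_⟩
  · intro x hx
    rcases Finset.mem_union.1 hx with hx | hx
    · exact hG1W hx
    · exact (hG2 hx).1
  · intro x hx
    have h3 : x ∈ U' ⊔ tspan K ((G1.image w : Finset (FA K n)) : Set (FA K n)) := by
      have h4 := hG1' (Submodule.mem_sup_left hx)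
      exact (sup_le le_sup_left hle) h4
    obtain ⟨u, hu, s, hs, hus⟩ := Submodule.mem_sup.1 h3
    have hsW : s ∈ W := (tspan_le hW hG1W) hs
    have huW : u ∈ W := by
      have h4 : u = x - s := by rw [← hus, add_sub_cancel_right]
      rw [h4]
      exact W.sub_mem hx hsW
    have h5 := hG2' ⟨huW, hu⟩
    rw [Finset.coe_union, tspan_union]
    rw [← hus]
    refine Submodule.add_mem _ ?_ (Submodule.mem_sup_right (Submodule.mem_sup_left hs))
    have h6 : U'' ⊔ tspan K (G2 : Set (FA K n)) ≤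
        U'' ⊔ (tspan K ((G1.image w : Finset (FA K n)) : Set (FA K n)) ⊔
          tspan K (G2 : Set (FA K n))) :=
      sup_le le_sup_left (le_sup_right.trans le_sup_right)
    exact h6 h5

theorem d2a_left (α : Fin n → ℕ) (j : Fin n) :
    xx K j * srt α - srt (fun i => (if j = i then 1 else 0) + α i) ∈ Fil K n 1 := by
  classical
  have h := Lam_left (K := K) (k := 0) (fun i => Fin.elim0 i)
    (MvPolynomial.monomial (Finsupp.equivFunOnFinite.symm fun p : Fin (0 + 1) × Fin n => α p.2) 1)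
    (xx K j)
  have h2 : (ab 0 (xx K j) : RR K n 0) * MvPolynomial.monomial
      (Finsupp.equivFunOnFinite.symm fun p : Fin (0 + 1) × Fin n => α p.2) 1 =
      MvPolynomial.monomial (Finsupp.single ((0 : Fin (0 + 1)), j) 1 +
        Finsupp.equivFunOnFinite.symm fun p : Fin (0 + 1) × Fin n => α p.2) 1 := by
    rw [ab, FreeAlgebra.lift_ι_apply, MvPolynomial.X, MvPolynomial.monomial_mul, one_mul]
  rw [h2, Lam_monomial, Lam_monomial, NW_zero, NW_zero] at h
  have h3 : (fun i : Fin n => (Finsupp.single ((0 : Fin (0 + 1)), j) 1 +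
        (Finsupp.equivFunOnFinite.symm fun p : Fin (0 + 1) × Fin n => α p.2) :
          Fin (0 + 1) × Fin n →₀ ℕ) (0, i)) =
      fun i => (if j = i then 1 else 0) + α i := by
    funext i
    rw [Finsupp.add_apply, Finsupp.single_apply]
    simp
  rw [h3] at h
  exact h

theorem d2a_right (α : Fin n → ℕ) (j : Fin n) :
    srt α * xx K j - srt (fun i => (if j = i then 1 else 0) + α i) ∈ Fil K n 1 := by
  classical
  have h := Lam_right (K := K) (k := 0) (fun i => Fin.elim0 i)
    (MvPolynomial.monomial (Finsupp.equivFunOnFinite.symm fun p : Fin (0 + 1) × Fin n => α p.2) 1)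
    (xx K j)
  have h2 : (ab (Fin.last 0) (xx K j) : RR K n 0) * MvPolynomial.monomial
      (Finsupp.equivFunOnFinite.symm fun p : Fin (0 + 1) × Fin n => α p.2) 1 =
      MvPolynomial.monomial (Finsupp.single ((0 : Fin (0 + 1)), j) 1 +
        Finsupp.equivFunOnFinite.symm fun p : Fin (0 + 1) × Fin n => α p.2) 1 := by
    rw [ab, FreeAlgebra.lift_ι_apply, MvPolynomial.X, MvPolynomial.monomial_mul, one_mul]
    rfl
  rw [h2, Lam_monomial, Lam_monomial, NW_zero, NW_zero] at h
  have h3 : (fun i : Fin n => (Finsupp.single ((0 : Fin (0 + 1)), j) 1 +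
        (Finsupp.equivFunOnFinite.symm fun p : Fin (0 + 1) × Fin n => α p.2) :
          Fin (0 + 1) × Fin n →₀ ℕ) (0, i)) =
      fun i => (if j = i then 1 else 0) + α i := by
    funext i
    rw [Finsupp.add_apply, Finsupp.single_apply]
    simp
  rw [h3] at h
  exact h

/-- the map for one generator -/
noncomputable def d2aPsi (g : FA K n) : MvPolynomial (Fin 2 × Fin n) K →ₗ[K] FA K n :=
  (MvPolynomial.basisMonomials (Fin 2 × Fin n) K).constr K
    fun e => srt (fun j => e (0, j)) * g * srt (fun j => e (1, j))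

theorem d2aPsi_monomial (g : FA K n) (e : Fin 2 × Fin n →₀ ℕ) (a : K) :
    d2aPsi g (MvPolynomial.monomial e a) =
      a • (srt (fun j => e (0, j)) * g * srt (fun j => e (1, j))) := by
  have h1 : MvPolynomial.monomial e a =
      a • (MvPolynomial.basisMonomials (Fin 2 × Fin n) K e) := by
    rw [MvPolynomial.coe_basisMonomials, MvPolynomial.smul_monomial, smul_eq_mul, mul_one]
  rw [h1, map_smul, d2aPsi, Module.Basis.constr_basis]

theorem d2aPsi_left {U U' : Submodule K (FA K n)} (hU' : IsTSI U')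
    (hC : ∀ x ∈ Fil K n 1, ∀ y ∈ U, x * y ∈ U' ∧ y * x ∈ U') {g : FA K n} (hg : g ∈ U)
    (j : Fin n) (p : MvPolynomial (Fin 2 × Fin n) K) :
    d2aPsi g (MvPolynomial.X (0, j) * p) - xx K j * d2aPsi g p ∈ U' := by
  classical
  induction p using MvPolynomial.induction_on' with
  | monomial e a =>
    have h1 : (MvPolynomial.X (0, j) * MvPolynomial.monomial e a :
        MvPolynomial (Fin 2 × Fin n) K) =
        MvPolynomial.monomial (Finsupp.single ((0 : Fin 2), j) 1 + e) a := by
      rw [MvPolynomial.X, MvPolynomial.monomial_mul, one_mul]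
    have h2 : (fun i : Fin n => (Finsupp.single ((0 : Fin 2), j) 1 + e : Fin 2 × Fin n →₀ ℕ) (0, i)) =
        fun i => (if j = i then 1 else 0) + e (0, i) := by
      funext i
      rw [Finsupp.add_apply, Finsupp.single_apply]
      simp
    have h3 : (fun i : Fin n => (Finsupp.single ((0 : Fin 2), j) 1 + e : Fin 2 × Fin n →₀ ℕ) (1, i)) =
        fun i => e (1, i) := by
      funext i
      rw [Finsupp.add_apply, Finsupp.single_apply]
      simp
    rw [h1, d2aPsi_monomial, d2aPsi_monomial, h2, h3, mul_smul_comm, ← smul_sub]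
    apply U'.smul_mem
    have h4 := (hC _ ((Fil K n 1).neg_mem (d2a_left (K := K) (fun i => e (0, i)) j)) g hg).1
    have h5 := hU' 1 _ (srt fun i => e (1, i)) h4
    rw [one_mul, neg_sub, sub_mul, sub_mul] at h5
    rw [← mul_assoc, ← mul_assoc]
    exact h5
  | add p q hp hq =>
    have h1 := U'.add_mem hp hq
    rw [mul_add, map_add, map_add, mul_add]
    rw [sub_add_sub_comm] at h1
    exact h1

theorem d2aPsi_right {U U' : Submodule K (FA K n)} (hU' : IsTSI U')
    (hC : ∀ x ∈ Fil K n 1, ∀ y ∈ U, x * y ∈ U' ∧ y * x ∈ U') {g : FA K n} (hg : g ∈ U)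
    (j : Fin n) (p : MvPolynomial (Fin 2 × Fin n) K) :
    d2aPsi g (MvPolynomial.X (1, j) * p) - d2aPsi g p * xx K j ∈ U' := by
  classical
  induction p using MvPolynomial.induction_on' with
  | monomial e a =>
    have h1 : (MvPolynomial.X (1, j) * MvPolynomial.monomial e a :
        MvPolynomial (Fin 2 × Fin n) K) =
        MvPolynomial.monomial (Finsupp.single ((1 : Fin 2), j) 1 + e) a := by
      rw [MvPolynomial.X, MvPolynomial.monomial_mul, one_mul]
    have h2 : (fun i : Fin n => (Finsupp.single ((1 : Fin 2), j) 1 + e : Fin 2 × Fin n →₀ ℕ) (1, i)) =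
        fun i => (if j = i then 1 else 0) + e (1, i) := by
      funext i
      rw [Finsupp.add_apply, Finsupp.single_apply]
      simp
    have h3 : (fun i : Fin n => (Finsupp.single ((1 : Fin 2), j) 1 + e : Fin 2 × Fin n →₀ ℕ) (0, i)) =
        fun i => e (0, i) := by
      funext i
      rw [Finsupp.add_apply, Finsupp.single_apply]
      simp
    rw [h1, d2aPsi_monomial, d2aPsi_monomial, h2, h3, smul_mul_assoc, ← smul_sub]
    apply U'.smul_mem
    have h4 := (hC _ ((Fil K n 1).neg_mem (d2a_right (K := K) (fun i => e (1, i)) j)) g hg).2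
    have h5 := hU' (srt fun i => e (0, i)) _ 1 h4
    rw [mul_one, neg_sub, mul_sub, mul_sub] at h5
    rw [mul_assoc, mul_assoc, mul_assoc]
    exact h5
  | add p q hp hq =>
    have h1 := U'.add_mem hp hq
    rw [mul_add, map_add, map_add, add_mul]
    rw [sub_add_sub_comm] at h1
    exact h1

/-- the map for all generators -/
noncomputable def d2aPhi (g : Finset (FA K n)) :
    ({x // x ∈ g} → MvPolynomial (Fin 2 × Fin n) K) →ₗ[K] FA K n :=
  ∑ i : {x // x ∈ g}, (d2aPsi i.1).comp (LinearMap.proj i)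

theorem d2aPhi_apply (g : Finset (FA K n))
    (p : {x // x ∈ g} → MvPolynomial (Fin 2 × Fin n) K) :
    d2aPhi g p = ∑ i, d2aPsi i.1 (p i) := by
  rw [d2aPhi, LinearMap.sum_apply]
  rfl

theorem d2aPhi_smul {U U' W : Submodule K (FA K n)} (hU' : IsTSI U')
    (hC : ∀ x ∈ Fil K n 1, ∀ y ∈ U, x * y ∈ U' ∧ y * x ∈ U') (g : Finset (FA K n))
    (hg : (g : Set (FA K n)) ⊆ U) (hW : IsTSI W) (hUW : U' ≤ W)
    (q : MvPolynomial (Fin 2 × Fin n) K) :
    ∀ p : {x // x ∈ g} → MvPolynomial (Fin 2 × Fin n) K, d2aPhi g p ∈ W →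
      d2aPhi g (q • p) ∈ W := by
  have hX : ∀ (i : Fin 2 × Fin n) (p : {x // x ∈ g} → MvPolynomial (Fin 2 × Fin n) K),
      d2aPhi g p ∈ W → d2aPhi g ((MvPolynomial.X i : MvPolynomial (Fin 2 × Fin n) K) • p) ∈ W := by
    rintro ⟨s, j⟩ p hp
    fin_cases s
    · have h1 : d2aPhi g ((MvPolynomial.X (0, j) : MvPolynomial (Fin 2 × Fin n) K) • p) -
          xx K j * d2aPhi g p ∈ U' := by
        rw [d2aPhi_apply, d2aPhi_apply, Finset.mul_sum, ← Finset.sum_sub_distrib]
        exact U'.sum_mem fun i _ => d2aPsi_left hU' hC (hg i.2) j (p i)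
      have h2 : xx K j * d2aPhi g p ∈ W := by
        have h3 := hW (xx K j) _ 1 hp
        rwa [mul_one] at h3
      have h4 := W.add_mem (hUW h1) h2
      rwa [sub_add_cancel] at h4
    · have h1 : d2aPhi g ((MvPolynomial.X (1, j) : MvPolynomial (Fin 2 × Fin n) K) • p) -
          d2aPhi g p * xx K j ∈ U' := by
        rw [d2aPhi_apply, d2aPhi_apply, Finset.sum_mul, ← Finset.sum_sub_distrib]
        exact U'.sum_mem fun i _ => d2aPsi_right hU' hC (hg i.2) j (p i)
      have h2 : d2aPhi g p * xx K j ∈ W := by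
        have h3 := hW 1 _ (xx K j) hp
        rwa [one_mul] at h3
      have h4 := W.add_mem (hUW h1) h2
      rwa [sub_add_cancel] at h4
  induction q using MvPolynomial.induction_on with
  | C a =>
    intro p hp
    have h1 : (MvPolynomial.C a : MvPolynomial (Fin 2 × Fin n) K) • p = a • p := by
      funext i
      rw [Pi.smul_apply, Pi.smul_apply, smul_eq_mul, MvPolynomial.smul_eq_C_mul]
    rw [h1, map_smul]
    exact W.smul_mem _ hp
  | add q1 q2 h1 h2 =>
    intro p hp
    rw [add_smul, map_add]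
    exact W.add_mem (h1 p hp) (h2 p hp)
  | mul_X q i h1 =>
    intro p hp
    rw [mul_smul]
    exact h1 _ (hX i p hp)

theorem d2a_closed_left {S : Submodule K (FA K n)}
    (h : ∀ (j : Fin n), ∀ y ∈ S, xx K j * y ∈ S) (a : FA K n) : ∀ y ∈ S, a * y ∈ S := by
  induction a using FreeAlgebra.induction with
  | grade0 r =>
    intro y hy
    rw [← Algebra.smul_def]
    exact S.smul_mem _ hy
  | grade1 j => exact h j
  | mul a b ha hb =>
    intro y hy
    rw [mul_assoc]
    exact ha _ (hb _ hy)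
  | add a b ha hb =>
    intro y hy
    rw [add_mul]
    exact S.add_mem (ha _ hy) (hb _ hy)

theorem d2a_closed_right {S : Submodule K (FA K n)}
    (h : ∀ (j : Fin n), ∀ y ∈ S, y * xx K j ∈ S) (a : FA K n) : ∀ y ∈ S, y * a ∈ S := by
  induction a using FreeAlgebra.induction with
  | grade0 r =>
    intro y hy
    rw [← Algebra.commutes, ← Algebra.smul_def]
    exact S.smul_mem _ hy
  | grade1 j => exact h j
  | mul a b ha hb =>
    intro y hy
    rw [← mul_assoc]
    exact hb _ (ha _ hy)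
  | add a b ha hb =>
    intro y hy
    rw [mul_add]
    exact S.add_mem (ha _ hy) (hb _ hy)

theorem d2a_srt_zero : srt (K := K) (fun _ : Fin n => 0) = 1 := by
  unfold srt
  apply List.prod_eq_one
  intro x hx
  obtain ⟨j, rfl⟩ := (List.mem_ofFn' _ _).1 hx
  exact pow_zero _

/-- modulo `U'` every element is in the image -/
theorem d2aPhi_surj {U U' : Submodule K (FA K n)} (hU' : IsTSI U')
    (hC : ∀ x ∈ Fil K n 1, ∀ y ∈ U, x * y ∈ U' ∧ y * x ∈ U') (g : Finset (FA K n))
    (hg : (g : Set (FA K n)) ⊆ U) (hUg : U ≤ U' ⊔ tspan K (g : Set (FA K n))) :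
    U ≤ U' ⊔ LinearMap.range (d2aPhi g) := by
  classical
  have hl : ∀ (j : Fin n), ∀ y ∈ U' ⊔ LinearMap.range (d2aPhi g),
      xx K j * y ∈ U' ⊔ LinearMap.range (d2aPhi g) := by
    intro j y hy
    obtain ⟨u, hu, s, ⟨p, rfl⟩, rfl⟩ := Submodule.mem_sup.1 hy
    have h1 : d2aPhi g ((MvPolynomial.X (0, j) : MvPolynomial (Fin 2 × Fin n) K) • p) -
        xx K j * d2aPhi g p ∈ U' := by
      rw [d2aPhi_apply, d2aPhi_apply, Finset.mul_sum, ← Finset.sum_sub_distrib]
      exact U'.sum_mem fun i _ => d2aPsi_left hU' hC (hg i.2) j (p i)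
    have h3 := hU' (xx K j) _ 1 hu
    rw [mul_one] at h3
    have h4 : xx K j * (u + d2aPhi g p) = (xx K j * u -
        (d2aPhi g ((MvPolynomial.X (0, j) : MvPolynomial (Fin 2 × Fin n) K) • p) -
        xx K j * d2aPhi g p)) +
        d2aPhi g ((MvPolynomial.X (0, j) : MvPolynomial (Fin 2 × Fin n) K) • p) := by
      rw [mul_add]
      abel
    rw [h4]
    exact Submodule.add_mem_sup (U'.sub_mem h3 h1) ⟨_, rfl⟩
  have hr : ∀ (j : Fin n), ∀ y ∈ U' ⊔ LinearMap.range (d2aPhi g),
      y * xx K j ∈ U' ⊔ LinearMap.range (d2aPhi g) := by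
    intro j y hy
    obtain ⟨u, hu, s, ⟨p, rfl⟩, rfl⟩ := Submodule.mem_sup.1 hy
    have h1 : d2aPhi g ((MvPolynomial.X (1, j) : MvPolynomial (Fin 2 × Fin n) K) • p) -
        d2aPhi g p * xx K j ∈ U' := by
      rw [d2aPhi_apply, d2aPhi_apply, Finset.sum_mul, ← Finset.sum_sub_distrib]
      exact U'.sum_mem fun i _ => d2aPsi_right hU' hC (hg i.2) j (p i)
    have h3 := hU' 1 _ (xx K j) hu
    rw [one_mul] at h3
    have h4 : (u + d2aPhi g p) * xx K j = (u * xx K j -
        (d2aPhi g ((MvPolynomial.X (1, j) : MvPolynomial (Fin 2 × Fin n) K) • p) -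
        d2aPhi g p * xx K j)) +
        d2aPhi g ((MvPolynomial.X (1, j) : MvPolynomial (Fin 2 × Fin n) K) • p) := by
      rw [add_mul]
      abel
    rw [h4]
    exact Submodule.add_mem_sup (U'.sub_mem h3 h1) ⟨_, rfl⟩
  have hgen : ∀ x ∈ g, x ∈ U' ⊔ LinearMap.range (d2aPhi g) := by
    intro x hx
    refine Submodule.mem_sup_right ⟨Pi.single ⟨x, hx⟩ 1, ?_⟩
    rw [d2aPhi_apply, Finset.sum_eq_single ⟨x, hx⟩]
    · rw [Pi.single_eq_same]
      have h1 : (1 : MvPolynomial (Fin 2 × Fin n) K) = MvPolynomial.monomial 0 1 := rfl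
      rw [h1, d2aPsi_monomial]
      simp only [Finsupp.coe_zero, Pi.zero_apply, d2a_srt_zero, one_mul, mul_one, one_smul]
    · intro i _ hi
      rw [Pi.single_eq_of_ne hi, map_zero]
    · intro h
      exact absurd (Finset.mem_univ _) h
  refine hUg.trans (sup_le le_sup_left ?_)
  refine tspan_le ?_ hgen
  intro a u b hu
  exact d2a_closed_right hr b _ (d2a_closed_left hl a _ hu)

theorem NP_step {U U' : Submodule K (FA K n)} (hU : IsTSI U) (hU' : IsTSI U')
    (hg : ∃ g : Finset (FA K n), (g : Set (FA K n)) ⊆ U ∧ U ≤ U' ⊔ tspan K (g : Set (FA K n)))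
    (hC : ∀ x ∈ Fil K n 1, ∀ y ∈ U, x * y ∈ U' ∧ y * x ∈ U') : NP U' U := by
  classical
  obtain ⟨g, hgU, hUg⟩ := hg
  intro W hW hUW hWU
  let V : Submodule (MvPolynomial (Fin 2 × Fin n) K)
      ({x // x ∈ g} → MvPolynomial (Fin 2 × Fin n) K) :=
    { carrier := {p | d2aPhi g p ∈ W}
      add_mem' := by
        intro p q hp hq
        show d2aPhi g (p + q) ∈ W
        rw [map_add]
        exact W.add_mem hp hq
      zero_mem' := by
        show d2aPhi g 0 ∈ W
        rw [map_zero]
        exact W.zero_mem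
      smul_mem' := by
        intro q p hp
        exact d2aPhi_smul hU' hC g hgU hW hUW q p hp }
  obtain ⟨S, hS⟩ := (IsNoetherian.noetherian V : V.FG)
  refine ⟨S.image (d2aPhi g), ?_, ?_⟩
  · intro x hx
    obtain ⟨p, hp, rfl⟩ := Finset.mem_image.1 hx
    have h1 : p ∈ V := by
      rw [← hS]
      exact Submodule.subset_span hp
    exact h1
  · have hTSI : IsTSI (U' ⊔ tspan K ((S.image (d2aPhi g) : Finset (FA K n)) : Set (FA K n))) :=
      isTSI_sup hU' (tspan_tsi _)
    have hspan : ∀ p ∈ V, d2aPhi g p ∈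
        U' ⊔ tspan K ((S.image (d2aPhi g) : Finset (FA K n)) : Set (FA K n)) := by
      intro p hp
      rw [← hS] at hp
      induction hp using Submodule.span_induction with
      | mem p hp =>
        exact Submodule.mem_sup_right
          (subset_tspan _ (Finset.mem_coe.2 (Finset.mem_image_of_mem _ hp)))
      | zero =>
        rw [map_zero]
        exact Submodule.zero_mem _
      | add p q _ _ hp hq =>
        rw [map_add]
        exact Submodule.add_mem _ hp hq
      | smul q p _ hp =>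
        exact d2aPhi_smul hU' hC g hgU hTSI le_sup_left q p hp
    intro w hw
    have h1 := d2aPhi_surj hU' hC g hgU hUg (hWU hw)
    obtain ⟨u, hu, s, ⟨p, rfl⟩, rfl⟩ := Submodule.mem_sup.1 h1
    have h2 : p ∈ V := by
      show d2aPhi g p ∈ W
      have h3 := W.sub_mem hw (hUW hu)
      rwa [add_sub_cancel_left] at h3
    exact Submodule.add_mem _ (Submodule.mem_sup_left hu) (hspan p h2)

end Pool.Agent.H.MP_f5ceca_al.G
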