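import Mathlib

/-!
Definitions for the decidability half of the dichotomy.
-/

namespace Pool.Agent.H.MP_f5ceca_al.G

universe u v w

/-- Polynomials in two central variables `lv`, `rv` over a ring. -/
abbrev P2 (A : Type v) [Semiring A] : Type v := Polynomial (Polynomial A)

section P2
variable {A : Type v} [Ring A]

/-- The constants. -/
noncomputable def em : A →+* P2 A := (Polynomial.C : Polynomial A →+* P2 A).comp Polynomial.C

/-- The first central variable (left outer multiplication). -/
noncomputable def lv (A : Type v) [Ring A] : P2 A := Polynomial.C Polynomial.X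

/-- The second central variable (right outer multiplication). -/
noncomputable def rv (A : Type v) [Ring A] : P2 A := Polynomial.X

/-- `(z (z - l) (z - r)) ^ M`. -/
noncomputable def qq (M : ℕ) (z : A) : P2 A := (em z * (em z - lv A) * (em z - rv A)) ^ M

variable (K : Type u) [Field K] [Algebra K A]

/-- Evaluation of the two central variables by outer multiplications by `z`:
`l ^ p * r ^ s * a` goes to `z ^ p * a * z ^ s`. -/
noncomputable def evz (z : A) : P2 A →ₗ[K] A :=
  Polynomial.lsum fun s => (LinearMap.mulRight K (z ^ s)).comp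
    (Polynomial.lsum fun p => LinearMap.mulLeft K (z ^ p))

/-- The substitution `x_j ↦ y_j + b [y_j, q] g`. -/
noncomputable def sbst (M : ℕ) (z : A) (g : P2 A) (b : K) {σ : Type w} (y : σ → A) :
    FreeAlgebra K σ →ₐ[K] P2 A :=
  FreeAlgebra.lift K fun j => em (y j) + b • ((em (y j) * qq M z - qq M z * em (y j)) * g)

/-- The shape of the factor `g`: `q ^ a * w * q ^ c`. -/
noncomputable def gg (M : ℕ) (z : A) (a : ℕ) (x : A) (c : ℕ) : P2 A :=
  qq M z ^ a * em x * qq M z ^ c

/-- The basic operator. -/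
noncomputable def opw (M : ℕ) (z : A) (a : ℕ) (x : A) (c : ℕ) (b : K) {σ : Type w} (y : σ → A)
    (h : FreeAlgebra K σ) : A :=
  evz K z (sbst K M z (gg M z a x c) b y h)

/-- The operator which inserts `q ^ (2 * m!)` exactly once in the far block. The numbers `c s j`
extract coefficients. -/
noncomputable def theta (m M : ℕ) (c : ℕ → ℕ → K) (z : A) {σ : Type w} (y : σ → A)
    (h : FreeAlgebra K σ) : A :=
  ∑ s ∈ Finset.Icc 1 m, (-1 : K) ^ (s + 1) • ∑ j ∈ Finset.range (m + 1),
    c s j • opw K M z (2 * m.factorial / s - 1) 1 0 (j : K) y h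

/-- `c s j` extract the coefficients of index `≤ m`. -/
def Extr (m : ℕ) (c : ℕ → ℕ → K) : Prop :=
  ∀ s ≤ m, ∀ t ≤ m, ∑ j ∈ Finset.range (m + 1), c s j * (j : K) ^ t = if s = t then 1 else 0

/-- Far product, left version. -/
noncomputable def Pi1 (N : ℕ) (z a i : A) : A := evz K z (em a * qq N z * em i)

/-- The relation of commutation of two middle elements. -/
noncomputable def Erel (M : ℕ) (z a x y b : A) : A :=
  evz K z (em a * qq M z * em x * qq M z * em y * qq M z * em b
    - em a * qq M z * em y * qq M z * em x * qq M z * em b)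

/-- Two-sided ideals as subspaces. -/
def IsTSI {K : Type u} [Field K] [Algebra K A] (U : Submodule K A) : Prop :=
  ∀ a u b : A, u ∈ U → a * u * b ∈ U

/-- The two-sided ideal generated by a set. -/
def tspan (G : Set A) : Submodule K A :=
  Submodule.span K {x | ∃ a b : A, ∃ g ∈ G, x = a * g * b}

end P2

section FA
variable (K : Type u) [Field K] (n : ℕ)

/-- The free algebra. -/
abbrev FA : Type u := FreeAlgebra K (Fin n)

variable {n}

/-- The letters. -/
noncomputable abbrev xx (j : Fin n) : FA K n := FreeAlgebra.ι K j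

/-- Commutators of letters. -/
noncomputable def cm (p : Fin n × Fin n) : FA K n := xx K p.1 * xx K p.2 - xx K p.2 * xx K p.1

variable {K}

/-- `I#`: the part of `I` generated by far products. -/
def Isharp (N : ℕ) (T I : Submodule K (FA K n)) : Submodule K (FA K n) :=
  T ⊔ tspan K ({x | ∃ (j : Fin n) (a i : FA K n), i ∈ I ∧ x = Pi1 K N (xx K j) a i} ∪
    {x | ∃ (j : Fin n) (a i : FA K n), i ∈ I ∧ x = Pi1 K N (xx K j) i a})

/-- `b_0 c_1 b_1 ... c_k b_k`. -/
noncomputable def NW {k : ℕ} (b : Fin (k + 1) → FA K n) (c : Fin k → Fin n × Fin n) : FA K n :=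
  b 0 * (List.ofFn fun i : Fin k => cm K (c i) * b i.succ).prod

variable (K n)

/-- The powers of the commutator ideal. -/
def Fil (k : ℕ) : Submodule K (FA K n) :=
  Submodule.span K {x | ∃ (b : Fin (k + 1) → FA K n) (c : Fin k → Fin n × Fin n), x = NW b c}

/-- The symbols of layer `k`: polynomials in `k + 1` groups of `n` variables. -/
abbrev RR (k : ℕ) : Type u := MvPolynomial (Fin (k + 1) × Fin n) K

variable {K n}

/-- Sorted words. -/
noncomputable def srt (e : Fin n → ℕ) : FA K n := (List.ofFn fun j => xx K j ^ e j).prod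

/-- The element `b_0 c_1 b_1 ... c_k b_k` for a symbol and given commutators `c_i`. -/
noncomputable def Lam {k : ℕ} (c : Fin k → Fin n × Fin n) : RR K n k →ₗ[K] FA K n :=
  (MvPolynomial.basisMonomials (Fin (k + 1) × Fin n) K).constr K
    fun e => NW (fun i => srt fun j => e (i, j)) c

/-- The image of an element in the variables of gap `i`. -/
noncomputable def ab {k : ℕ} (i : Fin (k + 1)) : FA K n →ₐ[K] RR K n k :=
  FreeAlgebra.lift K fun j => MvPolynomial.X (i, j)

/-- The symbol of `z (z - l) (z - r)` at gap `i`. -/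
noncomputable def us {k : ℕ} (z : FA K n) (i : Fin (k + 1)) : RR K n k :=
  ab i z * (ab i z - ab 0 z) * (ab i z - ab (Fin.last k) z)

/-- The symbol of the derivation `x ↦ [x, q] q ^ a w q ^ c` at the commutator number `i`. -/
noncomputable def Dl {k : ℕ} (M : ℕ) (z : FA K n) (a : ℕ) (x : FA K n) (c : ℕ) (i : Fin k) :
    RR K n k :=
  (us z i.succ ^ M - us z i.castSucc ^ M) * (us z i.succ ^ (M * a) * ab i.succ x *
    us z i.succ ^ (M * c))

/-- The symbol of `opw`. -/
noncomputable def opS (k : ℕ) (M : ℕ) (z : FA K n) (a : ℕ) (x : FA K n) (c : ℕ) (b : K) :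
    RR K n k :=
  ∏ i : Fin k, (1 + b • Dl M z a x c i)

/-- The symbol of `theta`. -/
noncomputable def thS (k : ℕ) (m M : ℕ) (c : ℕ → ℕ → K) (z : FA K n) : RR K n k :=
  ∑ s ∈ Finset.Icc 1 m, (-1 : K) ^ (s + 1) • ∑ j ∈ Finset.range (m + 1),
    c s j • opS k M z (2 * m.factorial / s - 1) 1 0 (j : K)

/-- The symbol of `Erel` at the gaps `i`, `i'`. -/
noncomputable def erS {k : ℕ} (M : ℕ) (z y : FA K n) (i i' : Fin (k + 1)) : RR K n k :=
  us z i ^ M * us z i' ^ (2 * M) * ab i' y - us z i ^ (2 * M) * ab i y * us z i' ^ M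

/-- The ideal of the symbols of the relations `Erel` with `y = 1`. -/
noncomputable def erI (K : Type u) [Field K] (n k M : ℕ) : Ideal (RR K n k) :=
  Ideal.span {x | ∃ (i i' : Fin (k + 1)) (j : Fin n), i < i' ∧ x = erS M (xx K j) 1 i i'}

/-- What is used of the ideal of identities `T`. -/
structure Good (m M N : ℕ) (c : ℕ → ℕ → K) (T : Submodule K (FA K n)) : Prop where
  extr : Extr K m c
  Mpos : 0 < M
  tsi : IsTSI T
  nil : Fil K n m ≤ T
  subs : ∀ f : FA K n →ₐ[K] FA K n,
    (∀ j, FreeAlgebra.algebraMapInv (f (xx K j)) = 0) → ∀ h ∈ T, f h ∈ T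
  erel : ∀ (j : Fin n) (a x b : FA K n), Erel K M (xx K j) a x 1 b ∈ T
  clos : ∀ I : Submodule K (FA K n), IsTSI I → T ≤ I → ∀ V ∈ Isharp N T I, ∀ j : Fin n,
    theta K m M c (xx K j) (xx K) V ∈ Isharp N T I

end FA

end Pool.Agent.H.MP_f5ceca_al.G
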