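import Pool.Agent.H.MP_f5ceca_al.G.A0

/-!
Job E1: the relation between the symbols `us (xx K j) g` and the symbol of `theta` modulo `erI`.

Proof. Fix `j` and write `q_i = us (xx K j) i ^ M` for `i = 0, ..., k`, `κ = thS k m M cc (xx K j)`, and
compute in the commutative ring `RR K n k ⧸ erI`. `q_0 = q_k = 0` (`us` vanishes at the first and at
the last gap, `M > 0`). The relations say `q_i q_{i'} (q_{i'} - q_i) = 0` for `i < i'`, so for all
`i, g`: `q_g q_i ^ 2 = q_g ^ 2 q_i`, and by induction `q_g q_i ^ (b + 1) = q_g ^ (b + 1) q_i`.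
Fix `g` and put `Q = q_g`. For `1 ≤ s ≤ m` let `a = 2 m! / s - 1` (`a ≥ 1`, `s (a + 1) = 2 m! = A`)
and `D_i = Dl M (xx K j) a 1 0 i = (q_{i+1} - q_i) q_{i+1} ^ a` (`i < k`; `ab _ 1 = 1`). With
`δ_i = q_{i+1} (Q - q_i)` we have `Q D_i = Q ^ a δ_i`. By `extr_prod` (`k ≤ m`)
`∑_j' cc s j' • opS k M (xx K j) a 1 0 j' = e_s(D)` (elementary symmetric function), and
`Q ^ s e_s(D) = Q ^ (a s) e_s(δ)`; so
`Q ^ (2 m) e_s(D) = Q ^ A * Q ^ (2 m - 2 s) e_s(δ)` (`2 m - s + a s = A + 2 m - 2 s`) (both sides zero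
for `s > k`). Summing with the signs:
`Q ^ (2 m) κ = Q ^ A * ∑_{s=1}^m (-1) ^ (s + 1) Q ^ (2 m - 2 s) e_s(δ)
  = Q ^ A * (Q ^ (2 m) - Q ^ (2 m - 2 k) ∏_{i<k} (Q ^ 2 - δ_i))`
(`∏_{i<k} (Q ^ 2 - δ_i) = ∑_{s=0}^k (-1) ^ s e_s(δ) Q ^ (2 (k - s))`), so
`Q ^ (2 m) (Q ^ A - κ) = Q ^ A Q ^ (2 m - 2 k) ∏_{i<k} (Q ^ 2 - δ_i)`.
Finally for `g' ≤ k`: `Q ^ g' (∏_{i<g'} (Q ^ 2 - δ_i)) q_{g'} = 0` by induction on `g'`: for `g' = 0`
it is `q_0 = 0`, and `Q (Q ^ 2 - δ_i) q_{i+1} = Q ^ 3 q_{i+1} - Q q_{i+1} ^ 2 (Q - q_i)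
= Q ^ 3 q_{i+1} - Q ^ 2 q_{i+1} (Q - q_i) = Q ^ 2 q_i q_{i+1}`. For `g' = g`:
`Q ^ (g + 1) ∏_{i<g} (Q ^ 2 - δ_i) = 0`. Hence `Q ^ (2 m + k + 1) (Q ^ A - κ) = 0`; one `c` works for
all `g`.
-/

namespace Pool.Agent.H.MP_f5ceca_al.G

universe u v w

variable {K : Type u} [Field K] {n : ℕ}

theorem ab_xx {k : ℕ} (i : Fin (k + 1)) (j : Fin n) :
    ab i (xx K j) = MvPolynomial.X (i, j) := by
  simp [ab]

theorem us_xx {k : ℕ} (i : Fin (k + 1)) (j : Fin n) :
    us (xx K j) i = MvPolynomial.X (i, j) * (MvPolynomial.X (i, j) - MvPolynomial.X (0, j)) *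
      (MvPolynomial.X (i, j) - MvPolynomial.X (Fin.last k, j)) := by
  simp [us, ab_xx]

theorem us_first {k : ℕ} (z : FA K n) : us z (0 : Fin (k + 1)) = 0 := by
  simp [us]

theorem us_last {k : ℕ} (z : FA K n) : us z (Fin.last k) = 0 := by
  simp [us]

theorem e1_pow {R : Type v} [CommRing R] {x y : R} (h : x * y ^ 2 = x ^ 2 * y) (b : ℕ) :
    x * y ^ (b + 1) = x ^ (b + 1) * y := by
  induction b with
  | zero => ring
  | succ b ih =>
    calc x * y ^ (b + 1 + 1) = (x * y ^ (b + 1)) * y := by ring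
      _ = x ^ b * (x * y ^ 2) := by rw [ih]; ring
      _ = x ^ (b + 1 + 1) * y := by rw [h]; ring

/-- The computation in a commutative ring: the sequence `q 0 = 0, q 1, ..., q k` satisfies
`q i * q i' * (q i' - q i) = 0`. -/
theorem kappa_ring {R : Type v} [CommRing R] {k m A : ℕ} (hk : k ≤ m) (q : ℕ → R)
    (h0 : q 0 = 0) (hq : ∀ i ≤ k, ∀ i' ≤ k, q i * q i' * (q i' - q i) = 0)
    (a : ℕ → ℕ) (ha : ∀ s, 1 ≤ s → s ≤ m → 1 ≤ a s ∧ s * (a s + 1) = A) (g : ℕ) (hg : g ≤ k) :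
    q g ^ (2 * m + k + 1) * (q g ^ A - ∑ s ∈ Finset.Icc 1 m, (-1 : R) ^ (s + 1) *
      ∑ t ∈ Finset.powersetCard s (Finset.univ : Finset (Fin k)),
        ∏ i ∈ t, ((q (i + 1) - q i) * q (i + 1) ^ a s)) = 0 := by
  classical
  have hsq : ∀ i ≤ k, ∀ i' ≤ k, q i * q i' ^ 2 = q i ^ 2 * q i' := by
    intro i hi i' hi'
    have h1 := hq i hi i' hi'
    have h2 : q i * q i' ^ 2 - q i ^ 2 * q i' = q i * q i' * (q i' - q i) := by ring
    rw [← sub_eq_zero, h2, h1]
  set Q := q g with hQ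
  set δ : ℕ → R := fun i => q (i + 1) * (Q - q i) with hδ
  -- one factor
  have hone : ∀ (b : ℕ) (i : ℕ), 1 ≤ b → i < k →
      Q * ((q (i + 1) - q i) * q (i + 1) ^ b) = Q ^ b * δ i := by
    intro b i hb hi
    obtain ⟨b, rfl⟩ := Nat.exists_eq_add_of_le' hb
    have h1 := e1_pow (hsq g hg (i + 1) hi) (b + 1)
    have h2 := e1_pow (hsq g hg (i + 1) hi) b
    rw [← hQ] at h1 h2
    calc Q * ((q (i + 1) - q i) * q (i + 1) ^ (b + 1))
        = Q * q (i + 1) ^ (b + 1 + 1) - q i * (Q * q (i + 1) ^ (b + 1)) := by ring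
      _ = Q ^ (b + 1 + 1) * q (i + 1) - q i * (Q ^ (b + 1) * q (i + 1)) := by rw [h1, h2]
      _ = Q ^ (b + 1) * δ i := by rw [hδ]; ring
  -- products
  have hprod : ∀ s, 1 ≤ s → s ≤ m → ∀ t ∈ Finset.powersetCard s (Finset.univ : Finset (Fin k)),
      Q ^ (2 * m) * ∏ i ∈ t, ((q (i + 1) - q i) * q (i + 1) ^ a s) =
        Q ^ A * (Q ^ (2 * (m - s)) * ∏ i ∈ t, δ i) := by
    intro s hs hsm t ht
    obtain ⟨ha1, ha2⟩ := ha s hs hsm
    have hc : t.card = s := (Finset.mem_powersetCard.1 ht).2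
    have h1 : Q ^ s * ∏ i ∈ t, ((q (i + 1) - q i) * q (i + 1) ^ a s) =
        Q ^ (a s * s) * ∏ i ∈ t, δ i := by
      have e1 : Q ^ s = ∏ _i ∈ t, Q := by rw [Finset.prod_const, hc]
      have e2 : Q ^ (a s * s) = ∏ _i ∈ t, Q ^ a s := by rw [Finset.prod_const, hc, pow_mul]
      rw [e1, e2, ← Finset.prod_mul_distrib, ← Finset.prod_mul_distrib]
      exact Finset.prod_congr rfl fun i _ => hone (a s) i ha1 i.2
    have e3 : 2 * m = (2 * m - s) + s := by omega
    have e4 : (2 * m - s) + a s * s = A + 2 * (m - s) := by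
      have : s * (a s + 1) = a s * s + s := by ring
      omega
    calc Q ^ (2 * m) * ∏ i ∈ t, ((q (i + 1) - q i) * q (i + 1) ^ a s)
        = Q ^ (2 * m - s) * (Q ^ s * ∏ i ∈ t, ((q (i + 1) - q i) * q (i + 1) ^ a s)) := by
          rw [← mul_assoc, ← pow_add, ← e3]
      _ = Q ^ ((2 * m - s) + a s * s) * ∏ i ∈ t, δ i := by rw [h1, ← mul_assoc, ← pow_add]
      _ = Q ^ A * (Q ^ (2 * (m - s)) * ∏ i ∈ t, δ i) := by rw [e4, pow_add, mul_assoc]
  -- the expansion of the product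
  set E : ℕ → R := fun s => ∑ t ∈ Finset.powersetCard s (Finset.univ : Finset (Fin k)),
    ∏ i ∈ t, δ i with hE
  have hexp : ∏ i : Fin k, (Q ^ 2 - δ i) =
      ∑ s ∈ Finset.range (k + 1), (-1) ^ s * (Q ^ (2 * (k - s)) * E s) := by
    have e1 : ∀ i : Fin k, Q ^ 2 - δ i = -δ i + Q ^ 2 := fun i => by ring
    rw [Finset.prod_congr rfl fun i _ => e1 i, Finset.prod_add, Finset.sum_powerset,
      Finset.card_univ, Fintype.card_fin]
    refine Finset.sum_congr rfl fun s hs => ?_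
    rw [hE]
    simp only [Finset.mul_sum]
    refine Finset.sum_congr rfl fun t ht => ?_
    have hc : t.card = s := (Finset.mem_powersetCard.1 ht).2
    have e2 : ∏ i ∈ t, -δ i = (-1) ^ s * ∏ i ∈ t, δ i := by
      have e3 : ∀ i : Fin k, -δ i = -1 * δ i := fun i => by ring
      rw [Finset.prod_congr rfl fun i _ => e3 i, Finset.prod_mul_distrib, Finset.prod_const, hc]
    have e4 : (Finset.univ \ t).card = k - s := by
      rw [Finset.card_sdiff_of_subset (Finset.subset_univ _), Finset.card_univ, Fintype.card_fin, hc]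
    rw [e2, Finset.prod_const, e4, ← pow_mul]
    ring
  have hlong : Q ^ (2 * (m - k)) * ∏ i : Fin k, (Q ^ 2 - δ i) =
      Q ^ (2 * m) + ∑ s ∈ Finset.Icc 1 m, (-1) ^ s * (Q ^ (2 * (m - s)) * E s) := by
    have e1 : Q ^ (2 * (m - k)) * ∏ i : Fin k, (Q ^ 2 - δ i) =
        ∑ s ∈ Finset.range (k + 1), (-1) ^ s * (Q ^ (2 * (m - s)) * E s) := by
      rw [hexp, Finset.mul_sum]
      refine Finset.sum_congr rfl fun s hs => ?_
      have hs' : s ≤ k := Nat.lt_succ_iff.1 (Finset.mem_range.1 hs)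
      have e2 : 2 * (m - s) = 2 * (m - k) + 2 * (k - s) := by omega
      rw [e2, pow_add]
      ring
    have e2 : ∑ s ∈ Finset.range (k + 1), (-1) ^ s * (Q ^ (2 * (m - s)) * E s) =
        ∑ s ∈ Finset.range (m + 1), (-1) ^ s * (Q ^ (2 * (m - s)) * E s) := by
      refine Finset.sum_subset (Finset.range_subset_range.2 (by omega)) fun s _ hs => ?_
      have hs' : k < s := by
        rw [Finset.mem_range] at hs
        omega
      have e3 : E s = 0 := by
        rw [hE]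
        simp only
        rw [Finset.powersetCard_eq_empty.2 (by rw [Finset.card_univ, Fintype.card_fin]; exact hs'),
          Finset.sum_empty]
      rw [e3, mul_zero, mul_zero]
    rw [e1, e2, Finset.range_eq_Ico, Finset.sum_eq_sum_Ico_succ_bot (Nat.succ_pos _)]
    have e4 : E 0 = 1 := by
      rw [hE]
      simp
    rw [e4]
    have e5 : Finset.Ico (0 + 1) (m + 1) = Finset.Icc 1 m := by
      ext x
      simp only [Finset.mem_Ico, Finset.mem_Icc]
      omega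
    rw [e5]
    simp
  -- the product vanishes
  have hvan : ∀ g' ≤ k, Q ^ g' * (∏ i ∈ Finset.range g', (Q ^ 2 - δ i)) * q g' = 0 := by
    intro g'
    induction g' with
    | zero =>
      intro _
      rw [h0, mul_zero]
    | succ g' ih =>
      intro hg'
      have h1 := ih (by omega)
      have h2 := hsq g hg (g' + 1) hg'
      rw [← hQ] at h2
      rw [Finset.prod_range_succ]
      have h3 : Q * (Q ^ 2 - δ g') * q (g' + 1) = Q ^ 2 * q (g' + 1) * q g' := by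
        have e1 : Q * (Q ^ 2 - δ g') * q (g' + 1) =
            Q ^ 3 * q (g' + 1) - (Q * q (g' + 1) ^ 2) * (Q - q g') := by
          rw [hδ]
          ring
        rw [e1, h2]
        ring
      calc Q ^ (g' + 1) * ((∏ i ∈ Finset.range g', (Q ^ 2 - δ i)) * (Q ^ 2 - δ g')) * q (g' + 1)
          = Q ^ g' * (∏ i ∈ Finset.range g', (Q ^ 2 - δ i)) *
            (Q * (Q ^ 2 - δ g') * q (g' + 1)) := by ring
        _ = Q ^ 2 * q (g' + 1) *
            (Q ^ g' * (∏ i ∈ Finset.range g', (Q ^ 2 - δ i)) * q g') := by rw [h3]; ring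
        _ = 0 := by rw [h1, mul_zero]
  have hvan2 : Q ^ (k + 1) * ∏ i : Fin k, (Q ^ 2 - δ i) = 0 := by
    rw [Fin.prod_univ_eq_prod_range (fun i => Q ^ 2 - δ i) k,
      ← Finset.prod_range_mul_prod_Ico _ hg]
    have e1 : k + 1 = (k - g) + (g + 1) := by omega
    have h1 := hvan g hg
    rw [← hQ] at h1
    rw [e1, pow_add, pow_succ]
    calc Q ^ (k - g) * (Q ^ g * Q) * ((∏ i ∈ Finset.range g, (Q ^ 2 - δ i)) *
          ∏ i ∈ Finset.Ico g k, (Q ^ 2 - δ i))
        = Q ^ (k - g) * (∏ i ∈ Finset.Ico g k, (Q ^ 2 - δ i)) *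
          (Q ^ g * (∏ i ∈ Finset.range g, (Q ^ 2 - δ i)) * Q) := by ring
      _ = 0 := by rw [h1, mul_zero]
  -- the main computation
  have hmain : Q ^ (2 * m) * (Q ^ A - ∑ s ∈ Finset.Icc 1 m, (-1 : R) ^ (s + 1) *
      ∑ t ∈ Finset.powersetCard s (Finset.univ : Finset (Fin k)),
        ∏ i ∈ t, ((q (i + 1) - q i) * q (i + 1) ^ a s)) =
      Q ^ A * (Q ^ (2 * (m - k)) * ∏ i : Fin k, (Q ^ 2 - δ i)) := by
    rw [hlong, mul_sub, mul_add, Finset.mul_sum, Finset.mul_sum, sub_eq_add_neg,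
      ← Finset.sum_neg_distrib, mul_comm (Q ^ (2 * m)) (Q ^ A)]
    congr 1
    refine Finset.sum_congr rfl fun s hs => ?_
    obtain ⟨hs1, hs2⟩ := Finset.mem_Icc.1 hs
    have e1 : Q ^ (2 * m) * ∑ t ∈ Finset.powersetCard s (Finset.univ : Finset (Fin k)),
        ∏ i ∈ t, ((q (i + 1) - q i) * q (i + 1) ^ a s) = Q ^ A * (Q ^ (2 * (m - s)) * E s) := by
      rw [hE]
      simp only [Finset.mul_sum]
      exact Finset.sum_congr rfl fun t ht => hprod s hs1 hs2 t ht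
    calc -(Q ^ (2 * m) * ((-1) ^ (s + 1) *
          ∑ t ∈ Finset.powersetCard s (Finset.univ : Finset (Fin k)),
            ∏ i ∈ t, ((q (i + 1) - q i) * q (i + 1) ^ a s)))
        = (-1) ^ s * (Q ^ (2 * m) *
          ∑ t ∈ Finset.powersetCard s (Finset.univ : Finset (Fin k)),
            ∏ i ∈ t, ((q (i + 1) - q i) * q (i + 1) ^ a s)) := by
          rw [pow_succ]
          ring
      _ = Q ^ A * ((-1) ^ s * (Q ^ (2 * (m - s)) * E s)) := by
          rw [e1]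
          ring
  have e9 : 2 * m + k + 1 = (k + 1) + 2 * m := by omega
  rw [e9, pow_add, mul_assoc, hmain]
  calc Q ^ (k + 1) * (Q ^ A * (Q ^ (2 * (m - k)) * ∏ i : Fin k, (Q ^ 2 - δ i)))
      = Q ^ A * Q ^ (2 * (m - k)) * (Q ^ (k + 1) * ∏ i : Fin k, (Q ^ 2 - δ i)) := by ring
    _ = 0 := by rw [hvan2, mul_zero]

theorem kappa_rel {k m M : ℕ} (hk : k ≤ m) (hM : 0 < M) {cc : ℕ → ℕ → K}
    (hcc : Extr K m cc) (j : Fin n) (g : Fin (k + 1)) :
    us (xx K j) g ^ (M * (2 * m + k + 1)) *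
      (us (xx K j) g ^ (M * (2 * m.factorial)) - thS k m M cc (xx K j)) ∈ erI K n k M := by
  classical
  set π := Ideal.Quotient.mk (erI K n k M) with hπ
  set q : ℕ → (RR K n k ⧸ erI K n k M) :=
    fun i => if h : i < k + 1 then π (us (xx K j) ⟨i, h⟩ ^ M) else 0 with hqdef
  have hqv : ∀ i : Fin (k + 1), q i = π (us (xx K j) i ^ M) := by
    intro i
    rw [hqdef]
    simp only
    rw [dif_pos i.2]
  have h0 : q 0 = 0 := by
    have h1 := hqv 0
    rw [us_first, zero_pow hM.ne', map_zero] at h1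
    exact h1
  have hlt : ∀ i i' : Fin (k + 1), i < i' → q i * q i' * (q i' - q i) = 0 := by
    intro i i' hii
    have h1 : erS M (xx K j) 1 i i' ∈ erI K n k M := Ideal.subset_span ⟨i, i', j, hii, rfl⟩
    have h2 := Ideal.Quotient.eq_zero_iff_mem.2 h1
    rw [hqv, hqv, ← h2, ← hπ]
    simp only [erS, map_one, mul_one, map_sub, map_mul, map_pow]
    ring
  have hq : ∀ i ≤ k, ∀ i' ≤ k, q i * q i' * (q i' - q i) = 0 := by
    intro i hi i' hi'
    rcases lt_trichotomy i i' with h | h | h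
    · exact hlt ⟨i, by omega⟩ ⟨i', by omega⟩ h
    · rw [h, sub_self, mul_zero]
    · have h1 : q i' * q i * (q i - q i') = 0 := hlt ⟨i', by omega⟩ ⟨i, by omega⟩ h
      have h2 : q i * q i' * (q i' - q i) = -(q i' * q i * (q i - q i')) := by ring
      rw [h2, h1, neg_zero]
  have ha : ∀ s, 1 ≤ s → s ≤ m → 1 ≤ 2 * m.factorial / s - 1 ∧
      s * ((2 * m.factorial / s - 1) + 1) = 2 * m.factorial := by
    intro s hs hsm
    obtain ⟨c, hc⟩ := Nat.dvd_factorial hs hsm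
    have hc0 : 0 < c := by
      rcases Nat.eq_zero_or_pos c with h | h
      · rw [h, mul_zero] at hc
        exact absurd hc (Nat.factorial_ne_zero m)
      · exact h
    have h1 : 2 * m.factorial / s = 2 * c := by
      rw [hc, show 2 * (s * c) = s * (2 * c) by ring, Nat.mul_div_cancel_left _ hs]
    rw [h1]
    refine ⟨by omega, ?_⟩
    rw [Nat.sub_add_cancel (by omega), hc]
    ring
  have hth : π (thS k m M cc (xx K j)) = ∑ s ∈ Finset.Icc 1 m, (-1) ^ (s + 1) *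
      ∑ t ∈ Finset.powersetCard s (Finset.univ : Finset (Fin k)),
        ∏ i ∈ t, ((q (i + 1) - q i) * q (i + 1) ^ (2 * m.factorial / s - 1)) := by
    rw [thS, map_sum]
    refine Finset.sum_congr rfl fun s hs => ?_
    obtain ⟨hs1, hs2⟩ := Finset.mem_Icc.1 hs
    have h1 := extr_prod hcc hk
      (fun i : Fin k => Dl M (xx K j) (2 * m.factorial / s - 1) 1 0 i) hs2
    have h2 : ∑ j' ∈ Finset.range (m + 1),
        cc s j' • opS k M (xx K j) (2 * m.factorial / s - 1) 1 0 (j' : K) =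
        ∑ t ∈ Finset.powersetCard s (Finset.univ : Finset (Fin k)),
          ∏ i ∈ t, Dl M (xx K j) (2 * m.factorial / s - 1) 1 0 i := h1
    rw [h2, Algebra.smul_def, map_pow, map_neg, map_one, map_mul, map_pow, map_neg, map_one,
      map_sum]
    congr 1
    refine Finset.sum_congr rfl fun t _ => ?_
    rw [map_prod]
    refine Finset.prod_congr rfl fun i _ => ?_
    have e1 : q ((i : ℕ) + 1) = π (us (xx K j) i.succ ^ M) := by
      rw [← hqv]
      rfl
    have e2 : q (i : ℕ) = π (us (xx K j) i.castSucc ^ M) := by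
      rw [← hqv]
      rfl
    rw [e1, e2]
    simp only [Dl, map_mul, map_sub, map_pow, map_one, mul_one, mul_zero, pow_zero, pow_mul]
  have hfin := kappa_ring (A := 2 * m.factorial) hk q h0 hq
    (fun s => 2 * m.factorial / s - 1) ha g (Nat.lt_succ_iff.1 g.2)
  rw [← hth, hqv, ← map_pow, ← map_pow, ← map_sub, ← map_mul, ← pow_mul, ← pow_mul] at hfin
  exact Ideal.Quotient.eq_zero_iff_mem.1 hfin

end Pool.Agent.H.MP_f5ceca_al.G
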