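import Pool.Agent.H.MP_f5ceca_al.G.E1
import Pool.Agent.H.MP_f5ceca_al.Conv.Cone

/-!
Job E2: the ring of symbols modulo `erI` is a finite module over the polynomials in the outer
variables and the symbols of `theta`.

Proof. Let `P = MvPolynomial ((Fin n ⊕ Fin n) ⊕ Fin n) K` and `φ : P →ₐ[K] RR K n k ⧸ erI`, with values
`X (0, j)`, `X (last, j)`, `thS k m M cc (xx K j)` at the three kinds of variables. Every variable
`x = X (i, j)` is integral over `P`: with `u(Y) = Y (Y - X (0, j)) (Y - X (last, j))`, monic in `Y`, and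
`kappa_rel`, `u(x) ^ (M (2 m + k + 1)) * (u(x) ^ (2 M m!) - κ_j) = 0`, a monic polynomial of positive
degree in `Y` at `Y = x` (`M > 0`). The quotient ring is generated as an algebra by these finitely
many elements, so it is a finite `P`-module (`Algebra.IsIntegral`/`fg_adjoin_of_finite`,
`Algebra.FiniteType` + integral implies `Module.Finite`: `Algebra.IsIntegral.finite`). Take
for `μ` lifts of generators, and expand the coefficients in monomials: every coefficient is a
`K`-combination of monomials, whose images are the `smon x y`.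
-/

namespace Pool.Agent.H.MP_f5ceca_al.G

open Pool.Agent.H.MP_f5ceca_al.Conv

universe u v w

variable {K : Type u} [Field K] {n : ℕ}

/-- The symbol of the composition of outer multiplications (exponents `x`) and operators `theta`
(exponents `y`). -/
noncomputable def smon (k m M : ℕ) (cc : ℕ → ℕ → K) (x : Fin (n + n) → ℕ) (y : Fin n → ℕ) :
    RR K n k :=
  (∏ j : Fin n, MvPolynomial.X (0, j) ^ x (Fin.castAdd n j)) *
    (∏ j : Fin n, MvPolynomial.X (Fin.last k, j) ^ x (Fin.natAdd n j)) *
    ∏ j : Fin n, thS k m M cc (xx K j) ^ y j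

/-- Integrality from the relation. -/
theorem e2_int {P Q : Type*} [CommRing P] [Nontrivial P] [CommRing Q] (φ : P →+* Q)
    (a b κ : P) (x : Q) (e1 e2 : ℕ) (he : 0 < e2)
    (h : (x * (x - φ a) * (x - φ b)) ^ e1 * ((x * (x - φ a) * (x - φ b)) ^ e2 - φ κ) = 0) :
    φ.IsIntegralElem x := by
  set p : Polynomial P :=
    Polynomial.X * (Polynomial.X - Polynomial.C a) * (Polynomial.X - Polynomial.C b) with hp
  have hpm : p.Monic :=
    (Polynomial.monic_X.mul (Polynomial.monic_X_sub_C a)).mul (Polynomial.monic_X_sub_C b)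
  have hdeg : p.natDegree = 3 := by
    rw [hp, (Polynomial.monic_X.mul (Polynomial.monic_X_sub_C a)).natDegree_mul
      (Polynomial.monic_X_sub_C b), Polynomial.monic_X.natDegree_mul (Polynomial.monic_X_sub_C a),
      Polynomial.natDegree_X, Polynomial.natDegree_X_sub_C, Polynomial.natDegree_X_sub_C]
  refine ⟨p ^ e1 * (p ^ e2 - Polynomial.C κ),
    (hpm.pow e1).mul ((hpm.pow e2).sub_of_left ?_), ?_⟩
  · refine lt_of_le_of_lt Polynomial.degree_C_le ?_
    rw [← Polynomial.natDegree_pos_iff_degree_pos, hpm.natDegree_pow, hdeg]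
    omega
  · rw [hp]
    simp only [Polynomial.eval₂_mul, Polynomial.eval₂_pow, Polynomial.eval₂_sub,
      Polynomial.eval₂_X, Polynomial.eval₂_C]
    exact h

/-- The values of the variables. -/
noncomputable def e2_val (k m M : ℕ) (cc : ℕ → ℕ → K) : ((Fin n ⊕ Fin n) ⊕ Fin n) → RR K n k :=
  Sum.elim (Sum.elim (fun j => MvPolynomial.X (0, j)) (fun j => MvPolynomial.X (Fin.last k, j)))
    (fun j => thS k m M cc (xx K j))

/-- The structure map. -/
noncomputable def e2_phi (k m M : ℕ) (cc : ℕ → ℕ → K) :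
    MvPolynomial ((Fin n ⊕ Fin n) ⊕ Fin n) K →ₐ[K] (RR K n k ⧸ erI K n k M) :=
  MvPolynomial.aeval fun s => Ideal.Quotient.mkₐ K (erI K n k M) (e2_val k m M cc s)

theorem e2_integral {k m M : ℕ} (hk : k ≤ m) (hM : 0 < M) {cc : ℕ → ℕ → K} (hcc : Extr K m cc) :
    (e2_phi (n := n) k m M cc).toRingHom.IsIntegral := by
  have hX : ∀ (p : Fin (k + 1) × Fin n), (e2_phi (n := n) k m M cc).toRingHom.IsIntegralElem
      (Ideal.Quotient.mkₐ K (erI K n k M) (MvPolynomial.X p)) := by
    rintro ⟨g, j⟩
    have h1 := kappa_rel hk hM hcc j g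
    rw [us_xx] at h1
    have h2 := (Ideal.Quotient.eq_zero_iff_mem).2 h1
    refine e2_int (e2_phi (n := n) k m M cc).toRingHom (MvPolynomial.X (Sum.inl (Sum.inl j)))
      (MvPolynomial.X (Sum.inl (Sum.inr j))) (MvPolynomial.X (Sum.inr j)) _
      (M * (2 * m + k + 1)) (M * (2 * m.factorial)) ?_ ?_
    · have := Nat.factorial_pos m
      positivity
    · have e1 : (e2_phi (n := n) k m M cc).toRingHom (MvPolynomial.X (Sum.inl (Sum.inl j))) =
          Ideal.Quotient.mkₐ K (erI K n k M) (MvPolynomial.X (0, j)) := by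
        show e2_phi k m M cc (MvPolynomial.X (Sum.inl (Sum.inl j))) = _
        rw [e2_phi, MvPolynomial.aeval_X]
        rfl
      have e2 : (e2_phi (n := n) k m M cc).toRingHom (MvPolynomial.X (Sum.inl (Sum.inr j))) =
          Ideal.Quotient.mkₐ K (erI K n k M) (MvPolynomial.X (Fin.last k, j)) := by
        show e2_phi k m M cc (MvPolynomial.X (Sum.inl (Sum.inr j))) = _
        rw [e2_phi, MvPolynomial.aeval_X]
        rfl
      have e3 : (e2_phi (n := n) k m M cc).toRingHom (MvPolynomial.X (Sum.inr j)) =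
          Ideal.Quotient.mkₐ K (erI K n k M) (thS k m M cc (xx K j)) := by
        show e2_phi k m M cc (MvPolynomial.X (Sum.inr j)) = _
        rw [e2_phi, MvPolynomial.aeval_X]
        rfl
      rw [e1, e2, e3, ← map_sub, ← map_sub, ← map_mul, ← map_mul, ← map_pow, ← map_pow, ← map_sub,
        ← map_mul]
      exact h2
  intro q
  obtain ⟨v, rfl⟩ := Ideal.Quotient.mkₐ_surjective K (erI K n k M) q
  induction v using MvPolynomial.induction_on with
  | C a =>
    have : Ideal.Quotient.mkₐ K (erI K n k M) (MvPolynomial.C a) =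
        (e2_phi (n := n) k m M cc).toRingHom (MvPolynomial.C a) := by
      show _ = e2_phi k m M cc (MvPolynomial.C a)
      rw [e2_phi, MvPolynomial.aeval_C]
      exact (Ideal.Quotient.mkₐ K (erI K n k M)).commutes a
    rw [this]
    exact RingHom.isIntegralElem_map _
  | add p q hp hq =>
    rw [map_add]
    exact RingHom.IsIntegralElem.add _ hp hq
  | mul_X p i hp =>
    rw [map_mul]
    exact RingHom.IsIntegralElem.mul _ hp (hX i)

theorem e2_finite {k m M : ℕ} (hk : k ≤ m) (hM : 0 < M) {cc : ℕ → ℕ → K} (hcc : Extr K m cc) :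
    (e2_phi (n := n) k m M cc).toRingHom.Finite := by
  refine RingHom.IsIntegral.to_finite (e2_integral hk hM hcc) ?_
  refine RingHom.FiniteType.of_comp_finiteType
    (f := algebraMap K (MvPolynomial ((Fin n ⊕ Fin n) ⊕ Fin n) K)) ?_
  have h : (e2_phi (n := n) k m M cc).toRingHom.comp
      (algebraMap K (MvPolynomial ((Fin n ⊕ Fin n) ⊕ Fin n) K)) =
      algebraMap K (RR K n k ⧸ erI K n k M) := (e2_phi (n := n) k m M cc).comp_algebraMap
  rw [h, RingHom.finiteType_algebraMap]
  infer_instance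

theorem e2_monomial {k m M : ℕ} {cc : ℕ → ℕ → K} (e : ((Fin n ⊕ Fin n) ⊕ Fin n) →₀ ℕ) (r : K) :
    e2_phi (n := n) k m M cc (MvPolynomial.monomial e r) =
      r • Ideal.Quotient.mkₐ K (erI K n k M) (smon k m M cc
        (Fin.append (fun j => e (Sum.inl (Sum.inl j))) (fun j => e (Sum.inl (Sum.inr j))))
        (fun j => e (Sum.inr j))) := by
  rw [e2_phi, MvPolynomial.aeval_monomial, ← Algebra.smul_def,
    Finsupp.prod_fintype _ _ (by simp), Fintype.prod_sum_type, Fintype.prod_sum_type]
  congr 1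
  unfold smon
  rw [map_mul, map_mul, map_prod, map_prod, map_prod]
  simp only [Fin.append_left, Fin.append_right, map_pow]
  rfl

theorem fin_gen {k m M : ℕ} (hk : k ≤ m) (hM : 0 < M) {cc : ℕ → ℕ → K} (hcc : Extr K m cc) :
    ∃ (t : ℕ) (μ : Fin t → RR K n k), ∀ v : RR K n k, ∃ f : Mon t (n + n) n →₀ K,
      v - f.sum (fun a c => c • (smon k m M cc a.2.1 a.2.2 * μ a.1)) ∈ erI K n k M := by
  classical
  have hfin := e2_finite (n := n) hk hM hcc
  letI : Algebra (MvPolynomial ((Fin n ⊕ Fin n) ⊕ Fin n) K) (RR K n k ⧸ erI K n k M) :=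
    (e2_phi (n := n) k m M cc).toRingHom.toAlgebra
  have hfin' : Module.Finite (MvPolynomial ((Fin n ⊕ Fin n) ⊕ Fin n) K)
    (RR K n k ⧸ erI K n k M) := hfin
  obtain ⟨t, s, hs⟩ := hfin'.exists_fin
  choose μ hμ using fun i => Ideal.Quotient.mkₐ_surjective K (erI K n k M) (s i)
  refine ⟨t, μ, fun v => ?_⟩
  have key : ∀ (i : Fin t) (p : MvPolynomial ((Fin n ⊕ Fin n) ⊕ Fin n) K),
      e2_phi (n := n) k m M cc p * s i ∈ Submodule.span K
        (Set.range fun a : Mon t (n + n) n => Ideal.Quotient.mkₐ K (erI K n k M)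
          (smon k m M cc a.2.1 a.2.2 * μ a.1)) := by
    intro i p
    induction p using MvPolynomial.induction_on' with
    | monomial e r =>
      rw [e2_monomial, smul_mul_assoc, ← hμ, ← map_mul]
      refine Submodule.smul_mem _ _ (Submodule.subset_span
        ⟨(i, Fin.append (fun j => e (Sum.inl (Sum.inl j))) (fun j => e (Sum.inl (Sum.inr j))),
          fun j => e (Sum.inr j)), rfl⟩)
    | add p q hp hq =>
      rw [map_add, add_mul]
      exact Submodule.add_mem _ hp hq
  have hv : Ideal.Quotient.mkₐ K (erI K n k M) v ∈ Submodule.span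
      (MvPolynomial ((Fin n ⊕ Fin n) ⊕ Fin n) K) (Set.range s) := by
    rw [hs]
    exact Submodule.mem_top
  obtain ⟨c, hc⟩ := (Submodule.mem_span_range_iff_exists_fun _).1 hv
  have hv2 : Ideal.Quotient.mkₐ K (erI K n k M) v ∈ Submodule.span K
        (Set.range fun a : Mon t (n + n) n => Ideal.Quotient.mkₐ K (erI K n k M)
          (smon k m M cc a.2.1 a.2.2 * μ a.1)) := by
    rw [← hc]
    refine Submodule.sum_mem _ fun i _ => ?_
    have h1 : c i • s i = e2_phi (n := n) k m M cc (c i) * s i := rfl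
    rw [h1]
    exact key i (c i)
  obtain ⟨f, hf⟩ := Finsupp.mem_span_range_iff_exists_finsupp.1 hv2
  refine ⟨f, ?_⟩
  rw [← Ideal.Quotient.eq]
  have h3 : Ideal.Quotient.mkₐ K (erI K n k M)
      (f.sum (fun a c => c • (smon k m M cc a.2.1 a.2.2 * μ a.1))) =
      Ideal.Quotient.mkₐ K (erI K n k M) v := by
    rw [map_finsuppSum, ← hf]
    refine Finsupp.sum_congr fun a _ => ?_
    rw [map_smul]
  exact h3.symm

end Pool.Agent.H.MP_f5ceca_al.G
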