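import Pool.Agent.H.MP_f5ceca_al.G.K0
import Pool.Agent.H.MP_f5ceca_al.G.A0
import Pool.Agent.H.MP_f5ceca_al.G.A5
import Pool.Agent.H.MP_f5ceca_al.Conv.Re
import Mathlib.LinearAlgebra.FreeAlgebra

/-!
Job G6: the operators `theta` and the maps `chm` are computable on codes.

Codes: `κ.ev (wd K) P`, `P : List (ℕ × List (Fin n))` (the library in the folder `Conv`: `CField`,
`ev`, `bind`, `smul`, `bind_comp`, `smul_comp`, `comp_map`, `comp_flatMap`, `comp_foldl`).

`opw` of a word `j_1 ... j_s`: it is `evz (∏_i P_{j_i})` with fixed elements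
`P_j = em (x_j) + b • ((em x_j * q - q * em x_j) * g)` of `P2 (FA K n)`. Elements of `P2 (FA K n)` are
coded by lists of pairs (coefficient, word in the letters `Fin n ⊕ Fin 2`), where `Sum.inr 0` stands
for `lv` and `Sum.inr 1` for `rv` (an algebra homomorphism `ψ` from
`FreeAlgebra K (Fin n ⊕ Fin 2)` onto `P2 (FA K n)`). Choose codes of preimages of the `P_j` (fixed
data). The code of the product over a word is computed by recursion over the word (multiplication
by one of `n` fixed codes is computable: `flatMap`). Finally `evz K z (ψ (word w))` for `z = xx K l` is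
the word consisting of (number of `inr 0` in `w`) letters `l`, the letters of `Fin n` in `w` in their
order, (number of `inr 1` in `w`) letters `l`: a primitive recursive function of `w`.
`theta` is a fixed linear combination of such operators (choose numbers of the coefficients).

`thY_c`, `chm_c`: iterate `bind` with the code functions of `theta` (`Nat.rec`/`comp_foldl`), start
with fixed codes of the `g i`, then multiply with the words `srt` on both sides:
`List.flatten` of `List.replicate (x j) j`.
-/

namespace Pool.Agent.H.MP_f5ceca_al.G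

open Pool.Agent.H.MP_f5ceca_al.Conv

universe u v w

variable {K : Type u} [Field K] {n : ℕ}

theorem g6_basis_eq_wd {σ : Type} (w : List σ) :
    FreeAlgebra.basisFreeMonoid K σ (FreeMonoid.ofList w) = wd K w := by
  have h1 : FreeAlgebra.basisFreeMonoid K σ (FreeMonoid.ofList w) =
      FreeAlgebra.equivMonoidAlgebraFreeMonoid.symm
        (MonoidAlgebra.of K (FreeMonoid σ) (FreeMonoid.ofList w)) := rfl
  rw [h1]
  change (MonoidAlgebra.lift K (FreeAlgebra K σ) (FreeMonoid σ)
    (FreeMonoid.lift (FreeAlgebra.ι K))) _ = _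
  rw [MonoidAlgebra.lift_of, FreeMonoid.lift_apply]
  rfl

theorem g6_wd_span (σ : Type) :
    Submodule.span K (Set.range (wd K : List σ → FreeAlgebra K σ)) = ⊤ := by
  have h1 := (FreeAlgebra.basisFreeMonoid K σ).span_eq
  rw [← h1]
  congr 1
  ext x
  constructor
  · rintro ⟨w, rfl⟩
    exact ⟨FreeMonoid.ofList w, g6_basis_eq_wd w⟩
  · rintro ⟨w, rfl⟩
    exact ⟨FreeMonoid.toList w, (g6_basis_eq_wd _).symm⟩

theorem wd_indep : LinearIndependent K (wd K : List (Fin n) → FA K n) := by
  have h1 := (FreeAlgebra.basisFreeMonoid K (Fin n)).linearIndependent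
  have h2 : (wd K : List (Fin n) → FA K n) =
      (FreeAlgebra.basisFreeMonoid K (Fin n)) ∘ (FreeMonoid.ofList : List (Fin n) ≃ _) := by
    funext w
    exact (g6_basis_eq_wd w).symm
  rw [h2]
  exact h1.comp _ (Equiv.injective _)

theorem wd_span : Submodule.span K (Set.range (wd K : List (Fin n) → FA K n)) = ⊤ :=
  g6_wd_span (Fin n)

theorem wd_append {σ : Type} (l l' : List σ) : wd K (l ++ l') = wd K l * wd K l' := by
  simp [wd]

/-! ### Functions which are computable on codes -/

theorem g6_ev_map (κ : CField K) {J : Type} {F : Type v} [AddCommGroup F] [Module K F]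
    {G : Type w} [AddCommGroup G] [Module K G] (φ : F → G) (h0 : φ 0 = 0)
    (ha : ∀ x y, φ (x + y) = φ x + φ y) (hs : ∀ (c : K) (x : F), φ (c • x) = c • φ x)
    (m : J → F) (P : List (ℕ × J)) : φ (κ.ev m P) = κ.ev (fun j => φ (m j)) P := by
  induction P with
  | nil => simpa using h0
  | cons p P ih => rw [CField.ev_cons, CField.ev_cons, ha, hs, ih]

theorem g6_mulLeft (κ : CField K) {J : Type} {A : Type v} [Ring A] [Algebra K A] (a : A)
    (m : J → A) (P : List (ℕ × J)) : a * κ.ev m P = κ.ev (fun j => a * m j) P :=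
  g6_ev_map κ (fun x => a * x) (mul_zero a) (fun x y => mul_add a x y)
    (fun c x => mul_smul_comm c a x) m P

theorem g6_mulRight (κ : CField K) {J : Type} {A : Type v} [Ring A] [Algebra K A] (a : A)
    (m : J → A) (P : List (ℕ × J)) : κ.ev m P * a = κ.ev (fun j => m j * a) P :=
  g6_ev_map κ (fun x => x * a) (zero_mul a) (fun x y => add_mul x y a)
    (fun c x => smul_mul_assoc c x a) m P

/-- The function `f` has a computable code function. -/
def Cd (κ : CField K) {J : Type} [Primcodable J] (f : J → FA K n) : Prop :=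
  ∃ o : J → List (ℕ × List (Fin n)), Computable o ∧ ∀ w, f w = κ.ev (wd K) (o w)

section Cd

variable (κ : CField K) {J : Type} [Primcodable J]

theorem g6_code (x : FA K n) : ∃ P : List (ℕ × List (Fin n)), κ.ev (wd K) P = x :=
  κ.exists_code _ x (by rw [wd_span]; trivial)

variable {κ}

theorem Cd.const (x : FA K n) : Cd κ (fun _ : J => x) := by
  obtain ⟨P, hP⟩ := g6_code κ x
  exact ⟨fun _ => P, Computable.const _, fun _ => hP.symm⟩

theorem Cd.fin [Finite J] (f : J → FA K n) : Cd κ f := by
  choose c hc using g6_code (n := n) κ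
  exact ⟨fun j => c (f j), (Primrec.dom_finite _).to_comp, fun j => (hc _).symm⟩

theorem Cd.comp {J' : Type} [Primcodable J'] {f : J → FA K n} (hf : Cd κ f) {h : J' → J}
    (hh : Computable h) : Cd κ (fun a => f (h a)) := by
  obtain ⟨o, ho, h1⟩ := hf
  exact ⟨fun a => o (h a), ho.comp hh, fun a => h1 _⟩

theorem Cd.add {f g : J → FA K n} (hf : Cd κ f) (hg : Cd κ g) : Cd κ (fun a => f a + g a) := by
  obtain ⟨o, ho, h1⟩ := hf
  obtain ⟨o', ho', h2⟩ := hg
  refine ⟨fun a => o a ++ o' a, Computable.list_append.comp ho ho', fun a => ?_⟩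
  rw [CField.ev_append, ← h1, ← h2]

theorem Cd.smul {f : J → FA K n} (hf : Cd κ f) (c : K) : Cd κ (fun a => c • f a) := by
  obtain ⟨o, ho, h1⟩ := hf
  obtain ⟨i, rfl⟩ := κ.surj c
  refine ⟨fun a => κ.smul i (o a), κ.smul_comp.comp (Computable.const i) ho, fun a => ?_⟩
  rw [CField.ev_smul, ← h1]

theorem Cd.sum {ι : Type} (S : Finset ι) {f : ι → J → FA K n} (hf : ∀ i, Cd κ (f i)) :
    Cd κ (fun a => ∑ i ∈ S, f i a) := by
  classical
  induction S using Finset.induction_on with
  | empty => simpa using Cd.const (κ := κ) (J := J) (0 : FA K n)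
  | insert i S hi ih =>
    have := (hf i).add ih
    simpa only [Finset.sum_insert hi] using this

/-- Composition with a linear map. -/
theorem Cd.lin {f : J → FA K n} (hf : Cd κ f) (φ : FA K n →ₗ[K] FA K n)
    (hφ : Cd κ (fun w : List (Fin n) => φ (wd K w))) : Cd κ (fun a => φ (f a)) := by
  obtain ⟨o, ho, h1⟩ := hf
  obtain ⟨e, he, h2⟩ := hφ
  refine ⟨fun a => κ.bind e (o a), (κ.bind_comp he).comp ho, fun a => ?_⟩
  show φ (f a) = κ.ev (wd K) (κ.bind e (o a))
  rw [h1, CField.ev_linear, CField.ev_bind]
  simp only [h2]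

/-- Iterates of a linear map. -/
theorem Cd.iterate {f : J → FA K n} (hf : Cd κ f) (φ : FA K n →ₗ[K] FA K n)
    (hφ : Cd κ (fun w : List (Fin n) => φ (wd K w))) {y : J → ℕ} (hy : Computable y) :
    Cd κ (fun a => φ^[y a] (f a)) := by
  obtain ⟨o, ho, h1⟩ := hf
  obtain ⟨e, he, h2⟩ := hφ
  have hc : Computable₂ fun (_ : J) (p : ℕ × List (ℕ × List (Fin n))) => κ.bind e p.2 :=
    (κ.bind_comp he).comp (Computable.snd.comp Computable.snd)
  refine ⟨_, Computable.nat_rec hy ho hc, fun a => ?_⟩
  have key : ∀ k : ℕ, φ^[k] (f a) = κ.ev (wd K)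
      (Nat.rec (motive := fun _ => List (ℕ × List (Fin n))) (o a) (fun _ s => κ.bind e s) k) := by
    intro k
    induction k with
    | zero => exact h1 a
    | succ k ih =>
      rw [Function.iterate_succ_apply', ih, CField.ev_linear]
      show _ = κ.ev (wd K) (κ.bind e (Nat.rec (motive := fun _ => List (ℕ × List (Fin n)))
        (o a) (fun _ s => κ.bind e s) k))
      rw [CField.ev_bind]
      simp only [h2]
  exact key _

theorem Cd.mul {f g : J → FA K n} (hf : Cd κ f) (hg : Cd κ g) : Cd κ (fun a => f a * g a) := by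
  obtain ⟨o, ho, h1⟩ := hf
  obtain ⟨o', ho', h2⟩ := hg
  let e : J → List (Fin n) → List (ℕ × List (Fin n)) := fun a u =>
    (o' a).map fun q => (q.1, u ++ q.2)
  have he : Computable₂ e := by
    have : Computable₂ fun (x : J × List (Fin n)) (q : ℕ × List (Fin n)) => (q.1, x.2 ++ q.2) :=
      Computable.pair (Computable.fst.comp Computable.snd)
        (Computable.list_append.comp (Computable.snd.comp Computable.fst)
          (Computable.snd.comp Computable.snd))
    exact comp_map (f := fun x : J × List (Fin n) => o' x.1) (ho'.comp Computable.fst) this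
  refine ⟨fun a => κ.bind (e a) (o a), (κ.bind_comp' he).comp Computable.id ho, fun a => ?_⟩
  rw [CField.ev_bind]
  have h3 : ∀ u : List (Fin n), κ.ev (wd K) (e a u) = wd K u * g a := by
    intro u
    have h4 : κ.ev (wd K) (e a u) = κ.ev (fun v : List (Fin n) => wd K (u ++ v)) (o' a) := by
      simp [CField.ev, e, Function.comp_def]
    rw [h4, h2, g6_mulLeft]
    refine CField.ev_congr κ fun p _ => ?_
    rw [wd_append]
  simp only [h3]
  rw [h1, g6_mulRight]

end Cd

/-! ### The operators `opw` -/

/-- Values of the letters `Fin n ⊕ Fin 2`. -/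
noncomputable def g6_psi (K : Type u) [Field K] (n : ℕ) : Fin n ⊕ Fin 2 → P2 (FA K n)
  | Sum.inl j => em (xx K j)
  | Sum.inr i => if i = 0 then lv (FA K n) else rv (FA K n)

/-- Values of the words. -/
noncomputable def g6_mw (K : Type u) [Field K] (n : ℕ) (w : List (Fin n ⊕ Fin 2)) :
    P2 (FA K n) := (w.map (g6_psi K n)).prod

theorem g6_mw_append (u w : List (Fin n ⊕ Fin 2)) :
    g6_mw K n (u ++ w) = g6_mw K n u * g6_mw K n w := by
  simp [g6_mw]

theorem g6_lift_wd (w : List (Fin n ⊕ Fin 2)) :
    FreeAlgebra.lift K (g6_psi K n) (wd K w) = g6_mw K n w := by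
  unfold wd g6_mw
  rw [map_list_prod, List.map_map]
  congr 1
  refine List.map_congr_left fun a _ => ?_
  simp

/-- Codes of the elements of the image. -/
theorem g6_exists (κ : CField K) {x : P2 (FA K n)}
    (hx : x ∈ (FreeAlgebra.lift K (g6_psi K n)).range) :
    ∃ Q : List (ℕ × List (Fin n ⊕ Fin 2)), κ.ev (g6_mw K n) Q = x := by
  obtain ⟨y, rfl⟩ := hx
  obtain ⟨Q, rfl⟩ := κ.exists_code (wd K : List (Fin n ⊕ Fin 2) → _) y
    (by rw [g6_wd_span]; trivial)
  refine ⟨Q, ?_⟩
  have h := g6_ev_map κ (fun x => FreeAlgebra.lift K (g6_psi K n) x)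
    (FreeAlgebra.lift K (g6_psi K n)).map_zero'
    (FreeAlgebra.lift K (g6_psi K n)).map_add'
    (fun c x => AlgHom.map_smul_of_tower (FreeAlgebra.lift K (g6_psi K n)) c x)
    (wd K : List (Fin n ⊕ Fin 2) → _) Q
  show _ = (FreeAlgebra.lift K (g6_psi K n)) _
  rw [h]
  refine CField.ev_congr κ fun p _ => ?_
  rw [g6_lift_wd]

theorem g6_mem_em (j : Fin n) :
    (em (xx K j) : P2 (FA K n)) ∈ (FreeAlgebra.lift K (g6_psi K n)).range :=
  ⟨FreeAlgebra.ι K (Sum.inl j), by
    show (FreeAlgebra.lift K (g6_psi K n)) _ = _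
    rw [FreeAlgebra.lift_ι_apply]
    rfl⟩

theorem g6_mem_lv : lv (FA K n) ∈ (FreeAlgebra.lift K (g6_psi K n)).range :=
  ⟨FreeAlgebra.ι K (Sum.inr 0), by
    show (FreeAlgebra.lift K (g6_psi K n)) _ = _
    rw [FreeAlgebra.lift_ι_apply]
    rfl⟩

theorem g6_mem_rv : rv (FA K n) ∈ (FreeAlgebra.lift K (g6_psi K n)).range :=
  ⟨FreeAlgebra.ι K (Sum.inr 1), by
    show (FreeAlgebra.lift K (g6_psi K n)) _ = _
    rw [FreeAlgebra.lift_ι_apply]
    rfl⟩

theorem g6_mem_qq (M : ℕ) (l : Fin n) :
    (qq M (xx K l) : P2 (FA K n)) ∈ (FreeAlgebra.lift K (g6_psi K n)).range := by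
  unfold qq
  exact pow_mem (mul_mem (mul_mem (g6_mem_em l) (Subalgebra.sub_mem _ (g6_mem_em l) g6_mem_lv))
    (Subalgebra.sub_mem _ (g6_mem_em l) g6_mem_rv)) _

/-- The value of a letter under the substitution. -/
noncomputable def g6_P (K : Type u) [Field K] {n : ℕ} (M : ℕ) (l : Fin n) (a : ℕ) (b : K)
    (j : Fin n) : P2 (FA K n) :=
  em (xx K j) + b • ((em (xx K j) * qq M (xx K l) - qq M (xx K l) * em (xx K j)) *
    gg M (xx K l) a 1 0)

theorem g6_P_mem (M : ℕ) (l : Fin n) (a : ℕ) (b : K) (j : Fin n) :
    g6_P K M l a b j ∈ (FreeAlgebra.lift K (g6_psi K n)).range := by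
  have h1 : (gg M (xx K l) a 1 0 : P2 (FA K n)) ∈ (FreeAlgebra.lift K (g6_psi K n)).range := by
    unfold gg
    rw [map_one, mul_one, pow_zero, mul_one]
    exact pow_mem (g6_mem_qq M l) _
  unfold g6_P
  exact add_mem (g6_mem_em j) (Subalgebra.smul_mem _ (mul_mem
    (Subalgebra.sub_mem _ (mul_mem (g6_mem_em j) (g6_mem_qq M l))
      (mul_mem (g6_mem_qq M l) (g6_mem_em j)))
    h1) b)

theorem g6_opw (M : ℕ) (l : Fin n) (a : ℕ) (b : K) (w : List (Fin n)) :
    opw K M (xx K l) a 1 0 b (xx K) (wd K w) =
      evz K (xx K l) ((w.map (g6_P K M l a b)).prod) := by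
  unfold opw
  congr 1
  unfold sbst wd
  rw [map_list_prod, List.map_map]
  congr 1
  refine List.map_congr_left fun j _ => ?_
  rw [Function.comp_apply, FreeAlgebra.lift_ι_apply]
  rfl

/-- The code of the product over a word. -/
theorem g6_prod (κ : CField K) (P : Fin n → P2 (FA K n))
    (hP : ∀ j, P j ∈ (FreeAlgebra.lift K (g6_psi K n)).range) :
    ∃ o : List (Fin n) → List (ℕ × List (Fin n ⊕ Fin 2)), Computable o ∧
      ∀ w, (w.map P).prod = κ.ev (g6_mw K n) (o w) := by
  choose c hc using fun j => g6_exists κ (hP j)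
  let e : Fin n → List (Fin n ⊕ Fin 2) → List (ℕ × List (Fin n ⊕ Fin 2)) := fun j u =>
    (c j).map fun q => (q.1, u ++ q.2)
  have he : Computable₂ e := by
    have : Computable₂ fun (x : Fin n × List (Fin n ⊕ Fin 2))
        (q : ℕ × List (Fin n ⊕ Fin 2)) => (q.1, x.2 ++ q.2) :=
      Computable.pair (Computable.fst.comp Computable.snd)
        (Computable.list_append.comp (Computable.snd.comp Computable.fst)
          (Computable.snd.comp Computable.snd))
    exact comp_map (f := fun x : Fin n × List (Fin n ⊕ Fin 2) => c x.1)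
      ((Primrec.dom_finite c).to_comp.comp Computable.fst) this
  have h1 : Computable₂ fun (_ : List (Fin n)) (x : List (ℕ × List (Fin n ⊕ Fin 2)) × Fin n) =>
      κ.bind (e x.2) x.1 :=
    (κ.bind_comp' he).comp (Computable.snd.comp Computable.snd)
      (Computable.fst.comp Computable.snd)
  refine ⟨_, comp_foldl (f := fun w : List (Fin n) => w) Computable.id
    (Computable.const [(κ.one, ([] : List (Fin n ⊕ Fin 2)))]) h1, fun w => ?_⟩
  have h3 : ∀ (j : Fin n) (u : List (Fin n ⊕ Fin 2)),
      κ.ev (g6_mw K n) (e j u) = g6_mw K n u * P j := by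
    intro j u
    have h4 : κ.ev (g6_mw K n) (e j u) = κ.ev (fun v => g6_mw K n (u ++ v)) (c j) := by
      simp [CField.ev, e, Function.comp_def]
    rw [h4, ← hc j, g6_mulLeft]
    refine CField.ev_congr κ fun p _ => ?_
    rw [g6_mw_append]
  have key : ∀ (w : List (Fin n)) (s : List (ℕ × List (Fin n ⊕ Fin 2))),
      κ.ev (g6_mw K n) (w.foldl (fun s j => κ.bind (e j) s) s) =
        κ.ev (g6_mw K n) s * (w.map P).prod := by
    intro w
    induction w with
    | nil => intro s; simp
    | cons j w ih =>
      intro s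
      rw [List.foldl_cons, ih, List.map_cons, List.prod_cons, ← mul_assoc, CField.ev_bind]
      congr 1
      simp only [h3]
      rw [g6_mulRight]
  have h7 := key w [(κ.one, [])]
  rw [CField.ev_single] at h7
  have h8 : g6_mw K n [] = 1 := rfl
  rw [h8, one_mul] at h7
  exact h7.symm

/-- One step of the computation of the normal form of a word. -/
def g6_step (l : Fin n) (s : List (Fin n) × List (Fin n) × List (Fin n)) (x : Fin n ⊕ Fin 2) :
    List (Fin n) × List (Fin n) × List (Fin n) :=
  Sum.casesOn x (fun j => (s.1, s.2.1 ++ [j], s.2.2))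
    (fun i => bif i = 0 then (l :: s.1, s.2.1, s.2.2) else (s.1, s.2.1, l :: s.2.2))

theorem g6_step_comp (l : Fin n) :
    Computable fun p : (List (Fin n) × List (Fin n) × List (Fin n)) × (Fin n ⊕ Fin 2) =>
      g6_step l p.1 p.2 := by
  have a1 : Computable fun x : ((List (Fin n) × List (Fin n) × List (Fin n)) ×
      (Fin n ⊕ Fin 2)) × Fin n => x.1.1.1 :=
    Computable.fst.comp (Computable.fst.comp Computable.fst)
  have a2 : Computable fun x : ((List (Fin n) × List (Fin n) × List (Fin n)) ×
      (Fin n ⊕ Fin 2)) × Fin n => x.1.1.2.1 :=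
    Computable.fst.comp (Computable.snd.comp (Computable.fst.comp Computable.fst))
  have a3 : Computable fun x : ((List (Fin n) × List (Fin n) × List (Fin n)) ×
      (Fin n ⊕ Fin 2)) × Fin n => x.1.1.2.2 :=
    Computable.snd.comp (Computable.snd.comp (Computable.fst.comp Computable.fst))
  have b1 : Computable fun x : ((List (Fin n) × List (Fin n) × List (Fin n)) ×
      (Fin n ⊕ Fin 2)) × Fin 2 => x.1.1.1 :=
    Computable.fst.comp (Computable.fst.comp Computable.fst)
  have b2 : Computable fun x : ((List (Fin n) × List (Fin n) × List (Fin n)) ×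
      (Fin n ⊕ Fin 2)) × Fin 2 => x.1.1.2.1 :=
    Computable.fst.comp (Computable.snd.comp (Computable.fst.comp Computable.fst))
  have b3 : Computable fun x : ((List (Fin n) × List (Fin n) × List (Fin n)) ×
      (Fin n ⊕ Fin 2)) × Fin 2 => x.1.1.2.2 :=
    Computable.snd.comp (Computable.snd.comp (Computable.fst.comp Computable.fst))
  have c1 : Computable₂ fun (x : (List (Fin n) × List (Fin n) × List (Fin n)) ×
      (Fin n ⊕ Fin 2)) (j : Fin n) => (x.1.1, x.1.2.1 ++ [j], x.1.2.2) :=
    Computable.pair a1 (Computable.pair (Computable.list_concat.comp a2 Computable.snd) a3)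
  have d0 : Computable fun i : Fin 2 => (decide (i = 0) : Bool) := (Primrec.dom_finite _).to_comp
  have c2 : Computable₂ fun (x : (List (Fin n) × List (Fin n) × List (Fin n)) ×
      (Fin n ⊕ Fin 2)) (i : Fin 2) =>
        (bif i = 0 then (l :: x.1.1, x.1.2.1, x.1.2.2) else (x.1.1, x.1.2.1, l :: x.1.2.2) :
          List (Fin n) × List (Fin n) × List (Fin n)) :=
    Computable.cond (d0.comp Computable.snd)
      (Computable.pair (Computable.list_cons.comp (Computable.const l) b1)
        (Computable.pair b2 b3))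
      (Computable.pair b1 (Computable.pair b2
        (Computable.list_cons.comp (Computable.const l) b3)))
  exact Computable.sumCasesOn (f := fun x : (List (Fin n) × List (Fin n) × List (Fin n)) ×
    (Fin n ⊕ Fin 2) => x.2) Computable.snd c1 c2

/-- The word which is the value of a word in the letters `Fin n ⊕ Fin 2` -/
theorem g6_eval (K : Type u) [Field K] {n : ℕ} (l : Fin n) :
    ∃ r : List (Fin n ⊕ Fin 2) → List (Fin n), Computable r ∧
      ∀ w, evz K (xx K l) (g6_mw K n w) = wd K (r w) := by
  let F : List (Fin n ⊕ Fin 2) → List (Fin n) × List (Fin n) × List (Fin n) := fun w =>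
    w.foldl (g6_step l) ([], [], [])
  have hF : Computable F := by
    have h1 : Computable₂ fun (_ : List (Fin n ⊕ Fin 2))
        (p : (List (Fin n) × List (Fin n) × List (Fin n)) × (Fin n ⊕ Fin 2)) =>
        g6_step l p.1 p.2 := (g6_step_comp l).comp Computable.snd
    exact comp_foldl (f := fun w : List (Fin n ⊕ Fin 2) => w) Computable.id
      (Computable.const ([], [], [])) h1
  refine ⟨fun w => (F w).1 ++ (F w).2.1 ++ (F w).2.2, ?_, fun w => ?_⟩
  · exact Computable.list_append.comp
      (Computable.list_append.comp (Computable.fst.comp hF)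
        (Computable.fst.comp (Computable.snd.comp hF)))
      (Computable.snd.comp (Computable.snd.comp hF))
  · have key : ∀ w : List (Fin n ⊕ Fin 2), ∃ p s : ℕ,
        g6_mw K n w = em (wd K (F w).2.1) * lv (FA K n) ^ p * rv (FA K n) ^ s ∧
          wd K (F w).1 = xx K l ^ p ∧ wd K (F w).2.2 = xx K l ^ s := by
      intro w
      induction w using List.reverseRecOn with
      | nil => exact ⟨0, 0, by simp [F, g6_mw, wd], by simp [F, wd], by simp [F, wd]⟩
      | append_singleton w x ih =>
        obtain ⟨p, s, h1, h2, h3⟩ := ih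
        have hFw : F (w ++ [x]) = g6_step l (F w) x := by
          simp [F, List.foldl_append]
        rw [hFw, g6_mw_append, h1]
        rcases x with j | i
        · refine ⟨p, s, ?_, h2, h3⟩
          show _ = em (wd K ((F w).2.1 ++ [j])) * lv (FA K n) ^ p * rv (FA K n) ^ s
          have e0 : g6_mw K n [Sum.inl j] = em (xx K j) := by simp [g6_mw, g6_psi]
          have e1 : rv (FA K n) ^ s * em (xx K j) = em (xx K j) * rv (FA K n) ^ s :=
            (show Commute (rv (FA K n)) (em (xx K j)) from rv_comm (em (xx K j))).pow_left s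
          have e2 : lv (FA K n) ^ p * em (xx K j) = em (xx K j) * lv (FA K n) ^ p :=
            (show Commute (lv (FA K n)) (em (xx K j)) from lv_comm (em (xx K j))).pow_left p
          have e3 : wd K [j] = xx K j := by simp [wd]
          rw [e0, wd_append, map_mul, e3, mul_assoc _ (rv (FA K n) ^ s), e1, ← mul_assoc,
            mul_assoc _ (lv (FA K n) ^ p), e2]
          simp only [mul_assoc]
        · by_cases hi : i = 0
          · subst hi
            refine ⟨p + 1, s, ?_, ?_, h3⟩
            · show _ = em (wd K (F w).2.1) * lv (FA K n) ^ (p + 1) * rv (FA K n) ^ s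
              have e0 : g6_mw K n [Sum.inr 0] = lv (FA K n) := by simp [g6_mw, g6_psi]
              rw [e0, pow_succ, mul_assoc, ← lv_comm]
              simp only [mul_assoc]
            · show wd K (l :: (F w).1) = _
              rw [pow_succ', ← h2]
              simp [wd]
          · have hi1 : i = 1 := by omega
            subst hi1
            refine ⟨p, s + 1, ?_, h2, ?_⟩
            · show _ = em (wd K (F w).2.1) * lv (FA K n) ^ p * rv (FA K n) ^ (s + 1)
              have e0 : g6_mw K n [Sum.inr 1] = rv (FA K n) := by simp [g6_mw, g6_psi]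
              rw [e0, pow_succ]
              simp only [mul_assoc]
            · show wd K (l :: (F w).2.2) = _
              rw [pow_succ', ← h3]
              simp [wd]
    obtain ⟨p, s, h1, h2, h3⟩ := key w
    rw [h1, wd_append, wd_append, h2, h3]
    exact a0_evz_mono _ _ _ _

theorem opw_c (κ : CField K) (M : ℕ) (l : Fin n) (a : ℕ) (b : K) :
    ∃ o : List (Fin n) → List (ℕ × List (Fin n)), Computable o ∧
      ∀ w, opw K M (xx K l) a 1 0 b (xx K) (wd K w) = κ.ev (wd K) (o w) := by
  obtain ⟨o, ho, h1⟩ := g6_prod κ (g6_P K M l a b) (g6_P_mem M l a b)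
  obtain ⟨r, hr, h2⟩ := g6_eval K l
  refine ⟨fun w => (o w).map fun q => (q.1, r q.2), ?_, fun w => ?_⟩
  · exact comp_map (g := fun (_ : List (Fin n)) (q : ℕ × List (Fin n ⊕ Fin 2)) => (q.1, r q.2))
      ho (Computable.pair (Computable.fst.comp Computable.snd)
        (hr.comp (Computable.snd.comp Computable.snd)))
  · rw [g6_opw, h1, CField.ev_linear]
    simp only [h2]
    simp [CField.ev, Function.comp_def]

theorem theta_c (κ : CField K) (m M : ℕ) (cc : ℕ → ℕ → K) (l : Fin n) :
    ∃ o : List (Fin n) → List (ℕ × List (Fin n)), Computable o ∧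
      ∀ w, theta K m M cc (xx K l) (xx K) (wd K w) = κ.ev (wd K) (o w) := by
  have h : Cd κ (fun w : List (Fin n) => theta K m M cc (xx K l) (xx K) (wd K w)) := by
    unfold theta
    refine Cd.sum _ fun s => Cd.smul (Cd.sum _ fun j => Cd.smul ?_ _) _
    exact opw_c κ M l _ _
  exact h

theorem g6_srt (κ : CField K) {J : Type} [Primcodable J] {e : J → Fin n → ℕ}
    (he : ∀ j, Computable fun a => e a j) : Cd κ (fun a : J => (srt (e a) : FA K n)) := by
  have h1 : ∀ L : List (Fin n), Cd κ (fun a : J => ((L.map fun j => xx K j ^ e a j).prod)) := by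
    intro L
    induction L with
    | nil => simpa using Cd.const (κ := κ) (J := J) (1 : FA K n)
    | cons j L ih =>
      have h2 : Cd κ (fun a : J => xx K j ^ e a j) := by
        have h3 := Cd.iterate (κ := κ) (J := J) (Cd.const (1 : FA K n))
          (LinearMap.mulLeft K (xx K j)) ?_ (he j)
        · refine Eq.mp ?_ h3
          congr 1
          funext a
          have : ∀ k : ℕ, (⇑(LinearMap.mulLeft K (xx K j)))^[k] (1 : FA K n) = xx K j ^ k := by
            intro k
            induction k with
            | zero => simp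
            | succ k ih => rw [Function.iterate_succ_apply', ih, LinearMap.mulLeft_apply, pow_succ']
          exact this _
        · refine ⟨fun w => [(κ.one, j :: w)], ?_, fun w => ?_⟩
          · exact Computable.list_cons.comp (Computable.pair (Computable.const _)
              (Computable.list_cons.comp (Computable.const j) Computable.id)) (Computable.const [])
          · rw [CField.ev_single]
            simp [wd]
      have := h2.mul ih
      simpa only [List.map_cons, List.prod_cons] using this
  have h4 := h1 (List.finRange n)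
  unfold srt
  simpa only [List.ofFn_eq_map] using h4

theorem chm_c (κ : CField K) (m M : ℕ) (cc : ℕ → ℕ → K) {t : ℕ} (g : Fin t → FA K n) :
    ∃ e : Mon t (n + n) n → List (ℕ × List (Fin n)), Computable e ∧
      ∀ a, chm m M cc g a = κ.ev (wd K) (e a) := by
  have hx : ∀ i : Fin (n + n), Computable fun a : Mon t (n + n) n => a.2.1 i := fun i =>
    (Primrec.fin_app.comp (Primrec.fst.comp Primrec.snd) (Primrec.const i)).to_comp
  have hy : ∀ j : Fin n, Computable fun a : Mon t (n + n) n => a.2.2 j := fun j =>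
    (Primrec.fin_app.comp (Primrec.snd.comp Primrec.snd) (Primrec.const j)).to_comp
  have h1 : Cd κ (fun a : Mon t (n + n) n => ThY m M cc a.2.2 (g a.1)) := by
    have h2 : ∀ L : List (Fin n), Cd κ (fun a : Mon t (n + n) n =>
        L.foldr (fun j x => (theta K m M cc (xx K j) (xx K))^[a.2.2 j] x) (g a.1)) := by
      intro L
      induction L with
      | nil => exact (Cd.fin g).comp Computable.fst
      | cons j L ih =>
        obtain ⟨f, hf⟩ := theta_lin K m M cc (xx K j) (xx K)
        have h3 := Cd.iterate ih f ?_ (hy j)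
        · have h4 : theta K m M cc (xx K j) (xx K) = f := funext hf
          rw [← h4] at h3
          exact h3
        · obtain ⟨o, ho, h5⟩ := theta_c κ m M cc j
          exact ⟨o, ho, fun w => (hf _).symm.trans (h5 w)⟩
    exact h2 _
  have h2 : Cd κ (chm m M cc g) := by
    unfold chm
    exact ((g6_srt κ fun j => hx _).mul h1).mul (g6_srt κ fun j => hx _)
  exact h2

end Pool.Agent.H.MP_f5ceca_al.G
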