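import Pool.Agent.H.MP_f5ceca_al.G.K1
import Pool.Agent.H.MP_f5ceca_al.G.D2
import Pool.Agent.H.MP_f5ceca_al.G.G6
import Pool.Agent.H.MP_f5ceca_al.Conv.Layer

/-!
The main theorem on finitely presented algebras (assembly).
-/

namespace Pool.Agent.H.MP_f5ceca_al.G

open Pool.Agent.H.MP_f5ceca_al.Conv

universe u v w

variable {K : Type u} [Field K] {n : ℕ}

/-- outer shift operators -/
noncomputable def Xo (K : Type u) [Field K] (n : ℕ) {t : ℕ} (i : Fin (n + n)) :
    (Mon t (n + n) n →₀ K) →ₗ[K] (Mon t (n + n) n →₀ K) :=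
  Finsupp.lmapDomain K K (shift (Pi.single i 1, 0))

/-- inner shift operators -/
noncomputable def Qo (K : Type u) [Field K] (n : ℕ) {t : ℕ} (j : Fin n) :
    (Mon t (n + n) n →₀ K) →ₗ[K] (Mon t (n + n) n →₀ K) :=
  Finsupp.lmapDomain K K (shift (0, Pi.single j 1))

theorem theta_mem_sup [Infinite K] {m M N : ℕ} {cc : ℕ → ℕ → K} {T : Submodule K (FA K n)}
    (hT : Good m M N cc T) {I : Submodule K (FA K n)} (hI : IsTSI I) (hTI : T ≤ I) (k : ℕ)
    {x : FA K n} (hx : x ∈ Fil K n k ⊔ Isharp N T I) (j : Fin n) :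
    theta K m M cc (xx K j) (xx K) x ∈ Fil K n k ⊔ Isharp N T I := by
  obtain ⟨f, hf⟩ := theta_lin K m M cc (xx K j) (xx K)
  obtain ⟨a, ha, b, hb, rfl⟩ := Submodule.mem_sup.1 hx
  rw [hf, map_add, ← hf, ← hf]
  exact Submodule.add_mem_sup (theta_Fil m M cc _ ha) (hT.clos I hI hTI b hb j)

/-- closure of a set of elements under multiplication, modulo `V` -/
theorem closure_mul [Infinite K] {m M : ℕ} {cc : ℕ → ℕ → K} {k : ℕ} {t : ℕ}
    {g : Fin t → FA K n} (hg : ∀ i, g i ∈ Fil K n k) {V : Submodule K (FA K n)}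
    (hV : IsTSI V) (hkV : Fil K n (k + 1) ≤ V)
    {N₂ : Submodule K (Mon t (n + n) n →₀ K)} (hN₂ : ∀ i, ∀ f ∈ N₂, Xo K n i f ∈ N₂)
    (a : FA K n) (y : FA K n) (hy : ∃ f ∈ N₂, y - chi m M cc g f ∈ V) :
    (∃ f ∈ N₂, a * y - chi m M cc g f ∈ V) ∧ (∃ f ∈ N₂, y * a - chi m M cc g f ∈ V) := by
  induction a using FreeAlgebra.induction generalizing y with
  | grade0 c =>
    obtain ⟨f, hf, hy⟩ := hy
    have h1 : c • y - chi m M cc g (c • f) ∈ V := by
      rw [map_smul, ← smul_sub]
      exact V.smul_mem c hy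
    rw [← Algebra.commutes, ← Algebra.smul_def]
    exact ⟨⟨c • f, N₂.smul_mem c hf, h1⟩, ⟨c • f, N₂.smul_mem c hf, h1⟩⟩
  | grade1 j =>
    obtain ⟨f, hf, hy⟩ := hy
    constructor
    · refine ⟨Xo K n (Fin.castAdd n j) f, hN₂ _ f hf, ?_⟩
      have h1 := hkV (chi_left m M cc hg f j)
      have h2 := hV (xx K j) _ 1 hy
      have e : FreeAlgebra.ι K j * y - chi m M cc g (Xo K n (Fin.castAdd n j) f) =
          xx K j * (y - chi m M cc g f) * 1 -
          (chi m M cc g (Finsupp.lmapDomain K K (shift (Pi.single (Fin.castAdd n j) 1, 0)) f) -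
            xx K j * chi m M cc g f) := by
        unfold Xo
        rw [mul_one, mul_sub]
        abel
      rw [e]
      exact V.sub_mem h2 h1
    · refine ⟨Xo K n (Fin.natAdd n j) f, hN₂ _ f hf, ?_⟩
      have h1 := hkV (chi_right m M cc hg f j)
      have h2 := hV 1 _ (xx K j) hy
      have e : y * FreeAlgebra.ι K j - chi m M cc g (Xo K n (Fin.natAdd n j) f) =
          1 * (y - chi m M cc g f) * xx K j -
          (chi m M cc g (Finsupp.lmapDomain K K (shift (Pi.single (Fin.natAdd n j) 1, 0)) f) -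
            chi m M cc g f * xx K j) := by
        unfold Xo
        rw [one_mul, sub_mul]
        abel
      rw [e]
      exact V.sub_mem h2 h1
  | mul a b ha hb =>
    constructor
    · rw [mul_assoc]
      exact (ha _ (hb _ hy).1).1
    · rw [← mul_assoc]
      exact (hb _ (ha _ hy).2).2
  | add a b ha hb =>
    obtain ⟨⟨f1, hf1, h1⟩, ⟨f2, hf2, h2⟩⟩ := ha y hy
    obtain ⟨⟨f3, hf3, h3⟩, ⟨f4, hf4, h4⟩⟩ := hb y hy
    constructor
    · refine ⟨f1 + f3, N₂.add_mem hf1 hf3, ?_⟩
      have := V.add_mem h1 h3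
      rw [add_mul, map_add]
      convert this using 1
      abel
    · refine ⟨f2 + f4, N₂.add_mem hf2 hf4, ?_⟩
      have := V.add_mem h2 h4
      rw [mul_add, map_add]
      convert this using 1
      abel

theorem shift_add {t p q : ℕ} (v w : (Fin p → ℕ) × (Fin q → ℕ)) (a : Mon t p q) :
    shift (v + w) a = shift w (shift v a) := by
  simp [shift, add_assoc]

theorem shift_zz {t p q : ℕ} (a : Mon t p q) :
    shift ((0 : Fin p → ℕ), (0 : Fin q → ℕ)) a = a := by
  have h : (((0 : Fin p → ℕ), (0 : Fin q → ℕ)) : (Fin p → ℕ) × (Fin q → ℕ)) = 0 := rfl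
  rw [h]
  simp [shift]

/-- the subspace generated by a family under the outer shifts -/
noncomputable def N2 {t : ℕ} (G : Set (Mon t (n + n) n →₀ K)) :
    Submodule K (Mon t (n + n) n →₀ K) :=
  Submodule.span K {x | ∃ f ∈ G, ∃ v : Fin (n + n) → ℕ,
    x = Finsupp.lmapDomain K K (shift (v, 0)) f}

theorem N2_stable {t : ℕ} (G : Set (Mon t (n + n) n →₀ K)) (i : Fin (n + n)) :
    ∀ f ∈ N2 (K := K) G, Xo K n i f ∈ N2 (K := K) G := by
  intro f hf
  induction hf using Submodule.span_induction with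
  | mem x hx =>
    obtain ⟨f, hf, v, rfl⟩ := hx
    refine Submodule.subset_span ⟨f, hf, v + Pi.single i 1, ?_⟩
    unfold Xo
    rw [Finsupp.lmapDomain_apply, Finsupp.lmapDomain_apply, Finsupp.lmapDomain_apply,
      ← Finsupp.mapDomain_comp]
    congr 1
    funext a
    have : ((v + Pi.single i 1, 0) : (Fin (n + n) → ℕ) × (Fin n → ℕ)) =
        (v, 0) + (Pi.single i 1, 0) := by simp
    rw [this, shift_add]
    rfl
  | zero => simp
  | add x y _ _ hx hy => rw [map_add]; exact Submodule.add_mem _ hx hy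
  | smul c x _ hx => rw [map_smul]; exact Submodule.smul_mem _ _ hx

theorem subset_N2 {t : ℕ} (G : Set (Mon t (n + n) n →₀ K)) : G ⊆ N2 (K := K) G := by
  intro f hf
  refine Submodule.subset_span ⟨f, hf, 0, ?_⟩
  rw [Finsupp.lmapDomain_apply]
  have : (shift ((0 : Fin (n + n) → ℕ), (0 : Fin n → ℕ)) : Mon t (n + n) n → Mon t (n + n) n) =
      id := by
    funext a
    exact shift_zz a
  rw [this, Finsupp.mapDomain_id]

theorem N2_le {t : ℕ} {G : Set (Mon t (n + n) n →₀ K)}
    {P : Submodule K (Mon t (n + n) n →₀ K)} (hG : G ⊆ P)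
    (hP : ∀ i, ∀ f ∈ P, Xo K n i f ∈ P) : N2 (K := K) G ≤ P := by
  have key : ∀ v : Fin (n + n) → ℕ, ∀ f ∈ P,
      Finsupp.lmapDomain K K (shift (v, (0 : Fin n → ℕ))) f ∈ P := by
    intro v
    have h1 : v = ∑ i, v i • (Pi.single i 1 : Fin (n + n) → ℕ) := by
      funext k
      simp [Finset.sum_apply, Pi.single_apply]
    let M : AddSubmonoid (Fin (n + n) → ℕ) :=
      { carrier := {v | ∀ f ∈ P, Finsupp.lmapDomain K K (shift (v, (0 : Fin n → ℕ))) f ∈ P}
        zero_mem' := fun f hf => by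
          rw [Finsupp.lmapDomain_apply]
          have : (shift ((0 : Fin (n + n) → ℕ), (0 : Fin n → ℕ)) :
              Mon t (n + n) n → Mon t (n + n) n) = id := by
            funext a
            exact shift_zz a
          rw [this, Finsupp.mapDomain_id]
          exact hf
        add_mem' := fun {v w} hv hw f hf => by
          have : (shift (v + w, (0 : Fin n → ℕ)) : Mon t (n + n) n → Mon t (n + n) n) =
              shift (w, 0) ∘ shift (v, 0) := by
            funext a
            have : ((v + w, 0) : (Fin (n + n) → ℕ) × (Fin n → ℕ)) = (v, 0) + (w, 0) := by simp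
            rw [this, shift_add]
            rfl
          rw [Finsupp.lmapDomain_apply, this, Finsupp.mapDomain_comp]
          exact hw _ (hv _ hf) }
    have h2 : v ∈ M := by
      rw [h1]
      refine M.sum_mem fun i _ => M.nsmul_mem ?_ _
      exact fun f hf => hP i f hf
    exact h2
  refine Submodule.span_le.2 ?_
  rintro _ ⟨f, hf, v, rfl⟩
  exact key v f (hG hf)

theorem N2_supported {t : ℕ} {G : Set (Mon t (n + n) n →₀ K)} {B : ℕ}
    (hG : G ⊆ (Finsupp.supported K K {a : Mon t (n + n) n | kdeg a ≤ B} :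
      Submodule K (Mon t (n + n) n →₀ K))) :
    N2 (K := K) G ≤ Finsupp.supported K K {a | kdeg a ≤ B} := by
  refine N2_le hG fun i f hf => ?_
  unfold Xo
  rw [Finsupp.lmapDomain_apply]
  rw [Finsupp.mem_supported] at hf ⊢
  intro a ha
  classical
  have := Finsupp.mapDomain_support ha
  obtain ⟨b, hb, rfl⟩ := Finset.mem_image.1 this
  have h1 := hf hb
  change kdeg b ≤ B at h1
  change kdeg (shift (Pi.single i 1, 0) b) ≤ B
  rw [kdeg_shift]
  simpa using h1

theorem layer_REB [CharZero K] (κ : CField K) {m M N : ℕ} (hm : 0 < m) (hN : 0 < N)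
    {cc : ℕ → ℕ → K} {T : Submodule K (FA K n)} (hT : Good m M N cc T) (R : Finset (FA K n))
    {k : ℕ} (hk : k < m) :
    κ.REB (wd K) (Fil K n (k + 1) ⊔ (T ⊔ tspan K (R : Set (FA K n))))
      (Fil K n k ⊔ (T ⊔ tspan K (R : Set (FA K n)))) := by
  classical
  set I : Submodule K (FA K n) := T ⊔ tspan K (R : Set (FA K n)) with hIdef
  have hI : IsTSI I := isTSI_sup hT.tsi (tspan_tsi _)
  have hTI : T ≤ I := le_sup_left
  obtain ⟨t, g, hg, hsur⟩ := layer_map hT hk
  obtain ⟨e, he, hχ⟩ := chm_c κ m M cc g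
  set J : Submodule K (FA K n) := Isharp N T I with hJdef
  have hJ : IsTSI J := isharp_tsi hT.tsi
  have hJI : J ≤ I := isharp_le hI hTI
  have hTJ : T ≤ J := T_le_isharp
  set V : Submodule K (FA K n) := Fil K n (k + 1) ⊔ J with hVdef
  have hV : IsTSI V := isTSI_sup (Fil_tsi _) hJ
  have hVU : V ≤ Fil K n (k + 1) ⊔ I := sup_le_sup_left hJI _
  set χ := chi m M cc g with hχdef
  -- near finiteness
  obtain ⟨G, hG1, hG2⟩ := nf hT.tsi hT.nil hm hN R (J ⊔ (I ⊓ Fil K n k))
    (isTSI_sup hJ (isTSI_inf hI (Fil_tsi _))) le_sup_left (sup_le hJI inf_le_left)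
  have hw : ∀ γ ∈ G, ∃ f : Mon t (n + n) n →₀ K, γ - χ f ∈ V ∧ χ f ∈ Fil K n (k + 1) ⊔ I := by
    intro γ hγ
    obtain ⟨a, ha, b, hb, hab⟩ := Submodule.mem_sup.1 (hG1 hγ)
    obtain ⟨hb1, hb2⟩ := Submodule.mem_inf.1 hb
    obtain ⟨c, hc, d, hd, hcd⟩ := Submodule.mem_sup.1 (hsur hb2)
    obtain ⟨f, rfl⟩ := hc
    obtain ⟨d1, hd1, d2, hd2, hd12⟩ := Submodule.mem_sup.1 hd
    refine ⟨f, ?_, ?_⟩
    · have : γ - χ f = d2 + (a + d1) := by
        rw [← hab, ← hcd, ← hd12]
        abel
      rw [this]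
      exact Submodule.add_mem_sup hd2 (J.add_mem ha (hTJ hd1))
    · have : χ f = (-d2) + (b - d1) := by
        rw [← hcd, ← hd12]
        abel
      rw [this]
      exact Submodule.add_mem_sup (Submodule.neg_mem _ hd2) (I.sub_mem hb1 (hTI hd1))
  choose! w hw1 hw2 using hw
  let GG : Set (Mon t (n + n) n →₀ K) := w '' (G : Set (FA K n))
  have hX : ∀ (U' : Submodule K (FA K n)), IsTSI U' → Fil K n (k + 1) ≤ U' →
      ∀ i, ∀ f, χ f ∈ U' → χ (Xo K n i f) ∈ U' := by
    intro U' hU' hkU' i f hf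
    refine Fin.addCases (fun j => ?_) (fun j => ?_) i
    · have h1 := hkU' (chi_left m M cc hg f j)
      have h2 := hU' (xx K j) _ 1 hf
      rw [mul_one] at h2
      have := U'.add_mem h1 h2
      rwa [sub_add_cancel] at this
    · have h1 := hkU' (chi_right m M cc hg f j)
      have h2 := hU' 1 _ (xx K j) hf
      rw [one_mul] at h2
      have := U'.add_mem h1 h2
      rwa [sub_add_cancel] at this
  have hUI : IsTSI (Fil K n (k + 1) ⊔ I) := isTSI_sup (Fil_tsi _) hI
  have hχ1 : ∀ a, χ (Finsupp.single a 1) = chm m M cc g a := by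
    intro a
    rw [hχdef, chi, Finsupp.linearCombination_single, one_smul]
  refine κ.REB_mon χ he (fun a => by rw [hχ1, hχ]) ?_ ?_ (V.comap χ) (N2 (K := K) GG)
    (fun _ => 1) (fun _ => one_pos) (G.sup fun γ => (w γ).support.sup kdeg)
    (fun i => Xo K n i) (fun j => Qo K n j) ?_ ?_ ?_ ?_ ?_ ?_ ?_
  · intro a
    exact Submodule.mem_sup_left (chi_Fil m M cc hg _)
  · refine sup_le (hsur.trans ?_) (le_sup_right.trans le_sup_left)
    refine sup_le le_sup_right (sup_le ((hTI.trans le_sup_right).trans le_sup_left) ?_)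
    exact (le_sup_left : Fil K n (k + 1) ≤ Fil K n (k + 1) ⊔ I).trans le_sup_left
  · intro i a
    simp [Xo, Finsupp.mapDomain_single]
  · intro j a
    simp [Qo, Finsupp.mapDomain_single]
  · apply le_antisymm
    · intro f hf
      obtain ⟨a, ha, b, hb, hab⟩ := Submodule.mem_sup.1 (show χ f ∈ Fil K n (k + 1) ⊔ I from hf)
      have hbF : b ∈ Fil K n k := by
        have : b = χ f - a := by rw [← hab]; abel
        rw [this]
        exact Submodule.sub_mem _ (chi_Fil m M cc hg _) (Fil_succ_le k ha)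
      have hbW : b ∈ J ⊔ tspan K (G : Set (FA K n)) :=
        hG2 (Submodule.mem_sup_right ⟨hb, hbF⟩)
      obtain ⟨b1, hb1, z, hz, hbz⟩ := Submodule.mem_sup.1 hbW
      have hzf : ∃ f ∈ N2 (K := K) GG, z - χ f ∈ V := by
        clear hbz
        induction hz using Submodule.span_induction with
        | mem z hz =>
          obtain ⟨c, d, γ, hγ, rfl⟩ := hz
          have h0 : ∃ f ∈ N2 (K := K) GG, γ - χ f ∈ V :=
            ⟨w γ, subset_N2 _ ⟨γ, hγ, rfl⟩, hw1 γ hγ⟩
          have h1 := (closure_mul hg hV le_sup_left (N2_stable GG) c γ h0).1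
          exact (closure_mul hg hV le_sup_left (N2_stable GG) d _ h1).2
        | zero => exact ⟨0, Submodule.zero_mem _, by simp⟩
        | add x y _ _ hx hy =>
          obtain ⟨f1, hf1, h1⟩ := hx
          obtain ⟨f2, hf2, h2⟩ := hy
          refine ⟨f1 + f2, Submodule.add_mem _ hf1 hf2, ?_⟩
          have := V.add_mem h1 h2
          rw [map_add]
          convert this using 1
          abel
        | smul c x _ hx =>
          obtain ⟨f1, hf1, h1⟩ := hx
          refine ⟨c • f1, Submodule.smul_mem _ _ hf1, ?_⟩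
          rw [map_smul, ← smul_sub]
          exact V.smul_mem c h1
      obtain ⟨f2, hf2, h2⟩ := hzf
      refine Submodule.mem_sup.2 ⟨f - f2, ?_, f2, hf2, sub_add_cancel _ _⟩
      rw [Submodule.mem_comap, map_sub]
      have : χ f - χ f2 = (a + b1) + (z - χ f2) := by
        rw [← hab, ← hbz]
        abel
      rw [this]
      exact V.add_mem (Submodule.add_mem_sup ha hb1) h2
    · refine sup_le (fun f hf => hVU hf) (N2_le ?_ ?_)
      · rintro _ ⟨γ, hγ, rfl⟩
        exact hw2 γ hγ
      · intro i f hf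
        exact hX _ hUI le_sup_left i f hf
  · intro i f hf
    exact hX _ hUI le_sup_left i f hf
  · intro i f hf
    exact hX V hV le_sup_left i f hf
  · intro j f hf
    have h1 := chi_theta m M cc hg f j
    have h2 : theta K m M cc (xx K j) (xx K) (χ f) ∈ V := theta_mem_sup hT hI hTI (k + 1) hf j
    have := V.add_mem (Submodule.mem_sup_left h1) h2
    rw [sub_add_cancel] at this
    exact this
  · refine N2_supported ?_
    rintro _ ⟨γ, hγ, rfl⟩
    rw [SetLike.mem_coe, Finsupp.mem_supported]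
    intro a ha
    have h1 : kdeg a ≤ (w γ).support.sup kdeg := Finset.le_sup (f := kdeg) ha
    exact h1.trans (Finset.le_sup (f := fun γ => (w γ).support.sup kdeg) hγ)

theorem GT [CharZero K] (κ : CField K) {m M N : ℕ} (hm : 0 < m) (hN : 0 < N)
    {cc : ℕ → ℕ → K} {T : Submodule K (FA K n)} (hT : Good m M N cc T) (R : Finset (FA K n))
    (hre : κ.RESub (wd K) (T ⊔ tspan K (R : Set (FA K n)))) :
    ComputablePred fun P : List (ℕ × List (Fin n)) =>
      κ.ev (wd K) P ∈ T ⊔ tspan K (R : Set (FA K n)) := by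
  set I : Submodule K (FA K n) := T ⊔ tspan K (R : Set (FA K n)) with hIdef
  have key : ∀ j ≤ m, κ.REB (wd K) (Fil K n m ⊔ I) (Fil K n (m - j) ⊔ I) := by
    intro j
    induction j with
    | zero => intro _; exact CField.REB.refl κ _ _
    | succ j ih =>
      intro hj
      have h1 := layer_REB κ hm hN hT R (k := m - (j + 1)) (by omega)
      have h2 : m - (j + 1) + 1 = m - j := by omega
      rw [h2] at h1
      refine CField.REB.trans ?_ ?_ (ih (by omega)) h1
      · exact sup_le_sup_right (Fil_anti (by omega)) _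
      · exact sup_le_sup_right (Fil_anti (by omega)) _
  have h1 := key m le_rfl
  have h2 : Fil K n m ⊔ I = I := sup_eq_right.2 (hT.nil.trans le_sup_left)
  rw [h2, Nat.sub_self, Fil_zero, top_sup_eq] at h1
  exact h1.dec (fun _ => trivial) hre

end Pool.Agent.H.MP_f5ceca_al.G
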