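import Pool.Agent.H.MP_f5ceca_al.G.B2

/-!
Definitions for the passage from varieties to the algebra.
-/

namespace Pool.Agent.H.MP_f5ceca_al.G

universe u v w

/-- The coefficient of a word. -/
noncomputable def cf {K : Type u} [Field K] {X : Type} (f : FreeAlgebra K X) (l : List X) : K :=
  (FreeAlgebra.basisFreeMonoid K X).repr f (FreeMonoid.ofList l)

/-- The number of pairs of positions `s < t` with letter `i` at `s` and letter `j` at `t`. -/
def prs {X : Type} [DecidableEq X] (i j : X) : List X → ℕ
  | [] => 0
  | x :: l => (if x = i then l.count j else 0) + prs i j l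

/-- The conditions on the coefficients which say that `f` is an identity of all algebras
with `x[y,z][t,u]v = 0`, `x[y,z,t]u = 0`. -/
structure WCond {K : Type u} [Field K] {X : Type} [DecidableEq X] (f : FreeAlgebra K X) :
    Prop where
  c0 : cf f [] = 0
  c1 : ∀ x, cf f [x] = 0
  c2 : ∀ (α β : X) (γ : Multiset X), ∑ m ∈ γ.lists.toFinset, cf f (α :: (m ++ [β])) = 0
  c3 : ∀ (α β : X) (γ : Multiset X) (i j : X), i ≠ j →
    ∑ m ∈ γ.lists.toFinset, cf f (α :: (m ++ [β])) * (prs i j m : K) = 0

end Pool.Agent.H.MP_f5ceca_al.G
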