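import Pool.Agent.H.MP_f5ceca_al.G.J4
import Pool.Agent.H.MP_f5ceca_al.Conv.IdG

/-!
Assembly: the decidability theorem for nonmatrix varieties.
-/

namespace Pool.Agent.H.MP_f5ceca_al.G

open Pool.Agent.H.MP_f5ceca_al.Conv

universe u v w

theorem identities_vanish {K : Type u} [Field K] {S : Set (FreeAlgebra K ℕ)} {E : Type u}
    [Field E] [Algebra K E] {B : Type u} [Ring B] [Nontrivial B] [Algebra E B] [Algebra K B]
    [IsScalarTower K E B] {J : Submodule E B}
    (hJ : ∀ a u b : B, u ∈ J → a * u * b ∈ J)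
    (hS : ∀ f ∈ S, ∀ y : ℕ → B, (∀ j, y j ∈ J) → FreeAlgebra.lift K y f = 0)
    {k : ℕ} {f : FreeAlgebra K (Fin k)} (hf : f ∈ identities S k) (y : Fin k → B)
    (hy : ∀ j, y j ∈ J) : FreeAlgebra.lift K y f = 0 := by
  have h1 : Satisfies S (nus (K := K) J hJ) := fun g hg =>
    identity_of_vanish (nus (K := K) J hJ) (hS g hg)
  exact vanish_of_identity (nus (K := K) J hJ) (hf (nus (K := K) J hJ) h1) y hy

theorem dec_of_locrep {K : Type u} [Field K] [CharZero K] (κ : CField K)
    {S : Set (FreeAlgebra K ℕ)} (hW : ¬ IncludesW S)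
    (hM : ∃ f ∈ S, ∃ y : ℕ → Matrix (Fin 2) (Fin 2) K, FreeAlgebra.lift K y f ≠ 0) {k : ℕ}
    (hrep : LocRep S k) {R : Set (FA K k)} (hR : R.Finite) :
    ComputablePred fun P : List (ℕ × List (Fin k)) =>
      κ.ev (wd K) P ∈ TwoSidedIdeal.span (identities S k ∪ R) := by
  obtain ⟨E, _, _, _, B, _, _, _, _, _, J, hfd, hJ, hcod, hS, hid⟩ := hrep
  have hT : ((idt K (J : Set B) k : Submodule K (FA K k)) : Set (FA K k)) = identities S k := by
    ext f
    constructor
    · intro hf
      exact hid f hf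
    · intro hf y hy
      exact identities_vanish hJ hS hf y hy
  have hAlg : Alg E B J := star_of_not_includesW hW hJ hS
  obtain ⟨f, hf, hy⟩ := hM
  obtain ⟨m, hm, hn⟩ := cnil_of (K := K) hJ hcod (fun y hy => hS f hf y hy) hy
  obtain ⟨M, N, cc, hN, hgood⟩ := good_of (K := K) hAlg hm hn k
  haveI : Infinite E := IsAlgClosed.instInfinite
  have hre : κ.RESub (wd K) (idt K (J : Set B) k ⊔ tspan K ((hR.toFinset : Finset (FA K k)) :
      Set (FA K k))) := by
    refine κ.re_sup (idt_re κ J k) (tspan_re κ (Finset.finite_toSet _)) ?_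
    rw [wd_span]
    exact le_top
  refine (GT κ hm hN hgood hR.toFinset hre).of_eq fun P => ?_
  rw [← mem_span_iff_sup hgood.tsi, hT, Set.Finite.coe_toFinset]

/-- The zero algebra satisfies all identities without constant term. -/
theorem satisfies_punit {K : Type u} [Field K] {S : Set (FreeAlgebra K ℕ)}
    (hS0 : ∀ f ∈ S, FreeAlgebra.algebraMapInv f = 0) : Satisfies S (PUnit.{u + 1}) := by
  intro f hf v
  apply Unitization.ext
  · rw [lift_fst, hS0 f hf]
    rfl
  · rfl

theorem one_notMem_identities {K : Type u} [Field K] {S : Set (FreeAlgebra K ℕ)}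
    (hS0 : ∀ f ∈ S, FreeAlgebra.algebraMapInv f = 0) (n : ℕ) :
    (1 : FreeAlgebra K (Fin n)) ∉ identities S n := by
  intro h
  have h1 := h (PUnit.{u + 1}) (satisfies_punit hS0) (fun _ => PUnit.unit)
  rw [map_one] at h1
  have h2 := congrArg (fun z : Unitization K (PUnit.{u + 1}) => z.fst) h1
  simp at h2

/-- The subalgebra `E + B`. -/
def sbal {E : Type u} [Field E] {Q : Type u} [Ring Q] [Algebra E Q] (B : Submodule E Q)
    (hB : ∀ a ∈ B, ∀ b ∈ B, a * b ∈ B) : Subalgebra E Q where
  carrier := {x | ∃ c : E, x - algebraMap E Q c ∈ B}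
  mul_mem' := by
    rintro x y ⟨c, hc⟩ ⟨d, hd⟩
    refine ⟨c * d, ?_⟩
    have h1 := hB _ hc _ hd
    have h2 := B.smul_mem c hd
    have h3 := B.smul_mem d hc
    have e : x * y - algebraMap E Q (c * d) =
        (x - algebraMap E Q c) * (y - algebraMap E Q d) + c • (y - algebraMap E Q d) +
          d • (x - algebraMap E Q c) := by
      rw [Algebra.smul_def, Algebra.smul_def, Algebra.commutes d, map_mul]
      noncomm_ring
    rw [e]
    exact B.add_mem (B.add_mem h1 h2) h3
  add_mem' := by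
    rintro x y ⟨c, hc⟩ ⟨d, hd⟩
    refine ⟨c + d, ?_⟩
    have := B.add_mem hc hd
    rw [map_add]
    convert this using 1
    abel
  algebraMap_mem' := fun c => ⟨c, by simp⟩

/-- Representability from a faithful evaluation. -/
theorem locRep_of_nmrep {K : Type u} [Field K] {E : Type u} [Field E] [IsAlgClosed E]
    [Algebra K E] {S : Set (FreeAlgebra K ℕ)} {n : ℕ} {Q : Type u} [Ring Q] [Algebra E Q]
    [Algebra K Q] [IsScalarTower K E Q] [Module.Finite E Q] (B : Submodule E Q)
    (v : Fin n → Q) (hv : ∀ j, v j ∈ B) (hB : ∀ a ∈ B, ∀ b ∈ B, a * b ∈ B)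
    (hS0 : ∀ f ∈ S, FreeAlgebra.algebraMapInv f = 0)
    (hS : ∀ f ∈ S, ∀ w : ℕ → Q, (∀ i, w i ∈ B) → FreeAlgebra.lift K w f = 0)
    (hid : ∀ z : FA K n, FreeAlgebra.lift K v z = 0 → z ∈ identities S n) : LocRep S n := by
  have hQ : Nontrivial Q := by
    by_contra hne
    rw [not_nontrivial_iff_subsingleton] at hne
    exact one_notMem_identities hS0 n (hid 1 (Subsingleton.elim _ _))
  let A : Subalgebra E Q := sbal B hB
  let J : Submodule E A := B.comap A.val.toLinearMap
  have hBA : ∀ b ∈ B, b ∈ A := fun b hb => ⟨0, by simpa using hb⟩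
  have hval : ∀ {X : Type} (y : X → A) (f : FreeAlgebra K X),
      ((FreeAlgebra.lift K y f : A) : Q) = FreeAlgebra.lift K (fun x => (y x : Q)) f := by
    intro X y f
    have h1 : (A.val.restrictScalars K).comp (FreeAlgebra.lift K y) =
        FreeAlgebra.lift K (fun x => (y x : Q)) := by
      apply FreeAlgebra.hom_ext
      funext x
      simp
    exact DFunLike.congr_fun h1 f
  refine ⟨E, inferInstance, inferInstance, inferInstance, A, inferInstance, inferInstance,
    inferInstance, inferInstance, inferInstance, J, inferInstance, ?_, ?_, ?_, ?_⟩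
  · rintro ⟨a, c, hc⟩ u ⟨b, d, hd⟩ hu
    change a * (u : Q) * b ∈ B
    change (u : Q) ∈ B at hu
    have h1 : a * (u : Q) ∈ B := by
      have := B.add_mem (hB _ hc _ hu) (B.smul_mem c hu)
      rw [Algebra.smul_def] at this
      convert this using 1
      noncomm_ring
    have := B.add_mem (hB _ h1 _ hd) (B.smul_mem d h1)
    rw [Algebra.smul_def, Algebra.commutes] at this
    convert this using 1
    noncomm_ring
  · rintro ⟨x, c, hc⟩
    exact ⟨c, hc⟩
  · intro f hf y hy
    apply Subtype.ext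
    rw [hval]
    exact hS f hf _ hy
  · intro f hf
    apply hid
    have h1 := hf (fun j => ⟨v j, hBA _ (hv j)⟩) hv
    have h2 := congrArg (fun z : A => (z : Q)) h1
    rw [hval] at h2
    exact h2

end Pool.Agent.H.MP_f5ceca_al.G
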