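import Pool.Agent.H.MP_f5ceca_al.G.K0
import Pool.Agent.H.MP_f5ceca_al.G.A5
import Pool.Agent.H.MP_f5ceca_al.G.A6
import Pool.Agent.H.MP_f5ceca_al.G.D1
import Pool.Agent.H.MP_f5ceca_al.G.E2

/-!
Job K1: the map of the layer `k`.

* `th_left`, `th_right`, `th_comm`: on `Fil k` modulo `Fil (k + 1)` the operators `theta` commute with
  the outer multiplications and with each other: by `Fil_le_Lam` it is enough to consider elements
  `Lam c v` (and `theta_lin`, `theta_Fil`), where they are multiplications of `v` by `thS`, `X (0, j)`,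
  `X (last, j)` (`theta_layer`, `Lam_left`, `Lam_right`, `Fil_tsi`).
* `chi_left` etc.: linear in `f`, so `f = single a 1`; by `th_left`, `th_right`, `th_comm`, and
  `x_j * srt x ≡ srt (x + e_j)` modulo `Fil 1` (and `Fil 1 * Fil k ≤ Fil (k + 1)`). Here
  `shift (Pi.single i 1, 0) a = (a.1, a.2 + (Pi.single i 1, 0))`.
* `chm_Lam`: for `g i = Lam c (μ)`: `chm g (i, x, y) ≡ Lam c (smon x y * μ)` modulo `Fil (k + 1)`.
* `layer_map`: the `g`'s are the elements `Lam c (μ i)` for all `c : Fin k → Fin n × Fin n` and the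
  generators `μ i` of `fin_gen` (finitely many, numbered by some `Fin t`). For `h ∈ Fil k`:
  `h ≡ ∑ c, Lam c (v c)` modulo `Fil (k + 1)`, `v c ≡ ∑ smon * μ` modulo `erI`, and
  `Lam c (w) ∈ T ⊔ Fil (k + 1)` for `w ∈ erI` by `erel_layer` and `hT.erel`.
-/

namespace Pool.Agent.H.MP_f5ceca_al.G

open Pool.Agent.H.MP_f5ceca_al.Conv

universe u v w

variable {K : Type u} [Field K] {n : ℕ}

theorem k1_trans {k : ℕ} {x y z : FA K n} (h1 : x - y ∈ Fil K n k) (h2 : y - z ∈ Fil K n k) :
    x - z ∈ Fil K n k := by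
  have h3 := Submodule.add_mem _ h1 h2
  rwa [sub_add_sub_cancel] at h3

theorem k1_symm {k : ℕ} {x y : FA K n} (h1 : x - y ∈ Fil K n k) : y - x ∈ Fil K n k := by
  have h := Submodule.neg_mem _ h1
  rwa [neg_sub] at h

/-- It is enough to consider the elements `Lam c v`. -/
theorem k1_ind {k : ℕ} (D : FA K n →ₗ[K] FA K n)
    (hD : ∀ x ∈ Fil K n (k + 1), D x ∈ Fil K n (k + 1))
    (hL : ∀ (c : Fin k → Fin n × Fin n) (v : RR K n k), D (Lam c v) ∈ Fil K n (k + 1))
    {h : FA K n} (hh : h ∈ Fil K n k) : D h ∈ Fil K n (k + 1) := by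
  obtain ⟨v, hv⟩ := Fil_le_Lam hh
  have h1 := hD _ hv
  rw [map_sub, map_sum] at h1
  have h2 : ∑ c, D (Lam c (v c)) ∈ Fil K n (k + 1) := Submodule.sum_mem _ fun c _ => hL c (v c)
  have h3 := Submodule.add_mem _ h1 h2
  rwa [sub_add_cancel] at h3

/-- a linear operator which preserves the filtration respects congruences -/
theorem k1_th_sub [Infinite K] {k : ℕ} (m M : ℕ) (cc : ℕ → ℕ → K) (z : FA K n) {x y : FA K n}
    (h : x - y ∈ Fil K n k) :
    theta K m M cc z (xx K) x - theta K m M cc z (xx K) y ∈ Fil K n k := by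
  obtain ⟨f, hf⟩ := theta_lin K m M cc z (xx K)
  have h1 := theta_Fil m M cc z h
  rw [hf, map_sub, ← hf, ← hf] at h1
  exact h1

theorem th_left [Infinite K] {k : ℕ} (m M : ℕ) (cc : ℕ → ℕ → K) (z : FA K n) (a : FA K n)
    {h : FA K n} (hh : h ∈ Fil K n k) :
    theta K m M cc z (xx K) (a * h) - a * theta K m M cc z (xx K) h ∈ Fil K n (k + 1) := by
  obtain ⟨f, hf⟩ := theta_lin K m M cc z (xx K)
  have h1 := k1_ind (k := k) (f.comp (LinearMap.mulLeft K a) - (LinearMap.mulLeft K a).comp f)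
    (fun x hx => by
      have h2 := theta_Fil m M cc z (a1_left a hx)
      have h3 := a1_left a (theta_Fil m M cc z hx)
      rw [hf] at h2 h3
      exact Submodule.sub_mem _ h2 h3)
    (fun c v => by
      have h2 := k1_th_sub m M cc z (Lam_left c v a)
      have h3 := theta_layer m M cc z c (ab 0 a * v)
      have h4 := a1_left a (theta_layer m M cc z c v)
      have h5 := Lam_left c (thS k m M cc z * v) a
      rw [mul_sub] at h4
      rw [mul_left_comm] at h5
      have h6 := k1_trans (k1_trans h2 h3) (k1_symm (k1_trans h4 h5))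
      rw [hf, hf] at h6
      exact h6) hh
  have h2 : (f.comp (LinearMap.mulLeft K a) - (LinearMap.mulLeft K a).comp f) h =
      f (a * h) - a * f h := rfl
  rw [h2, ← hf, ← hf] at h1
  exact h1

theorem th_right [Infinite K] {k : ℕ} (m M : ℕ) (cc : ℕ → ℕ → K) (z : FA K n) (a : FA K n)
    {h : FA K n} (hh : h ∈ Fil K n k) :
    theta K m M cc z (xx K) (h * a) - theta K m M cc z (xx K) h * a ∈ Fil K n (k + 1) := by
  obtain ⟨f, hf⟩ := theta_lin K m M cc z (xx K)
  have h1 := k1_ind (k := k) (f.comp (LinearMap.mulRight K a) - (LinearMap.mulRight K a).comp f)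
    (fun x hx => by
      have h2 := theta_Fil m M cc z (a1_right a hx)
      have h3 := a1_right a (theta_Fil m M cc z hx)
      rw [hf] at h2 h3
      exact Submodule.sub_mem _ h2 h3)
    (fun c v => by
      have h2 := k1_th_sub m M cc z (Lam_right c v a)
      have h3 := theta_layer m M cc z c (ab (Fin.last k) a * v)
      have h4 := a1_right a (theta_layer m M cc z c v)
      have h5 := Lam_right c (thS k m M cc z * v) a
      rw [sub_mul] at h4
      rw [mul_left_comm] at h5
      have h6 := k1_trans (k1_trans h2 h3) (k1_symm (k1_trans h4 h5))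
      rw [hf, hf] at h6
      exact h6) hh
  have h2 : (f.comp (LinearMap.mulRight K a) - (LinearMap.mulRight K a).comp f) h =
      f (h * a) - f h * a := rfl
  rw [h2, ← hf, ← hf] at h1
  exact h1

theorem th_comm [Infinite K] {k : ℕ} (m M : ℕ) (cc : ℕ → ℕ → K) (z z' : FA K n)
    {h : FA K n} (hh : h ∈ Fil K n k) :
    theta K m M cc z (xx K) (theta K m M cc z' (xx K) h) -
      theta K m M cc z' (xx K) (theta K m M cc z (xx K) h) ∈ Fil K n (k + 1) := by
  obtain ⟨f, hf⟩ := theta_lin K m M cc z (xx K)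
  obtain ⟨f', hf'⟩ := theta_lin K m M cc z' (xx K)
  have h1 := k1_ind (k := k) (f.comp f' - f'.comp f)
    (fun x hx => by
      have h2 := theta_Fil m M cc z (theta_Fil m M cc z' hx)
      have h3 := theta_Fil m M cc z' (theta_Fil m M cc z hx)
      rw [hf, hf'] at h2
      rw [hf', hf] at h3
      exact Submodule.sub_mem _ h2 h3)
    (fun c v => by
      have h2 := k1_th_sub m M cc z (theta_layer m M cc z' c v)
      have h3 := theta_layer m M cc z c (thS k m M cc z' * v)
      have h4 := k1_th_sub m M cc z' (theta_layer m M cc z c v)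
      have h5 := theta_layer m M cc z' c (thS k m M cc z * v)
      rw [mul_left_comm] at h5
      have h6 := k1_trans (k1_trans h2 h3) (k1_symm (k1_trans h4 h5))
      rw [hf, hf', hf', hf] at h6
      exact h6) hh
  have h2 : (f.comp f' - f'.comp f) h = f (f' h) - f' (f h) := rfl
  rw [h2, ← hf, ← hf', ← hf', ← hf] at h1
  exact h1

theorem k1_iter_Fil [Infinite K] {k : ℕ} (m M : ℕ) (cc : ℕ → ℕ → K) (z : FA K n) (p : ℕ)
    {h : FA K n} (hh : h ∈ Fil K n k) : (theta K m M cc z (xx K))^[p] h ∈ Fil K n k := by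
  induction p with
  | zero => exact hh
  | succ p ih =>
    rw [Function.iterate_succ_apply']
    exact theta_Fil m M cc z ih

theorem k1_iter_sub [Infinite K] {k : ℕ} (m M : ℕ) (cc : ℕ → ℕ → K) (z : FA K n) (p : ℕ)
    {x y : FA K n} (h : x - y ∈ Fil K n k) :
    (theta K m M cc z (xx K))^[p] x - (theta K m M cc z (xx K))^[p] y ∈ Fil K n k := by
  induction p with
  | zero => exact h
  | succ p ih =>
    rw [Function.iterate_succ_apply', Function.iterate_succ_apply']
    exact k1_th_sub m M cc z ih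

theorem k1_iter_comm [Infinite K] {k : ℕ} (m M : ℕ) (cc : ℕ → ℕ → K) (z z' : FA K n) (p : ℕ)
    {h : FA K n} (hh : h ∈ Fil K n k) :
    (theta K m M cc z (xx K))^[p] (theta K m M cc z' (xx K) h) -
      theta K m M cc z' (xx K) ((theta K m M cc z (xx K))^[p] h) ∈ Fil K n (k + 1) := by
  induction p with
  | zero =>
    rw [Function.iterate_zero_apply, Function.iterate_zero_apply, sub_self]
    exact Submodule.zero_mem _
  | succ p ih =>
    rw [Function.iterate_succ_apply', Function.iterate_succ_apply']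
    exact k1_trans (k1_th_sub m M cc z ih) (th_comm m M cc z z' (k1_iter_Fil m M cc z p hh))

/-- the operators over a list of letters -/
noncomputable def k1_fold (m M : ℕ) (cc : ℕ → ℕ → K) (y : Fin n → ℕ) (l : List (Fin n))
    (h : FA K n) : FA K n :=
  l.foldr (fun j x => (theta K m M cc (xx K j) (xx K))^[y j] x) h

theorem k1_fold_nil (m M : ℕ) (cc : ℕ → ℕ → K) (y : Fin n → ℕ) (h : FA K n) :
    k1_fold m M cc y [] h = h := rfl

theorem k1_fold_cons (m M : ℕ) (cc : ℕ → ℕ → K) (y : Fin n → ℕ) (j : Fin n) (l : List (Fin n))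
    (h : FA K n) : k1_fold m M cc y (j :: l) h =
      (theta K m M cc (xx K j) (xx K))^[y j] (k1_fold m M cc y l h) := rfl

theorem k1_fold_Fil [Infinite K] {k : ℕ} (m M : ℕ) (cc : ℕ → ℕ → K) (y : Fin n → ℕ)
    (l : List (Fin n)) {h : FA K n} (hh : h ∈ Fil K n k) :
    k1_fold m M cc y l h ∈ Fil K n k := by
  induction l with
  | nil => exact hh
  | cons j l ih =>
    rw [k1_fold_cons]
    exact k1_iter_Fil m M cc _ _ ih

theorem ThY_Fil [Infinite K] {k : ℕ} (m M : ℕ) (cc : ℕ → ℕ → K) (y : Fin n → ℕ)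
    {h : FA K n} (hh : h ∈ Fil K n k) : ThY m M cc y h ∈ Fil K n k :=
  k1_fold_Fil m M cc y (List.finRange n) hh

theorem k1_fold_not_mem (m M : ℕ) (cc : ℕ → ℕ → K) (y : Fin n → ℕ) (j : Fin n)
    (l : List (Fin n)) (hj : j ∉ l) (h : FA K n) :
    k1_fold m M cc (y + Pi.single j 1) l h = k1_fold m M cc y l h := by
  induction l with
  | nil => rfl
  | cons i l ih =>
    rw [List.mem_cons, not_or] at hj
    rw [k1_fold_cons, k1_fold_cons, ih hj.2, Pi.add_apply, Pi.single_eq_of_ne (Ne.symm hj.1),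
      add_zero]

theorem k1_fold_mem [Infinite K] {k : ℕ} (m M : ℕ) (cc : ℕ → ℕ → K) (y : Fin n → ℕ) (j : Fin n)
    (l : List (Fin n)) (hl : l.Nodup) (hj : j ∈ l) {h : FA K n} (hh : h ∈ Fil K n k) :
    k1_fold m M cc (y + Pi.single j 1) l h -
      theta K m M cc (xx K j) (xx K) (k1_fold m M cc y l h) ∈ Fil K n (k + 1) := by
  induction l with
  | nil => simp at hj
  | cons i l ih =>
    rw [List.nodup_cons] at hl
    rw [k1_fold_cons, k1_fold_cons]
    by_cases hij : i = j
    · subst hij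
      rw [k1_fold_not_mem m M cc y i l hl.1 h, Pi.add_apply, Pi.single_eq_same,
        Function.iterate_succ_apply', sub_self]
      exact Submodule.zero_mem _
    · have hj' : j ∈ l := by
        rcases List.mem_cons.1 hj with h1 | h1
        · exact absurd h1.symm hij
        · exact h1
      rw [Pi.add_apply, Pi.single_eq_of_ne hij, add_zero]
      exact k1_trans (k1_iter_sub m M cc _ _ (ih hl.2 hj'))
        (k1_iter_comm m M cc _ _ _ (k1_fold_Fil m M cc y l hh))

theorem k1_ThY_succ [Infinite K] {k : ℕ} (m M : ℕ) (cc : ℕ → ℕ → K) (y : Fin n → ℕ) (j : Fin n)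
    {h : FA K n} (hh : h ∈ Fil K n k) :
    ThY m M cc (y + Pi.single j 1) h -
      theta K m M cc (xx K j) (xx K) (ThY m M cc y h) ∈ Fil K n (k + 1) :=
  k1_fold_mem m M cc y j (List.finRange n) (List.nodup_finRange n) (List.mem_finRange j) hh

theorem k1_chm_Fil [Infinite K] {k : ℕ} (m M : ℕ) (cc : ℕ → ℕ → K) {t : ℕ} {g : Fin t → FA K n}
    (hg : ∀ i, g i ∈ Fil K n k) (a : Mon t (n + n) n) : chm m M cc g a ∈ Fil K n k :=
  Fil_tsi k _ _ _ (ThY_Fil m M cc a.2.2 (hg a.1))

theorem k1_chi_single (m M : ℕ) (cc : ℕ → ℕ → K) {t : ℕ} (g : Fin t → FA K n)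
    (a : Mon t (n + n) n) (r : K) : chi m M cc g (Finsupp.single a r) = r • chm m M cc g a :=
  Finsupp.linearCombination_single K r a

theorem chi_Fil [Infinite K] {k : ℕ} (m M : ℕ) (cc : ℕ → ℕ → K) {t : ℕ} {g : Fin t → FA K n}
    (hg : ∀ i, g i ∈ Fil K n k) (f : Mon t (n + n) n →₀ K) : chi m M cc g f ∈ Fil K n k := by
  induction f using Finsupp.induction_linear with
  | zero =>
    rw [map_zero]
    exact Submodule.zero_mem _
  | add f f' h1 h2 =>
    rw [map_add]
    exact Submodule.add_mem _ h1 h2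
  | single a r =>
    rw [k1_chi_single]
    exact Submodule.smul_mem _ _ (k1_chm_Fil m M cc hg a)

/-- linearity in `f` -/
theorem k1_lin {k : ℕ} (m M : ℕ) (cc : ℕ → ℕ → K) {t : ℕ} (g : Fin t → FA K n)
    (s : Mon t (n + n) n → Mon t (n + n) n) (F : FA K n →ₗ[K] FA K n)
    (h : ∀ a, chm m M cc g (s a) - F (chm m M cc g a) ∈ Fil K n k)
    (f : Mon t (n + n) n →₀ K) :
    chi m M cc g (Finsupp.lmapDomain K K s f) - F (chi m M cc g f) ∈ Fil K n k := by
  induction f using Finsupp.induction_linear with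
  | zero =>
    rw [map_zero, map_zero, map_zero, sub_zero]
    exact Submodule.zero_mem _
  | add f f' h1 h2 =>
    rw [map_add, map_add, map_add, map_add, add_sub_add_comm]
    exact Submodule.add_mem _ h1 h2
  | single a r =>
    rw [Finsupp.lmapDomain_apply, Finsupp.mapDomain_single, k1_chi_single, k1_chi_single,
      map_smul, ← smul_sub]
    exact Submodule.smul_mem _ _ (h a)

theorem k1_srt_left (e : Fin n → ℕ) (j : Fin n) :
    srt (e + Pi.single j 1) - xx K j * srt e ∈ Fil K n 1 := by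
  have hcount : ∀ i, ((List.ofFn fun j => List.replicate (e j) j).flatten).count i = e i := by
    intro i
    rw [List.count_flatten, List.map_ofFn, List.sum_ofFn]
    rw [Finset.sum_eq_single i]
    · simp
    · intro b _ hb
      simp [List.count_replicate, hb]
    · simp
  have h1 := word_srt (K := K) (j :: (List.ofFn fun j => List.replicate (e j) j).flatten)
  rw [List.map_cons, List.prod_cons, ← a2_srt] at h1
  have h2 : (fun i => (j :: (List.ofFn fun j => List.replicate (e j) j).flatten).count i) =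
      e + Pi.single j 1 := by
    funext i
    rw [List.count_cons, hcount, Pi.add_apply]
    congr 1
    by_cases hij : i = j
    · subst hij
      simp
    · rw [Pi.single_eq_of_ne hij]
      simp [Ne.symm hij]
  rw [h2] at h1
  exact k1_symm h1

theorem k1_srt_right (e : Fin n → ℕ) (j : Fin n) :
    srt (e + Pi.single j 1) - srt e * xx K j ∈ Fil K n 1 :=
  k1_trans (k1_srt_left e j) (comm_mem _ _)

theorem k1_castAdd (x : Fin (n + n) → ℕ) (j : Fin n) :
    (fun i => (x + Pi.single (Fin.castAdd n j) 1 : Fin (n + n) → ℕ) (Fin.castAdd n i)) =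
      (fun i => x (Fin.castAdd n i)) + Pi.single j 1 := by
  funext i
  rw [Pi.add_apply, Pi.add_apply]
  congr 1
  by_cases h : i = j
  · subst h
    rw [Pi.single_eq_same, Pi.single_eq_same]
  · rw [Pi.single_eq_of_ne h, Pi.single_eq_of_ne]
    intro h1
    exact h (Fin.castAdd_injective n n h1)

theorem k1_castAdd' (x : Fin (n + n) → ℕ) (j : Fin n) :
    (fun i => (x + Pi.single (Fin.castAdd n j) 1 : Fin (n + n) → ℕ) (Fin.natAdd n i)) =
      (fun i => x (Fin.natAdd n i)) := by
  funext i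
  rw [Pi.add_apply, Pi.single_eq_of_ne, add_zero]
  intro h1
  have h2 := congrArg Fin.val h1
  rw [Fin.val_natAdd, Fin.val_castAdd] at h2
  omega

theorem k1_natAdd (x : Fin (n + n) → ℕ) (j : Fin n) :
    (fun i => (x + Pi.single (Fin.natAdd n j) 1 : Fin (n + n) → ℕ) (Fin.natAdd n i)) =
      (fun i => x (Fin.natAdd n i)) + Pi.single j 1 := by
  funext i
  rw [Pi.add_apply, Pi.add_apply]
  congr 1
  by_cases h : i = j
  · subst h
    rw [Pi.single_eq_same, Pi.single_eq_same]
  · rw [Pi.single_eq_of_ne h, Pi.single_eq_of_ne]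
    intro h1
    have h2 := congrArg Fin.val h1
    rw [Fin.val_natAdd, Fin.val_natAdd] at h2
    exact h (Fin.ext (by omega))

theorem k1_natAdd' (x : Fin (n + n) → ℕ) (j : Fin n) :
    (fun i => (x + Pi.single (Fin.natAdd n j) 1 : Fin (n + n) → ℕ) (Fin.castAdd n i)) =
      (fun i => x (Fin.castAdd n i)) := by
  funext i
  rw [Pi.add_apply, Pi.single_eq_of_ne, add_zero]
  intro h1
  have h2 := congrArg Fin.val h1
  rw [Fin.val_natAdd, Fin.val_castAdd] at h2
  omega

theorem chi_left [Infinite K] {k : ℕ} (m M : ℕ) (cc : ℕ → ℕ → K) {t : ℕ} {g : Fin t → FA K n}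
    (hg : ∀ i, g i ∈ Fil K n k) (f : Mon t (n + n) n →₀ K) (j : Fin n) :
    chi m M cc g (Finsupp.lmapDomain K K (shift (Pi.single (Fin.castAdd n j) 1, 0)) f) -
      xx K j * chi m M cc g f ∈ Fil K n (k + 1) := by
  refine k1_lin m M cc g _ (LinearMap.mulLeft K (xx K j)) (fun a => ?_) f
  rw [LinearMap.mulLeft_apply]
  obtain ⟨i, x, y⟩ := a
  have h1 : chm m M cc g (shift (Pi.single (Fin.castAdd n j) 1, 0) (i, x, y)) =
      srt ((fun j => x (Fin.castAdd n j)) + Pi.single j 1) * ThY m M cc y (g i) *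
        srt (fun j => x (Fin.natAdd n j)) := by
    unfold chm shift
    simp only [Prod.mk_add_mk, add_zero]
    rw [k1_castAdd, k1_castAdd']
  rw [h1]
  unfold chm
  simp only
  rw [← mul_assoc, ← mul_assoc, ← sub_mul, ← sub_mul]
  have h2 := Fil_mul (k1_srt_left (K := K) (fun j => x (Fin.castAdd n j)) j)
    (ThY_Fil m M cc y (hg i))
  rw [add_comm 1 k] at h2
  exact a1_right _ h2

theorem chi_right [Infinite K] {k : ℕ} (m M : ℕ) (cc : ℕ → ℕ → K) {t : ℕ} {g : Fin t → FA K n}
    (hg : ∀ i, g i ∈ Fil K n k) (f : Mon t (n + n) n →₀ K) (j : Fin n) :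
    chi m M cc g (Finsupp.lmapDomain K K (shift (Pi.single (Fin.natAdd n j) 1, 0)) f) -
      chi m M cc g f * xx K j ∈ Fil K n (k + 1) := by
  refine k1_lin m M cc g _ (LinearMap.mulRight K (xx K j)) (fun a => ?_) f
  rw [LinearMap.mulRight_apply]
  obtain ⟨i, x, y⟩ := a
  have h1 : chm m M cc g (shift (Pi.single (Fin.natAdd n j) 1, 0) (i, x, y)) =
      srt (fun j => x (Fin.castAdd n j)) * ThY m M cc y (g i) *
        srt ((fun j => x (Fin.natAdd n j)) + Pi.single j 1) := by
    unfold chm shift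
    simp only [Prod.mk_add_mk, add_zero]
    rw [k1_natAdd, k1_natAdd']
  rw [h1]
  unfold chm
  simp only
  rw [mul_assoc _ (srt fun j => x (Fin.natAdd n j)), ← mul_sub]
  have h2 := Fil_mul (a1_left (srt fun j => x (Fin.castAdd n j)) (ThY_Fil m M cc y (hg i)))
    (k1_srt_right (K := K) (fun j => x (Fin.natAdd n j)) j)
  exact h2

theorem chi_theta [Infinite K] {k : ℕ} (m M : ℕ) (cc : ℕ → ℕ → K) {t : ℕ} {g : Fin t → FA K n}
    (hg : ∀ i, g i ∈ Fil K n k) (f : Mon t (n + n) n →₀ K) (j : Fin n) :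
    chi m M cc g (Finsupp.lmapDomain K K (shift (0, Pi.single j 1)) f) -
      theta K m M cc (xx K j) (xx K) (chi m M cc g f) ∈ Fil K n (k + 1) := by
  obtain ⟨F, hF⟩ := theta_lin K m M cc (xx K j) (xx K (n := n))
  rw [hF]
  refine k1_lin m M cc g _ F (fun a => ?_) f
  rw [← hF]
  obtain ⟨i, x, y⟩ := a
  have h1 : chm m M cc g (shift (0, Pi.single j 1) (i, x, y)) =
      srt (fun j => x (Fin.castAdd n j)) * ThY m M cc (y + Pi.single j 1) (g i) *
        srt (fun j => x (Fin.natAdd n j)) := by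
    unfold chm shift
    simp only [Prod.mk_add_mk, add_zero]
  rw [h1]
  unfold chm
  simp only
  have hY := ThY_Fil m M cc y (hg i)
  have h2 := Fil_tsi (k + 1) (srt fun j => x (Fin.castAdd n j)) _
    (srt fun j => x (Fin.natAdd n j)) (k1_ThY_succ m M cc y j (hg i))
  rw [mul_sub, sub_mul] at h2
  have h3 := a1_right (srt fun j => x (Fin.natAdd n j))
    (th_left m M cc (xx K j) (srt fun j => x (Fin.castAdd n j)) hY)
  rw [sub_mul] at h3
  have h4 := th_right m M cc (xx K j) (srt fun j => x (Fin.natAdd n j))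
    (a1_left (srt fun j => x (Fin.castAdd n j)) hY)
  exact k1_trans h2 (k1_symm (k1_trans h4 h3))

theorem k1_fold_Lam [Infinite K] {k : ℕ} (m M : ℕ) (cc : ℕ → ℕ → K) (y : Fin n → ℕ)
    (l : List (Fin n)) (c : Fin k → Fin n × Fin n) (μ : RR K n k) :
    k1_fold m M cc y l (Lam c μ) -
      Lam c ((l.map fun j => thS k m M cc (xx K j) ^ y j).prod * μ) ∈ Fil K n (k + 1) := by
  have hit : ∀ (z : FA K n) (p : ℕ) (v : RR K n k),
      (theta K m M cc z (xx K))^[p] (Lam c v) - Lam c (thS k m M cc z ^ p * v) ∈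
        Fil K n (k + 1) := by
    intro z p v
    induction p with
    | zero =>
      rw [Function.iterate_zero_apply, pow_zero, one_mul, sub_self]
      exact Submodule.zero_mem _
    | succ p ih =>
      rw [Function.iterate_succ_apply', pow_succ', mul_assoc]
      exact k1_trans (k1_th_sub m M cc z ih) (theta_layer m M cc z c _)
  induction l with
  | nil =>
    rw [k1_fold_nil, List.map_nil, List.prod_nil, one_mul, sub_self]
    exact Submodule.zero_mem _
  | cons j l ih =>
    rw [k1_fold_cons, List.map_cons, List.prod_cons, mul_assoc]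
    exact k1_trans (k1_iter_sub m M cc _ _ ih) (hit _ _ _)

/-- the elements `g i = Lam c μ` -/
theorem chm_Lam [Infinite K] {k : ℕ} (m M : ℕ) (cc : ℕ → ℕ → K) {t : ℕ} {g : Fin t → FA K n}
    (a : Mon t (n + n) n) {c : Fin k → Fin n × Fin n} {μ : RR K n k} (hg : g a.1 = Lam c μ) :
    chm m M cc g a - Lam c (smon k m M cc a.2.1 a.2.2 * μ) ∈ Fil K n (k + 1) := by
  obtain ⟨i, x, y⟩ := a
  simp only at hg
  unfold chm smon
  simp only
  rw [hg]
  have h1 := k1_fold_Lam m M cc y (List.finRange n) c μ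
  rw [← Fin.prod_univ_def] at h1
  have h2 := Fil_tsi (k + 1) (srt fun j => x (Fin.castAdd n j)) _
    (srt fun j => x (Fin.natAdd n j)) h1
  rw [mul_sub, sub_mul] at h2
  have h3 := a1_right (srt fun j => x (Fin.natAdd n j))
    (Lam_left c ((∏ j, thS k m M cc (xx K j) ^ y j) * μ) (srt fun j => x (Fin.castAdd n j)))
  rw [sub_mul] at h3
  have h4 := Lam_right c (ab 0 (srt fun j => x (Fin.castAdd n j)) *
    ((∏ j, thS k m M cc (xx K j) ^ y j) * μ)) (srt fun j => x (Fin.natAdd n j))
  have h5 := k1_trans (k1_trans h2 h3) h4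
  rw [a2_ab_srt, a2_ab_srt] at h5
  have h6 : (∏ j, (MvPolynomial.X (Fin.last k, j) : RR K n k) ^ x (Fin.natAdd n j)) *
      ((∏ j, (MvPolynomial.X (0, j) : RR K n k) ^ x (Fin.castAdd n j)) *
        ((∏ j, thS k m M cc (xx K j) ^ y j) * μ)) =
      (∏ j, (MvPolynomial.X (0, j) : RR K n k) ^ x (Fin.castAdd n j)) *
        (∏ j, (MvPolynomial.X (Fin.last k, j) : RR K n k) ^ x (Fin.natAdd n j)) *
          (∏ j, thS k m M cc (xx K j) ^ y j) * μ := by
    ring
  rw [h6] at h5
  exact h5

theorem k1_er [Infinite K] {m M N : ℕ} {cc : ℕ → ℕ → K} {T : Submodule K (FA K n)}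
    (hT : Good m M N cc T) {k : ℕ} (c : Fin k → Fin n × Fin n) {w : RR K n k}
    (hw : w ∈ erI K n k M) : Lam c w ∈ T ⊔ Fil K n (k + 1) := by
  have key : ∀ r : RR K n k, Lam c (r * w) ∈ T ⊔ Fil K n (k + 1) := by
    unfold erI Ideal.span at hw
    induction hw using Submodule.span_induction with
    | mem x hx =>
      intro r
      obtain ⟨i, i', j, hii, rfl⟩ := hx
      rw [mul_comm]
      have hle : Submodule.span K {w | ∃ a x b : FA K n, w = Erel K M (xx K j) a x 1 b} ≤ T := by
        rw [Submodule.span_le]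
        rintro x ⟨a, y, b, rfl⟩
        exact hT.erel j a y b
      exact (sup_le_sup_right hle _ : _ ≤ T ⊔ Fil K n (k + 1))
        (erel_layer M (xx K j) 1 i i' hii c r)
    | zero =>
      intro r
      rw [mul_zero, map_zero]
      exact Submodule.zero_mem _
    | add x y _ _ hx hy =>
      intro r
      rw [mul_add, map_add]
      exact Submodule.add_mem _ (hx r) (hy r)
    | smul a x _ hx =>
      intro r
      rw [smul_eq_mul, ← mul_assoc]
      exact hx (r * a)
  have h := key 1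
  rwa [one_mul] at h

theorem layer_map [Infinite K] {m M N : ℕ} {cc : ℕ → ℕ → K} {T : Submodule K (FA K n)}
    (hT : Good m M N cc T) {k : ℕ} (hk : k < m) :
    ∃ (t : ℕ) (g : Fin t → FA K n), (∀ i, g i ∈ Fil K n k) ∧
      Fil K n k ≤ LinearMap.range (chi m M cc g) ⊔ (T ⊔ Fil K n (k + 1)) := by
  obtain ⟨t, μ, hμ⟩ := fin_gen (n := n) (K := K) hk.le hT.Mpos hT.extr
  obtain ⟨e⟩ : Nonempty (Fin (Fintype.card ((Fin k → Fin n × Fin n) × Fin t)) ≃
    (Fin k → Fin n × Fin n) × Fin t) := ⟨(Fintype.equivFin _).symm⟩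
  refine ⟨_, fun s => Lam (e s).1 (μ (e s).2), fun s => Lam_mem _ _, ?_⟩
  generalize hg : (fun s => Lam (e s).1 (μ (e s).2)) = g
  have hle : Fil K n (k + 1) ≤ LinearMap.range (chi m M cc g) ⊔ (T ⊔ Fil K n (k + 1)) :=
    le_sup_right.trans le_sup_right
  have h1 : ∀ (c : Fin k → Fin n × Fin n) (a : Mon t (n + n) n),
      Lam c (smon k m M cc a.2.1 a.2.2 * μ a.1) ∈
        LinearMap.range (chi m M cc g) ⊔ (T ⊔ Fil K n (k + 1)) := by
    intro c a
    have h2 := chm_Lam m M cc (g := g) (e.symm (c, a.1), a.2.1, a.2.2) (c := c) (μ := μ a.1)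
      (by rw [← hg]; simp)
    have h3 : chm m M cc g (e.symm (c, a.1), a.2.1, a.2.2) ∈ LinearMap.range (chi m M cc g) :=
      ⟨Finsupp.single (e.symm (c, a.1), a.2.1, a.2.2) 1, by rw [k1_chi_single, one_smul]⟩
    have h4 := Submodule.sub_mem _ (Submodule.mem_sup_left h3) (hle h2)
    rwa [sub_sub_cancel] at h4
  intro h hh
  obtain ⟨v, hv⟩ := Fil_le_Lam hh
  have h2 : ∀ c, Lam c (v c) ∈ LinearMap.range (chi m M cc g) ⊔ (T ⊔ Fil K n (k + 1)) := by
    intro c
    obtain ⟨f, hf⟩ := hμ (v c)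
    have h3 := k1_er hT c hf
    rw [map_sub] at h3
    have h4 : Lam c (f.sum fun a r => r • (smon k m M cc a.2.1 a.2.2 * μ a.1)) ∈
        LinearMap.range (chi m M cc g) ⊔ (T ⊔ Fil K n (k + 1)) := by
      rw [Finsupp.sum, map_sum]
      refine Submodule.sum_mem _ fun a _ => ?_
      rw [map_smul]
      exact Submodule.smul_mem _ _ (h1 c a)
    have h5 := Submodule.add_mem _ (Submodule.mem_sup_right h3) h4
    rwa [sub_add_cancel] at h5
  have h6 : ∑ c, Lam c (v c) ∈ LinearMap.range (chi m M cc g) ⊔ (T ⊔ Fil K n (k + 1)) :=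
    Submodule.sum_mem _ fun c _ => h2 c
  have h3 := Submodule.add_mem _ (hle hv) h6
  rwa [sub_add_cancel] at h3

end Pool.Agent.H.MP_f5ceca_al.G
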